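import Pool.Agent.Lib.MP_06b9d2_tl2.Ayi

/-!
Module TL2-Cub. Duplication formulas and independence. (Model: `MP_06b9d2_tls/Cub.lean`.)

`cubA`: `h.b1`. `cubG`: `h.b2`. `cubB`: `V 2 ((A - Y) ^ 2) = A ^ 2 - Y ^ 2`: with `A' = V 2 A`, `Y' = V 2 Y`: `A = A' + 3 Y'`, `Y ^ 2 = 8 Y' (A' + Y')`, so `A ^ 2 - Y ^ 2 = (A' + 3 Y') ^ 2 - 8 Y' (A' + Y') = (A' - Y') ^ 2`.
`moX_ind`: the least `j` with `y_j ≠ 0`: coefficient of `x ^ (2 j)`: `64 ^ j y_j` (`Y ^ 2 = 64 x ^ 2 (1 + ..)`, `A`, `A ^ 2 - Y ^ 2` have the constant coefficient `1`).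
`cubM`: `V 2 (moX (A + 3 Y) (A - Y) a N j) = moX A Y a N (N - j)` for `j ≤ N`: `(A + 3 Y) ^ 2 - (A - Y) ^ 2 = 8 Y (A + Y)` goes to `Y ^ 2`, `(A - Y) ^ 2` to `A ^ 2 - Y ^ 2`.
`cubF`: `V 2 ((A + 3 Y) ^ a * ((A - Y) ^ 2) ^ (N - s) * (8 * (Y * (A + Y))) ^ s) = moX A Y a N s`.
-/

namespace Pool.Agent.Lib.MP_06b9d2_tl2

open PowerSeries Pool.Agent.L1
open Pool.Agent.Lib.MP_06b9d2_tls (V U TT br In PC Ig tt EgG Two Tl)
open Pool.Agent.Lib.MP_06b9d2_tls (V_mul V_add V_sub V_pow V_ofNat)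

theorem cubA {A Y : ℂ⟦X⟧} (h : Core A Y) : V 2 (A + 3 * Y) = A := h.b1.symm

theorem cubG {A Y : ℂ⟦X⟧} (h : Core A Y) : V 2 (8 * (Y * (A + Y))) = Y ^ 2 := by
  rw [V_mul (by norm_num), h.b2]
  congr 1
  exact V_ofNat (by norm_num) 8

private theorem V2_three_mul (Y : ℂ⟦X⟧) : V 2 (3 * Y) = 3 * V 2 Y := by
  rw [V_mul (by norm_num)]
  congr 1
  exact V_ofNat (by norm_num) 3

theorem cubB {A Y : ℂ⟦X⟧} (h : Core A Y) : V 2 ((A - Y) ^ 2) = A ^ 2 - Y ^ 2 := by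
  have h2 : (2 : ℕ) ≠ 0 := by norm_num
  have h1 : A = V 2 A + 3 * V 2 Y := by
    conv_lhs => rw [h.b1]
    rw [V_add h2, V2_three_mul]
  have h3 : Y ^ 2 = 8 * (V 2 Y * (V 2 A + V 2 Y)) := by
    rw [h.b2]
    simp only [V_add h2, V_mul h2]
  rw [V_pow h2, V_sub h2, h3]
  have h4 : A ^ 2 = (V 2 A + 3 * V 2 Y) ^ 2 := congrArg (fun z => z ^ 2) h1
  rw [h4]
  ring

private theorem core_Y {A Y : ℂ⟦X⟧} (h : Core A Y) :
    constantCoeff A = 1 ∧ ∃ W : ℂ⟦X⟧, Y = X * W ∧ constantCoeff W = 8 := by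
  obtain ⟨α, κ, hA, hY, ha, hk, hk1⟩ := h.int
  constructor
  · rw [hA, map_add, map_mul, map_one]
    have : constantCoeff (PowerSeries.map (Int.castRingHom ℂ) α) = 0 := by
      rw [← coeff_zero_eq_constantCoeff_apply, coeff_map, coeff_zero_eq_constantCoeff_apply, ha]
      simp
    rw [this]
    simp
  · have h0 : constantCoeff Y = 0 := by
      rw [hY, map_mul]
      have : constantCoeff (PowerSeries.map (Int.castRingHom ℂ) κ) = 0 := by
        rw [← coeff_zero_eq_constantCoeff_apply, coeff_map, coeff_zero_eq_constantCoeff_apply, hk]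
        simp
      rw [this]
      simp
    obtain ⟨W, hW⟩ := X_dvd_iff.mpr h0
    refine ⟨W, hW, ?_⟩
    have h1 : coeff 1 Y = 8 := by
      rw [hY]
      have : (8 : ℂ⟦X⟧) = C (8 : ℂ) := by
        rw [map_ofNat]
      rw [this, coeff_C_mul, coeff_map, hk1]
      simp
    rw [hW] at h1
    have h2 : coeff (0 + 1) (X * W) = coeff 0 W := coeff_succ_X_mul 0 W
    rw [zero_add] at h2
    rw [h2, coeff_zero_eq_constantCoeff_apply] at h1
    exact h1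

theorem moX_ind {A Y : ℂ⟦X⟧} (h : Core A Y) (a N : ℕ) (y : ℕ → ℂ)
    (hy : ∑ j ∈ Finset.range (N + 1), y j • moX A Y a N j = 0) : ∀ j ≤ N, y j = 0 := by
  obtain ⟨hA, W, hW, hW0⟩ := core_Y h
  have hmo : ∀ j, moX A Y a N j = X ^ (2 * j) * (A ^ a * (A ^ 2 - Y ^ 2) ^ (N - j) * (W ^ 2) ^ j) := by
    intro j
    unfold moX
    have : (Y ^ 2) ^ j = X ^ (2 * j) * (W ^ 2) ^ j := by
      rw [hW, mul_pow, mul_pow, ← pow_mul]
    rw [this]
    ring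
  have hY0 : constantCoeff Y = 0 := by
    rw [hW, map_mul, constantCoeff_X, zero_mul]
  have hcc : ∀ j, constantCoeff (A ^ a * (A ^ 2 - Y ^ 2) ^ (N - j) * (W ^ 2) ^ j) = (64 : ℂ) ^ j := by
    intro j
    simp only [map_mul, map_pow, map_sub, hA, hY0, hW0]
    norm_num
  intro j
  induction j using Nat.strong_induction_on with
  | _ j ih =>
    intro hj
    have h1 := congrArg (coeff (2 * j)) hy
    rw [map_sum, map_zero] at h1
    rw [Finset.sum_eq_single j] at h1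
    · rw [coeff_smul, hmo, coeff_X_pow_mul' , if_pos le_rfl, Nat.sub_self,
        coeff_zero_eq_constantCoeff_apply, hcc, smul_eq_mul] at h1
      rcases mul_eq_zero.mp h1 with h2 | h2
      · exact h2
      · exact absurd h2 (pow_ne_zero _ (by norm_num))
    · intro i hi hij
      rw [coeff_smul]
      rcases lt_or_gt_of_ne hij with h2 | h2
      · rw [ih i h2 (by omega), zero_smul]
      · rw [hmo, coeff_X_pow_mul', if_neg (by omega), smul_zero]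
    · intro hni
      exact absurd (Finset.mem_range.mpr (by omega)) hni

theorem cubM {A Y : ℂ⟦X⟧} (h : Core A Y) (a N j : ℕ) (hj : j ≤ N) :
    V 2 (moX (A + 3 * Y) (A - Y) a N j) = moX A Y a N (N - j) := by
  have h2 : (2 : ℕ) ≠ 0 := by norm_num
  unfold moX
  rw [V_mul h2, V_mul h2, V_pow h2, V_pow h2, V_sub h2, V_pow h2 (A + 3 * Y), cubA h, cubB h,
    V_pow h2 _ j, cubB h, Nat.sub_sub_self hj]
  have : A ^ 2 - (A ^ 2 - Y ^ 2) = Y ^ 2 := by ring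
  rw [this]
  ring

theorem cubF {A Y : ℂ⟦X⟧} (h : Core A Y) (a N s : ℕ) :
    V 2 ((A + 3 * Y) ^ a * ((A - Y) ^ 2) ^ (N - s) * (8 * (Y * (A + Y))) ^ s) = moX A Y a N s := by
  have h2 : (2 : ℕ) ≠ 0 := by norm_num
  unfold moX
  rw [V_mul h2, V_mul h2, V_pow h2 (A + 3 * Y), V_pow h2 ((A - Y) ^ 2), V_pow h2 (8 * (Y * (A + Y))),
    cubA h, cubB h, cubG h]

end Pool.Agent.Lib.MP_06b9d2_tl2
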