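import Pool.Agent.Lib.MP_06b9d2_tl2.Pc

/-!
Module TL2-Low. Explicit values of `pc`. (Model: `MP_06b9d2_tls/Low.lean`.)

All from the definition of `pc` (finite sums, `Finset.sum_range_succ`, `Nat.choose`) and `mat_00`, `mat_low`, `mat_top`, `mat_NN`, `hM.out`, `hM.sym`, `pc_sym`.
`pc_m00`: only `j = 0`, `r = 0`: `pc m 0 0 = ∑_i C(m, i) (-1) ^ (m - i) (l + l ^ (2 (2 i + a))) = l * 0 ^ m + l ^ (2 a) (l ^ 4 - 1) ^ m` (two binomial sums).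
`pc_101`: `pc 1 0 1 = M 1 1 0 - M 0 1 0 = 0` (`mat_top`, `hM.out`), `pc 0 1 0 = M 1 0 1 = 0` (`mat_low`). `pc_202`: `pc 2 0 2 = M 2 2 0 - 2 M 1 2 0 + M 0 2 0 = 0`. `pc_110`: `pc 1 1 r = M 0 (r - 1) 0 [r ≥ 1] - M 1 (r - 1) 0 [r ≥ 1] - M 1 r 1 + M 2 r 1`.
`pc_201`: `pc 2 0 1 = M 2 1 0 - 2 M 1 1 0 + M 0 1 0 = M 2 1 0`. `pc_dif`: `pc 2 0 0 = M 2 0 0 - 2 M 1 0 0 + M 0 0 0`, `pc 1 1 1 = M 0 0 0 - M 1 0 0 - M 1 1 1 + M 2 1 1`, `M 1 1 1 = M 1 0 0` (`hM.sym`).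
`pc_mn0`: `n ≥ 1`: `r = 0`: the entries `M (i + j) (j - n) j` with `n ≤ j`, so `j = n`, `M (i + n) 0 n = 0` (`mat_low`).
-/

namespace Pool.Agent.Lib.MP_06b9d2_tl2

open PowerSeries Pool.Agent.L1
open Pool.Agent.Lib.MP_06b9d2_tls (V U TT br In PC Ig tt EgG Two Tl)

variable {A Y : ℂ⟦X⟧} {l a : ℕ} {M : ℕ → ℕ → ℕ → ℂ}

theorem pc_m00 (h : Core A Y) (hl : l.Prime) (hl2 : l ≠ 2) (hM : MatD l A Y a M) (m : ℕ) (hm : 0 < m) :
    pc M m 0 0 = (l : ℂ) ^ (2 * a) * ((l : ℂ) ^ 4 - 1) ^ m := by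
  have h1 : ∀ x : ℂ, (x - 1) ^ m =
      ∑ i ∈ Finset.range (m + 1), (m.choose i : ℂ) * (-1) ^ (m - i) * x ^ i := by
    intro x
    rw [sub_eq_add_neg, add_pow]
    exact Finset.sum_congr rfl fun i _ => by ring
  have h2 : pc M m 0 0 = (l : ℂ) * (1 - 1) ^ m + (l : ℂ) ^ (2 * a) * ((l : ℂ) ^ 4 - 1) ^ m := by
    unfold pc
    rw [h1, h1, Finset.mul_sum, Finset.mul_sum, ← Finset.sum_add_distrib]
    apply Finset.sum_congr rfl
    intro i _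
    rw [zero_add, Finset.sum_range_one, if_pos (Nat.zero_le _)]
    rw [Nat.choose_self, Nat.sub_zero, pow_zero, add_zero, mat_00 h hl hl2 hM i]
    push_cast
    ring
  rw [h2, sub_self, zero_pow hm.ne', mul_zero, zero_add]

theorem pc_mn0 (h : Core A Y) (hl : l.Prime) (hl2 : l ≠ 2) (hM : MatD l A Y a M) (m n : ℕ) (hn : 0 < n) :
    pc M m n 0 = 0 := by
  unfold pc
  refine Finset.sum_eq_zero fun i _ => Finset.sum_eq_zero fun j hj => ?_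
  rw [Finset.mem_range] at hj
  by_cases hnj : n ≤ 0 + j
  · have hj' : j = n := by omega
    subst hj'
    rw [if_pos hnj, zero_add, Nat.sub_self, mat_low h hl hl2 hM (i + j) j hn (by omega), mul_zero]
  · rw [if_neg hnj, mul_zero]

theorem pc_101 (h : Core A Y) (hl : l.Prime) (hl2 : l ≠ 2) (hM : MatD l A Y a M) :
    pc M 1 0 1 = 0 ∧ pc M 0 1 0 = 0 := by
  have h1 : M 0 1 0 = 0 := hM.out _ _ _ (by omega)
  have h2 : M 1 1 0 = 0 := mat_top h hl hl2 hM 1 0 (by omega)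
  have h3 : M 1 0 1 = 0 := mat_low h hl hl2 hM 1 1 (by omega) (by omega)
  constructor
  · simp [pc, Finset.sum_range_succ, h1, h2]
  · simp [pc, Finset.sum_range_succ, h3]

theorem pc_202 (h : Core A Y) (hl : l.Prime) (hl2 : l ≠ 2) (hM : MatD l A Y a M) :
    pc M 2 0 2 = 0 ∧ pc M 0 2 0 = 0 := by
  have h1 : M 0 2 0 = 0 := hM.out _ _ _ (by omega)
  have h2 : M 1 2 0 = 0 := hM.out _ _ _ (by omega)
  have h3 : M 2 2 0 = 0 := mat_top h hl hl2 hM 2 0 (by omega)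
  have h4 : M 2 0 2 = 0 := mat_low h hl hl2 hM 2 2 (by omega) (by omega)
  constructor
  · simp [pc, Finset.sum_range_succ, h1, h2, h3]
  · simp [pc, Finset.sum_range_succ, h4]

theorem pc_110 (h : Core A Y) (hl : l.Prime) (hl2 : l ≠ 2) (hM : MatD l A Y a M) :
    pc M 1 1 0 = 0 ∧ pc M 1 1 2 = 0 := by
  have h1 : M 1 0 1 = 0 := mat_low h hl hl2 hM 1 1 (by omega) (by omega)
  have h2 : M 2 0 1 = 0 := mat_low h hl hl2 hM 2 1 (by omega) (by omega)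
  have h3 : M 0 1 0 = 0 := hM.out _ _ _ (by omega)
  have h4 : M 1 1 0 = 0 := mat_top h hl hl2 hM 1 0 (by omega)
  have h5 : M 1 2 1 = 0 := hM.out _ _ _ (by omega)
  have h6 : M 2 2 1 = 0 := mat_top h hl hl2 hM 2 1 (by omega)
  constructor
  · simp [pc, Finset.sum_range_succ, h1, h2]
  · simp [pc, Finset.sum_range_succ, h3, h4, h5, h6]

theorem pc_201 (h : Core A Y) (hl : l.Prime) (hl2 : l ≠ 2) (hM : MatD l A Y a M) :
    pc M 2 0 1 = M 2 1 0 := by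
  have h1 : M 0 1 0 = 0 := hM.out _ _ _ (by omega)
  have h2 : M 1 1 0 = 0 := mat_top h hl hl2 hM 1 0 (by omega)
  simp [pc, Finset.sum_range_succ, h1, h2]

theorem pc_dif (h : Core A Y) (hl : l.Prime) (hl2 : l ≠ 2) (hM : MatD l A Y a M) :
    pc M 2 0 0 - pc M 1 1 1 = M 2 0 0 - M 2 1 1 := by
  have h1 : M 1 1 1 = M 1 0 0 := by
    rw [mat_NN h hl hl2 hM 1, mat_00 h hl hl2 hM 1]
  have h3 : pc M 2 0 0 = M 0 0 0 - 2 * M 1 0 0 + M 2 0 0 := by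
    simp [pc, Finset.sum_range_succ]
    ring
  have h4 : pc M 1 1 1 = M 0 0 0 - M 1 0 0 - M 1 1 1 + M 2 1 1 := by
    simp [pc, Finset.sum_range_succ]
    ring
  rw [h3, h4, h1]
  ring

end Pool.Agent.Lib.MP_06b9d2_tl2
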