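import Pool.Agent.Lib.MP_06b9d2_tl2.Pc

/-!
Module TL2-PcMat. The matrix in terms of `pc`. (Model: `MP_06b9d2_tls/PcMat.lean`, here without `e`, `c`.)

`β_i = B + ub`, `γ_i = G + vb`: `∑ i, x_i ^ a β_i ^ (N - s) γ_i ^ s = ∑_{m ≤ N - s, n ≤ s} C(N - s, m) C(s, n) B ^ (N - s - m) G ^ (s - n) ∑ i, x_i ^ a ub ^ m vb ^ n`, insert `pc_sum`, compare the coefficients of `V l A ^ a B ^ (N - j) G ^ j` (`moX_ind` with `V_inj`; `mo_br` for the left side):
`j = s - n + r`. Alternatively a purely algebraic proof by binomial inversion.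
-/

namespace Pool.Agent.Lib.MP_06b9d2_tl2

open PowerSeries Pool.Agent.L1
open Pool.Agent.Lib.MP_06b9d2_tls (V U TT br In PC Ig tt EgG Two Tl)
open Pool.Agent.Lib.MP_06b9d2_tls (V_mul V_add V_sub V_pow V_inj V_sum V_eq V_smul)

private lemma pm_expand (m n : ℕ) (x β γ B G : ℂ⟦X⟧) :
    x * (β + B) ^ m * (γ + G) ^ n =
      ∑ i ∈ Finset.range (m + 1), ∑ j ∈ Finset.range (n + 1),
        ((m.choose i : ℂ) * (n.choose j : ℂ)) •
          ((x * β ^ i * γ ^ j) * (B ^ (m - i) * G ^ (n - j))) := by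
  have h1 : ∀ (β B : ℂ⟦X⟧) (m : ℕ), (β + B) ^ m =
      ∑ i ∈ Finset.range (m + 1), C ((m.choose i : ℂ)) * (β ^ i * B ^ (m - i)) := by
    intro β B m
    rw [add_pow]
    refine Finset.sum_congr rfl fun i _ => ?_
    rw [map_natCast]
    ring
  rw [h1 β B m, h1 γ G n, mul_assoc, Finset.sum_mul_sum, Finset.mul_sum]
  refine Finset.sum_congr rfl fun i _ => ?_
  rw [Finset.mul_sum]
  refine Finset.sum_congr rfl fun j _ => ?_
  rw [PowerSeries.smul_eq_C_mul]
  simp only [map_mul]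
  ring

private lemma pm_shift (F G : ℂ⟦X⟧) (a m n i j r : ℕ) (hi : i ≤ m) (hj : j ≤ n) (hr : r ≤ i + j) :
    moX F G a (i + j) r * ((F ^ 2 - G ^ 2) ^ (m - i) * (G ^ 2) ^ (n - j)) =
      moX F G a (m + n) (n - j + r) := by
  unfold moX
  have h1 : m + n - (n - j + r) = (i + j - r) + (m - i) := by omega
  rw [h1, pow_add, pow_add (G ^ 2)]
  ring

private lemma pm_sum_shift (F G : ℂ⟦X⟧) (a m n i j : ℕ) (hi : i ≤ m) (hj : j ≤ n) (f : ℕ → ℂ)
    (hf : ∀ r, i + j < r → f r = 0) :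
    (∑ r ∈ Finset.range (i + j + 1), f r • moX F G a (i + j) r) *
        ((F ^ 2 - G ^ 2) ^ (m - i) * (G ^ 2) ^ (n - j)) =
      ∑ r ∈ Finset.range (m + n + 1), (if n ≤ r + j then f (r + j - n) else 0) •
        moX F G a (m + n) r := by
  have h1 : m + n + 1 = (n - j) + (m + j + 1) := by omega
  rw [h1, Finset.sum_range_add _ (n - j) (m + j + 1), Finset.sum_mul]
  have h2 : ∑ x ∈ Finset.range (n - j), (if n ≤ x + j then f (x + j - n) else 0) •
      moX F G a (m + n) x = 0 := by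
    refine Finset.sum_eq_zero fun x hx => ?_
    rw [Finset.mem_range] at hx
    rw [if_neg (by omega), zero_smul]
  rw [h2, zero_add]
  have h3 : Finset.range (i + j + 1) ⊆ Finset.range (m + j + 1) := by
    intro x hx
    rw [Finset.mem_range] at hx ⊢
    omega
  rw [← Finset.sum_subset h3]
  · refine Finset.sum_congr rfl fun r hr => ?_
    rw [Finset.mem_range] at hr
    rw [if_pos (by omega), smul_mul_assoc, pm_shift F G a m n i j r hi hj (by omega)]
    congr 2
    omega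
  · intro x hx hx'
    rw [Finset.mem_range] at hx hx'
    rw [if_pos (by omega)]
    have h4 : n - j + x + j - n = x := by omega
    rw [h4, hf x (by omega), zero_smul]

private lemma pm_sum3 (s t u : Finset ℕ) (f : ℕ → ℕ → ℕ → ℂ⟦X⟧) :
    ∑ p ∈ s, ∑ q ∈ t, ∑ r ∈ u, f p q r = ∑ r ∈ u, ∑ p ∈ s, ∑ q ∈ t, f p q r := by
  calc _ = ∑ p ∈ s, ∑ r ∈ u, ∑ q ∈ t, f p q r :=
        Finset.sum_congr rfl (fun p _ => Finset.sum_comm)
    _ = _ := Finset.sum_comm

private lemma pm_V_moX {l : ℕ} (hl : l ≠ 0) (A Y : ℂ⟦X⟧) (a N j : ℕ) :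
    V l (moX A Y a N j) = moX (V l A) (V l Y) a N j := by
  unfold moX
  rw [V_mul hl, V_mul hl, V_pow hl, V_pow hl, V_pow hl, V_sub hl, V_pow hl, V_pow hl]

theorem pc_mat {A Y : ℂ⟦X⟧} (h : Core A Y) {l a : ℕ} (hl : l.Prime) (hl2 : l ≠ 2)
    {M : ℕ → ℕ → ℕ → ℂ} (hM : MatD l A Y a M) (N j s : ℕ) (hj : j ≤ N) (hs : s ≤ N) :
    M N j s = MG2 (pc M) N j s := by
  have hl0 : l ≠ 0 := hl.ne_zero
  obtain ⟨F, hF⟩ : ∃ F, F = V l A := ⟨_, rfl⟩
  obtain ⟨G, hG⟩ : ∃ G, G = V l Y := ⟨_, rfl⟩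
  -- the first expression
  have h1 := mo_br h hl hl2 hM (N - s) s
  rw [Nat.sub_add_cancel hs, ← hF, ← hG] at h1
  -- the second expression
  have hexp : ∀ i : Option (Fin l), br l l i A ^ a * (br l l i A ^ 2 - br l l i Y ^ 2) ^ (N - s) *
      (br l l i Y ^ 2) ^ s =
      ∑ p ∈ Finset.range (N - s + 1), ∑ q ∈ Finset.range (s + 1),
        (((N - s).choose p : ℂ) * (s.choose q : ℂ)) •
          ((br l l i A ^ a * ub l A Y i ^ p * vb l Y i ^ q) *
            ((F ^ 2 - G ^ 2) ^ (N - s - p) * (G ^ 2) ^ (s - q))) := by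
    intro i
    rw [← pm_expand]
    have hu : ub l A Y i + (F ^ 2 - G ^ 2) = br l l i A ^ 2 - br l l i Y ^ 2 := by
      unfold ub
      rw [← hF, ← hG]
      ring
    have hv : vb l Y i + G ^ 2 = br l l i Y ^ 2 := by
      unfold vb
      rw [← hG]
      ring
    rw [hu, hv]
  have h2 : ∑ i : Option (Fin l), br l l i A ^ a * (br l l i A ^ 2 - br l l i Y ^ 2) ^ (N - s) *
      (br l l i Y ^ 2) ^ s =
      ∑ r ∈ Finset.range (N + 1), (∑ p ∈ Finset.range (N - s + 1), ∑ q ∈ Finset.range (s + 1),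
        ((N - s).choose p : ℂ) * (s.choose q : ℂ) *
          (if s ≤ r + q then pc M p q (r + q - s) else 0)) • moX F G a N r := by
    rw [Finset.sum_congr rfl fun i _ => hexp i, Finset.sum_comm]
    have hstep : ∀ p ∈ Finset.range (N - s + 1),
        ∑ i : Option (Fin l), ∑ q ∈ Finset.range (s + 1),
        (((N - s).choose p : ℂ) * (s.choose q : ℂ)) •
          ((br l l i A ^ a * ub l A Y i ^ p * vb l Y i ^ q) *
            ((F ^ 2 - G ^ 2) ^ (N - s - p) * (G ^ 2) ^ (s - q))) =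
        ∑ q ∈ Finset.range (s + 1), ∑ r ∈ Finset.range (N + 1),
        (((N - s).choose p : ℂ) * (s.choose q : ℂ) *
          (if s ≤ r + q then pc M p q (r + q - s) else 0)) • moX F G a N r := by
      intro p hp
      rw [Finset.mem_range] at hp
      rw [Finset.sum_comm]
      refine Finset.sum_congr rfl fun q hq => ?_
      rw [Finset.mem_range] at hq
      have h3 := pc_sum h hl hl2 hM p q
      have h4 := pm_sum_shift F G a (N - s) s p q (by omega) (by omega)
        (fun r => pc M p q r) (fun r hr => pc_deg hM p q r hr)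
      rw [Nat.sub_add_cancel hs] at h4
      rw [← Finset.smul_sum, ← Finset.sum_mul, h3, ← hF, ← hG, h4, Finset.smul_sum]
      refine Finset.sum_congr rfl fun r _ => ?_
      rw [smul_smul]
    rw [Finset.sum_congr rfl hstep, pm_sum3]
    refine Finset.sum_congr rfl fun r _ => ?_
    rw [Finset.sum_smul]
    refine Finset.sum_congr rfl fun p _ => ?_
    rw [Finset.sum_smul]
  rw [h1] at h2
  have h5 : ∑ r ∈ Finset.range (N + 1), (M N r s - ∑ p ∈ Finset.range (N - s + 1),
      ∑ q ∈ Finset.range (s + 1),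
        ((N - s).choose p : ℂ) * (s.choose q : ℂ) *
          (if s ≤ r + q then pc M p q (r + q - s) else 0)) • moX A Y a N r = 0 := by
    apply V_inj hl0
    rw [V_sum hl0]
    have h0 : V l (0 : ℂ⟦X⟧) = 0 := by
      rw [V_eq l hl0, map_zero]
    rw [h0, ← sub_eq_zero.2 h2, ← Finset.sum_sub_distrib]
    refine Finset.sum_congr rfl fun r _ => ?_
    rw [V_smul hl0, pm_V_moX hl0, sub_smul, hF, hG]
  have h6 := moX_ind h a N _ h5 j hj
  rw [sub_eq_zero] at h6
  rw [h6]
  unfold MG2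
  -- cut the sums
  have hsub1 : Finset.range (N - s + 1) ⊆ Finset.range (N + 1) := by
    intro x hx
    rw [Finset.mem_range] at hx ⊢
    omega
  have hsub2 : Finset.range (s + 1) ⊆ Finset.range (N + 1) := by
    intro x hx
    rw [Finset.mem_range] at hx ⊢
    omega
  rw [← Finset.sum_subset hsub1]
  · refine Finset.sum_congr rfl fun p hp => ?_
    rw [← Finset.sum_subset hsub2]
    · refine Finset.sum_congr rfl fun q hq => ?_
      split_ifs with hsq
      · rfl
      · ring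
    · intro q _ hq
      rw [Finset.mem_range] at hq
      rw [Nat.choose_eq_zero_of_lt (by omega : s < q)]
      simp
  · intro p _ hp
    rw [Finset.mem_range] at hp
    rw [Nat.choose_eq_zero_of_lt (by omega : N - s < p)]
    simp

end Pool.Agent.Lib.MP_06b9d2_tl2
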