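import Pool.Agent.Lib.MP_06b9d2_tl2.Mat1
import Pool.Agent.Lib.MP_06b9d2_tl2.Cub

/-!
Module TL2-Mat2. Existence of the matrix and its symmetry. (Model: `MP_06b9d2_tls/Mat2.lean`.)

`M N j s = g j` from `mat1` (choice; `0` if `s > N` or `j > N`). Symmetry: apply `V 2` to the second statement of `mat1`: the left side is
`∑ i, moX (V 2 (br i (A + 3 Y))) (V 2 (br i (A - Y))) a N s = ∑ i, moX (br i (V 2 (A + 3 Y))) (br i (V 2 (A - Y))) a N s` (the analogue of `br_V3` of `MP_06b9d2_tls/Br.lean` for `2` instead of `3`: `br l l (some b) (V 2 f) = V 2 (br l l (some b') f)` with `b' = 2 b` modulo `l`,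
`br l l none (V 2 f) = V 2 (br l l none f)`; `b ↦ 2 b` is a bijection of `Fin l`; prove it here as a private lemma, copying the proof of `br_V3`), `br i (V 2 (A + 3 Y)) = br i A`; and `(br i (V 2 (A - Y))) ^ 2 = br i A ^ 2 - br i Y ^ 2` (from `cubB`; for `some b` a ring homomorphism,
for `none` the factor `(l * l) ^ 2` on both sides), so each summand is `moX (br i A) (br i Y) a N (N - s)`, and the sum is `V l (TT l l w (moX A Y a N (N - s))) = ∑ j, M N j (N - s) • V l (moX A Y a N j)` (`br_sum`). The right side: `V 2 (V l ..) = V l (V 2 ..)`, `cubM`: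
`∑ j, M N j s • V l (moX A Y a N (N - j))`. Compare coefficients (`V_inj`, `moX_ind`).
-/

namespace Pool.Agent.Lib.MP_06b9d2_tl2

open PowerSeries Pool.Agent.L1
open Pool.Agent.Lib.MP_06b9d2_tls (V U TT br In PC Ig tt EgG Two Tl)

open Pool.Agent.Lib.MP_06b9d2_tls (V_eq V_coeff V_mul V_add V_sub V_pow V_ofNat V_smul V_V V_sum V_inj br_sum br_add)

private theorem exp_eq (l b : ℕ) :
    Complex.exp (2 * Real.pi * Complex.I * (b : ℕ) / l) = Complex.exp (2 * Real.pi * Complex.I / l) ^ b := by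
  rw [← Complex.exp_nat_mul]
  congr 1
  ring

private theorem br_V2 (l : ℕ) (hl : l.Prime) (h2 : l ≠ 2) (e : ℂ) (f g : ℂ⟦X⟧) (Φ : ℂ⟦X⟧ → ℂ⟦X⟧ → ℂ⟦X⟧) :
    ∑ i : Option (Fin l), Φ (br l e i (V 2 f)) (br l e i (V 2 g)) =
      ∑ i : Option (Fin l), Φ (V 2 (br l e i f)) (V 2 (br l e i g)) := by
  have hl0 : l ≠ 0 := hl.ne_zero
  have hn : ∀ f : ℂ⟦X⟧, br l e none (V 2 f) = V 2 (br l e none f) := by
    intro f
    simp only [br]
    rw [V_smul (by norm_num), V_V (pow_ne_zero 2 hl0) (by norm_num), V_V (by norm_num) (pow_ne_zero 2 hl0),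
      mul_comm (l ^ 2) 2]
  let σ : Fin l → Fin l := fun b => ⟨(2 * (b : ℕ)) % l, Nat.mod_lt _ hl.pos⟩
  have hσ : Function.Bijective σ := by
    rw [← Finite.injective_iff_bijective]
    intro b c hbc
    have h1 : (2 * (b : ℕ)) % l = (2 * (c : ℕ)) % l := by
      have := congrArg Fin.val hbc
      simpa [σ] using this
    have h3 : (2 * (b : ℕ)) ≡ (2 * (c : ℕ)) [MOD l] := h1
    have hcop : Nat.gcd l 2 = 1 := by
      rw [← Nat.coprime_iff_gcd_eq_one]
      exact (Nat.coprime_primes hl Nat.prime_two).2 h2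
    have h4 : (b : ℕ) ≡ (c : ℕ) [MOD l] := Nat.ModEq.cancel_left_of_coprime hcop h3
    have h5 : (b : ℕ) = (c : ℕ) := by
      have := h4
      unfold Nat.ModEq at this
      rwa [Nat.mod_eq_of_lt b.2, Nat.mod_eq_of_lt c.2] at this
    exact Fin.ext h5
  have hs : ∀ (b : Fin l) (f : ℂ⟦X⟧), br l e (some b) (V 2 f) = V 2 (br l e (some (σ b)) f) := by
    intro b f
    have hζ := Complex.isPrimitiveRoot_exp l hl0
    ext n
    simp only [br, V_coeff, PowerSeries.coeff_rescale]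
    split_ifs with h
    · congr 1
      obtain ⟨m, rfl⟩ := h
      rw [Nat.mul_div_cancel_left m (by norm_num), exp_eq, exp_eq, pow_mul]
      congr 1
      rw [← pow_mul]
      have : ((σ b : Fin l) : ℕ) = (2 * (b : ℕ)) % l := rfl
      rw [this, mul_comm (b : ℕ) 2]
      exact pow_eq_pow_mod _ hζ.pow_eq_one
    · simp
  rw [Fintype.sum_option, Fintype.sum_option, hn f, hn g]
  congr 1
  refine (Finset.sum_congr rfl (fun b _ => by rw [hs, hs])).trans
    (hσ.sum_comp (fun b => Φ (V 2 (br l e (some b) f)) (V 2 (br l e (some b) g))))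

private theorem mat2_br {l : ℕ} (hl0 : l ≠ 0) (e : ℂ) (A Y : ℂ⟦X⟧) (a N s : ℕ) (hs : s ≤ N) :
    ∑ i : Option (Fin l), moX (br l e i A) (br l e i Y) a N s =
      V l (TT l e (2 * N + a) (moX A Y a N s)) := by
  set P : MvPolynomial (Fin 2) ℂ :=
    MvPolynomial.X 0 ^ a * (MvPolynomial.X 0 ^ 2 - MvPolynomial.X 1 ^ 2) ^ (N - s) *
      (MvPolynomial.X 1 ^ 2) ^ s with hP
  have hX : ∀ i : Fin 2, (MvPolynomial.X i : MvPolynomial (Fin 2) ℂ).IsHomogeneous 1 := fun i =>
    MvPolynomial.isHomogeneous_X ℂ i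
  have h3 : ∀ i : Fin 2, ((MvPolynomial.X i : MvPolynomial (Fin 2) ℂ) ^ 2).IsHomogeneous 2 :=
    fun i => by simpa using (hX i).pow 2
  have hhom : P.IsHomogeneous (2 * N + a) := by
    have h1 : P.IsHomogeneous (1 * a + 2 * (N - s) + 2 * s) :=
      (((hX 0).pow a).mul (((h3 0).sub (h3 1)).pow (N - s))).mul ((h3 1).pow s)
    have h2 : 1 * a + 2 * (N - s) + 2 * s = 2 * N + a := by omega
    rwa [h2] at h1
  have hev : ∀ F G : ℂ⟦X⟧, MvPolynomial.aeval ![F, G] P = moX F G a N s := by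
    intro F G
    rw [hP]
    unfold moX
    simp [map_mul, map_pow, map_sub, MvPolynomial.aeval_X]
  have h1 := br_sum l hl0 e (2 * N + a) A Y P hhom
  simp only [hev] at h1
  exact h1

private theorem mat2_cub {A Y : ℂ⟦X⟧} (h : Core A Y) {l : ℕ} (hl0 : l ≠ 0) (e : ℂ)
    (i : Option (Fin l)) :
    br l e i (V 2 A) + 3 * br l e i (V 2 Y) = br l e i A ∧
      (br l e i (V 2 A) - br l e i (V 2 Y)) ^ 2 = br l e i A ^ 2 - br l e i Y ^ 2 := by
  have h3 : (2 : ℕ) ≠ 0 := by norm_num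
  have hl2 : l ^ 2 ≠ 0 := pow_ne_zero 2 hl0
  have e1 : V 2 A + 3 * V 2 Y = A := by
    have h1 := cubA h
    rw [V_add h3, V_mul h3, V_ofNat h3 3] at h1
    exact h1
  have e2 : (V 2 A - V 2 Y) ^ 2 = A ^ 2 - Y ^ 2 := by
    have h1 := cubB h
    rw [V_pow h3, V_sub h3] at h1
    exact h1
  have hthree : ∀ f : ℂ⟦X⟧, 3 * br l e i f = br l e i (3 * f) := by
    intro f
    have h5 : ∀ g : ℂ⟦X⟧, 3 * g = g + g + g := fun g => by ring
    rw [h5, h5, br_add, br_add]
  constructor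
  · rw [hthree, ← br_add, e1]
  · cases i with
    | none =>
      simp only [br]
      rw [← smul_sub, ← V_sub hl2, smul_pow, ← V_pow hl2, e2, V_sub hl2, V_pow hl2, V_pow hl2,
        smul_sub, ← smul_pow, ← smul_pow]
    | some b =>
      simp only [br]
      rw [← map_sub, ← map_pow, e2, map_sub, map_pow, map_pow]

theorem matD_ex {A Y : ℂ⟦X⟧} (h : Core A Y) {l : ℕ} (hl : l.Prime) (hl2 : l ≠ 2) (a : ℕ) (ha : a ≤ 1) :
    ∃ M : ℕ → ℕ → ℕ → ℂ, MatD l A Y a M := by
  have h3 : (2 : ℕ) ≠ 0 := by norm_num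
  have hl0 : l ≠ 0 := hl.ne_zero
  have hex : ∀ N s : ℕ, ∃ g : ℕ → ℂ, s ≤ N →
      TT l l (2 * N + a) (moX A Y a N s) = ∑ j ∈ Finset.range (N + 1), g j • moX A Y a N j ∧
      ∑ i : Option (Fin l), moX (br l l i A + 3 * br l l i Y) (br l l i A - br l l i Y) a N s =
        ∑ j ∈ Finset.range (N + 1), g j • moX (V l A + 3 * V l Y) (V l A - V l Y) a N j := by
    intro N s
    by_cases hs : s ≤ N
    · obtain ⟨g, hg⟩ := mat1 h hl hl2 a N s ha hs
      exact ⟨g, fun _ => hg⟩
    · exact ⟨0, fun h' => absurd h' hs⟩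
  choose g hg using hex
  refine ⟨fun N j s => if s ≤ N ∧ j ≤ N then g N s j else 0, ?_, ?_, ?_⟩
  · intro N s hs
    rw [(hg N s hs).1]
    refine Finset.sum_congr rfl fun j hj => ?_
    rw [Finset.mem_range] at hj
    rw [if_pos ⟨hs, by omega⟩]
  · intro N j s hj hs
    rw [if_pos ⟨by omega, by omega⟩, if_pos ⟨hs, hj⟩]
    obtain ⟨-, h2⟩ := hg N s hs
    have hL : V 2 (∑ i : Option (Fin l), moX (br l l i A + 3 * br l l i Y)
        (br l l i A - br l l i Y) a N s) = V l (TT l l (2 * N + a) (moX A Y a N (N - s))) := by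
      rw [V_sum h3, ← mat2_br hl0 l A Y a N (N - s) (by omega)]
      have h4 := br_V2 l hl hl2 l A Y (fun F G => moX (F + 3 * G) (F - G) a N s)
      have h5 : ∀ i : Option (Fin l), V 2 (moX (br l l i A + 3 * br l l i Y)
          (br l l i A - br l l i Y) a N s) =
          moX (V 2 (br l l i A) + 3 * V 2 (br l l i Y)) (V 2 (br l l i A) - V 2 (br l l i Y))
            a N s := by
        intro i
        unfold moX
        rw [V_mul h3, V_mul h3, V_pow h3, V_pow h3, V_pow h3, V_sub h3, V_pow h3, V_pow h3,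
          V_sub h3, V_add h3, V_mul h3, V_ofNat h3 3]
      rw [Finset.sum_congr rfl fun i _ => h5 i, ← h4]
      refine Finset.sum_congr rfl fun i _ => ?_
      obtain ⟨c1, c2⟩ := mat2_cub h hl0 l i
      unfold moX
      rw [c1, c2, Nat.sub_sub_self hs]
      have : br l l i A ^ 2 - (br l l i A ^ 2 - br l l i Y ^ 2) = br l l i Y ^ 2 := by ring
      rw [this]
      ring
    have hR : V 2 (∑ j ∈ Finset.range (N + 1),
          g N s j • moX (V l A + 3 * V l Y) (V l A - V l Y) a N j) =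
        V l (∑ j ∈ Finset.range (N + 1), g N s (N - j) • moX A Y a N j) := by
      rw [V_sum h3, V_sum hl0, ← Finset.sum_flip]
      refine Finset.sum_congr rfl fun j hj => ?_
      rw [Finset.mem_range] at hj
      rw [V_smul h3, V_smul hl0]
      congr 1
      have h6 : moX (V l A + 3 * V l Y) (V l A - V l Y) a N (N - j) =
          V l (moX (A + 3 * Y) (A - Y) a N (N - j)) := by
        unfold moX
        rw [V_mul hl0, V_mul hl0, V_pow hl0, V_pow hl0, V_pow hl0, V_sub hl0, V_pow hl0,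
          V_pow hl0, V_sub hl0, V_add hl0, V_mul hl0, V_ofNat hl0 3]
      rw [h6, V_V h3 hl0, mul_comm 2 l, ← V_V hl0 h3, cubM h a N (N - j) (by omega),
        Nat.sub_sub_self (by omega)]
    have h7 := congrArg (V 2) h2
    rw [hL, hR] at h7
    have h8 := V_inj hl0 h7
    rw [(hg N (N - s) (by omega)).1] at h8
    have h9 : ∑ j ∈ Finset.range (N + 1),
        (g N (N - s) j - g N s (N - j)) • moX A Y a N j = 0 := by
      simp only [sub_smul, Finset.sum_sub_distrib]
      rw [h8, sub_self]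
    have h10 := moX_ind h a N _ h9 (N - j) (by omega)
    rw [Nat.sub_sub_self hj, sub_eq_zero] at h10
    exact h10
  · intro N j s hj
    rw [if_neg]
    rintro ⟨-, h1⟩
    omega

end Pool.Agent.Lib.MP_06b9d2_tl2
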