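import Pool.Agent.Lib.MP_06b9d2_tl2.Three
import Pool.Agent.Lib.MP_06b9d2_tl2.New
import Pool.Agent.Lib.MP_06b9d2_tls.Igc
import Pool.Agent.Lib.MP_06b9d2_tls.Dehom

/-!
Module TL2-Root. A family with power sums in `HH` consists of integral elements. (Model: `MP_06b9d2_tls/Root.lean`, the proof is the same with three components and `three` instead of `four`.)

`E_m = esymm_m(z)` is `ev .. P_m` with `P_m` homogeneous of degree `m` (`esymm_mem`). Component `j` of `E_m` is in `(pr ^ (a j)) ^ m`. `three` with `m * a j` and `m * g`: `4 (m g) + 8 m ≤ 2 (m a 0) + ..`: all coefficients of `P_m` have valuation `≤ v (pr ^ (m g))`. Let `D = |K|`,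
`Z = z k 0 * A⁻¹ * C ((pr ^ g)⁻¹)`. `∏_{k'} (z k 0 - z k' 0) = 0`, i.e. `∑_m (-1) ^ m esymm_m (z . 0) (z k 0) ^ (D - m) = 0`; multiply by `(A⁻¹ C (pr ^ g)⁻¹) ^ D`; `E_m 0 * A⁻¹ ^ m = P_m(1, t)` (`dehom` of `MP_06b9d2_tls.Dehom`), `Ig_root`.
-/

namespace Pool.Agent.Lib.MP_06b9d2_tl2

open PowerSeries Pool.Agent.L1
open Pool.Agent.Lib.MP_06b9d2_tls (V U TT br In PC Ig tt EgG Two Tl)

private theorem In_prod' {O : ValuationSubring ℂ} {K : Type} (t : Finset K) {F : K → ℂ⟦X⟧} {r : ℂ}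
    (hF : ∀ k ∈ t, In O (F k) r) : In O (∏ k ∈ t, F k) (r ^ t.card) := by
  classical
  induction t using Finset.induction_on with
  | empty =>
    intro n
    simp only [Finset.prod_empty, Finset.card_empty, pow_zero, map_one, coeff_one]
    split_ifs
    · simp
    · simp
  | insert b t hb ih =>
    rw [Finset.prod_insert hb, Finset.card_insert_of_notMem hb, pow_succ']
    exact MP_06b9d2_tls.In_mul (hF b (Finset.mem_insert_self b t))
      (ih fun k hk => hF k (Finset.mem_insert_of_mem hk))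

theorem root {O : ValuationSubring ℂ} (h2 : O.valuation 2 < 1) {A Y : ℂ⟦X⟧} (hB : Bs O A Y)
    {K : Type} [Fintype K] (z : K → Fin 3 → ℂ⟦X⟧) (hz : ∀ m, ∑ k, z k ^ m ∈ HH A Y m)
    (a : Fin 3 → ℕ) (ha : ∀ k j, In O (z k j) (pr ^ a j)) (g : ℕ)
    (hg : 4 * g + 8 ≤ 2 * a 0 + a 1 + a 2) (k : K) :
    Ig O (tt A Y) (z k 0 * A⁻¹ * C ((pr ^ g)⁻¹)) := by
  classical
  -- the elementary symmetric functions
  have hE : ∀ m, ∃ P : MvPolynomial (Fin 2) ℂ, P.IsHomogeneous m ∧
      ev (cA A Y) (cY A Y) P = (Finset.univ.val.map z).esymm m := by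
    intro m
    have h := esymm_mem A Y z hz m
    unfold HH at h
    rw [Submodule.mem_map] at h
    obtain ⟨P, hP, hPe⟩ := h
    exact ⟨P, (MvPolynomial.mem_homogeneousSubmodule m P).1 hP, hPe⟩
  choose P hP hPe using hE
  have hcomp : ∀ m (j : Fin 3), ((Finset.univ.val.map z).esymm m) j =
      ∑ t ∈ Finset.univ.powersetCard m, ∏ k ∈ t, z k j := by
    intro m j
    rw [Finset.esymm_map_val, Finset.sum_apply]
    refine Finset.sum_congr rfl fun t _ => ?_
    rw [Finset.prod_apply]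
  have hIn : ∀ m j, In O (ev (cA A Y) (cY A Y) (P m) j) (pr ^ (m * a j)) := by
    intro m j
    rw [hPe m, hcomp m j]
    refine MP_06b9d2_tls.In_sum _ fun t ht => ?_
    have h1 := In_prod' (O := O) t (F := fun k => z k j) (r := pr ^ a j) (fun k _ => ha k j)
    rw [(Finset.mem_powersetCard.1 ht).2, ← pow_mul, mul_comm (a j) m] at h1
    exact h1
  have hval : ∀ m d, O.valuation (MvPolynomial.coeff d (P m)) ≤ O.valuation (pr ^ (m * g)) := by
    intro m d
    refine three h2 hB m (P m) (hP m) (fun j => m * a j) (m * g) (hIn m) ?_ d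
    have h1 := Nat.mul_le_mul_left m hg
    calc 4 * (m * g) + 8 * m = m * (4 * g + 8) := by ring
      _ ≤ m * (2 * a 0 + a 1 + a 2) := h1
      _ = 2 * (m * a 0) + m * a 1 + m * a 2 := by ring
  have hp : ∀ m, ∃ p : Polynomial ℂ,
      (∀ r, r ≤ m → p.coeff r = MvPolynomial.coeff (Finsupp.single 0 (m - r) + Finsupp.single 1 r) (P m)) ∧
      (∀ r, m < r → p.coeff r = 0) ∧
      MvPolynomial.aeval ![A, Y] (P m) * A⁻¹ ^ m = Polynomial.aeval (tt A Y) p := fun m =>
    MP_06b9d2_tls.dehom Y hB.a0 m (P m) (hP m)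
  choose p hp1 hp2 hp3 using hp
  have hev0 : ∀ Q : MvPolynomial (Fin 2) ℂ, ev (cA A Y) (cY A Y) Q 0 =
      MvPolynomial.aeval ![A, Y] Q := by
    intro Q
    have h1 : (Pi.evalAlgHom ℂ (fun _ : Fin 3 => ℂ⟦X⟧) 0).comp (ev (cA A Y) (cY A Y)) =
        MvPolynomial.aeval ![A, Y] := by
      apply MvPolynomial.algHom_ext
      intro i
      fin_cases i
      · simp [ev, cA]
      · simp [ev, cY]
    have h2 := AlgHom.congr_fun h1 Q
    exact h2
  have hprv : O.valuation pr ≠ 0 := (v_pr h2).2.2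
  have hpr0 : pr ≠ 0 := fun h => hprv (by rw [h, map_zero])
  set w : ℂ := (pr ^ g)⁻¹ with hw
  set D := Fintype.card K with hD
  set W : ℂ⟦X⟧ := A⁻¹ * C w with hW
  have hZ : z k 0 * A⁻¹ * C w = z k 0 * W := by rw [hW, mul_assoc]
  rw [hZ]
  -- the product vanishes
  have hmain : ∑ j ∈ Finset.range (D + 1), (-1 : Fin 3 → ℂ⟦X⟧) ^ j *
      ((Finset.univ.val.map z).esymm j * z k ^ (D - j)) = 0 := by
    have h1 := Multiset.prod_X_sub_X_eq_sum_esymm (Finset.univ.val.map z)
    have h2 := congrArg (Polynomial.eval (z k)) h1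
    have hcard : Multiset.card (Finset.univ.val.map z) = D := by
      rw [Multiset.card_map]
      rfl
    rw [hcard] at h2
    have h3' : Polynomial.eval (z k) ((Finset.univ.val.map z).map fun t => Polynomial.X - Polynomial.C t).prod = 0 := by
      rw [Polynomial.eval_multiset_prod, Multiset.map_map, Multiset.map_map]
      apply Multiset.prod_eq_zero
      rw [Multiset.mem_map]
      exact ⟨k, Finset.mem_univ k, by simp⟩
    rw [h3'] at h2
    rw [Polynomial.eval_finsetSum] at h2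
    rw [h2]
    refine Finset.sum_congr rfl fun j _ => ?_
    simp
  have hmain0 : ∑ j ∈ Finset.range (D + 1), (-1 : ℂ⟦X⟧) ^ j *
      (MvPolynomial.aeval ![A, Y] (P j) * z k 0 ^ (D - j)) = 0 := by
    have h1 := congrFun hmain 0
    rw [Finset.sum_apply] at h1
    rw [Pi.zero_apply] at h1
    rw [← h1]
    refine Finset.sum_congr rfl fun j _ => ?_
    rw [Pi.mul_apply, Pi.mul_apply, Pi.pow_apply, Pi.pow_apply, ← hPe j, hev0]
    rfl
  have hmain1 : ∑ j ∈ Finset.range (D + 1),
      Polynomial.aeval (tt A Y) (Polynomial.C ((-1) ^ j * w ^ j) * p j) * (z k 0 * W) ^ (D - j) = 0 := by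
    have h1 : (∑ j ∈ Finset.range (D + 1), (-1 : ℂ⟦X⟧) ^ j *
      (MvPolynomial.aeval ![A, Y] (P j) * z k 0 ^ (D - j))) * W ^ D = 0 := by rw [hmain0, zero_mul]
    rw [Finset.sum_mul] at h1
    rw [← h1]
    refine Finset.sum_congr rfl fun j hj => ?_
    have hj' : j ≤ D := Nat.lt_succ_iff.1 (Finset.mem_range.1 hj)
    rw [map_mul, ← hp3 j, Polynomial.aeval_C]
    have h2 : W ^ D = W ^ j * W ^ (D - j) := by rw [← pow_add, Nat.add_sub_of_le hj']
    have h3 : (algebraMap ℂ ℂ⟦X⟧) ((-1) ^ j * w ^ j) = (-1) ^ j * (C w) ^ j := by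
      rw [map_mul, map_pow, map_pow, map_neg, map_one]
      rfl
    rw [h2, h3, mul_pow, hW, mul_pow]
    ring
  -- apply `Ig_root`
  refine MP_06b9d2_tls.Ig_root D (z k 0 * W) (fun i => Polynomial.C ((-1) ^ (D - i) * w ^ (D - i)) * p (D - i)) ?_ ?_
  · intro i _ r
    simp only [Polynomial.coeff_C_mul]
    by_cases hr : r ≤ D - i
    · rw [hp1 _ _ hr, map_mul]
      have h1 : O.valuation ((-1) ^ (D - i) * w ^ (D - i)) = (O.valuation (pr ^ ((D - i) * g)))⁻¹ := by
        rw [map_mul, map_pow, Valuation.map_neg, map_one, one_pow, one_mul, map_pow, hw, map_inv₀, inv_pow,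
          ← map_pow, ← pow_mul, mul_comm g]
      rw [h1]
      have h2 := hval (D - i) (Finsupp.single 0 (D - i - r) + Finsupp.single 1 r)
      have h4 : O.valuation (pr ^ ((D - i) * g)) ≠ 0 := by
        rw [map_pow]
        exact pow_ne_zero _ hprv
      calc (O.valuation (pr ^ ((D - i) * g)))⁻¹ *
            O.valuation (MvPolynomial.coeff (Finsupp.single 0 (D - i - r) + Finsupp.single 1 r) (P (D - i)))
          ≤ (O.valuation (pr ^ ((D - i) * g)))⁻¹ * O.valuation (pr ^ ((D - i) * g)) :=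
            mul_le_mul_right h2 _
        _ = 1 := inv_mul_cancel₀ h4
    · rw [hp2 _ _ (not_le.1 hr), mul_zero, map_zero]
      exact zero_le_one
  · rw [← hmain1]
    rw [Finset.sum_range_succ' (fun j => Polynomial.aeval (tt A Y) (Polynomial.C ((-1) ^ j * w ^ j) * p j) *
      (z k 0 * W) ^ (D - j)) D]
    have h0 : Polynomial.aeval (tt A Y) (Polynomial.C ((-1) ^ 0 * w ^ 0) * p 0) * (z k 0 * W) ^ (D - 0) =
        (z k 0 * W) ^ D := by
      have h1 : Polynomial.aeval (tt A Y) (p 0) = 1 := by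
        rw [← hp3 0, pow_zero, mul_one, ← hev0, hPe 0]
        rw [hcomp]
        simp
      rw [pow_zero, pow_zero, one_mul, map_mul, h1, map_one, map_one, Nat.sub_zero, one_mul, one_mul]
    rw [h0, add_comm]
    congr 1
    rw [← Finset.sum_range_reflect]
    refine Finset.sum_congr rfl fun i hi => ?_
    have hi' := Finset.mem_range.1 hi
    have e1 : D - (D - 1 - i) = i + 1 := by omega
    have e2 : D - (i + 1) = D - 1 - i := by omega
    simp only [e1, e2]

end Pool.Agent.Lib.MP_06b9d2_tl2
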