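import Pool.Agent.Lib.MP_06b9d2_tl2.Fam
import Pool.Agent.Lib.MP_06b9d2_tl2.Root

/-!
Module TL2-IntP. The branches are congruent to the base: `x_i - A`, `y_i - Y` modulo `pr ^ 3`, `u_i`, `v_i` modulo `pr ^ 5`. (Model: `MP_06b9d2_tls/IntP.lean`.)

`t = tt (V l A) (V l Y)`. `root` for `K = Option (Fin l)`, `z_i = zx i - bA` (`fam_sum` with `α = 1, β = 0, α' = -1, β' = 0`), `a = ![6, 4, 4]`, `g = 3`: `4 * 3 + 8 = 20 = 2 * 6 + 4 + 4`. Bounds: `8 = pr ^ 6`; component `0`: `(br i A - 1) - (V l A - 1)` in `8` (`near_A`, `bs_V`).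
Components `1`, `2`: `-(1/2) • ((br A - V l A) + 3 (br Y - V l Y))`, in `8 / 2 = pr ^ 4`. For `Y`: `z_i = zy i - bY` (`α = 0, β = 1, α' = 0, β' = -1`): component `0`: `br i Y - V l Y` in `8`; components `1`, `2`: `∓(1/2) • ((br A - V l A) - (br Y - V l Y))`.
`intP_x`: `br i A / V l A = 1 + (br i A - V l A) / V l A`. `intP_u`: `x = br i A * (V l A)⁻¹ = 1 + ρ x'`, `y = br i Y * (V l A)⁻¹ = t + ρ y'`, `ρ = C (pr ^ 3)`, `x'`, `y'` integral. `ub * (V l A)⁻¹ ^ 2 = x ^ 2 - 1 - (y ^ 2 - t ^ 2)`,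
`x ^ 2 - 1 = ρ x' (2 + ρ x') = pr ^ 5 x' (1 + pr x')` (`pr ^ 2 = 2`, `pr ^ 3 = 2 pr`), `y ^ 2 - t ^ 2 = ρ y' (2 t + ρ y') = pr ^ 5 y' (t + pr y')`. `vb` the same: `y ^ 2 - t ^ 2`.
-/

namespace Pool.Agent.Lib.MP_06b9d2_tl2

open PowerSeries Pool.Agent.L1
open Pool.Agent.Lib.MP_06b9d2_tls (V U TT br In PC Ig tt EgG Two Tl)
open Pool.Agent.Lib.MP_06b9d2_tls (In_add In_sub In_smul Ig_add Ig_sub Ig_mul Ig_pow Ig_C Ig_t)

variable {A Y : ℂ⟦X⟧} {O : ValuationSubring ℂ} {l : ℕ}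

private theorem In_mono' {F : ℂ⟦X⟧} {r r' : ℂ} (hF : In O F r) (hr : O.valuation r ≤ O.valuation r') :
    In O F r' := fun n => (hF n).trans hr

private theorem v8 (h2 : O.valuation 2 < 1) : O.valuation (8 : ℂ) = O.valuation pr ^ 6 := by
  rw [show (8 : ℂ) = 2 ^ 3 by norm_num, map_pow, ← (v_pr h2).1, ← pow_mul]

private theorem v_half' (h2 : O.valuation 2 < 1) (z : ℂ) (hz : O.valuation z ≤ 1) :
    O.valuation (z / 2 * 8) ≤ O.valuation (pr ^ 4) := by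
  have h0 := (v_pr h2).2.2
  rw [map_mul, map_div₀, ← (v_pr h2).1, v8 h2, map_pow]
  have h5 : O.valuation pr ^ 6 = O.valuation pr ^ 2 * O.valuation pr ^ 4 := by
    rw [← pow_add]
  have h6 : O.valuation pr ^ 2 ≠ 0 := pow_ne_zero _ h0
  rw [h5, ← mul_assoc, div_mul_cancel₀ _ h6]
  calc O.valuation z * O.valuation pr ^ 4 ≤ 1 * O.valuation pr ^ 4 := mul_le_mul_left hz _
    _ = O.valuation pr ^ 4 := one_mul _

private theorem inv_mul' (h : Core A Y) (hl : l.Prime) : V l A * (V l A)⁻¹ = 1 := by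
  apply PowerSeries.mul_inv_cancel
  have := (bs_V h (⊤ : ValuationSubring ℂ) hl.ne_zero).a0
  rw [this]
  exact one_ne_zero

theorem intP_A (h : Core A Y) (h2 : O.valuation 2 < 1) (hl : l.Prime) (hl2 : l ≠ 2) (i : Option (Fin l)) :
    Ig O (tt (V l A) (V l Y)) ((br l l i A - V l A) * (V l A)⁻¹ * C ((pr ^ 3)⁻¹)) := by
  have hB := bs_V h O hl.ne_zero
  have key : ∀ k : Option (Fin l), In O (br l l k A - V l A) 8 := by
    intro k
    have e : br l l k A - V l A = (br l l k A - 1) - (V l A - 1) := by ring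
    rw [e]
    exact In_sub (near_A h O hl hl2 k) hB.aI
  have key2 : ∀ k : Option (Fin l), In O ((br l l k A + 3 * br l l k Y) - (V l A + 3 * V l Y)) 8 := by
    intro k
    have e : (br l l k A + 3 * br l l k Y) - (V l A + 3 * V l Y) =
        (br l l k A - V l A) + ((br l l k Y + br l l k Y + br l l k Y) - (V l Y + V l Y + V l Y)) := by ring
    rw [e]
    have hn := near_Y h O hl hl2 k
    exact In_add (key k) (In_sub (In_add (In_add hn hn) hn) (In_add (In_add hB.yI hB.yI) hB.yI))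
  have key3 : ∀ k : Option (Fin l), In O ((-(1 / 2) : ℂ) • (br l l k A + 3 * br l l k Y) -
      (-(1 / 2) : ℂ) • (V l A + 3 * V l Y)) (pr ^ 4) := by
    intro k
    rw [← smul_sub, show (-(1 / 2) : ℂ) = (-1) / 2 by norm_num]
    refine In_mono' (In_smul (key2 k) _) (v_half' h2 (-1) ?_)
    rw [Valuation.map_neg, map_one]
  have hr := root h2 hB (K := Option (Fin l))
    (fun k => cA (br l l k A) (br l l k Y) - cA (V l A) (V l Y)) ?_ ![6, 4, 4] ?_ 3 ?_ i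
  · exact hr
  · intro m
    have := fam_sum h hl hl2 1 0 (-1) 0 m
    simpa [sub_eq_add_neg] using this
  · intro k j
    fin_cases j
    · change In O (br l l k A - V l A) (pr ^ 6)
      refine In_mono' (key k) ?_
      rw [v8 h2, map_pow]
    · exact key3 k
    · exact key3 k
  · decide

theorem intP_Y (h : Core A Y) (h2 : O.valuation 2 < 1) (hl : l.Prime) (hl2 : l ≠ 2) (i : Option (Fin l)) :
    Ig O (tt (V l A) (V l Y)) ((br l l i Y - V l Y) * (V l A)⁻¹ * C ((pr ^ 3)⁻¹)) := by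
  have hB := bs_V h O hl.ne_zero
  have key : ∀ k : Option (Fin l), In O (br l l k Y - V l Y) 8 := fun k =>
    In_sub (near_Y h O hl hl2 k) hB.yI
  have key2 : ∀ k : Option (Fin l), In O ((br l l k A - br l l k Y) - (V l A - V l Y)) 8 := by
    intro k
    have e : (br l l k A - br l l k Y) - (V l A - V l Y) =
        ((br l l k A - 1) - (V l A - 1)) - (br l l k Y - V l Y) := by ring
    rw [e]
    exact In_sub (In_sub (near_A h O hl hl2 k) hB.aI) (key k)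
  have key3 : ∀ (k : Option (Fin l)) (z : ℂ), O.valuation z ≤ 1 →
      In O ((z / 2) • (br l l k A - br l l k Y) - (z / 2) • (V l A - V l Y)) (pr ^ 4) := by
    intro k z hz
    rw [← smul_sub]
    exact In_mono' (In_smul (key2 k) _) (v_half' h2 z hz)
  have hr := root h2 hB (K := Option (Fin l))
    (fun k => cY (br l l k A) (br l l k Y) - cY (V l A) (V l Y)) ?_ ![6, 4, 4] ?_ 3 ?_ i
  · exact hr
  · intro m
    have := fam_sum h hl hl2 0 1 0 (-1) m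
    simpa [sub_eq_add_neg] using this
  · intro k j
    fin_cases j
    · change In O (br l l k Y - V l Y) (pr ^ 6)
      refine In_mono' (key k) ?_
      rw [v8 h2, map_pow]
    · have := key3 k (-1) (by rw [Valuation.map_neg, map_one])
      rw [show ((-1) / 2 : ℂ) = -(1 / 2) by norm_num] at this
      exact this
    · exact key3 k 1 (by rw [map_one])
  · decide

private theorem rr (h2 : O.valuation 2 < 1) (n : ℕ) : (C (pr ^ n) : ℂ⟦X⟧) * C ((pr ^ n)⁻¹) = 1 := by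
  rw [← map_mul, mul_inv_cancel₀, map_one]
  have := (v_pr h2).2.2
  apply pow_ne_zero
  intro h0
  apply this
  rw [h0, map_zero]

private theorem v_prn (h2 : O.valuation 2 < 1) (n : ℕ) : O.valuation (pr ^ n) ≤ 1 := by
  rw [map_pow]
  exact pow_le_one' (v_pr h2).2.1.le n

private theorem Ig_one' {t : ℂ⟦X⟧} : Ig O t 1 := by
  have := Ig_pow (Ig_t (O := O) (t := t)) 0
  rwa [pow_zero] at this

theorem intP_x (h : Core A Y) (h2 : O.valuation 2 < 1) (hl : l.Prime) (hl2 : l ≠ 2) (i : Option (Fin l)) :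
    Ig O (tt (V l A) (V l Y)) (br l l i A * (V l A)⁻¹) := by
  have e : br l l i A * (V l A)⁻¹ =
      1 + C (pr ^ 3) * ((br l l i A - V l A) * (V l A)⁻¹ * C ((pr ^ 3)⁻¹)) := by
    linear_combination (-(br l l i A - V l A) * (V l A)⁻¹) * rr h2 3 + inv_mul' h hl
  rw [e]
  exact Ig_add Ig_one' (Ig_mul (Ig_C (v_prn h2 3)) (intP_A h h2 hl hl2 i))

private theorem sq_id (P Q R p d : ℂ⟦X⟧) (e1 : P ^ 2 = 2) (e2 : P ^ 5 * Q = 1) (e3 : R = P ^ 3) :
    Q * ((p + R * d) ^ 2 - p ^ 2) = p * d + P * d ^ 2 := by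
  subst e3
  linear_combination (p * d + P * d ^ 2) * e2 - Q * P ^ 3 * p * d * e1

private theorem sq_id' (h2 : O.valuation 2 < 1) (p d : ℂ⟦X⟧) :
    C ((pr ^ 5)⁻¹) * ((p + C (pr ^ 3) * d) ^ 2 - p ^ 2) = p * d + C pr * d ^ 2 := by
  refine sq_id (C pr) (C ((pr ^ 5)⁻¹)) (C (pr ^ 3)) p d ?_ ?_ ?_
  · rw [← map_pow, pr_sq]
    exact map_ofNat (C : ℂ →+* ℂ⟦X⟧) 2
  · rw [← map_pow]
    exact rr h2 5
  · rw [map_pow]

private theorem ig_sq (h2 : O.valuation 2 < 1) {t p d : ℂ⟦X⟧} (hp : Ig O t p) (hd : Ig O t d) :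
    Ig O t (p * d + C pr * d ^ 2) :=
  Ig_add (Ig_mul hp hd) (Ig_mul (Ig_C (v_pr h2).2.1.le) (Ig_pow hd 2))

theorem intP_u (h : Core A Y) (h2 : O.valuation 2 < 1) (hl : l.Prime) (hl2 : l ≠ 2) (i : Option (Fin l)) :
    Ig O (tt (V l A) (V l Y)) (ub l A Y i * (V l A)⁻¹ ^ 2 * C ((pr ^ 5)⁻¹)) := by
  have hw := inv_mul' h hl
  have hr := rr h2 3
  have hx := intP_A h h2 hl hl2 i
  have hy := intP_Y h h2 hl hl2 i
  have c1 := sq_id' h2 1 ((br l l i A - V l A) * (V l A)⁻¹ * C ((pr ^ 3)⁻¹))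
  have c2 := sq_id' h2 (V l Y * (V l A)⁻¹) ((br l l i Y - V l Y) * (V l A)⁻¹ * C ((pr ^ 3)⁻¹))
  have ex : 1 + C (pr ^ 3) * ((br l l i A - V l A) * (V l A)⁻¹ * C ((pr ^ 3)⁻¹)) =
      br l l i A * (V l A)⁻¹ := by
    linear_combination ((br l l i A - V l A) * (V l A)⁻¹) * hr - hw
  have ey : V l Y * (V l A)⁻¹ + C (pr ^ 3) * ((br l l i Y - V l Y) * (V l A)⁻¹ * C ((pr ^ 3)⁻¹)) =
      br l l i Y * (V l A)⁻¹ := by
    linear_combination ((br l l i Y - V l Y) * (V l A)⁻¹) * hr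
  rw [ex] at c1
  rw [ey] at c2
  have hw2 : V l A ^ 2 * (V l A)⁻¹ ^ 2 = 1 := by rw [← mul_pow, hw, one_pow]
  have e : ub l A Y i * (V l A)⁻¹ ^ 2 * C ((pr ^ 5)⁻¹) =
      C ((pr ^ 5)⁻¹) * ((br l l i A * (V l A)⁻¹) ^ 2 - 1 ^ 2) -
      C ((pr ^ 5)⁻¹) * ((br l l i Y * (V l A)⁻¹) ^ 2 - (V l Y * (V l A)⁻¹) ^ 2) := by
    rw [ub]
    linear_combination (-C ((pr ^ 5)⁻¹)) * hw2
  rw [e, c1, c2]
  exact Ig_sub (ig_sq h2 Ig_one' hx) (ig_sq h2 Ig_t hy)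

theorem intP_v (h : Core A Y) (h2 : O.valuation 2 < 1) (hl : l.Prime) (hl2 : l ≠ 2) (i : Option (Fin l)) :
    Ig O (tt (V l A) (V l Y)) (vb l Y i * (V l A)⁻¹ ^ 2 * C ((pr ^ 5)⁻¹)) := by
  have hr := rr h2 3
  have hy := intP_Y h h2 hl hl2 i
  have c2 := sq_id' h2 (V l Y * (V l A)⁻¹) ((br l l i Y - V l Y) * (V l A)⁻¹ * C ((pr ^ 3)⁻¹))
  have ey : V l Y * (V l A)⁻¹ + C (pr ^ 3) * ((br l l i Y - V l Y) * (V l A)⁻¹ * C ((pr ^ 3)⁻¹)) =
      br l l i Y * (V l A)⁻¹ := by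
    linear_combination ((br l l i Y - V l Y) * (V l A)⁻¹) * hr
  rw [ey] at c2
  have e : vb l Y i * (V l A)⁻¹ ^ 2 * C ((pr ^ 5)⁻¹) =
      C ((pr ^ 5)⁻¹) * ((br l l i Y * (V l A)⁻¹) ^ 2 - (V l Y * (V l A)⁻¹) ^ 2) := by
    rw [vb]
    ring
  rw [e, c2]
  exact ig_sq h2 Ig_t hy

end Pool.Agent.Lib.MP_06b9d2_tl2
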