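import Pool.Agent.Lib.MP_06b9d2_tl2.PcB
import Pool.Agent.Lib.MP_06b9d2_tl2.IntP

/-!
Module TL2-PcI. The coefficients `pc` are divisible by `2 ^ (5 (m + n) / 2)`. (Model: `MP_06b9d2_tls/PcI.lean`.)

`pc_bd` with `la = pr ^ (5 (m + n))`: each summand `x ^ a u ^ m v ^ n` times the power of `(V l A)⁻¹` is `pr ^ (5 (m + n))` times an integral element (`intP_x`, `intP_u`, `intP_v`). So `v (pc) ≤ (v pr) ^ (5 (m + n))`; `pc_int` and `v_half` (`k = m + n`).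
-/

namespace Pool.Agent.Lib.MP_06b9d2_tl2

open PowerSeries Pool.Agent.L1
open Pool.Agent.Lib.MP_06b9d2_tls (V U TT br In PC Ig tt EgG Two Tl)

theorem pcP {A Y : ℂ⟦X⟧} (h : Core A Y) {O : ValuationSubring ℂ} (h2 : O.valuation 2 < 1) {l a : ℕ}
    (hl : l.Prime) (hl2 : l ≠ 2) {M : ℕ → ℕ → ℕ → ℂ} (hM : MatD l A Y a M) (m n r : ℕ) :
    O.valuation (pc M m n r) ≤ O.valuation 2 ^ ((5 * (m + n) + 1) / 2) := by
  have hpr : pr ≠ 0 := by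
    intro h0
    have h1 := pr_sq
    rw [h0] at h1
    norm_num at h1
  have hb : O.valuation (pc M m n r) ≤ O.valuation (pr ^ (5 * (m + n))) := by
    refine pc_bd h h2 hl hl2 hM m n _ (pow_ne_zero _ hpr) ?_ r
    have hC : (C ((pr ^ (5 * (m + n)))⁻¹) : ℂ⟦X⟧) = C ((pr ^ 5)⁻¹) ^ m * C ((pr ^ 5)⁻¹) ^ n := by
      rw [← map_pow, ← map_pow, ← map_mul, pow_mul, ← inv_pow, pow_add]
    rw [hC, Finset.sum_mul, Finset.sum_mul]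
    refine Pool.Agent.Lib.MP_06b9d2_tls.Ig_sum _ fun i _ => ?_
    have he : br l l i A ^ a * ub l A Y i ^ m * vb l Y i ^ n * (V l A)⁻¹ ^ (a + 2 * (m + n)) *
        (C ((pr ^ 5)⁻¹) ^ m * C ((pr ^ 5)⁻¹) ^ n) =
        (br l l i A * (V l A)⁻¹) ^ a * (ub l A Y i * (V l A)⁻¹ ^ 2 * C ((pr ^ 5)⁻¹)) ^ m *
          (vb l Y i * (V l A)⁻¹ ^ 2 * C ((pr ^ 5)⁻¹)) ^ n := by
      rw [mul_pow, mul_pow, mul_pow, mul_pow, mul_pow, ← pow_mul, ← pow_mul, pow_add, mul_add, pow_add]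
      ring
    rw [he]
    exact Pool.Agent.Lib.MP_06b9d2_tls.Ig_mul (Pool.Agent.Lib.MP_06b9d2_tls.Ig_mul
      (Pool.Agent.Lib.MP_06b9d2_tls.Ig_pow (intP_x h h2 hl hl2 i) a)
      (Pool.Agent.Lib.MP_06b9d2_tls.Ig_pow (intP_u h h2 hl hl2 i) m))
      (Pool.Agent.Lib.MP_06b9d2_tls.Ig_pow (intP_v h h2 hl hl2 i) n)
  obtain ⟨q, hq⟩ := pc_int h hl hl2 hM m n r
  rw [hq] at hb ⊢
  rw [map_pow] at hb
  exact v_half h2 q (m + n) hb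

end Pool.Agent.Lib.MP_06b9d2_tl2
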