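import Pool.Agent.Lib.MP_06b9d2_tl2.Defs
import Pool.Agent.Lib.MP_06b9d2_ssp.POa

/-!
Module TL2-Val. Valuations; `O.valuation 2 < 1`. (Model: `MP_06b9d2_tls/Val.lean`; `int_mem`, `val_int` are in `MP_06b9d2_ssp/POa.lean`, for the prime `3`: repeat the arguments for `2`.)

`pr_sq`: `Real.sq_sqrt`. `v_pr`: from `pr_sq`. `v_odd`: `n` odd: `n = 2 m + 1`, `v (2 m) < 1`, `v n = 1` (`Valuation.map_add_eq_of_lt_left` or the like). `v_dvd`: `z = 2 ^ k * w` and `v w ≤ 1` (integers are in `O`). `v_exact`: `v u = 1`.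
`v_half`: for `z ≠ 0` write `z = 2 ^ j * u`, `u` odd: `v z = (v 2) ^ j = (v pr) ^ (2 j) ≤ (v pr) ^ (5 k)`, so `5 k ≤ 2 j` (`v pr < 1`, `v pr ≠ 0`), `(5 k + 1) / 2 ≤ j`. `v_fact`: `n! = 2 ^ j u` with `u` odd and `j ≤ n - 1` for `n ≥ 1`
(Legendre: `sub_one_mul_padicValNat_factorial`, or `Nat.factorization_factorial..`; or by induction in steps: it is enough to know `¬ 2 ^ n ∣ n!` for `n ≥ 1`, `Nat.Prime.pow_dvd_factorial_iff` / `Nat.emultiplicity_two_factorial_lt`).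
`v_f3`: `3! = 2 * 3`, `4! = 2 ^ 3 * 3`, `2! = 2`.
-/

namespace Pool.Agent.Lib.MP_06b9d2_tl2

open PowerSeries Pool.Agent.L1
open Pool.Agent.Lib.MP_06b9d2_tls (V U TT br In PC Ig tt EgG Two Tl)

theorem pr_sq : pr ^ 2 = 2 := by
  rw [pr, ← Complex.ofReal_pow, Real.sq_sqrt (by norm_num)]
  norm_num

theorem v_pr {O : ValuationSubring ℂ} (h2 : O.valuation 2 < 1) :
    O.valuation pr ^ 2 = O.valuation 2 ∧ O.valuation pr < 1 ∧ O.valuation pr ≠ 0 := by
  have h1 : O.valuation pr ^ 2 = O.valuation 2 := by rw [← map_pow, pr_sq]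
  have h0 : O.valuation (2 : ℂ) ≠ 0 := (Valuation.ne_zero_iff _).2 (by norm_num)
  refine ⟨h1, ?_, ?_⟩
  · by_contra hc
    have h3 : 1 ≤ O.valuation pr ^ 2 := one_le_pow₀ (not_lt.1 hc)
    rw [h1] at h3
    exact absurd h2 (not_lt.2 h3)
  · intro h3
    rw [h3, zero_pow (by norm_num)] at h1
    exact h0 h1.symm

theorem v_int (O : ValuationSubring ℂ) (z : ℤ) : O.valuation (z : ℂ) ≤ 1 :=
  MP_06b9d2_ssp.int_mem O z

theorem v_root (O : ValuationSubring ℂ) (z : ℂ) (n : ℕ) (hn : n ≠ 0) (hz : z ^ n = 1) :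
    O.valuation z = 1 := by
  have h : O.valuation z ^ n = 1 := by rw [← map_pow, hz, map_one]
  exact (pow_eq_one_iff_of_nonneg zero_le hn).1 h

theorem v_odd {O : ValuationSubring ℂ} (h2 : O.valuation 2 < 1) (z : ℤ) (hz : ¬ 2 ∣ z) :
    O.valuation (z : ℂ) = 1 := by
  refine le_antisymm (v_int O z) (not_lt.1 fun hlt => ?_)
  have hc : IsCoprime (2 : ℤ) z := (Int.prime_two.coprime_iff_not_dvd).2 hz
  obtain ⟨a, b, hab⟩ := hc
  have h1 : (a : ℂ) * 2 + (b : ℂ) * z = 1 := by exact_mod_cast hab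
  have h3 : O.valuation ((a : ℂ) * 2 + (b : ℂ) * z) < 1 := by
    refine lt_of_le_of_lt (Valuation.map_add O.valuation _ _) (max_lt ?_ ?_)
    · rw [map_mul]
      exact lt_of_le_of_lt (mul_le_of_le_one_left' (v_int O a)) h2
    · rw [map_mul]
      exact lt_of_le_of_lt (mul_le_of_le_one_left' (v_int O b)) hlt
  rw [h1, map_one] at h3
  exact lt_irrefl _ h3

theorem v_dvd (O : ValuationSubring ℂ) (z : ℤ) (k : ℕ) (hz : 2 ^ k ∣ z) :
    O.valuation (z : ℂ) ≤ O.valuation (2 ^ k) := by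
  obtain ⟨w, rfl⟩ := hz
  have e : (((2 ^ k * w : ℤ)) : ℂ) = 2 ^ k * (w : ℂ) := by push_cast; ring
  rw [e, map_mul]
  exact mul_le_of_le_one_right' (v_int O w)

theorem v_exact {O : ValuationSubring ℂ} (h2 : O.valuation 2 < 1) (z u : ℤ) (k : ℕ) (hz : z = 2 ^ k * u)
    (hu : ¬ 2 ∣ u) : O.valuation (z : ℂ) = O.valuation (2 ^ k) := by
  have e : (z : ℂ) = 2 ^ k * (u : ℂ) := by rw [hz]; push_cast; ring
  rw [e, map_mul, v_odd h2 u hu, mul_one]

private theorem val_pow {O : ValuationSubring ℂ} (h2 : O.valuation 2 < 1) (z : ℤ) (hz : z ≠ 0) :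
    ∃ j : ℕ, O.valuation (z : ℂ) = O.valuation 2 ^ j := by
  have hf : FiniteMultiplicity (2 : ℤ) z := Int.finiteMultiplicity_iff.2 ⟨by norm_num, hz⟩
  obtain ⟨m, hm, hm2⟩ := hf.exists_eq_pow_mul_and_not_dvd
  refine ⟨multiplicity (2 : ℤ) z, ?_⟩
  rw [v_exact h2 z m _ hm hm2, map_pow]

theorem v_half {O : ValuationSubring ℂ} (h2 : O.valuation 2 < 1) (z : ℤ) (k : ℕ)
    (h : O.valuation (z : ℂ) ≤ O.valuation pr ^ (5 * k)) :
    O.valuation (z : ℂ) ≤ O.valuation 2 ^ ((5 * k + 1) / 2) := by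
  obtain ⟨h12, hlt, hne⟩ := v_pr h2
  rcases eq_or_ne z 0 with rfl | hz
  · rw [Int.cast_zero, map_zero]
    exact zero_le
  obtain ⟨j, hj⟩ := val_pow h2 z hz
  have hpos : 0 < O.valuation pr := zero_lt_iff.2 hne
  rw [hj, ← h12, ← pow_mul, pow_le_pow_iff_right_of_lt_one₀ hpos hlt] at h
  rw [hj, ← h12, ← pow_mul, ← pow_mul, pow_le_pow_iff_right_of_lt_one₀ hpos hlt]
  omega

private theorem val_fact2 (m : ℕ) : padicValNat 2 m.factorial ≤ m - 1 := by
  have : Fact (Nat.Prime 2) := ⟨Nat.prime_two⟩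
  have h := sub_one_mul_padicValNat_factorial (p := 2) m
  rcases Nat.eq_zero_or_pos m with h0 | h0
  · subst h0; simp
  · have h1 : 1 ≤ (Nat.digits 2 m).sum := by
      by_contra hc
      have h2 : (Nat.digits 2 m).sum = 0 := by omega
      have h4 : m ≠ 0 := by omega
      have h5 := Nat.getLast_digit_ne_zero 2 h4
      have h6 := List.getLast_mem (l := Nat.digits 2 m) (Nat.digits_ne_nil_iff_ne_zero.2 h4)
      exact h5 (List.sum_eq_zero_iff.1 h2 _ h6)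
    omega

theorem v_fact {O : ValuationSubring ℂ} (h2 : O.valuation 2 < 1) (n : ℕ) :
    O.valuation 2 ^ (n - 1) ≤ O.valuation (n.factorial : ℂ) := by
  have hp : Fact (Nat.Prime 2) := ⟨Nat.prime_two⟩
  have hne : n.factorial ≠ 0 := Nat.factorial_ne_zero n
  obtain ⟨b, hb⟩ : 2 ^ padicValNat 2 n.factorial ∣ n.factorial := pow_padicValNat_dvd
  have hb2 : ¬ (2 : ℤ) ∣ (b : ℤ) := by
    intro hd
    have hd' : 2 ∣ b := by exact_mod_cast hd
    have h1 : 2 ^ (padicValNat 2 n.factorial + 1) ∣ n.factorial := by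
      conv_rhs => rw [hb]
      rw [pow_succ]
      exact mul_dvd_mul_left _ hd'
    exact pow_succ_padicValNat_not_dvd hne h1
  have h3 : O.valuation (((n.factorial : ℕ) : ℤ) : ℂ) =
      O.valuation (2 ^ padicValNat 2 n.factorial) :=
    v_exact h2 _ (b : ℤ) _ (by exact_mod_cast hb) hb2
  rw [Int.cast_natCast] at h3
  rw [h3, map_pow]
  exact pow_le_pow_of_le_one zero_le h2.le (val_fact2 n)

theorem v_f {O : ValuationSubring ℂ} (h2 : O.valuation 2 < 1) :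
    O.valuation ((Nat.factorial 2 : ℕ) : ℂ) = O.valuation 2 ∧ O.valuation ((Nat.factorial 3 : ℕ) : ℂ) = O.valuation 2 ∧
      O.valuation ((Nat.factorial 4 : ℕ) : ℂ) = O.valuation 2 ^ 3 ∧
      O.valuation ((Nat.factorial 5 : ℕ) : ℂ) = O.valuation 2 ^ 3 := by
  have key : ∀ (z u : ℤ) (k : ℕ), z = 2 ^ k * u → ¬ 2 ∣ u →
      O.valuation (z : ℂ) = O.valuation 2 ^ k := fun z u k hz hu => by
    rw [v_exact h2 z u k hz hu, map_pow]
  refine ⟨?_, ?_, ?_, ?_⟩
  · simp [Nat.factorial]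
  · have h := key 6 3 1 (by norm_num) (by norm_num)
    rw [pow_one] at h
    rw [← h]
    norm_num [Nat.factorial]
  · have h := key 24 3 3 (by norm_num) (by norm_num)
    rw [← h]
    norm_num [Nat.factorial]
  · have h := key 120 15 3 (by norm_num) (by norm_num)
    rw [← h]
    norm_num [Nat.factorial]

end Pool.Agent.Lib.MP_06b9d2_tl2
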