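import Pool.Agent.Lib.MP_06b9d2_tl2.Qd

/-!
Module TL2-Lrel. Relations between the numbers `Lc l a k 3 j`, and the reduction of `Lc l a k 3 1` modulo `8`.

`lrel`: `a_sq`: `a ^ 2 = 1 + 48 β`, `a ^ 4 = 1 + 96 γ`, `a = 1 + 24 α`: `k ^ 3 a ^ 3 = k ^ 3 a + 48 (..)`, `k ^ 3 a ^ 5 = k ^ 3 a + 96 (..)`, `k ^ 3 a ^ 2 = k ^ 3 a + 24 (..)`, `k ^ 3 a ^ 4 = k ^ 3 a ^ 2 + 48 (..)`, `k ^ 3 a ^ 6 = k ^ 3 a ^ 2 + 96 (..)`; take the coefficient of `x ^ l`.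
`lc8`: `k ^ 2 = E (k (a + 8 k)) = E k + 8 (..)` (`r2`, `a = 1 + 24 α`), so `k ^ 3 a = k E k + 8 (..)`.
-/

namespace Pool.Agent.Lib.MP_06b9d2_tl2

open PowerSeries Pool.Agent.L1
open Pool.Agent.Lib.MP_06b9d2_tls (V U TT br In PC Ig tt EgG Two Tl)

variable {A Y : ℂ⟦X⟧} {a k : ℤ⟦X⟧}

private theorem lrel_coeff (l : ℕ) (c : ℤ) (f g h : ℤ⟦X⟧) (hfg : f = g + C c * h) :
    coeff l f = coeff l g + c * coeff l h := by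
  rw [hfg, map_add, PowerSeries.coeff_C_mul]

theorem lrel (q : Qd A Y a k) (l : ℕ) : ∃ z₁ z₂ z₃ z₄ z₅ : ℤ,
    Lc l a k 3 3 = Lc l a k 3 1 + 16 * z₁ ∧ Lc l a k 3 5 = Lc l a k 3 1 + 32 * z₂ ∧
    Lc l a k 3 2 = Lc l a k 3 1 + 8 * z₃ ∧ Lc l a k 3 4 = Lc l a k 3 2 + 16 * z₄ ∧
    Lc l a k 3 6 = Lc l a k 3 2 + 32 * z₅ := by
  obtain ⟨α, hα, -⟩ := q.a24
  have c8 : (C (8 : ℤ) : ℤ⟦X⟧) = 8 := map_ofNat C 8
  have c16 : (C (16 : ℤ) : ℤ⟦X⟧) = 16 := map_ofNat C 16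
  have c32 : (C (32 : ℤ) : ℤ⟦X⟧) = 32 := map_ofNat C 32
  refine ⟨coeff l (3 * (k ^ 3 * a * (α * (1 + 12 * α)))),
    coeff l (3 * (k ^ 3 * a * ((α + 12 * α ^ 2) * (1 + 24 * (α + 12 * α ^ 2))))),
    coeff l (3 * (k ^ 3 * a * α)),
    coeff l (3 * (k ^ 3 * a ^ 2 * (α * (1 + 12 * α)))),
    coeff l (3 * (k ^ 3 * a ^ 2 * ((α + 12 * α ^ 2) * (1 + 24 * (α + 12 * α ^ 2))))), ?_, ?_, ?_, ?_, ?_⟩
  · refine lrel_coeff l 16 _ _ _ ?_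
    rw [c16, hα]; ring
  · refine lrel_coeff l 32 _ _ _ ?_
    rw [c32, hα]; ring
  · refine lrel_coeff l 8 _ _ _ ?_
    rw [c8, hα]; ring
  · refine lrel_coeff l 16 _ _ _ ?_
    rw [c16, hα]; ring
  · refine lrel_coeff l 32 _ _ _ ?_
    rw [c32, hα]; ring

theorem lc8 (q : Qd A Y a k) (l : ℕ) : (8 : ℤ) ∣ Lc l a k 3 1 - coeff l (k * E k) := by
  obtain ⟨α, hα, -⟩ := q.a24
  have c8 : (C (8 : ℤ) : ℤ⟦X⟧) = 8 := map_ofNat C 8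
  have h1 : k ^ 2 = E k * (1 + 24 * E α + 8 * E k) := by
    have h2 := q.r2
    rw [hα] at h2
    rw [h2]
    unfold E
    simp only [map_mul, map_add, map_one, map_ofNat]
  have h3 : k ^ 3 * a ^ 1 = k * E k + C 8 * (k * E k * (3 * E α + E k + 3 * α * (1 + 24 * E α + 8 * E k))) := by
    rw [c8, pow_one, hα]
    calc k ^ 3 * (1 + 24 * α) = k * k ^ 2 * (1 + 24 * α) := by ring
      _ = k * (E k * (1 + 24 * E α + 8 * E k)) * (1 + 24 * α) := by rw [h1]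
      _ = _ := by ring
  have h4 := lrel_coeff l 8 _ _ _ h3
  unfold Lc
  rw [h4, add_sub_cancel_left]
  exact dvd_mul_right _ _

end Pool.Agent.Lib.MP_06b9d2_tl2
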