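import Pool.Agent.Lib.MP_06b9d2_tl2.Kf
import Pool.Agent.Lib.MP_06b9d2_tl2.Lrel

/-!
Module TL2-Cl. The valuation of `c = Lc l a k 3 1`. Here `l` is any number with `κ_l = 1 + l` (a prime; `kap_l`).

`S1 = [k E k]_l`, `S2 = [k E E k]_l`, `S3 = [k E E E w]_l` (coefficients of `x ^ l`), `c ≡ S1` mod `8` (`lc8`). `(l - 1)(l + 1) = 8 [k g]_l`, so `(l ^ 2 - 1) / 8 ≡ S1 + 7 S2 + S3` mod `8` (`dg`). (`i + 2 j' = l`, `i + 4 j' = l`, `i + 8 j = l` with `j'` odd in `S1`, `S2`, `S3`.)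
`cl3` (`l ≡ 3` mod `8`): modulo `2`: `S2`: `i ≡ 7`, even; `S3`: `i ≡ 3`, even; so `S1 ≡ (l ^ 2 - 1) / 8` is odd. `cl7` (`l ≡ 7` mod `16`): modulo `4`: `S2`: `i ≡ 3` mod `8`, `4 ∣ κ_i`; `S3`: `i ≡ 7`, `8 ∣ κ_i`: `S1 ≡ (l ^ 2 - 1) / 8 ≡ 2` mod `4`.
`cl5` (`l ≡ 5` mod `8`): `S1`: `j' ≡ 1` mod `4`: `i ≡ 3` mod `8`, `κ_i = 4 t_i`, `t_i ≡ [k E k]_i` (`kt3`); `j' ≡ 3` mod `4`: `i ≡ 7`, `8 ∣ κ_i`. So `S1 ≡ 4 ∑_{i ≡ 3} [k E k]_i κ_{j'} ≡ 4 ∑_{i} [k E k]_i κ_{j'} = 4 [k (E k) ^ 2]_l` mod `8` (for `i ≡ 7` mod `8` `[k E k]_i` is even: `kek7`; note `i` is `≡ 3` or `7`),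
`(E k) ^ 2 = E (k ^ 2) ≡ E (E k)` mod `2` (`r2`), so `S1 ≡ 4 S2` mod `8`. And modulo `2`: `(l ^ 2 - 1) / 8` is odd, `S1` is even, `S3`: `i ≡ 5` mod `8` even: `S2` is odd. So `S1 ≡ 4` mod `8`.
`cl15` (`l ≡ 15` mod `32`): `(l ^ 2 - 1) / 8 ≡ 4` mod `8` (`≡ 28` mod `32`..), `S3 ≡ 0` mod `8` (`i ≡ 7`). `S2`: `i = l - 4 j' ≡ 3` mod `8`, `κ_i = 4 t_i`, `t_i ≡ [k E k]_i`: `S2 ≡ 4 T` mod `8`, `T = [k E k * E (E k)]_l`. Modulo `4`: `S1 ≡ (l ^ 2 - 1) / 8 ≡ 0` (`S2 ≡ 0`).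
`S1 = ∑_{i + 2 j' = l} κ_i κ_{j'}`: `j' ≡ 1` mod `4`: `i ≡ 5` mod `8`, `κ_i = 2 t_i`, `t_i ≡ [k E E k]_i` (`kt5`); `j' ≡ 3` mod `4`: `4 ∣ κ_{j'}`. So `S1 ≡ 2 ∑_{i ≡ 5} [k E E k]_i κ_{j'} ≡ 2 ∑_i [k E E k]_i κ_{j'} = 2 T` mod `4` (`κ_{j'}` is even for `j' ≡ 3` mod `4`). Hence `T` is even, `S2 ≡ 0` mod `8`,
`S1 ≡ (l ^ 2 - 1) / 8 ≡ 4` mod `8`.
-/

namespace Pool.Agent.Lib.MP_06b9d2_tl2

open PowerSeries Pool.Agent.L1
open Pool.Agent.Lib.MP_06b9d2_tls (V U TT br In PC Ig tt EgG Two Tl)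

variable {A Y : ℂ⟦X⟧} {a k : ℤ⟦X⟧}

private theorem cl_ek (q : Qd A Y a k) (j : ℕ) : coeff j (E k) = 0 ∨
    ∃ m, j = 2 * m ∧ m % 2 = 1 ∧ coeff j (E k) = coeff m k := by
  rcases Nat.even_or_odd' j with ⟨m, rfl | rfl⟩
  · rcases Nat.mod_two_eq_zero_or_one m with h | h
    · left
      rw [E_even, q.grk m h]
    · right
      exact ⟨m, rfl, h, E_even k m⟩
  · left
    exact E_odd k _ (by omega)

private theorem cl_eek (q : Qd A Y a k) (j : ℕ) : coeff j (E (E k)) = 0 ∨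
    ∃ m, j = 4 * m ∧ m % 2 = 1 := by
  rcases Nat.even_or_odd' j with ⟨m, rfl | rfl⟩
  · rcases cl_ek q m with h | ⟨n, rfl, hn, -⟩
    · left
      rw [E_even, h]
    · right
      exact ⟨n, by ring, hn⟩
  · left
    exact E_odd _ _ (by omega)

private theorem cl_eee (w : ℤ⟦X⟧) (j : ℕ) : coeff j (E (E (E w))) = 0 ∨ ∃ m, j = 8 * m := by
  rcases Nat.even_or_odd' j with ⟨m, rfl | rfl⟩
  · rcases Nat.even_or_odd' m with ⟨n, rfl | rfl⟩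
    · rcases Nat.even_or_odd' n with ⟨r, rfl | rfl⟩
      · right
        exact ⟨r, by ring⟩
      · left
        rw [E_even, E_even, E_odd _ _ (by omega)]
    · left
      rw [E_even, E_odd _ _ (by omega)]
  · left
    exact E_odd _ _ (by omega)

private theorem cl_d1 (q : Qd A Y a k) (D : ℤ) (f : ℤ⟦X⟧) (l : ℕ)
    (h : ∀ i m, i + 2 * m = l → m % 2 = 1 → D ∣ coeff i f * coeff m k) : D ∣ coeff l (f * E k) := by
  refine dvd_co D _ _ _ fun i j hij => ?_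
  rcases cl_ek q j with h0 | ⟨m, rfl, hm, h1⟩
  · rw [h0, mul_zero]
    exact dvd_zero _
  · rw [h1]
    exact h i m hij hm

private theorem cl_d2 (q : Qd A Y a k) (D : ℤ) (f : ℤ⟦X⟧) (l : ℕ)
    (h : ∀ i, i % 8 = (l + 4) % 8 → D ∣ coeff i f) : D ∣ coeff l (f * E (E k)) := by
  refine dvd_co D _ _ _ fun i j hij => ?_
  rcases cl_eek q j with h0 | ⟨m, rfl, hm⟩
  · rw [h0, mul_zero]
    exact dvd_zero _
  · exact Dvd.dvd.mul_right (h i (by omega)) _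

private theorem cl_d3 (D : ℤ) (f w : ℤ⟦X⟧) (l : ℕ)
    (h : ∀ i, i % 8 = l % 8 → D ∣ coeff i f) : D ∣ coeff l (f * E (E (E w))) := by
  refine dvd_co D _ _ _ fun i j hij => ?_
  rcases cl_eee w j with h0 | ⟨m, rfl⟩
  · rw [h0, mul_zero]
    exact dvd_zero _
  · exact Dvd.dvd.mul_right (h i (by omega)) _

private theorem cl_C (n : ℤ) (f : ℤ⟦X⟧) (l : ℕ) : coeff l (C n * f) = n * coeff l f :=
  PowerSeries.coeff_C_mul _ _ _

private theorem cl_main (q : Qd A Y a k) (l : ℕ) (hk : coeff l k = 1 + (l : ℤ)) : ∃ (w : ℤ⟦X⟧) (y : ℤ),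
    ((l : ℤ) - 1) * (1 + l) = 8 * (coeff l (k * E k) + 7 * coeff l (k * E (E k)) +
      coeff l (k * E (E (E w))) + 8 * y) := by
  obtain ⟨g, w, y, h1, h2⟩ := dg q
  refine ⟨w, coeff l (k * y), ?_⟩
  have h3 := h1 l
  have c7 : (7 : ℤ⟦X⟧) = C (7 : ℤ) := (map_ofNat C 7).symm
  have c8 : (8 : ℤ⟦X⟧) = C (8 : ℤ) := (map_ofNat C 8).symm
  have h4 : k * g = k * E k + C (7 : ℤ) * (k * E (E k)) + k * E (E (E w)) + C (8 : ℤ) * (k * y) := by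
    rw [h2, ← c7, ← c8]
    ring
  rw [hk, h4, map_add, map_add, map_add, cl_C, cl_C] at h3
  exact h3

private theorem cl_sq (q : Qd A Y a k) : ∃ z : ℤ⟦X⟧, E k * E k = E (E k) + 8 * z := by
  obtain ⟨α, hα, -⟩ := q.a24
  refine ⟨E (E (k * (3 * α + k))), ?_⟩
  have h8 : E (E (8 : ℤ⟦X⟧)) = 8 := by
    have h1 : E (8 : ℤ⟦X⟧) = 8 := by
      have := E_int 8
      exact_mod_cast this
    rw [h1, h1]
  rw [← E_mul, ← pow_two, q.r2]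
  have h2 : k * (a + 8 * k) = k + 8 * (k * (3 * α + k)) := by
    rw [hα]
    ring
  rw [h2, E_add, E_add, E_mul, E_mul, h8]

theorem cl3 (q : Qd A Y a k) (l : ℕ) (hk : coeff l k = 1 + (l : ℤ)) (hl : l % 8 = 3) :
    ∃ u : ℤ, Lc l a k 3 1 = 2 ^ 0 * u ∧ ¬ 2 ∣ u := by
  obtain ⟨w, y, hm⟩ := cl_main q l hk
  obtain ⟨t, ht⟩ : ∃ t : ℕ, l = 8 * t + 3 := ⟨l / 8, by omega⟩
  obtain ⟨s2, h2⟩ := cl_d2 q 2 k l fun i hi => by
    have := kf7 q i (by omega)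
    omega
  obtain ⟨s3, h3⟩ := cl_d3 2 k w l fun i hi => by
    have := kf3 q i (by omega)
    omega
  obtain ⟨c, hc⟩ := lc8 q l
  have h1 : coeff l (k * E k) + 7 * coeff l (k * E (E k)) + coeff l (k * E (E (E w))) + 8 * y =
      2 * ((t : ℤ) * (4 * t + 3)) + 1 := by
    have : (8 : ℤ) * (coeff l (k * E k) + 7 * coeff l (k * E (E k)) + coeff l (k * E (E (E w))) + 8 * y) =
        8 * (2 * ((t : ℤ) * (4 * t + 3)) + 1) := by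
      rw [← hm, ht]
      push_cast
      ring
    exact mul_left_cancel₀ (by norm_num) this
  generalize (t : ℤ) * (4 * t + 3) = n at h1
  refine ⟨Lc l a k 3 1, by ring, ?_⟩
  omega

theorem cl7 (q : Qd A Y a k) (l : ℕ) (hk : coeff l k = 1 + (l : ℤ)) (hl : l % 16 = 7) :
    ∃ u : ℤ, Lc l a k 3 1 = 2 ^ 1 * u ∧ ¬ 2 ∣ u := by
  obtain ⟨w, y, hm⟩ := cl_main q l hk
  obtain ⟨t, ht⟩ : ∃ t : ℕ, l = 16 * t + 7 := ⟨l / 16, by omega⟩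
  obtain ⟨s2, h2⟩ := cl_d2 q 4 k l fun i hi => by
    have := kf3 q i (by omega)
    omega
  obtain ⟨s3, h3⟩ := cl_d3 4 k w l fun i hi => by
    have := kf7 q i (by omega)
    omega
  obtain ⟨c, hc⟩ := lc8 q l
  have h1 : coeff l (k * E k) + 7 * coeff l (k * E (E k)) + coeff l (k * E (E (E w))) + 8 * y =
      4 * (8 * (t : ℤ) * t + 7 * t + 1) + 2 := by
    have : (8 : ℤ) * (coeff l (k * E k) + 7 * coeff l (k * E (E k)) + coeff l (k * E (E (E w))) + 8 * y) =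
        8 * (4 * (8 * (t : ℤ) * t + 7 * t + 1) + 2) := by
      rw [← hm, ht]
      push_cast
      ring
    exact mul_left_cancel₀ (by norm_num) this
  generalize 8 * (t : ℤ) * t + 7 * t + 1 = n at h1
  refine ⟨Lc l a k 3 1 / 2, ?_, ?_⟩
  · omega
  · omega

theorem cl5 (q : Qd A Y a k) (l : ℕ) (hk : coeff l k = 1 + (l : ℤ)) (hl : l % 8 = 5) :
    ∃ u : ℤ, Lc l a k 3 1 = 2 ^ 2 * u ∧ ¬ 2 ∣ u := by
  obtain ⟨w, y, hm⟩ := cl_main q l hk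
  obtain ⟨t, ht⟩ : ∃ t : ℕ, l = 8 * t + 5 := ⟨l / 8, by omega⟩
  obtain ⟨s3, h3⟩ := cl_d3 2 k w l fun i hi => kf5 q i (by omega)
  obtain ⟨c, hc⟩ := lc8 q l
  -- the sum S1 is `4 S2` modulo 8
  have h4 : (8 : ℤ) ∣ coeff l ((k - C (4 : ℤ) * (k * E k)) * E k) := by
    refine cl_d1 q 8 _ l fun i m him hm1 => Dvd.dvd.mul_right ?_ _
    rw [map_sub, cl_C]
    have h5 : i % 8 = 3 ∨ i % 8 = 7 := by omega
    rcases h5 with h5 | h5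
    · obtain ⟨t', s', e1, e2⟩ := kt3 q i h5
      rw [e1, e2]
      omega
    · have e1 := kf7 q i h5
      have e2 := kek7 q i h5
      omega
  obtain ⟨z, hz⟩ := cl_sq q
  have c8 : (8 : ℤ⟦X⟧) = C (8 : ℤ) := (map_ofNat C 8).symm
  have h6 : (k - C (4 : ℤ) * (k * E k)) * E k = k * E k - C (4 : ℤ) * (k * E (E k)) -
      C (4 : ℤ) * (C (8 : ℤ) * (k * z)) := by
    have e : (k - C (4 : ℤ) * (k * E k)) * E k = k * E k - C (4 : ℤ) * (k * (E k * E k)) := by ring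
    rw [e, hz, ← c8]
    ring
  rw [h6, map_sub, map_sub, cl_C, cl_C, cl_C] at h4
  have h1 : coeff l (k * E k) + 7 * coeff l (k * E (E k)) + coeff l (k * E (E (E w))) + 8 * y =
      2 * (4 * (t : ℤ) * t + 5 * t + 1) + 1 := by
    have : (8 : ℤ) * (coeff l (k * E k) + 7 * coeff l (k * E (E k)) + coeff l (k * E (E (E w))) + 8 * y) =
        8 * (2 * (4 * (t : ℤ) * t + 5 * t + 1) + 1) := by
      rw [← hm, ht]
      push_cast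
      ring
    exact mul_left_cancel₀ (by norm_num) this
  generalize 4 * (t : ℤ) * t + 5 * t + 1 = n at h1
  obtain ⟨v, hv⟩ := h4
  refine ⟨Lc l a k 3 1 / 4, ?_, ?_⟩
  · omega
  · omega

theorem cl15 (q : Qd A Y a k) (l : ℕ) (hk : coeff l k = 1 + (l : ℤ)) (hl : l % 32 = 15) :
    ∃ u : ℤ, Lc l a k 3 1 = 2 ^ 2 * u ∧ ¬ 2 ∣ u := by
  obtain ⟨w, y, hm⟩ := cl_main q l hk
  obtain ⟨t, ht⟩ : ∃ t : ℕ, l = 32 * t + 15 := ⟨l / 32, by omega⟩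
  obtain ⟨s3, h3⟩ := cl_d3 8 k w l fun i hi => kf7 q i (by omega)
  obtain ⟨c, hc⟩ := lc8 q l
  -- `S2 = 4 T` modulo `8`
  have h4 : (8 : ℤ) ∣ coeff l ((k - C (4 : ℤ) * (k * E k)) * E (E k)) := by
    refine cl_d2 q 8 _ l fun i hi => ?_
    rw [map_sub, cl_C]
    obtain ⟨t', s', e1, e2⟩ := kt3 q i (by omega)
    rw [e1, e2]
    omega
  have h4' : (k - C (4 : ℤ) * (k * E k)) * E (E k) = k * E (E k) - C (4 : ℤ) * (k * E k * E (E k)) := by ring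
  rw [h4', map_sub, cl_C] at h4
  -- `S1 = 2 T` modulo `4`
  have h5 : (4 : ℤ) ∣ coeff l ((k - C (2 : ℤ) * (k * E (E k))) * E k) := by
    refine cl_d1 q 4 _ l fun i m him hm1 => ?_
    have h6 : m % 4 = 1 ∨ m % 4 = 3 := by omega
    rcases h6 with h6 | h6
    · refine Dvd.dvd.mul_right ?_ _
      rw [map_sub, cl_C]
      obtain ⟨t', s', e1, e2⟩ := kt5 q i (by omega)
      rw [e1, e2]
      omega
    · refine Dvd.dvd.mul_left ?_ _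
      have h7 : m % 8 = 3 ∨ m % 8 = 7 := by omega
      rcases h7 with h7 | h7
      · exact kf3 q m h7
      · have := kf7 q m h7
        omega
  have h5' : (k - C (2 : ℤ) * (k * E (E k))) * E k = k * E k - C (2 : ℤ) * (k * E k * E (E k)) := by ring
  rw [h5', map_sub, cl_C] at h5
  have h1 : coeff l (k * E k) + 7 * coeff l (k * E (E k)) + coeff l (k * E (E (E w))) + 8 * y =
      8 * (16 * (t : ℤ) * t + 15 * t + 3) + 4 := by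
    have : (8 : ℤ) * (coeff l (k * E k) + 7 * coeff l (k * E (E k)) + coeff l (k * E (E (E w))) + 8 * y) =
        8 * (8 * (16 * (t : ℤ) * t + 15 * t + 3) + 4) := by
      rw [← hm, ht]
      push_cast
      ring
    exact mul_left_cancel₀ (by norm_num) this
  generalize 16 * (t : ℤ) * t + 15 * t + 3 = n at h1
  obtain ⟨v, hv⟩ := h4
  obtain ⟨v', hv'⟩ := h5
  refine ⟨Lc l a k 3 1 / 4, ?_, ?_⟩
  · omega
  · omega

end Pool.Agent.Lib.MP_06b9d2_tl2
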