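import Mathlib

/-!
MP_06b9d2_nt, transfer of irreducibility. The Hecke operators commute (coefficients).
-/

namespace Pool.Agent.Lib.MP_06b9d2_tl2

private def CS (r m n : ℕ) : Finset (ℕ × ℕ) :=
  ((r * m * n).divisors ×ˢ (r * m * n).divisors).filter
    (fun p => p.1 ∣ r ∧ p.1 ∣ m ∧ p.2 ∣ n ∧ p.1 ^ 2 * p.2 ∣ r * m)

private def ci (m n : ℕ) (p : ℕ × ℕ) : ℕ × ℕ :=
  (p.1 * Nat.gcd (p.1 * p.2) n / Nat.gcd (p.1 * p.2) m, p.2 * Nat.gcd (p.1 * p.2) m / Nat.gcd (p.1 * p.2) n)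

private theorem ci_facts {r m n e d : ℕ} (he : 0 < e) (hd : 0 < d)
    (h1 : e ∣ r) (h2 : e ∣ m) (h3 : d ∣ n) (h4 : e ^ 2 * d ∣ r * m) :
    ∃ e' d' : ℕ, ci m n (e, d) = (e', d') ∧ e' * d' = e * d ∧ e' ∣ r ∧ e' ∣ n ∧ d' ∣ m ∧ e' ^ 2 * d' ∣ r * n ∧
      ci n m (e', d') = (e, d) := by
  obtain ⟨x, hx⟩ : ∃ x, x = e * d := ⟨_, rfl⟩
  obtain ⟨g, hg⟩ : ∃ g, g = Nat.gcd x m := ⟨_, rfl⟩
  obtain ⟨h, hh⟩ : ∃ h, h = Nat.gcd x n := ⟨_, rfl⟩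
  have hx0 : 0 < x := hx ▸ Nat.mul_pos he hd
  have hg0 : 0 < g := hg ▸ Nat.gcd_pos_of_pos_left _ hx0
  have hh0 : 0 < h := hh ▸ Nat.gcd_pos_of_pos_left _ hx0
  have hgx : g ∣ x := hg ▸ Nat.gcd_dvd_left _ _
  have hgm : g ∣ m := hg ▸ Nat.gcd_dvd_right _ _
  have hhx : h ∣ x := hh ▸ Nat.gcd_dvd_left _ _
  have hhn : h ∣ n := hh ▸ Nat.gcd_dvd_right _ _
  have heg : e ∣ g := hg ▸ Nat.dvd_gcd (hx ▸ Dvd.intro _ rfl) h2
  have hdh : d ∣ h := hh ▸ Nat.dvd_gcd (hx ▸ Dvd.intro_left _ rfl) h3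
  have a1 : g ∣ e * h := hgx.trans (hx ▸ Nat.mul_dvd_mul_left e hdh)
  have a2 : h ∣ d * g := hhx.trans (by rw [hx, mul_comm d g]; exact Nat.mul_dvd_mul_right heg d)
  obtain ⟨e', he'⟩ := a1
  obtain ⟨d', hd'⟩ := a2
  have b1 : e * h / g = e' := by rw [he', Nat.mul_div_cancel_left _ hg0]
  have b2 : d * g / h = d' := by rw [hd', Nat.mul_div_cancel_left _ hh0]
  have hed : e' * d' = e * d := by
    have : (g * h) * (e' * d') = (g * h) * (e * d) := by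
      calc (g * h) * (e' * d') = (g * e') * (h * d') := by ring
        _ = (e * h) * (d * g) := by rw [he', hd']
        _ = (g * h) * (e * d) := by ring
    exact Nat.eq_of_mul_eq_mul_left (Nat.mul_pos hg0 hh0) this
  have c1 : e' ∣ h := by
    obtain ⟨g1, hg1⟩ := heg
    have : e * (e' * g1) = e * h := by rw [he', hg1]; ring
    exact ⟨g1, (Nat.eq_of_mul_eq_mul_left he this).symm⟩
  have c2 : d' ∣ g := by
    obtain ⟨h1', hh1⟩ := hdh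
    have : d * (d' * h1') = d * g := by rw [hd', hh1]; ring
    exact ⟨h1', (Nat.eq_of_mul_eq_mul_left hd this).symm⟩
  have hex : e * x ∣ r * m := by
    rw [hx]
    have : e * (e * d) = e ^ 2 * d := by ring
    rw [this]
    exact h4
  have c3 : e' ∣ r := by
    have k1 : e * h ∣ r * g := by
      rw [hg, ← Nat.gcd_mul_left]
      refine Nat.dvd_gcd (Nat.mul_dvd_mul h1 hhx) ?_
      exact (Nat.mul_dvd_mul_left e hhx).trans hex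
    rw [he', mul_comm r g] at k1
    exact Nat.dvd_of_mul_dvd_mul_left hg0 k1
  have c4 : e' ^ 2 * d' ∣ r * n := by
    have k0 : e' ^ 2 * d' = e' * x := by rw [hx, ← hed]; ring
    rw [k0]
    have k1 : (e * h) * x ∣ (r * n) * g := by
      rw [hg, ← Nat.gcd_mul_left]
      refine Nat.dvd_gcd (Nat.mul_dvd_mul_right (Nat.mul_dvd_mul h1 hhn) x) ?_
      have k2 : (e * x) * h ∣ (r * m) * n := Nat.mul_dvd_mul hex hhn
      have k3 : (e * h) * x = (e * x) * h := by ring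
      have k4 : (r * n) * m = (r * m) * n := by ring
      rw [k3, k4]
      exact k2
    have k5 : (e * h) * x = g * (e' * x) := by rw [he']; ring
    rw [k5, mul_comm (r * n) g] at k1
    exact Nat.dvd_of_mul_dvd_mul_left hg0 k1
  refine ⟨e', d', ?_, hed, c3, c1.trans hhn, c2.trans hgm, c4, ?_⟩
  · simp only [ci, ← hx, ← hg, ← hh, b1, b2]
  · have hx' : e' * d' = x := by rw [hed, hx]
    simp only [ci, hx', ← hg, ← hh]
    have d1 : e' * g / h = e := by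
      rw [mul_comm e' g, ← he', Nat.mul_div_cancel _ hh0]
    have d2 : d' * h / g = d := by
      rw [mul_comm d' h, ← hd', Nat.mul_div_cancel _ hg0]
    rw [d1, d2]

private theorem mem_CS {r m n e d : ℕ} (hr : 0 < r) (hm : 0 < m) (hn : 0 < n) :
    (e, d) ∈ CS r m n ↔ 0 < e ∧ 0 < d ∧ e ∣ r ∧ e ∣ m ∧ d ∣ n ∧ e ^ 2 * d ∣ r * m := by
  unfold CS
  rw [Finset.mem_filter, Finset.mem_product, Nat.mem_divisors, Nat.mem_divisors]
  simp only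
  have h0 : r * m * n ≠ 0 := (Nat.mul_pos (Nat.mul_pos hr hm) hn).ne'
  constructor
  · rintro ⟨⟨⟨h1, _⟩, h2, _⟩, h3, h4, h5, h6⟩
    exact ⟨Nat.pos_of_dvd_of_pos h1 (Nat.pos_of_ne_zero h0), Nat.pos_of_dvd_of_pos h2 (Nat.pos_of_ne_zero h0),
      h3, h4, h5, h6⟩
  · rintro ⟨h1, h2, h3, h4, h5, h6⟩
    exact ⟨⟨⟨(h3.mul_right m).mul_right n, h0⟩, h5.mul_left _, h0⟩, h3, h4, h5, h6⟩

private theorem sum_CS (w c : ℕ → ℂ) (hw : ∀ a b, w (a * b) = w a * w b) {r m n : ℕ} (hr : 0 < r) (hm : 0 < m)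
    (hn : 0 < n) :
    ∑ e ∈ (Nat.gcd r m).divisors, w e * ∑ d ∈ (Nat.gcd (r * m / e ^ 2) n).divisors,
        w d * c (r * m / e ^ 2 * n / d ^ 2) =
      ∑ p ∈ CS r m n, w (p.1 * p.2) * c (r * m * n / (p.1 * p.2) ^ 2) := by
  classical
  simp only [Finset.mul_sum]
  rw [Finset.sum_sigma']
  have hrm : 0 < r * m := Nat.mul_pos hr hm
  have key : ∀ e d : ℕ, e ∣ r → e ∣ m → 0 < e → ∃ t, r * m = e ^ 2 * t ∧ r * m / e ^ 2 = t ∧ 0 < t := by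
    intro e d h1 h2 h3
    have h4 : e ^ 2 ∣ r * m := by rw [sq]; exact Nat.mul_dvd_mul h1 h2
    obtain ⟨t, ht⟩ := h4
    refine ⟨t, ht, ?_, ?_⟩
    · rw [ht, Nat.mul_div_cancel_left _ (pow_pos h3 2)]
    · rcases Nat.eq_zero_or_pos t with h5 | h5
      · rw [h5, mul_zero] at ht
        omega
      · exact h5
  refine Finset.sum_bij' (fun p _ => (p.1, p.2)) (fun p _ => ⟨p.1, p.2⟩) ?_ ?_ ?_ ?_ ?_
  · rintro ⟨e, d⟩ hp
    rw [Finset.mem_sigma, Nat.mem_divisors, Nat.mem_divisors, Nat.dvd_gcd_iff, Nat.dvd_gcd_iff] at hp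
    obtain ⟨⟨⟨h1, h2⟩, _⟩, ⟨h3, h4⟩, _⟩ := hp
    simp only at h1 h2 h3 h4
    have he : 0 < e := Nat.pos_of_dvd_of_pos h1 hr
    obtain ⟨t, ht1, ht2, ht3⟩ := key e d h1 h2 he
    rw [mem_CS hr hm hn]
    refine ⟨he, Nat.pos_of_dvd_of_pos h4 hn, h1, h2, h4, ?_⟩
    rw [ht1]
    exact Nat.mul_dvd_mul_left _ (ht2 ▸ h3)
  · rintro ⟨e, d⟩ hp
    rw [mem_CS hr hm hn] at hp
    obtain ⟨he, hd, h1, h2, h3, h4⟩ := hp
    obtain ⟨t, ht1, ht2, ht3⟩ := key e d h1 h2 he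
    rw [Finset.mem_sigma, Nat.mem_divisors, Nat.mem_divisors, Nat.dvd_gcd_iff, Nat.dvd_gcd_iff]
    simp only
    refine ⟨⟨⟨h1, h2⟩, (Nat.gcd_pos_of_pos_left _ hr).ne'⟩, ⟨?_, h3⟩, (Nat.gcd_pos_of_pos_right _ hn).ne'⟩
    rw [ht2]
    rw [ht1] at h4
    exact Nat.dvd_of_mul_dvd_mul_left (pow_pos he 2) h4
  · rintro ⟨e, d⟩ _
    rfl
  · rintro ⟨e, d⟩ _
    rfl
  · rintro ⟨e, d⟩ hp
    rw [Finset.mem_sigma, Nat.mem_divisors, Nat.mem_divisors, Nat.dvd_gcd_iff, Nat.dvd_gcd_iff] at hp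
    obtain ⟨⟨⟨h1, h2⟩, _⟩, ⟨h3, h4⟩, _⟩ := hp
    simp only at h1 h2 h3 h4
    have he : 0 < e := Nat.pos_of_dvd_of_pos h1 hr
    obtain ⟨t, ht1, ht2, ht3⟩ := key e d h1 h2 he
    simp only
    rw [hw, mul_assoc, ht2]
    congr 3
    rw [ht1, mul_pow, mul_assoc, Nat.mul_div_mul_left _ _ (pow_pos he 2)]

theorem hecke_sum_comm (w c : ℕ → ℂ) (hw : ∀ a b, w (a * b) = w a * w b) {r m n : ℕ} (hr : 0 < r) (hm : 0 < m)
    (hn : 0 < n) :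
    ∑ e ∈ (Nat.gcd r m).divisors, w e * ∑ d ∈ (Nat.gcd (r * m / e ^ 2) n).divisors,
        w d * c (r * m / e ^ 2 * n / d ^ 2) =
      ∑ e ∈ (Nat.gcd r n).divisors, w e * ∑ d ∈ (Nat.gcd (r * n / e ^ 2) m).divisors,
        w d * c (r * n / e ^ 2 * m / d ^ 2) := by
  rw [sum_CS w c hw hr hm hn, sum_CS w c hw hr hn hm]
  refine Finset.sum_bij' (fun p _ => ci m n p) (fun p _ => ci n m p) ?_ ?_ ?_ ?_ ?_
  · rintro ⟨e, d⟩ hp
    rw [mem_CS hr hm hn] at hp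
    obtain ⟨he, hd, h1, h2, h3, h4⟩ := hp
    obtain ⟨e', d', k1, k2, k3, k4, k5, k6, _⟩ := ci_facts he hd h1 h2 h3 h4
    rw [k1, mem_CS hr hn hm]
    have hpos : 0 < e' * d' := k2 ▸ Nat.mul_pos he hd
    exact ⟨Nat.pos_of_mul_pos_right hpos, Nat.pos_of_mul_pos_left hpos, k3, k4, k5, k6⟩
  · rintro ⟨e, d⟩ hp
    rw [mem_CS hr hn hm] at hp
    obtain ⟨he, hd, h1, h2, h3, h4⟩ := hp
    obtain ⟨e', d', k1, k2, k3, k4, k5, k6, _⟩ := ci_facts he hd h1 h2 h3 h4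
    rw [k1, mem_CS hr hm hn]
    have hpos : 0 < e' * d' := k2 ▸ Nat.mul_pos he hd
    exact ⟨Nat.pos_of_mul_pos_right hpos, Nat.pos_of_mul_pos_left hpos, k3, k4, k5, k6⟩
  · rintro ⟨e, d⟩ hp
    rw [mem_CS hr hm hn] at hp
    obtain ⟨he, hd, h1, h2, h3, h4⟩ := hp
    obtain ⟨e', d', k1, k2, k3, k4, k5, k6, k7⟩ := ci_facts he hd h1 h2 h3 h4
    rw [k1, k7]
  · rintro ⟨e, d⟩ hp
    rw [mem_CS hr hn hm] at hp
    obtain ⟨he, hd, h1, h2, h3, h4⟩ := hp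
    obtain ⟨e', d', k1, k2, k3, k4, k5, k6, k7⟩ := ci_facts he hd h1 h2 h3 h4
    rw [k1, k7]
  · rintro ⟨e, d⟩ hp
    rw [mem_CS hr hm hn] at hp
    obtain ⟨he, hd, h1, h2, h3, h4⟩ := hp
    obtain ⟨e', d', k1, k2, k3, k4, k5, k6, k7⟩ := ci_facts he hd h1 h2 h3 h4
    simp only
    rw [k1]
    simp only
    rw [k2, show r * n * m = r * m * n by ring]

end Pool.Agent.Lib.MP_06b9d2_tl2
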