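import Mathlib

/-!
MP_06b9d2_nt, transfer of irreducibility. Linear algebra: commuting matrices `A`, `B`; if the
characteristic polynomial of `B` is irreducible and the one of `A` is separable then the one of `A` is
irreducible and has the same splitting field.
-/

namespace Pool.Agent.Lib.MP_06b9d2_tl2

open Polynomial

variable {d : ℕ}

/-- the commutant of a matrix with irreducible characteristic polynomial -/
theorem comm_poly_rat {F : Type} [Field F] (A B : Matrix (Fin d) (Fin d) F) (hc : A * B = B * A)
    (hB : Irreducible B.charpoly) : ∃ P : F[X], A = aeval B P := by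
  classical
  have hd : 0 < d := by
    rcases Nat.eq_zero_or_pos d with rfl | h
    · exfalso
      have h1 : B.charpoly = 1 := by
        rw [Matrix.charpoly, Matrix.det_isEmpty]
      rw [h1] at hB
      exact hB.not_isUnit isUnit_one
    · exact h
  have hdeg : B.charpoly.natDegree = d := by
    rw [Matrix.charpoly_natDegree_eq_dim, Fintype.card_fin]
  -- a nonzero vector
  set v : Fin d → F := Pi.single ⟨0, hd⟩ 1 with hv
  have hv0 : v ≠ 0 := by
    intro h
    have := congrFun h ⟨0, hd⟩
    rw [hv, Pi.single_eq_same] at this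
    exact one_ne_zero this
  -- the linear map `P ↦ P(B) v` from polynomials of degree `< d`
  let L : Polynomial.degreeLT F d →ₗ[F] (Fin d → F) :=
    { toFun := fun P => (aeval B (P : F[X])).mulVec v
      map_add' := by
        intro P Q
        simp only [Submodule.coe_add, map_add, Matrix.add_mulVec]
      map_smul' := by
        intro c P
        simp only [Submodule.coe_smul, map_smul, Matrix.smul_mulVec, RingHom.id_apply] }
  have hL : Function.Injective L := by
    rw [← LinearMap.ker_eq_bot, LinearMap.ker_eq_bot']
    rintro ⟨P, hP⟩ h0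
    have h1 : (aeval B P).mulVec v = 0 := h0
    by_contra hne
    have hP0 : P ≠ 0 := by
      rintro rfl
      exact hne rfl
    have hcop : IsCoprime B.charpoly P := by
      rw [hB.coprime_iff_not_dvd]
      intro hdvd
      have h2 := Polynomial.natDegree_le_of_dvd hdvd hP0
      rw [Polynomial.mem_degreeLT] at hP
      have h3 : P.natDegree < d := by
        rw [Polynomial.natDegree_lt_iff_degree_lt hP0]
        exact hP
      omega
    obtain ⟨u, w, huw⟩ := hcop
    have h2 : aeval B (u * B.charpoly + w * P) = 1 := by
      rw [huw, map_one]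
    rw [map_add, map_mul, map_mul, Matrix.aeval_self_charpoly, mul_zero, zero_add] at h2
    have h3 : v = 0 := by
      calc v = (1 : Matrix (Fin d) (Fin d) F).mulVec v := (Matrix.one_mulVec v).symm
        _ = (aeval B w * aeval B P).mulVec v := by rw [h2]
        _ = 0 := by rw [← Matrix.mulVec_mulVec, h1, Matrix.mulVec_zero]
    exact hv0 h3
  have hfin : Module.finrank F (Polynomial.degreeLT F d) = Module.finrank F (Fin d → F) := by
    rw [LinearEquiv.finrank_eq (Polynomial.degreeLTEquiv F d)]
  have : FiniteDimensional F (Polynomial.degreeLT F d) :=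
    Module.Finite.equiv (Polynomial.degreeLTEquiv F d).symm
  have hLs : Function.Surjective L := (LinearMap.injective_iff_surjective_of_finrank_eq_finrank hfin).1 hL
  obtain ⟨⟨P, _⟩, hP⟩ := hLs (A.mulVec v)
  have hP' : (aeval B P).mulVec v = A.mulVec v := hP
  refine ⟨P, ?_⟩
  have hcQ : ∀ Q : F[X], A * aeval B Q = aeval B Q * A := by
    intro Q
    have h1 : Commute A B := hc
    have h2 : Commute A (aeval B Q) := by
      induction Q using Polynomial.induction_on' with
      | add p q hp hq => rw [map_add]; exact hp.add_right hq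
      | monomial n c =>
        rw [aeval_monomial]
        exact (Algebra.commute_algebraMap_right c A).mul_right (h1.pow_right n)
    exact h2
  apply Matrix.ext_of_mulVec_single
  intro i
  obtain ⟨⟨Q, _⟩, hQ⟩ := hLs (Pi.single i 1)
  have hQ' : (aeval B Q).mulVec v = Pi.single i 1 := hQ
  rw [← hQ', Matrix.mulVec_mulVec, Matrix.mulVec_mulVec, hcQ, ← map_mul, mul_comm P Q, map_mul,
    ← Matrix.mulVec_mulVec, ← Matrix.mulVec_mulVec, hP']

/-- two generators of a finite extension: the same splitting field -/
theorem gal_field {F K : Type} [Field F] [Field K] [Algebra F K] [FiniteDimensional F K] (α β : K)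
    (hα : IntermediateField.adjoin F {α} = ⊤) (hβ : IntermediateField.adjoin F {β} = ⊤) :
    Nonempty ((minpoly F α).Gal ≃* (minpoly F β).Gal) := by
  classical
  have hiα : IsIntegral F α := Algebra.IsIntegral.isIntegral α
  have hiβ : IsIntegral F β := Algebra.IsIntegral.isIntegral β
  have hirα : Irreducible (minpoly F α) := minpoly.irreducible hiα
  have hirβ : Irreducible (minpoly F β) := minpoly.irreducible hiβ
  -- the splitting field of the minimal polynomial of `β`
  let L := (minpoly F β).SplittingField
  have hN : Normal F L := Normal.of_isSplittingField (minpoly F β)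
  -- every root of `minpoly β` in `L` gives an embedding of `K`
  have hemb : ∀ y : L, aeval y (minpoly F β) = 0 → ∃ σ : K →ₐ[F] L, σ β = y := by
    intro y hy
    have h1 : (⊤ : IntermediateField F K) = IntermediateField.adjoin F {β} := hβ.symm
    let τ : IntermediateField.adjoin F {β} →ₐ[F] L :=
      (IntermediateField.adjoin.powerBasis hiβ).lift y (by
        rw [IntermediateField.adjoin.powerBasis_gen, IntermediateField.minpoly_gen]
        exact hy)
    let e : K →ₐ[F] IntermediateField.adjoin F {β} :=
      ((IntermediateField.equivOfEq h1).toAlgHom).comp IntermediateField.topEquiv.symm.toAlgHom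
    refine ⟨τ.comp e, ?_⟩
    have h2 : e β = (IntermediateField.adjoin.powerBasis hiβ).gen := by
      rw [IntermediateField.adjoin.powerBasis_gen]
      apply Subtype.ext
      rfl
    rw [AlgHom.comp_apply, h2]
    exact PowerBasis.lift_gen _ _ _
  -- `β = R(α)`
  obtain ⟨R, hR⟩ : ∃ R : F[X], aeval α R = β := by
    have h1 : β ∈ IntermediateField.adjoin F {α} := by
      rw [hα]
      trivial
    rw [← IntermediateField.mem_toSubalgebra,
      IntermediateField.adjoin_simple_toSubalgebra_of_isAlgebraic (hiα.isAlgebraic),
      Algebra.adjoin_singleton_eq_range_aeval] at h1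
    exact h1
  have hsplβ : ((minpoly F β).map (algebraMap F L)).Splits := SplittingField.splits _
  have hdegβ : (minpoly F β).natDegree ≠ 0 := (minpoly.natDegree_pos hiβ).ne'
  obtain ⟨y0, hy0⟩ : ∃ y : L, aeval y (minpoly F β) = 0 := by
    obtain ⟨y, hy⟩ := hsplβ.exists_eval_eq_zero (by
      rw [Polynomial.degree_map]
      intro h
      apply hdegβ
      exact natDegree_eq_zero_iff_degree_le_zero.2 h.le)
    refine ⟨y, ?_⟩
    rwa [eval_map_algebraMap] at hy
  obtain ⟨σ0, _⟩ := hemb y0 hy0
  have hrootα : ∀ σ : K →ₐ[F] L, aeval (σ α) (minpoly F α) = 0 := by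
    intro σ
    rw [Polynomial.aeval_algHom_apply, minpoly.aeval, map_zero]
  have hsplα : ((minpoly F α).map (algebraMap F L)).Splits := by
    have h1 : minpoly F (σ0 α) = minpoly F α :=
      minpoly.algHom_eq σ0 σ0.injective α
    rw [← h1]
    exact hN.splits (σ0 α)
  have hIS : (minpoly F α).IsSplittingField F L := by
    refine ⟨hsplα, ?_⟩
    rw [eq_top_iff, ← SplittingField.adjoin_rootSet (minpoly F β)]
    refine Algebra.adjoin_le ?_
    intro y hy
    have hy' : aeval y (minpoly F β) = 0 := (Polynomial.mem_rootSet.1 hy).2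
    obtain ⟨σ, hσ⟩ := hemb y hy'
    have h1 : y = aeval (σ α) R := by
      rw [Polynomial.aeval_algHom_apply, hR, hσ]
    rw [h1]
    have h2 : σ α ∈ Algebra.adjoin F ((minpoly F α).rootSet L) := by
      refine Algebra.subset_adjoin ?_
      rw [Polynomial.mem_rootSet]
      exact ⟨hirα.ne_zero, hrootα σ⟩
    exact Algebra.adjoin_le (Set.singleton_subset_iff.2 h2) (Polynomial.aeval_mem_adjoin_singleton F (σ α))
  exact ⟨AlgEquiv.autCongr (IsSplittingField.algEquiv L (minpoly F α)).symm⟩

/-- transfer: `A` commutes with `B`, the characteristic polynomial of `B` is irreducible and the one of `A` is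
separable -/
theorem trf_alg {F : Type} [Field F] (A B : Matrix (Fin d) (Fin d) F) (hc : A * B = B * A)
    (hB : Irreducible B.charpoly) (hA : A.charpoly.Separable) :
    Irreducible A.charpoly ∧ Nonempty (A.charpoly.Gal ≃* B.charpoly.Gal) := by
  classical
  obtain ⟨P, hP⟩ := comm_poly_rat A B hc hB
  have hfact : Fact (Irreducible B.charpoly) := ⟨hB⟩
  have hmB : B.charpoly.Monic := B.charpoly_monic
  have hmA : A.charpoly.Monic := A.charpoly_monic
  have hdB : B.charpoly.natDegree = d := by
    rw [Matrix.charpoly_natDegree_eq_dim, Fintype.card_fin]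
  have hdA : A.charpoly.natDegree = d := by
    rw [Matrix.charpoly_natDegree_eq_dim, Fintype.card_fin]
  have hfinK : FiniteDimensional F (AdjoinRoot B.charpoly) :=
    (AdjoinRoot.powerBasis hB.ne_zero).finite
  have hrank : Module.finrank F (AdjoinRoot B.charpoly) = d := by
    rw [(AdjoinRoot.powerBasis hB.ne_zero).finrank, AdjoinRoot.powerBasis_dim, hdB]
  obtain ⟨α, hα⟩ : ∃ α : AdjoinRoot B.charpoly, α = AdjoinRoot.mk B.charpoly P := ⟨_, rfl⟩
  have hmin : minpoly F (AdjoinRoot.root B.charpoly) = B.charpoly := by
    rw [AdjoinRoot.minpoly_root hB.ne_zero, hmB.leadingCoeff, inv_one, C_1, mul_one]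
  have hβ : IntermediateField.adjoin F {AdjoinRoot.root B.charpoly} = ⊤ := by
    rw [Field.primitive_element_iff_minpoly_natDegree_eq, hmin, hrank, hdB]
  have hiα : IsIntegral F α := Algebra.IsIntegral.isIntegral α
  -- annihilating polynomials of `B`
  have hann : ∀ Q : F[X], aeval B Q = 0 → B.charpoly ∣ Q := by
    intro Q hQ
    by_contra hnd
    obtain ⟨u, w, huw⟩ := (hB.coprime_iff_not_dvd).2 hnd
    have h2 : aeval B (u * B.charpoly + w * Q) = 1 := by
      rw [huw, map_one]
    rw [map_add, map_mul, map_mul, Matrix.aeval_self_charpoly, mul_zero, zero_add, hQ, mul_zero] at h2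
    have h3 : B.charpoly = 1 := by
      have hs : Subsingleton (Matrix (Fin d) (Fin d) F) := subsingleton_of_zero_eq_one h2
      have hd0 : d = 0 := by
        by_contra hd
        have h4 := congrFun (congrFun h2 ⟨0, Nat.pos_of_ne_zero hd⟩) ⟨0, Nat.pos_of_ne_zero hd⟩
        rw [Matrix.zero_apply, Matrix.one_apply_eq] at h4
        exact zero_ne_one h4
      rw [← hmB.natDegree_eq_zero, hdB, hd0]
    rw [h3] at hB
    exact hB.not_isUnit isUnit_one
  have hcomp : ∀ S : F[X], aeval A S = aeval B (S.comp P) := by
    intro S
    rw [hP, Polynomial.aeval_comp]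
  have hcomp2 : ∀ S : F[X], aeval α S = AdjoinRoot.mk B.charpoly (S.comp P) := by
    intro S
    have h1 : AdjoinRoot.mk B.charpoly P = aeval (AdjoinRoot.root B.charpoly) P := (AdjoinRoot.aeval_eq P).symm
    rw [hα, h1, ← Polynomial.aeval_comp, AdjoinRoot.aeval_eq]
  have hiff : ∀ S : F[X], aeval A S = 0 ↔ aeval α S = 0 := by
    intro S
    rw [hcomp, hcomp2, AdjoinRoot.mk_eq_zero]
    constructor
    · exact hann _
    · rintro ⟨T, hT⟩
      rw [hT, map_mul, Matrix.aeval_self_charpoly, zero_mul]
  have hdvd : minpoly F α ∣ A.charpoly := minpoly.dvd _ _ ((hiff _).1 (Matrix.aeval_self_charpoly A))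
  have hAm : aeval A (minpoly F α) = 0 := (hiff _).2 (minpoly.aeval F α)
  -- the roots
  have hroots : ∀ z : AlgebraicClosure F, aeval z A.charpoly = 0 → aeval z (minpoly F α) = 0 := by
    intro z hz
    have h1 : (Matrix.scalar (Fin d) z - A.map (algebraMap F (AlgebraicClosure F))).det = 0 := by
      rw [← Matrix.eval_charpoly, Matrix.charpoly_map, eval_map_algebraMap]
      exact hz
    obtain ⟨v, hv0, hv⟩ := Matrix.exists_mulVec_eq_zero_iff.2 h1
    have h2 : (A.map (algebraMap F (AlgebraicClosure F))).mulVec v = z • v := by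
      rw [Matrix.sub_mulVec, sub_eq_zero] at hv
      rw [← hv]
      simp
    have h3 : Module.End.HasEigenvector (Matrix.toLin' (A.map (algebraMap F (AlgebraicClosure F)))) z v := by
      rw [Module.End.hasEigenvector_iff, Module.End.mem_eigenspace_iff]
      exact ⟨by rw [Matrix.toLin'_apply]; exact h2, hv0⟩
    have h4 := Module.End.aeval_apply_of_hasEigenvector h3 (p := (minpoly F α).map (algebraMap F (AlgebraicClosure F)))
    have h5 : aeval (Matrix.toLin' (A.map (algebraMap F (AlgebraicClosure F))))
        ((minpoly F α).map (algebraMap F (AlgebraicClosure F))) = 0 := by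
      have h6 : aeval (A.map (algebraMap F (AlgebraicClosure F)))
          ((minpoly F α).map (algebraMap F (AlgebraicClosure F))) = 0 := by
        rw [Polynomial.aeval_map_algebraMap]
        have h7 : A.map (algebraMap F (AlgebraicClosure F)) =
            (Algebra.ofId F (AlgebraicClosure F)).mapMatrix A := rfl
        rw [h7, Polynomial.aeval_algHom_apply, hAm, map_zero]
      have h8 : Matrix.toLin' (A.map (algebraMap F (AlgebraicClosure F))) =
          (Matrix.toLinAlgEquiv' (n := Fin d) (R := AlgebraicClosure F)).toAlgHom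
            (A.map (algebraMap F (AlgebraicClosure F))) := rfl
      rw [h8, Polynomial.aeval_algHom_apply, h6, map_zero]
    rw [h5, LinearMap.zero_apply, eval_map_algebraMap] at h4
    exact (smul_eq_zero.1 h4.symm).resolve_right hv0
  have hdeg : d ≤ (minpoly F α).natDegree := by
    have h0 : (minpoly F α).map (algebraMap F (AlgebraicClosure F)) ≠ 0 :=
      Polynomial.map_ne_zero (minpoly.ne_zero hiα)
    have h1 : (A.charpoly.map (algebraMap F (AlgebraicClosure F))).roots ≤
        ((minpoly F α).map (algebraMap F (AlgebraicClosure F))).roots := by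
      rw [Multiset.le_iff_subset (Polynomial.nodup_roots hA.map)]
      intro z hz
      rw [Polynomial.mem_roots h0, Polynomial.IsRoot.def, eval_map_algebraMap]
      have h2 := (Polynomial.mem_roots'.1 hz).2
      rw [Polynomial.IsRoot.def, eval_map_algebraMap] at h2
      exact hroots z h2
    have h2 := Multiset.card_le_card h1
    have h3 : Multiset.card (A.charpoly.map (algebraMap F (AlgebraicClosure F))).roots = d := by
      rw [IsAlgClosed.card_roots_eq_natDegree, Polynomial.natDegree_map, hdA]
    have h4 := Polynomial.card_roots' ((minpoly F α).map (algebraMap F (AlgebraicClosure F)))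
    rw [Polynomial.natDegree_map] at h4
    omega
  have heq : minpoly F α = A.charpoly :=
    (Polynomial.eq_of_monic_of_dvd_of_natDegree_le (minpoly.monic hiα) hmA hdvd (by rw [hdA]; exact hdeg)).symm
  have hαt : IntermediateField.adjoin F {α} = ⊤ := by
    rw [Field.primitive_element_iff_minpoly_natDegree_eq, heq, hrank, hdA]
  refine ⟨heq ▸ minpoly.irreducible hiα, ?_⟩
  have := gal_field α (AdjoinRoot.root B.charpoly) hαt hβ
  rw [heq, hmin] at this
  exact this

end Pool.Agent.Lib.MP_06b9d2_tl2
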