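import Pool.Agent.Lib.MP_06b9d2_tl2.Defs
import Pool.Agent.Lib.MP_06b9d2_tl2.An.CoreEx

/-!
Module TL2-CoreS: the analytic package of board TL2.
-/

namespace Pool.Agent.Lib.MP_06b9d2_tl2

open PowerSeries

private theorem br_conv (l : ℕ) (i : Option (Fin l)) (f : ℂ⟦X⟧) :
    Pool.Agent.Lib.MP_06b9d2_tls.br l l i f = An.br l i f := by
  cases i with
  | none => simp only [Pool.Agent.Lib.MP_06b9d2_tls.br, An.br, pow_two]
  | some b => rfl

theorem core_ex : ∃ A Y : ℂ⟦X⟧, Core A Y := by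
  obtain ⟨A, Y, h⟩ := An.core_ex
  refine ⟨A, Y, ⟨h.int, fun n hn => h.grA n (by omega), fun n hn => h.grY n (by omega), h.h4, ?_, h.b1, h.b2, ?_⟩⟩
  · rw [h.h6]
    ring
  · intro l hl h2 w P hP
    obtain ⟨P', hP', he⟩ := h.hecke l hl h2 w P hP
    refine ⟨P', hP', ?_⟩
    simp only [br_conv]
    exact he

end Pool.Agent.Lib.MP_06b9d2_tl2
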