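import Pool.Agent.Lib.MP_06b9d2_tl2.Cub
import Pool.Agent.Lib.MP_06b9d2_tls.Vb

/-!
Module TL2-Mat3. Integrality of the matrix and the entries from constant terms. (Model: `MP_06b9d2_tls/Mat3.lean`.)

`G' = Y ^ 2 / 64 = κ ^ 2` (integral coefficients, `x ^ 2 (1 + ..)`), `B = A ^ 2 - Y ^ 2` integral with constant coefficient `1`. `moX A Y a N s = 64 ^ s A ^ a B ^ (N - s) G' ^ s`. Put `m_j = M N j s 64 ^ j / 64 ^ s`: `∑_j m_j A ^ a B ^ (N - j) G' ^ j = TT (A ^ a B ^ (N - s) G' ^ s)` has integral coefficients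
(`TT l l w` has integral coefficients `l`, `(l * l) ^ w`) and the `j`-th summand is `m_j x ^ (2 j) (1 + ..)` with integral coefficients: induction on `j`: `m_j` is an integer. For `j ≤ s`: `M N j s = 64 ^ (s - j) m_j` (`mat_int`); for `s ≤ j ≤ N` by `sym` (`mat_int'`).
`mat_low` (`0 < s ≤ N`): the constant coefficient of `TT (moX A Y a N s)` is `0`, that of the right side is `M N 0 s`. `mat_00`: constant coefficients: `l + (l * l) ^ (2 N + a)`. `mat_NN`, `mat_top`: from `sym`.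
-/

namespace Pool.Agent.Lib.MP_06b9d2_tl2

open PowerSeries Pool.Agent.L1
open Pool.Agent.Lib.MP_06b9d2_tls (V U TT br In PC Ig tt EgG Two Tl)
open Pool.Agent.Lib.MP_06b9d2_tls (TT_coeff TT_smul)

variable {A Y : ℂ⟦X⟧} {l a : ℕ} {M : ℕ → ℕ → ℕ → ℂ}

private lemma m3_ind (N : ℕ) (W : ℕ → ℤ⟦X⟧) (hW1 : ∀ j, coeff (2 * j) (W j) = 1)
    (hW0 : ∀ i j, j < i → coeff (2 * j) (W i) = 0) (m : ℕ → ℂ) (F : ℤ⟦X⟧)
    (h : ∑ j ∈ Finset.range (N + 1), m j • PowerSeries.map (Int.castRingHom ℂ) (W j) =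
      PowerSeries.map (Int.castRingHom ℂ) F) :
    ∀ j ≤ N, m j ∈ (Int.castRingHom ℂ).range := by
  intro j
  induction j using Nat.strong_induction_on with
  | _ j ih =>
    intro hj
    have hc := congrArg (coeff (2 * j)) h
    simp only [map_sum, PowerSeries.coeff_smul, PowerSeries.coeff_map, smul_eq_mul] at hc
    have hsub : ∑ i ∈ Finset.range (j + 1), m i * (Int.castRingHom ℂ) (coeff (2 * j) (W i)) =
        ∑ i ∈ Finset.range (N + 1), m i * (Int.castRingHom ℂ) (coeff (2 * j) (W i)) := by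
      apply Finset.sum_subset
      · intro x hx
        simp only [Finset.mem_range] at hx ⊢
        omega
      · intro x _ hx
        simp only [Finset.mem_range] at hx
        rw [hW0 x j (by omega)]
        simp
    rw [← hsub, Finset.sum_range_succ, hW1 j, map_one, mul_one] at hc
    have e : m j = (Int.castRingHom ℂ) (coeff (2 * j) F) -
        ∑ i ∈ Finset.range j, m i * (Int.castRingHom ℂ) (coeff (2 * j) (W i)) := by
      rw [← hc]; ring
    rw [e]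
    apply Subring.sub_mem
    · exact ⟨_, rfl⟩
    · apply Subring.sum_mem
      intro i hi
      have hi' := Finset.mem_range.1 hi
      exact Subring.mul_mem _ (ih i hi' (by omega)) ⟨_, rfl⟩

private lemma m3_TT (l : ℕ) (w : ℕ) (F : ℤ⟦X⟧) :
    ∃ F' : ℤ⟦X⟧, TT l l w (PowerSeries.map (Int.castRingHom ℂ) F) =
      PowerSeries.map (Int.castRingHom ℂ) F' := by
  refine ⟨PowerSeries.mk fun n => (l : ℤ) * coeff (l * n) F +
    ((l : ℤ) * l) ^ w * (if l ∣ n then coeff (n / l) F else 0), ?_⟩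
  ext n
  rw [TT_coeff]
  simp only [PowerSeries.coeff_map, PowerSeries.coeff_mk]
  split_ifs <;> simp

/-- the integral forms -/
private lemma m3_W (h : Core A Y) (a N : ℕ) :
    ∃ W : ℕ → ℤ⟦X⟧, (∀ j, coeff (2 * j) (W j) = 1) ∧
      (∀ i j, j < i → coeff (2 * j) (W i) = 0) ∧
      ∀ j, moX A Y a N j = ((64 : ℂ) ^ j) • PowerSeries.map (Int.castRingHom ℂ) (W j) := by
  obtain ⟨A₁, κ, hA, hY, hA0, hκ0, hκ1⟩ := h.int
  obtain ⟨κ', hκ'⟩ := PowerSeries.X_dvd_iff.2 hκ0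
  have hc' : constantCoeff κ' = 1 := by
    have := hκ1
    rw [hκ'] at this
    rw [show (1 : ℕ) = 0 + 1 from rfl, PowerSeries.coeff_succ_X_mul] at this
    rw [← PowerSeries.coeff_zero_eq_constantCoeff_apply]
    exact this
  refine ⟨fun j => PowerSeries.X ^ (2 * j) *
    ((1 + 24 * A₁) ^ a * ((1 + 24 * A₁) ^ 2 - 64 * κ ^ 2) ^ (N - j) * κ' ^ (2 * j)), ?_, ?_, ?_⟩
  · intro j
    show coeff (2 * j) (PowerSeries.X ^ (2 * j) * _) = 1
    rw [PowerSeries.coeff_X_pow_mul', if_pos le_rfl, Nat.sub_self,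
      PowerSeries.coeff_zero_eq_constantCoeff_apply]
    simp [hA0, hκ0, hc']
  · intro i j hij
    show coeff (2 * j) (PowerSeries.X ^ (2 * i) * _) = 0
    rw [PowerSeries.coeff_X_pow_mul', if_neg (by omega)]
  · intro j
    have e1 : (PowerSeries.X ^ (2 * j) *
      ((1 + 24 * A₁) ^ a * ((1 + 24 * A₁) ^ 2 - 64 * κ ^ 2) ^ (N - j) * κ' ^ (2 * j)) : ℤ⟦X⟧) =
      (1 + 24 * A₁) ^ a * ((1 + 24 * A₁) ^ 2 - 64 * κ ^ 2) ^ (N - j) * (κ ^ 2) ^ j := by
      rw [hκ', ← pow_mul, mul_pow PowerSeries.X κ' (2 * j)]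
      ring
    show _ = ((64 : ℂ) ^ j) • PowerSeries.map (Int.castRingHom ℂ) (PowerSeries.X ^ (2 * j) *
      ((1 + 24 * A₁) ^ a * ((1 + 24 * A₁) ^ 2 - 64 * κ ^ 2) ^ (N - j) * κ' ^ (2 * j)))
    rw [e1, moX, hA, hY]
    simp only [map_mul, map_pow, map_sub, map_add, map_one, map_ofNat]
    rw [PowerSeries.smul_eq_C_mul, map_pow, map_ofNat]
    ring

theorem mat_int (h : Core A Y) (hl : l.Prime) (hl2 : l ≠ 2) (hM : MatD l A Y a M) (N j s : ℕ) (hj : j ≤ s)
    (hs : s ≤ N) : ∃ z : ℤ, M N j s = 64 ^ (s - j) * (z : ℂ) := by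
  obtain ⟨W, hW1, hW0, hWm⟩ := m3_W h a N
  obtain ⟨F', hF'⟩ := m3_TT l (2 * N + a) (W s)
  have hl0 : l ≠ 0 := hl.ne_zero
  have h64 : ∀ n : ℕ, (64 : ℂ) ^ n ≠ 0 := fun n => pow_ne_zero n (by norm_num)
  have heq := hM.eq N s hs
  rw [hWm s, TT_smul l hl0, hF'] at heq
  have key : ∑ i ∈ Finset.range (N + 1), (((64 : ℂ) ^ s)⁻¹ * (M N i s * 64 ^ i)) •
      PowerSeries.map (Int.castRingHom ℂ) (W i) = PowerSeries.map (Int.castRingHom ℂ) F' := by
    have h2 := congrArg (fun f => ((64 : ℂ) ^ s)⁻¹ • f) heq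
    simp only [smul_smul, inv_mul_cancel₀ (h64 s), one_smul, Finset.smul_sum] at h2
    rw [h2]
    apply Finset.sum_congr rfl
    intro i _
    rw [hWm i, smul_smul]
    congr 1
    ring
  obtain ⟨y, hy⟩ := m3_ind N W hW1 hW0 _ F' key j (hj.trans hs)
  refine ⟨y, ?_⟩
  have hy' : (y : ℂ) = ((64 : ℂ) ^ s)⁻¹ * (M N j s * 64 ^ j) := by rw [← hy]; simp
  rw [hy']
  have e2 : (64 : ℂ) ^ s = 64 ^ (s - j) * 64 ^ j := by rw [← pow_add]; congr 1; omega
  rw [e2]
  have := h64 (s - j)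
  have := h64 j
  field_simp

theorem mat_int' (h : Core A Y) (hl : l.Prime) (hl2 : l ≠ 2) (hM : MatD l A Y a M) (N j s : ℕ) (hj : s ≤ j)
    (hs : j ≤ N) : ∃ z : ℤ, M N j s = 64 ^ (j - s) * (z : ℂ) := by
  obtain ⟨y, hy⟩ := mat_int h hl hl2 hM N (N - j) (N - s) (by omega) (by omega)
  rw [hM.sym N j s hs (hj.trans hs)] at hy
  exact ⟨y, by rw [hy, show N - s - (N - j) = j - s by omega]⟩

private lemma m3_cc (h : Core A Y) (a N j : ℕ) :
    constantCoeff (moX A Y a N j) = if j = 0 then 1 else 0 := by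
  obtain ⟨A₁, κ, hA, hY, hA0, hκ0, hκ1⟩ := h.int
  have hA' : constantCoeff A = 1 := by
    rw [hA, ← PowerSeries.coeff_zero_eq_constantCoeff_apply, map_add]
    rw [PowerSeries.coeff_zero_eq_constantCoeff_apply, PowerSeries.coeff_zero_eq_constantCoeff_apply]
    rw [map_mul, map_one, ← PowerSeries.coeff_zero_eq_constantCoeff_apply (PowerSeries.map _ A₁),
      PowerSeries.coeff_map, PowerSeries.coeff_zero_eq_constantCoeff_apply, hA0]
    simp
  have hY' : constantCoeff Y = 0 := by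
    rw [hY, map_mul, ← PowerSeries.coeff_zero_eq_constantCoeff_apply (PowerSeries.map _ κ),
      PowerSeries.coeff_map, PowerSeries.coeff_zero_eq_constantCoeff_apply, hκ0]
    simp
  rw [moX]
  simp only [map_mul, map_pow, map_sub, hA', hY']
  split_ifs with h0
  · subst h0; simp
  · simp [h0]

private lemma m3_cc2 (h : Core A Y) (hM : MatD l A Y a M) (N s : ℕ) (hs : s ≤ N) :
    M N 0 s = (l + (l : ℂ) ^ (2 * (2 * N + a))) * (if s = 0 then 1 else 0) := by
  have heq := congrArg constantCoeff (hM.eq N s hs)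
  rw [← PowerSeries.coeff_zero_eq_constantCoeff_apply, TT_coeff, mul_zero,
    if_pos (dvd_zero l), Nat.zero_div, PowerSeries.coeff_zero_eq_constantCoeff_apply, m3_cc h,
    map_sum] at heq
  rw [Finset.sum_eq_single 0] at heq
  · rw [PowerSeries.smul_eq_C_mul, map_mul, PowerSeries.constantCoeff_C, m3_cc h, if_pos rfl,
      mul_one] at heq
    rw [← heq, pow_mul, pow_two]; ring
  · intro j _ hj
    rw [PowerSeries.smul_eq_C_mul, map_mul, m3_cc h, if_neg hj, mul_zero]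
  · intro hh
    exact absurd (Finset.mem_range.2 (Nat.succ_pos N)) hh

theorem mat_low (h : Core A Y) (hl : l.Prime) (hl2 : l ≠ 2) (hM : MatD l A Y a M) (N s : ℕ) (h0 : 0 < s)
    (hs : s ≤ N) : M N 0 s = 0 := by
  rw [m3_cc2 h hM N s hs, if_neg h0.ne', mul_zero]

theorem mat_top (h : Core A Y) (hl : l.Prime) (hl2 : l ≠ 2) (hM : MatD l A Y a M) (N s : ℕ) (hs : s < N) :
    M N N s = 0 := by
  have h2 := hM.sym N N s le_rfl hs.le
  rw [Nat.sub_self, mat_low h hl hl2 hM N (N - s) (by omega) (by omega)] at h2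
  exact h2.symm

theorem mat_00 (h : Core A Y) (hl : l.Prime) (hl2 : l ≠ 2) (hM : MatD l A Y a M) (N : ℕ) :
    M N 0 0 = l + (l : ℂ) ^ (2 * (2 * N + a)) := by
  rw [m3_cc2 h hM N 0 (Nat.zero_le N), if_pos rfl, mul_one]

theorem mat_NN (h : Core A Y) (hl : l.Prime) (hl2 : l ≠ 2) (hM : MatD l A Y a M) (N : ℕ) :
    M N N N = l + (l : ℂ) ^ (2 * (2 * N + a)) := by
  have h2 := hM.sym N 0 0 (Nat.zero_le N) (Nat.zero_le N)
  rw [Nat.sub_zero] at h2
  rw [h2, mat_00 h hl hl2 hM]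

end Pool.Agent.Lib.MP_06b9d2_tl2
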