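import Pool.Agent.Lib.MP_06b9d2_tl2.Qd
import Pool.Agent.Lib.MP_06b9d2_tl2.Mat3

/-!
Module TL2-Row. Two coefficients of the Hecke relation.

`hM.eq N s`, `moX_V`, `TT_V2`, `V_inj`: `TT l l (2 N + e) (map (fs e N s)) = ∑_j M N j s • map (fs e N j)`. Coefficient of `x ^ 1` and `x ^ 2` (`TT_coeff`; `l` does not divide `1`, `2`): `l coeff (l n) (fs e N s) = ∑_j M N j s coeff n (fs e N j)`.
`fs e N j` is divisible by `k ^ j`, so `coeff n (fs e N j) = 0` for `n < j`. With `a = 1 + 24 x ^ 2 + ..`, `k = x + 0 x ^ 2 + ..` (`a_cc`, `k1`): `a + 24 k = 1 + 24 x + 24 x ^ 2 + ..`, `a - 8 k = 1 - 8 x + 24 x ^ 2 + ..`, `64 k (a + 8 k) = 64 (x + 8 x ^ 2 + ..)`: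
`coeff 1 (fs e N 0) = 24 e - 16 N`, `coeff 1 (fs e N 1) = 64`, `coeff 2 (fs e N 0) = 128 N ^ 2 - 16 N + e (24 - 384 N)`, `coeff 2 (fs e N 1) = 64 (24 e + 24 - 16 N)` (`N ≥ 1`), `coeff 2 (fs e N 2) = 4096` (`e ≤ 1`).
(General `N` by the coefficients `0, 1, 2` of a power: `coeff 1 (f ^ n) = n f_1`, `coeff 2 (f ^ n) = n f_2 + C(n, 2) f_1 ^ 2` for `f_0 = 1`.) For `N = 0` in `row1`: `M 0 1 s = 0` (`hM.out`).
-/

namespace Pool.Agent.Lib.MP_06b9d2_tl2

open PowerSeries Pool.Agent.L1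
open Pool.Agent.Lib.MP_06b9d2_tls (V U TT br In PC Ig tt EgG Two Tl)

variable {A Y : ℂ⟦X⟧} {a k : ℤ⟦X⟧} {l e : ℕ} {M : ℕ → ℕ → ℕ → ℂ}

private def T3 (f : ℤ⟦X⟧) (x y z : ℤ) : Prop := coeff 0 f = x ∧ coeff 1 f = y ∧ coeff 2 f = z

private lemma T3.mul {f g : ℤ⟦X⟧} {x y z x' y' z' : ℤ} (hf : T3 f x y z) (hg : T3 g x' y' z') :
    T3 (f * g) (x * x') (x * y' + y * x') (x * z' + y * y' + z * x') := by
  obtain ⟨a0, a1, a2⟩ := hf
  obtain ⟨b0, b1, b2⟩ := hg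
  refine ⟨?_, ?_, ?_⟩
  · rw [PowerSeries.coeff_mul, Finset.Nat.antidiagonal_zero, Finset.sum_singleton, a0, b0]
  · rw [PowerSeries.coeff_mul, Finset.Nat.sum_antidiagonal_eq_sum_range_succ_mk, Finset.sum_range_succ,
      Finset.sum_range_succ, Finset.sum_range_zero]
    simp only [Nat.sub_zero, Nat.sub_self, a0, b1, a1, b0, zero_add]
  · rw [PowerSeries.coeff_mul, Finset.Nat.sum_antidiagonal_eq_sum_range_succ_mk, Finset.sum_range_succ,
      Finset.sum_range_succ, Finset.sum_range_succ, Finset.sum_range_zero]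
    simp only [Nat.sub_zero, Nat.sub_self, zero_add, show 2 - 1 = 1 from rfl, a0, b1, a1, b0, a2, b2]

private lemma T3.add {f g : ℤ⟦X⟧} {x y z x' y' z' : ℤ} (hf : T3 f x y z) (hg : T3 g x' y' z') :
    T3 (f + g) (x + x') (y + y') (z + z') := by
  obtain ⟨a0, a1, a2⟩ := hf
  obtain ⟨b0, b1, b2⟩ := hg
  refine ⟨?_, ?_, ?_⟩
  · rw [map_add, a0, b0]
  · rw [map_add, a1, b1]
  · rw [map_add, a2, b2]

private lemma T3.sub {f g : ℤ⟦X⟧} {x y z x' y' z' : ℤ} (hf : T3 f x y z) (hg : T3 g x' y' z') :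
    T3 (f - g) (x - x') (y - y') (z - z') := by
  obtain ⟨a0, a1, a2⟩ := hf
  obtain ⟨b0, b1, b2⟩ := hg
  refine ⟨?_, ?_, ?_⟩
  · rw [map_sub, a0, b0]
  · rw [map_sub, a1, b1]
  · rw [map_sub, a2, b2]

private lemma T3.num (c : ℤ) : T3 (C c) c 0 0 :=
  ⟨PowerSeries.coeff_zero_C c, by rw [PowerSeries.coeff_C, if_neg (by norm_num)],
    by rw [PowerSeries.coeff_C, if_neg (by norm_num)]⟩

private lemma T3.one : T3 1 1 0 0 := by
  have := T3.num 1
  rwa [map_one] at this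

private lemma T3.cast {f : ℤ⟦X⟧} {x y z x' y' z' : ℤ} (hf : T3 f x y z) (h0 : x = x') (h1 : y = y')
    (h2 : z = z') : T3 f x' y' z' := by
  subst h0 h1 h2
  exact hf

private lemma T3.pow {f : ℤ⟦X⟧} {y z : ℤ} (hf : T3 f 1 y z) (n : ℕ) :
    ∃ w, T3 (f ^ n) 1 (n * y) w ∧ 2 * w = 2 * n * z + n * (n - 1) * y ^ 2 := by
  induction n with
  | zero =>
    refine ⟨0, ?_, by simp⟩
    rw [pow_zero]
    exact T3.one.cast rfl (by simp) rfl
  | succ n ih =>
    obtain ⟨w, h1, h2⟩ := ih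
    refine ⟨w + n * y ^ 2 + z, ?_, ?_⟩
    · rw [pow_succ]
      refine (h1.mul hf).cast (by ring) (by push_cast; ring) (by ring)
    · push_cast
      linear_combination h2

private lemma co_a (q : Qd A Y a k) : T3 a 1 0 24 := by
  obtain ⟨c0, c1, c2, _, _⟩ := a_cc q
  exact ⟨c0, c1, c2⟩

private lemma co_k (q : Qd A Y a k) : T3 k 0 1 0 := by
  obtain ⟨_, _, _, c3, c4⟩ := a_cc q
  exact ⟨c3, q.k1, c4⟩

private lemma co_ck (q : Qd A Y a k) (c : ℤ) : T3 (C c * k) 0 c 0 :=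
  ((T3.num c).mul (co_k q)).cast (by ring) (by ring) (by ring)

private lemma num_C (n : ℕ) [n.AtLeastTwo] :
    (OfNat.ofNat n : ℤ⟦X⟧) = C (OfNat.ofNat n) := (map_ofNat (C : ℤ →+* ℤ⟦X⟧) n).symm

private lemma co_P (q : Qd A Y a k) (e : ℕ) (he : e ≤ 1) : T3 ((a + 24 * k) ^ e) 1 (24 * e) (24 * e) := by
  have h1 : T3 (a + 24 * k) 1 24 24 := by
    rw [num_C 24]
    exact ((co_a q).add (co_ck q 24)).cast rfl rfl rfl
  rcases Nat.le_one_iff_eq_zero_or_eq_one.1 he with rfl | rfl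
  · rw [pow_zero]
    exact T3.one.cast rfl (by simp) (by simp)
  · rw [pow_one]
    exact h1.cast rfl (by simp) (by simp)

private lemma co_Q (q : Qd A Y a k) (m : ℕ) :
    T3 (((a - 8 * k) ^ 2) ^ m) 1 (-16 * m) (128 * m ^ 2 - 16 * m) := by
  have h1 : T3 (a - 8 * k) 1 (-8) 24 := by
    rw [num_C 8]
    exact ((co_a q).sub (co_ck q 8)).cast rfl rfl rfl
  have h2 : T3 ((a - 8 * k) ^ 2) 1 (-16) 112 := by
    rw [pow_two]
    exact (h1.mul h1).cast rfl rfl rfl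
  obtain ⟨w, h3, h4⟩ := h2.pow m
  refine h3.cast rfl (by ring) ?_
  linarith

private lemma co_R (q : Qd A Y a k) : T3 (64 * (k * (a + 8 * k))) 0 64 512 := by
  rw [num_C 8, num_C 64]
  have h1 := (co_k q).mul ((co_a q).add (co_ck q 8))
  exact ((T3.num 64).mul h1).cast (by norm_num) (by norm_num) (by norm_num)

private lemma co_fs (q : Qd A Y a k) (e : ℕ) (he : e ≤ 1) (m : ℕ) :
    T3 ((a + 24 * k) ^ e * ((a - 8 * k) ^ 2) ^ m) 1 (24 * e - 16 * m)
      (128 * m ^ 2 - 16 * m + e * (24 - 384 * m)) :=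
  ((co_P q e he).mul (co_Q q m)).cast (by ring) (by ring) (by ring)

private lemma fs_0 (q : Qd A Y a k) (e : ℕ) (he : e ≤ 1) (N : ℕ) :
    T3 (fs a k e N 0) 1 (24 * e - 16 * N) (128 * N ^ 2 - 16 * N + e * (24 - 384 * N)) := by
  unfold fs
  rw [pow_zero, mul_one, Nat.sub_zero]
  exact co_fs q e he N

private lemma fs_1 (q : Qd A Y a k) (e : ℕ) (he : e ≤ 1) (N : ℕ) (hN : 1 ≤ N) :
    T3 (fs a k e N 1) 0 64 (64 * (24 * e + 24 - 16 * N)) := by
  unfold fs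
  rw [pow_one (64 * (k * (a + 8 * k)))]
  refine ((co_fs q e he (N - 1)).mul (co_R q)).cast (by ring) (by ring) ?_
  push_cast [hN]
  ring

private lemma fs_2 (q : Qd A Y a k) (e : ℕ) (he : e ≤ 1) (N j : ℕ) :
    T3 (fs a k e N (j + 2)) 0 0 (if j = 0 then 4096 else 0) := by
  unfold fs
  have h2 : T3 ((64 * (k * (a + 8 * k))) ^ 2) 0 0 4096 := by
    rw [pow_two]
    exact ((co_R q).mul (co_R q)).cast (by norm_num) (by norm_num) (by norm_num)
  have h3 : T3 ((64 * (k * (a + 8 * k))) ^ (j + 2)) 0 0 (if j = 0 then 4096 else 0) := by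
    rcases Nat.eq_zero_or_pos j with rfl | hj
    · rw [if_pos rfl, zero_add]; exact h2
    · rw [if_neg hj.ne']
      obtain ⟨i, rfl⟩ : ∃ i, j = i + 1 := ⟨j - 1, by omega⟩
      induction i with
      | zero =>
        rw [pow_succ (64 * (k * (a + 8 * k))) 2]
        exact (h2.mul (co_R q)).cast (by norm_num) (by norm_num) (by norm_num)
      | succ i ih =>
        rw [show i + 1 + 1 + 2 = (i + 1 + 2) + 1 by ring, pow_succ]
        exact ((ih (by omega)).mul (co_R q)).cast (by norm_num) (by norm_num) (by norm_num)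
  exact ((co_fs q e he (N - (j + 2))).mul h3).cast (by ring) (by ring) (by ring)

private lemma row_gen (h : Core A Y) (q : Qd A Y a k) (hM : MatD l A Y e M) (N s n : ℕ) (hs : s ≤ N)
    (hn : ¬ l ∣ 2 * n) :
    (l : ℂ) * ((coeff (l * n) (fs a k e N s) : ℤ) : ℂ) =
      ∑ j ∈ Finset.range (N + 1), M N j s * ((coeff n (fs a k e N j) : ℤ) : ℂ) := by
  have heq := congrArg (coeff (2 * n)) (hM.eq N s hs)
  rw [Pool.Agent.Lib.MP_06b9d2_tls.TT_coeff, if_neg hn, mul_zero, add_zero, map_sum, moX_V h q,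
    Pool.Agent.Lib.MP_06b9d2_tls.V_coeff, if_pos ⟨l * n, by ring⟩,
    show l * (2 * n) / 2 = l * n by rw [show l * (2 * n) = 2 * (l * n) by ring]; omega,
    PowerSeries.coeff_map] at heq
  refine Eq.trans ?_ (heq.trans ?_)
  · rfl
  · refine Finset.sum_congr rfl fun j _ => ?_
    rw [PowerSeries.coeff_smul, moX_V h q, Pool.Agent.Lib.MP_06b9d2_tls.V_coeff,
      if_pos (dvd_mul_right 2 n), Nat.mul_div_cancel_left n (by norm_num), PowerSeries.coeff_map,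
      smul_eq_mul]
    rfl

theorem row1 (h : Core A Y) (q : Qd A Y a k) (hl : l.Prime) (hl2 : l ≠ 2) (he : e ≤ 1) (hM : MatD l A Y e M)
    (N s : ℕ) (hs : s ≤ N) :
    (l : ℂ) * ((coeff l (fs a k e N s) : ℤ) : ℂ) = (24 * e - 16 * N) * M N 0 s + 64 * M N 1 s := by
  have hn : ¬ l ∣ 2 * 1 := by
    intro hd
    rcases (Nat.dvd_prime Nat.prime_two).1 (by simpa using hd) with h1 | h1
    · exact hl.one_lt.ne' h1
    · exact hl2 h1
  have h1 := row_gen h q hM N s 1 hs hn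
  rw [mul_one] at h1
  rw [h1, Finset.sum_range_succ', (fs_0 q e he N).2.1]
  rcases N with _ | N
  · rw [Finset.sum_range_zero, hM.out 0 1 s (by norm_num)]
    push_cast
    ring
  · rw [Finset.sum_range_succ', zero_add, (fs_1 q e he (N + 1) (by omega)).2.1]
    rw [Finset.sum_eq_zero]
    · push_cast
      ring
    · intro j _
      rw [show j + 1 + 1 = j + 2 from rfl, (fs_2 q e he (N + 1) j).2.1]
      simp

theorem row2 (h : Core A Y) (q : Qd A Y a k) (hl : l.Prime) (hl2 : l ≠ 2) (he : e ≤ 1) (hM : MatD l A Y e M)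
    (N s : ℕ) (hN : 2 ≤ N) (hs : s ≤ N) :
    (l : ℂ) * ((coeff (2 * l) (fs a k e N s) : ℤ) : ℂ) =
      (128 * N ^ 2 - 16 * N + e * (24 - 384 * N)) * M N 0 s + 64 * (24 * e + 24 - 16 * N) * M N 1 s +
        4096 * M N 2 s := by
  have hn : ¬ l ∣ 2 * 2 := by
    intro hd
    rcases (Nat.Prime.dvd_mul hl).1 hd with h1 | h1 <;>
    · rcases (Nat.dvd_prime Nat.prime_two).1 h1 with h2 | h2
      · exact hl.one_lt.ne' h2
      · exact hl2 h2
  have h1 := row_gen h q hM N s 2 hs hn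
  rw [mul_comm l 2] at h1
  obtain ⟨N', rfl⟩ : ∃ N', N = N' + 2 := ⟨N - 2, by omega⟩
  rw [h1, Finset.sum_range_succ', Finset.sum_range_succ', Finset.sum_range_succ',
    (fs_0 q e he (N' + 2)).2.2, zero_add, (fs_1 q e he (N' + 2) (by omega)).2.2,
    show 1 + 1 = 0 + 2 from rfl, (fs_2 q e he (N' + 2) 0).2.2, if_pos rfl]
  rw [Finset.sum_eq_zero]
  · push_cast
    ring
  · intro j _
    rw [show j + 1 + 1 + 1 = (j + 1) + 2 from rfl, (fs_2 q e he (N' + 2) (j + 1)).2.2, if_neg (by omega)]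
    simp

/-- the eigenvalue in weight two -/
theorem kap_l (h : Core A Y) (q : Qd A Y a k) (hl : l.Prime) (hl2 : l ≠ 2) (hM : MatD l A Y 1 M) :
    coeff l k = 1 + (l : ℤ) := by
  have h1 := row1 h q hl hl2 le_rfl hM 0 0 le_rfl
  rw [hM.out 0 1 0 (by norm_num), mat_00 h hl hl2 hM 0] at h1
  have hodd : l % 2 = 1 := by
    rcases hl.eq_two_or_odd with h2 | h2
    · exact absurd h2 hl2
    · exact h2
  have e1 : coeff l (fs a k 1 0 0) = 24 * coeff l k := by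
    unfold fs
    rw [pow_one, Nat.sub_self, pow_zero, pow_zero, mul_one, mul_one, map_add, q.gra l hodd, zero_add,
      show (24 : ℤ⟦X⟧) = C 24 from (map_ofNat (C : ℤ →+* ℤ⟦X⟧) 24).symm, PowerSeries.coeff_C_mul]
  rw [e1] at h1
  have hl0 : (l : ℂ) ≠ 0 := Nat.cast_ne_zero.2 hl.ne_zero
  have h2 : ((coeff l k : ℤ) : ℂ) = ((1 + (l : ℤ) : ℤ) : ℂ) := by
    push_cast at h1 ⊢
    apply mul_left_cancel₀ (mul_ne_zero hl0 (by norm_num : (24 : ℂ) ≠ 0))
    linear_combination h1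
  exact_mod_cast h2

end Pool.Agent.Lib.MP_06b9d2_tl2
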