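import Pool.Agent.Lib.MP_06b9d2_tl2.Qd

/-!
Module TL2-Xa. Expansions of the forms `fs`; `Lc l a k i j = coeff l (k ^ i * a ^ j)`, `l` odd.

`x1_e_N_s`: expand `fs a k e N s` (`unfold fs`, `ring`, the numerals as factors; e.g. write each term as `(c : ℤ) • (k ^ i * a ^ j)`, `map_zsmul`/`zsmul_eq_mul`) as below: the coefficients of the terms with even `i` are `0` (`mono_co`).
`fs 0 2 0`: (1) k^0 a^4 + (-32) k^1 a^3 + (384) k^2 a^2 + (-2048) k^3 a^1 + (4096) k^4 a^0.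
`fs 0 2 1`: (64) k^1 a^3 + (-512) k^2 a^2 + (-4096) k^3 a^1 + (32768) k^4 a^0.
`fs 0 2 2`: (4096) k^2 a^2 + (65536) k^3 a^1 + (262144) k^4 a^0.
`fs 1 2 0`: (1) k^0 a^5 + (-8) k^1 a^4 + (-384) k^2 a^3 + (7168) k^3 a^2 + (-45056) k^4 a^1 + (98304) k^5 a^0.
`fs 1 2 1`: (64) k^1 a^4 + (1024) k^2 a^3 + (-16384) k^3 a^2 + (-65536) k^4 a^1 + (786432) k^5 a^0.
`fs 1 2 2`: (4096) k^2 a^3 + (163840) k^3 a^2 + (1835008) k^4 a^1 + (6291456) k^5 a^0.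
-/

namespace Pool.Agent.Lib.MP_06b9d2_tl2

open PowerSeries Pool.Agent.L1
open Pool.Agent.Lib.MP_06b9d2_tls (V U TT br In PC Ig tt EgG Two Tl)

variable {A Y : ℂ⟦X⟧} {a k : ℤ⟦X⟧}

private theorem Xa_c (l : ℕ) (c : ℤ) (f : ℤ⟦X⟧) : coeff l ((c : ℤ⟦X⟧) * f) = c * coeff l f := by
  rw [← zsmul_eq_mul, map_zsmul, zsmul_eq_mul, Int.cast_id]

theorem x1_0_2_0 (q : Qd A Y a k) (l : ℕ) (hl : l % 2 = 1) :
    coeff l (fs a k 0 2 0) = -32 * Lc l a k 1 3 - 2048 * Lc l a k 3 1 := by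
  have h : fs a k 0 2 0 = (((1 : ℤ)) : ℤ⟦X⟧) * (k ^ 0 * a ^ 4) +
      (((-32 : ℤ)) : ℤ⟦X⟧) * (k ^ 1 * a ^ 3) +
      (((384 : ℤ)) : ℤ⟦X⟧) * (k ^ 2 * a ^ 2) +
      (((-2048 : ℤ)) : ℤ⟦X⟧) * (k ^ 3 * a ^ 1) +
      (((4096 : ℤ)) : ℤ⟦X⟧) * (k ^ 4 * a ^ 0) := by
    unfold fs
    push_cast
    ring
  have e0 := mono_co q l 0 4 (by omega)
  have e2 := mono_co q l 2 2 (by omega)
  have e4 := mono_co q l 4 0 (by omega)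
  rw [h]
  simp only [map_add, Xa_c, Lc, e0, e2, e4]
  ring

theorem x1_0_2_1 (q : Qd A Y a k) (l : ℕ) (hl : l % 2 = 1) :
    coeff l (fs a k 0 2 1) = 64 * Lc l a k 1 3 - 4096 * Lc l a k 3 1 := by
  have h : fs a k 0 2 1 = (((64 : ℤ)) : ℤ⟦X⟧) * (k ^ 1 * a ^ 3) +
      (((-512 : ℤ)) : ℤ⟦X⟧) * (k ^ 2 * a ^ 2) +
      (((-4096 : ℤ)) : ℤ⟦X⟧) * (k ^ 3 * a ^ 1) +
      (((32768 : ℤ)) : ℤ⟦X⟧) * (k ^ 4 * a ^ 0) := by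
    unfold fs
    push_cast
    ring
  have e2 := mono_co q l 2 2 (by omega)
  have e4 := mono_co q l 4 0 (by omega)
  rw [h]
  simp only [map_add, Xa_c, Lc, e2, e4]
  ring

theorem x1_0_2_2 (q : Qd A Y a k) (l : ℕ) (hl : l % 2 = 1) :
    coeff l (fs a k 0 2 2) = 65536 * Lc l a k 3 1 := by
  have h : fs a k 0 2 2 = (((4096 : ℤ)) : ℤ⟦X⟧) * (k ^ 2 * a ^ 2) +
      (((65536 : ℤ)) : ℤ⟦X⟧) * (k ^ 3 * a ^ 1) +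
      (((262144 : ℤ)) : ℤ⟦X⟧) * (k ^ 4 * a ^ 0) := by
    unfold fs
    push_cast
    ring
  have e2 := mono_co q l 2 2 (by omega)
  have e4 := mono_co q l 4 0 (by omega)
  rw [h]
  simp only [map_add, Xa_c, Lc, e2, e4]
  ring

theorem x1_1_2_0 (q : Qd A Y a k) (l : ℕ) (hl : l % 2 = 1) :
    coeff l (fs a k 1 2 0) = -8 * Lc l a k 1 4 + 7168 * Lc l a k 3 2 + 98304 * Lc l a k 5 0 := by
  have h : fs a k 1 2 0 = (((1 : ℤ)) : ℤ⟦X⟧) * (k ^ 0 * a ^ 5) +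
      (((-8 : ℤ)) : ℤ⟦X⟧) * (k ^ 1 * a ^ 4) +
      (((-384 : ℤ)) : ℤ⟦X⟧) * (k ^ 2 * a ^ 3) +
      (((7168 : ℤ)) : ℤ⟦X⟧) * (k ^ 3 * a ^ 2) +
      (((-45056 : ℤ)) : ℤ⟦X⟧) * (k ^ 4 * a ^ 1) +
      (((98304 : ℤ)) : ℤ⟦X⟧) * (k ^ 5 * a ^ 0) := by
    unfold fs
    push_cast
    ring
  have e0 := mono_co q l 0 5 (by omega)
  have e2 := mono_co q l 2 3 (by omega)
  have e4 := mono_co q l 4 1 (by omega)
  rw [h]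
  simp only [map_add, Xa_c, Lc, e0, e2, e4]
  ring

theorem x1_1_2_1 (q : Qd A Y a k) (l : ℕ) (hl : l % 2 = 1) :
    coeff l (fs a k 1 2 1) = 64 * Lc l a k 1 4 - 16384 * Lc l a k 3 2 + 786432 * Lc l a k 5 0 := by
  have h : fs a k 1 2 1 = (((64 : ℤ)) : ℤ⟦X⟧) * (k ^ 1 * a ^ 4) +
      (((1024 : ℤ)) : ℤ⟦X⟧) * (k ^ 2 * a ^ 3) +
      (((-16384 : ℤ)) : ℤ⟦X⟧) * (k ^ 3 * a ^ 2) +
      (((-65536 : ℤ)) : ℤ⟦X⟧) * (k ^ 4 * a ^ 1) +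
      (((786432 : ℤ)) : ℤ⟦X⟧) * (k ^ 5 * a ^ 0) := by
    unfold fs
    push_cast
    ring
  have e2 := mono_co q l 2 3 (by omega)
  have e4 := mono_co q l 4 1 (by omega)
  rw [h]
  simp only [map_add, Xa_c, Lc, e2, e4]
  ring

theorem x1_1_2_2 (q : Qd A Y a k) (l : ℕ) (hl : l % 2 = 1) :
    coeff l (fs a k 1 2 2) = 163840 * Lc l a k 3 2 + 6291456 * Lc l a k 5 0 := by
  have h : fs a k 1 2 2 = (((4096 : ℤ)) : ℤ⟦X⟧) * (k ^ 2 * a ^ 3) +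
      (((163840 : ℤ)) : ℤ⟦X⟧) * (k ^ 3 * a ^ 2) +
      (((1835008 : ℤ)) : ℤ⟦X⟧) * (k ^ 4 * a ^ 1) +
      (((6291456 : ℤ)) : ℤ⟦X⟧) * (k ^ 5 * a ^ 0) := by
    unfold fs
    push_cast
    ring
  have e2 := mono_co q l 2 3 (by omega)
  have e4 := mono_co q l 4 1 (by omega)
  rw [h]
  simp only [map_add, Xa_c, Lc, e2, e4]
  ring

end Pool.Agent.Lib.MP_06b9d2_tl2
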