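import Pool.Agent.Lib.MP_06b9d2_tl2.Row
import Pool.Agent.Lib.MP_06b9d2_tl2.Xa

/-!
Module TL2-Ent21. The matrix for `a = 1`, `N = 2`.

`row1` for `N = 2`, `s = 0, 1, 2` (`24 e - 16 N = -8`), `M 2 0 1 = M 2 0 2 = 0` (`mat_low`), `M 2 0 0 = l + l ^ 10` (`mat_00`), `M 2 1 2 = M 2 1 0` (`hM.sym`), and `x1_1_2_s`: `l x1(2) = 64 M 2 1 2`; `l x1(1) = 64 M 2 1 1`; `l x1(0) = -8 M 2 0 0 + 64 M 2 1 0`: the last one gives `Lc l a k 1 4`, then `M 2 1 1`.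
-/

namespace Pool.Agent.Lib.MP_06b9d2_tl2

open PowerSeries Pool.Agent.L1
open Pool.Agent.Lib.MP_06b9d2_tls (V U TT br In PC Ig tt EgG Two Tl)

variable {A Y : ℂ⟦X⟧} {a k : ℤ⟦X⟧} {l : ℕ} {M : ℕ → ℕ → ℕ → ℂ}

theorem ent21 (h : Core A Y) (q : Qd A Y a k) (hl : l.Prime) (hl2 : l ≠ 2) (hM : MatD l A Y 1 M) :
    M 2 1 0 = (((l : ℤ) * (2560 * Lc l a k 3 2 + 98304 * Lc l a k 5 0) : ℤ) : ℂ) ∧
    M 2 1 1 = (((l : ℤ) * (1 + (l : ℤ) ^ 9 - 19840 * Lc l a k 3 2 - 761856 * Lc l a k 5 0) : ℤ) : ℂ) := by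
  have hodd : l % 2 = 1 := Nat.odd_iff.1 (hl.odd_of_ne_two hl2)
  have e0 := row1 h q hl hl2 le_rfl hM 2 0 (by norm_num)
  have e1 := row1 h q hl hl2 le_rfl hM 2 1 (by norm_num)
  have e2 := row1 h q hl hl2 le_rfl hM 2 2 (by norm_num)
  rw [x1_1_2_0 q l hodd, mat_00 h hl hl2 hM 2] at e0
  rw [x1_1_2_1 q l hodd, mat_low h hl hl2 hM 2 1 (by norm_num) (by norm_num)] at e1
  rw [x1_1_2_2 q l hodd, mat_low h hl hl2 hM 2 2 (by norm_num) (by norm_num)] at e2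
  have h12 : M 2 1 2 = M 2 1 0 := hM.sym 2 1 0 (by norm_num) (by norm_num)
  rw [h12] at e2
  push_cast at e0 e1 e2 ⊢
  constructor
  · linear_combination -e2 / 64
  · linear_combination -e1 / 64 - e0 / 8 + e2 / 8

end Pool.Agent.Lib.MP_06b9d2_tl2
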