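import Pool.Agent.Lib.MP_06b9d2_tl2.Row
import Pool.Agent.Lib.MP_06b9d2_tl2.Xc

/-!
Module TL2-Ent31. The matrix for `a = 1`, `N = 3`.

`row1` for `N = 3`, `s = 0, 1, 2, 3` (`24 e - 16 N = -24`; `M 3 0 s = 0` for `s > 0`, `M 3 0 0 = l + l ^ 14`), `row2` for `s = 3`: `l x2(3) = 64 * (24 + 24 - 48) M 3 1 3 + 4096 M 3 2 3 = 4096 M 3 2 3`, `M 3 2 3 = M 3 1 0` (`hM.sym`). `row1` for `s = 0` gives `Lc l a k 1 6`, and `64 M 3 1 1 = l x1(1)`.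
-/

namespace Pool.Agent.Lib.MP_06b9d2_tl2

open PowerSeries Pool.Agent.L1
open Pool.Agent.Lib.MP_06b9d2_tls (V U TT br In PC Ig tt EgG Two Tl)

variable {A Y : ℂ⟦X⟧} {a k : ℤ⟦X⟧} {l : ℕ} {M : ℕ → ℕ → ℕ → ℂ}

theorem ent31 (h : Core A Y) (q : Qd A Y a k) (hl : l.Prime) (hl2 : l ≠ 2) (hM : MatD l A Y 1 M) :
    M 3 1 0 = (((l : ℤ) * (598016 * Lc l a k 3 4 + 393216000 * Lc l a k 5 2 + 6744440832 * Lc l a k 7 0) : ℤ) : ℂ) ∧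
    M 3 1 1 = (((l : ℤ) * (1 + (l : ℤ) ^ 13 - 1594624 * Lc l a k 3 4 - 1048510464 * Lc l a k 5 2 - 17984126976 * Lc l a k 7 0) : ℤ) : ℂ) ∧
    M 3 1 2 = (((l : ℤ) * (1536 * Lc l a k 3 4 - 196608 * Lc l a k 5 2 + 6291456 * Lc l a k 7 0) : ℤ) : ℂ) ∧
    M 3 1 3 = (((l : ℤ) * (4096 * Lc l a k 3 4 + 3145728 * Lc l a k 5 2 + 50331648 * Lc l a k 7 0) : ℤ) : ℂ) := by
  have hlo : l % 2 = 1 := by
    rcases Nat.Prime.eq_two_or_odd hl with h1 | h1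
    · exact absurd h1 hl2
    · exact h1
  have m0 : M 3 0 0 = l + (l : ℂ) ^ 14 := mat_00 h hl hl2 hM 3
  have m01 : M 3 0 1 = 0 := mat_low h hl hl2 hM 3 1 (by norm_num) (by norm_num)
  have m02 : M 3 0 2 = 0 := mat_low h hl hl2 hM 3 2 (by norm_num) (by norm_num)
  have m03 : M 3 0 3 = 0 := mat_low h hl hl2 hM 3 3 (by norm_num) (by norm_num)
  have hs : M 3 2 3 = M 3 1 0 := hM.sym 3 1 0 (by norm_num) (by norm_num)
  have r0 := row1 h q hl hl2 le_rfl hM 3 0 (by norm_num)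
  have r1 := row1 h q hl hl2 le_rfl hM 3 1 (by norm_num)
  have r2 := row1 h q hl hl2 le_rfl hM 3 2 (by norm_num)
  have r3 := row1 h q hl hl2 le_rfl hM 3 3 (by norm_num)
  have s3 := row2 h q hl hl2 le_rfl hM 3 3 (by norm_num) (by norm_num)
  rw [x1_1_3_0 q l hlo, m0] at r0
  rw [x1_1_3_1 q l hlo, m01] at r1
  rw [x1_1_3_2 q l hlo, m02] at r2
  rw [x1_1_3_3 q l hlo, m03] at r3
  rw [x2_1_3_3 q l hlo, m03, hs] at s3
  push_cast at r0 r1 r2 r3 s3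
  have e12 : M 3 1 2 = (l : ℂ) * (1536 * Lc l a k 3 4 - 196608 * Lc l a k 5 2 + 6291456 * Lc l a k 7 0) := by
    linear_combination (-1 / 64 : ℂ) * r2
  have e13 : M 3 1 3 = (l : ℂ) * (4096 * Lc l a k 3 4 + 3145728 * Lc l a k 5 2 + 50331648 * Lc l a k 7 0) := by
    linear_combination (-1 / 64 : ℂ) * r3
  have e10 : M 3 1 0 = (l : ℂ) * (598016 * Lc l a k 3 4 + 393216000 * Lc l a k 5 2 + 6744440832 * Lc l a k 7 0) := by
    linear_combination (-1 / 4096 : ℂ) * s3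
  have e11 : M 3 1 1 = (l : ℂ) * (1 + (l : ℂ) ^ 13 - 1594624 * Lc l a k 3 4 - 1048510464 * Lc l a k 5 2 - 17984126976 * Lc l a k 7 0) := by
    linear_combination (-1 / 64 : ℂ) * r1 - (1 / 24 : ℂ) * r0 - (64 / 24 : ℂ) * e10
  refine ⟨?_, ?_, ?_, ?_⟩ <;> push_cast
  · exact e10
  · exact e11
  · exact e12
  · exact e13

end Pool.Agent.Lib.MP_06b9d2_tl2
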