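import Pool.Agent.Lib.MP_06b9d2_tl2.Low
import Pool.Agent.Lib.MP_06b9d2_tl2.Ent21
import Pool.Agent.Lib.MP_06b9d2_tl2.Ent31
import Pool.Agent.Lib.MP_06b9d2_tl2.Lrel

/-!
Module TL2-P3o. Bounds for the `pc` with `m + n = 3`, `a = 1`.

Unfold `pc` (`simp [pc, Finset.sum_range_succ, Nat.choose]`), insert `mat_00`, `mat_NN`, `mat_low`, `mat_top`, `hM.out`, `hM.sym` and the values of `ent..` (for `N = 2, 3`). Result (`L(i,j)` is `Lc l a k i j`; checked by computer):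
`pc 3 0 0 = l^2 (l^4-1)^3`; `pc 3 0 1 = l (-7680 L(3,2) - 294912 L(5,0) + 598016 L(3,4) + 393216000 L(5,2) + 6744440832 L(7,0))`; `pc 3 0 2 = l (4096 L(3,4) + 3145728 L(5,2) + 50331648 L(7,0))`; `pc 3 0 3 = 0`.
`pc 2 1 0 = 0`; `pc 2 1 1 = l^2 (l^4-1)^3 + l (39680 L(3,2) + 1523712 L(5,0) - 1594624 L(3,4) - 1048510464 L(5,2) - 17984126976 L(7,0))`; `pc 2 1 2 = l (-2560 L(3,2) - 98304 L(5,0) + 1536 L(3,4) - 196608 L(5,2) + 6291456 L(7,0))`; `pc 2 1 3 = 0`.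
`pc m n r = 0` for `r > m + n` (`pc_deg`), `pc_m00`, `pc_mn0`. `16 ∣ l ^ 4 - 1` (`l` odd). For the integers in the brackets: `lrel`, `Lc l a k 3 1 = 2 ^ r0 * c'`, and for each of `r0 = 0, 1, 2` a linear divisibility (`omega`).
-/

namespace Pool.Agent.Lib.MP_06b9d2_tl2

open PowerSeries Pool.Agent.L1
open Pool.Agent.Lib.MP_06b9d2_tls (V U TT br In PC Ig tt EgG Two Tl)

variable {A Y : ℂ⟦X⟧} {a k : ℤ⟦X⟧} {l : ℕ} {M : ℕ → ℕ → ℕ → ℂ}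

/-- `16 ∣ l ^ 4 - 1` -/
private theorem p3o_16 (hl : l.Prime) (hl2 : l ≠ 2) : ∃ w : ℤ, (l : ℤ) ^ 4 - 1 = 16 * w := by
  have h1 : l % 2 = 1 := by
    rcases hl.eq_two_or_odd with h | h
    · exact absurd h hl2
    · exact h
  obtain ⟨m, hm⟩ : ∃ m : ℤ, (l : ℤ) = 2 * m + 1 := ⟨(l / 2 : ℕ), by omega⟩
  have h2 : ∃ n : ℤ, m * (m + 1) = 2 * n := by
    rcases Int.even_mul_succ_self m with ⟨n, hn⟩
    exact ⟨n, by rw [hn]; ring⟩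
  obtain ⟨n, hn⟩ := h2
  refine ⟨n * (2 * m ^ 2 + 2 * m + 1), ?_⟩
  rw [hm]
  linear_combination (8 * (2 * m ^ 2 + 2 * m + 1)) * hn

private theorem p3o_u (r0 : ℕ) (hr : r0 ≤ 2) : ∃ u : ℤ, (4096 : ℤ) = 512 * 2 ^ r0 * u := by
  refine ⟨2 ^ (3 - r0), ?_⟩
  rw [mul_assoc, ← pow_add, show r0 + (3 - r0) = 3 by omega]
  norm_num

theorem p30o (h : Core A Y) (q : Qd A Y a k) (hl : l.Prime) (hl2 : l ≠ 2) (hM : MatD l A Y 1 M)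
    (r0 : ℕ) (hr : r0 ≤ 2) (hc : (2 : ℤ) ^ r0 ∣ Lc l a k 3 1) (r : ℕ) :
    ∃ z : ℤ, pc M 3 0 r = ((2 ^ (9 + r0) * z : ℤ) : ℂ) := by
  obtain ⟨z1, z2, z3, z4, z5, e1, e2, e3, e4, e5⟩ := lrel q l
  obtain ⟨c, hc⟩ := hc
  obtain ⟨w, hw⟩ := p3o_16 hl hl2
  obtain ⟨u, hu⟩ := p3o_u r0 hr
  have hT : (2 : ℤ) ^ (9 + r0) = 512 * 2 ^ r0 := by rw [pow_add]; norm_num
  have o0 : M 0 1 0 = 0 := hM.out 0 1 0 (by norm_num)
  have o1 : M 0 2 0 = 0 := hM.out 0 2 0 (by norm_num)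
  have o2 : M 1 2 0 = 0 := hM.out 1 2 0 (by norm_num)
  have o3 : M 0 3 0 = 0 := hM.out 0 3 0 (by norm_num)
  have o4 : M 1 3 0 = 0 := hM.out 1 3 0 (by norm_num)
  have o5 : M 2 3 0 = 0 := hM.out 2 3 0 (by norm_num)
  have t1 : M 1 1 0 = 0 := mat_top h hl hl2 hM 1 0 (by norm_num)
  have t2 : M 2 2 0 = 0 := mat_top h hl hl2 hM 2 0 (by norm_num)
  have t3 : M 3 3 0 = 0 := mat_top h hl hl2 hM 3 0 (by norm_num)
  have s1 : M 3 2 0 = M 3 1 3 := hM.sym 3 1 3 (by norm_num) (by norm_num)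
  obtain ⟨m210, m211⟩ := ent21 h q hl hl2 hM
  obtain ⟨m310, m311, m312, m313⟩ := ent31 h q hl hl2 hM
  by_cases hr4 : 3 < r
  · exact ⟨0, by rw [pc_deg hM 3 0 r (by omega)]; simp⟩
  rw [hT]
  have hcase : r = 0 ∨ r = 1 ∨ r = 2 ∨ r = 3 := by omega
  rcases hcase with rfl | rfl | rfl | rfl
  · rw [pc_m00 h hl hl2 hM 3 (by norm_num)]
    refine ⟨u * (l : ℤ) ^ 2 * w ^ 3, ?_⟩
    have h1 : ((l : ℂ) ^ 4 - 1) = ((16 * w : ℤ) : ℂ) := by rw [← hw]; push_cast; ring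
    have h2 : (4096 : ℂ) = 512 * 2 ^ r0 * u := by exact_mod_cast congrArg (fun x : ℤ => (x : ℂ)) hu
    rw [h1]
    push_cast
    linear_combination ((l : ℂ) ^ 2 * w ^ 3) * h2
  · have hp : pc M 3 0 1 = M 3 1 0 - 3 * M 2 1 0 := by
      simp [pc, Finset.sum_range_succ, Nat.choose, o0, t1]
      ring
    rw [hp, m310, m210]
    refine ⟨(l : ℤ) * (-15 * c + u * (-15 * z3 - 72 * Lc l a k 5 0 + 146 * Lc l a k 3 4 +
      96000 * Lc l a k 5 2 + 1646592 * Lc l a k 7 0)), ?_⟩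
    rw [← sub_eq_zero]
    have : ∀ x y z : ℤ, x - 3 * y - z = 0 → ((x : ℂ) - 3 * (y : ℂ) - (z : ℂ) = 0) := by
      intro x y z hxyz
      exact_mod_cast congrArg (fun x : ℤ => (x : ℂ)) hxyz
    apply this
    rw [e3, hc]
    linear_combination ((l : ℤ) * (-15 * z3 - 72 * Lc l a k 5 0 + 146 * Lc l a k 3 4 +
      96000 * Lc l a k 5 2 + 1646592 * Lc l a k 7 0)) * hu
  · have hp : pc M 3 0 2 = M 3 1 3 := by
      simp [pc, Finset.sum_range_succ, Nat.choose, o1, o2, t2, s1]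
    rw [hp, m313]
    refine ⟨u * (l * (Lc l a k 3 4 + 768 * Lc l a k 5 2 + 12288 * Lc l a k 7 0)), ?_⟩
    congr 1
    linear_combination (l * (Lc l a k 3 4 + 768 * Lc l a k 5 2 + 12288 * Lc l a k 7 0) : ℤ) * hu
  · have hp : pc M 3 0 3 = 0 := by
      simp [pc, Finset.sum_range_succ, Nat.choose, o3, o4, o5, t3]
    rw [hp]
    exact ⟨0, by simp⟩

theorem p21o (h : Core A Y) (q : Qd A Y a k) (hl : l.Prime) (hl2 : l ≠ 2) (hM : MatD l A Y 1 M)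
    (r0 : ℕ) (hr : r0 ≤ 2) (hc : (2 : ℤ) ^ r0 ∣ Lc l a k 3 1) (r : ℕ) :
    ∃ z : ℤ, pc M 2 1 r = ((2 ^ (9 + r0) * z : ℤ) : ℂ) := by
  obtain ⟨z1, z2, z3, z4, z5, e1, e2, e3, e4, e5⟩ := lrel q l
  obtain ⟨c, hc⟩ := hc
  obtain ⟨w, hw⟩ := p3o_16 hl hl2
  obtain ⟨u, hu⟩ := p3o_u r0 hr
  have hT : (2 : ℤ) ^ (9 + r0) = 512 * 2 ^ r0 := by rw [pow_add]; norm_num
  have o0 : M 0 1 0 = 0 := hM.out 0 1 0 (by norm_num)
  have o1 : M 0 2 0 = 0 := hM.out 0 2 0 (by norm_num)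
  have o2 : M 1 2 0 = 0 := hM.out 1 2 0 (by norm_num)
  have o3 : M 1 2 1 = 0 := hM.out 1 2 1 (by norm_num)
  have o4 : M 1 3 1 = 0 := hM.out 1 3 1 (by norm_num)
  have o5 : M 2 3 1 = 0 := hM.out 2 3 1 (by norm_num)
  have t1 : M 1 1 0 = 0 := mat_top h hl hl2 hM 1 0 (by norm_num)
  have t2 : M 2 2 0 = 0 := mat_top h hl hl2 hM 2 0 (by norm_num)
  have t3 : M 2 2 1 = 0 := mat_top h hl hl2 hM 2 1 (by norm_num)
  have t4 : M 3 3 1 = 0 := mat_top h hl hl2 hM 3 1 (by norm_num)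
  have s1 : M 3 2 1 = M 3 1 2 := hM.sym 3 1 2 (by norm_num) (by norm_num)
  have v0 : M 0 0 0 = l + (l : ℂ) ^ (2 * (2 * 0 + 1)) := mat_00 h hl hl2 hM 0
  have v1 : M 1 0 0 = l + (l : ℂ) ^ (2 * (2 * 1 + 1)) := mat_00 h hl hl2 hM 1
  have v2 : M 2 0 0 = l + (l : ℂ) ^ (2 * (2 * 2 + 1)) := mat_00 h hl hl2 hM 2
  have v3 : M 1 1 1 = l + (l : ℂ) ^ (2 * (2 * 1 + 1)) := mat_NN h hl hl2 hM 1
  obtain ⟨m210, m211⟩ := ent21 h q hl hl2 hM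
  obtain ⟨m310, m311, m312, m313⟩ := ent31 h q hl hl2 hM
  by_cases hr4 : 3 < r
  · exact ⟨0, by rw [pc_deg hM 2 1 r (by omega)]; simp⟩
  rw [hT]
  have hcase : r = 0 ∨ r = 1 ∨ r = 2 ∨ r = 3 := by omega
  rcases hcase with rfl | rfl | rfl | rfl
  · rw [pc_mn0 h hl hl2 hM 2 1 (by norm_num)]
    exact ⟨0, by simp⟩
  · have hp : pc M 2 1 1 = M 1 1 1 - M 0 0 0 - 2 * M 2 1 1 + 2 * M 1 0 0 + M 3 1 1 - M 2 0 0 := by
      simp [pc, Finset.sum_range_succ, Nat.choose]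
      ring
    rw [hp, v0, v1, v2, v3, m211, m311]
    refine ⟨-3037 * l * c + u * ((l : ℤ) ^ 2 * w ^ 3 + l * (-3037 * z3 - 6229 * z4 + 372 * Lc l a k 5 0
      - 255984 * Lc l a k 5 2 - 4390656 * Lc l a k 7 0)), ?_⟩
    have key : ((l : ℤ) + (l : ℤ) ^ (2 * (2 * 1 + 1))) - ((l : ℤ) + (l : ℤ) ^ (2 * (2 * 0 + 1)))
        - 2 * ((l : ℤ) * (1 + (l : ℤ) ^ 9 - 19840 * Lc l a k 3 2 - 761856 * Lc l a k 5 0))
        + 2 * ((l : ℤ) + (l : ℤ) ^ (2 * (2 * 1 + 1)))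
        + ((l : ℤ) * (1 + (l : ℤ) ^ 13 - 1594624 * Lc l a k 3 4 - 1048510464 * Lc l a k 5 2
          - 17984126976 * Lc l a k 7 0))
        - ((l : ℤ) + (l : ℤ) ^ (2 * (2 * 2 + 1))) = 512 * 2 ^ r0 * (-3037 * l * c + u * ((l : ℤ) ^ 2 * w ^ 3
          + l * (-3037 * z3 - 6229 * z4 + 372 * Lc l a k 5 0
          - 255984 * Lc l a k 5 2 - 4390656 * Lc l a k 7 0))) := by
      rw [e4, e3, hc]
      have hw3 : ((l : ℤ) ^ 4 - 1) ^ 3 = 4096 * w ^ 3 := by rw [hw]; ring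
      linear_combination ((l : ℤ) ^ 2 * w ^ 3 + l * (-3037 * z3 - 6229 * z4 + 372 * Lc l a k 5 0
          - 255984 * Lc l a k 5 2 - 4390656 * Lc l a k 7 0)) * hu + (l : ℤ) ^ 2 * hw3
    have key2 := congrArg (fun x : ℤ => (x : ℂ)) key
    push_cast at key2 ⊢
    linear_combination key2
  · have hp : pc M 2 1 2 = M 3 1 2 - M 2 1 0 := by
      simp [pc, Finset.sum_range_succ, Nat.choose, o0, o3, t1, t3, s1]
      try ring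
    rw [hp, m312, m210]
    refine ⟨(l : ℤ) * (-2 * c + u * (-2 * z3 + 6 * z4 - 24 * Lc l a k 5 0 - 48 * Lc l a k 5 2
      + 1536 * Lc l a k 7 0)), ?_⟩
    rw [← Int.cast_sub]
    congr 1
    rw [e4, e3, hc]
    linear_combination ((l : ℤ) * (-2 * z3 + 6 * z4 - 24 * Lc l a k 5 0 - 48 * Lc l a k 5 2
      + 1536 * Lc l a k 7 0)) * hu
  · have hp : pc M 2 1 3 = 0 := by
      simp [pc, Finset.sum_range_succ, Nat.choose, o1, o2, o4, o5, t2, t4]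
    rw [hp]
    exact ⟨0, by simp⟩

end Pool.Agent.Lib.MP_06b9d2_tl2
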