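import Pool.Agent.Lib.MP_06b9d2_tl2.Row
import Pool.Agent.Lib.MP_06b9d2_tl2.Xa

/-!
Module TL2-Ent20. The matrix for `a = 0`, `N = 2`.

`row1` for `N = 2`, `s = 0, 1, 2`, `M 2 0 1 = M 2 0 2 = 0` (`mat_low`), `M 2 0 0 = l + l ^ 8` (`mat_00`), `M 2 1 2 = M 2 1 0` (`hM.sym`), and `x1_0_2_s`: `l x1(2) = 64 M 2 1 2`; `l x1(1) = 64 M 2 1 1`; `l x1(0) = -32 M 2 0 0 + 64 M 2 1 0`: the last one gives `Lc l a k 1 3` (cancel `l`) and then `M 2 1 1`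
(`linear_combination` over `ℂ` after casting; every entry is `l` times an integer).
-/

namespace Pool.Agent.Lib.MP_06b9d2_tl2

open PowerSeries Pool.Agent.L1
open Pool.Agent.Lib.MP_06b9d2_tls (V U TT br In PC Ig tt EgG Two Tl)

variable {A Y : ℂ⟦X⟧} {a k : ℤ⟦X⟧} {l : ℕ} {M : ℕ → ℕ → ℕ → ℂ}

theorem ent20 (h : Core A Y) (q : Qd A Y a k) (hl : l.Prime) (hl2 : l ≠ 2) (hM : MatD l A Y 0 M) :
    M 2 1 0 = (((l : ℤ) * (1024 * Lc l a k 3 1) : ℤ) : ℂ) ∧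
    M 2 1 1 = (((l : ℤ) * (1 + (l : ℤ) ^ 7 - 2176 * Lc l a k 3 1) : ℤ) : ℂ) := by
  have hlo : l % 2 = 1 := by
    rcases Nat.Prime.eq_two_or_odd hl with h1 | h1
    · exact absurd h1 hl2
    · exact h1
  have m0 : M 2 0 0 = l + (l : ℂ) ^ 8 := mat_00 h hl hl2 hM 2
  have m01 : M 2 0 1 = 0 := mat_low h hl hl2 hM 2 1 (by norm_num) (by norm_num)
  have m02 : M 2 0 2 = 0 := mat_low h hl hl2 hM 2 2 (by norm_num) (by norm_num)
  have hs : M 2 1 2 = M 2 1 0 := hM.sym 2 1 0 (by norm_num) (by norm_num)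
  have r0 := row1 h q hl hl2 zero_le_one hM 2 0 (by norm_num)
  have r1 := row1 h q hl hl2 zero_le_one hM 2 1 (by norm_num)
  have r2 := row1 h q hl hl2 zero_le_one hM 2 2 (by norm_num)
  rw [x1_0_2_0 q l hlo, m0] at r0
  rw [x1_0_2_1 q l hlo, m01] at r1
  rw [x1_0_2_2 q l hlo, m02, hs] at r2
  push_cast at r0 r1 r2
  have e10 : M 2 1 0 = (l : ℂ) * (1024 * Lc l a k 3 1) := by
    linear_combination (-1 / 64 : ℂ) * r2
  have e11 : M 2 1 1 = (l : ℂ) * (1 + (l : ℂ) ^ 7 - 2176 * Lc l a k 3 1) := by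
    linear_combination (-1 / 64 : ℂ) * r1 - (1 / 32 : ℂ) * r0 - (2 : ℂ) * e10
  refine ⟨?_, ?_⟩ <;> push_cast
  · exact e10
  · exact e11

end Pool.Agent.Lib.MP_06b9d2_tl2
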