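import Pool.Agent.Lib.MP_06b9d2_tl2.Qd

/-!
Module TL2-Xb. Expansions of the forms `fs`; `Lc l a k i j = coeff l (k ^ i * a ^ j)`, `l` odd.

`x1_e_N_s`: expand `fs a k e N s` (`unfold fs`, `ring`, the numerals as factors; e.g. write each term as `(c : ℤ) • (k ^ i * a ^ j)`, `map_zsmul`/`zsmul_eq_mul`) as below: the coefficients of the terms with even `i` are `0` (`mono_co`).
`fs 0 3 0`: (1) k^0 a^6 + (-48) k^1 a^5 + (960) k^2 a^4 + (-10240) k^3 a^3 + (61440) k^4 a^2 + (-196608) k^5 a^1 + (262144) k^6 a^0.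
`fs 0 3 1`: (64) k^1 a^5 + (-1536) k^2 a^4 + (8192) k^3 a^3 + (65536) k^4 a^2 + (-786432) k^5 a^1 + (2097152) k^6 a^0.
`fs 0 3 2`: (4096) k^2 a^4 + (-524288) k^4 a^2 + (16777216) k^6 a^0.
`fs 0 3 3`: (262144) k^3 a^3 + (6291456) k^4 a^2 + (50331648) k^5 a^1 + (134217728) k^6 a^0.
`x2_e_N_s`: coefficient of `x ^ (2 l)`: expand `fs a k e N s` in the `k ^ i a ^ j`; the terms with odd `i` vanish (`mono_co`), for even `i = 2 t` use `mono_ev`: the coefficient is the coefficient of `x ^ l` of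
`0 3 3`: (6291456) (k (a + 8 k))^2 (a + 24 k)^2 + (134217728) (k (a + 8 k))^3 (a + 24 k)^0.
Expand this in `k ^ i a ^ j` and use `mono_co` again (only odd `i` remain). (All numbers checked by computer for `l = 3, 5, 7, 11`.)
-/

namespace Pool.Agent.Lib.MP_06b9d2_tl2

open PowerSeries Pool.Agent.L1
open Pool.Agent.Lib.MP_06b9d2_tls (V U TT br In PC Ig tt EgG Two Tl)

variable {A Y : ℂ⟦X⟧} {a k : ℤ⟦X⟧}

private theorem co_c (n : ℕ) (c : ℤ) (f : ℤ⟦X⟧) : coeff n (C c * f) = c * coeff n f :=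
  PowerSeries.coeff_C_mul n f c

private theorem ex_0_3_0 (a k : ℤ⟦X⟧) : fs a k 0 3 0 = C 1 * (k ^ 0 * a ^ 6) + C (-48) * (k ^ 1 * a ^ 5) + C 960 * (k ^ 2 * a ^ 4) + C (-10240) * (k ^ 3 * a ^ 3) + C 61440 * (k ^ 4 * a ^ 2) + C (-196608) * (k ^ 5 * a ^ 1) + C 262144 * (k ^ 6 * a ^ 0) := by
  have e : fs a k 0 3 0 = (a + 24 * k) ^ 0 * ((a - 8 * k) ^ 2) ^ 3 * (64 * (k * (a + 8 * k))) ^ 0 := rfl
  rw [e]
  simp only [map_neg, map_ofNat, map_one]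
  ring

theorem x1_0_3_0 (q : Qd A Y a k) (l : ℕ) (hl : l % 2 = 1) :
    coeff l (fs a k 0 3 0) = -48 * Lc l a k 1 5 - 10240 * Lc l a k 3 3 - 196608 * Lc l a k 5 1 := by
  rw [ex_0_3_0]
  simp only [map_add, co_c, mono_co q l 0 6 (by omega), mono_co q l 2 4 (by omega), mono_co q l 4 2 (by omega), mono_co q l 6 0 (by omega)]
  unfold Lc
  ring

private theorem ex_0_3_1 (a k : ℤ⟦X⟧) : fs a k 0 3 1 = C 64 * (k ^ 1 * a ^ 5) + C (-1536) * (k ^ 2 * a ^ 4) + C 8192 * (k ^ 3 * a ^ 3) + C 65536 * (k ^ 4 * a ^ 2) + C (-786432) * (k ^ 5 * a ^ 1) + C 2097152 * (k ^ 6 * a ^ 0) := by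
  have e : fs a k 0 3 1 = (a + 24 * k) ^ 0 * ((a - 8 * k) ^ 2) ^ 2 * (64 * (k * (a + 8 * k))) ^ 1 := rfl
  rw [e]
  simp only [map_neg, map_ofNat, map_one]
  ring

theorem x1_0_3_1 (q : Qd A Y a k) (l : ℕ) (hl : l % 2 = 1) :
    coeff l (fs a k 0 3 1) = 64 * Lc l a k 1 5 + 8192 * Lc l a k 3 3 - 786432 * Lc l a k 5 1 := by
  rw [ex_0_3_1]
  simp only [map_add, co_c, mono_co q l 2 4 (by omega), mono_co q l 4 2 (by omega), mono_co q l 6 0 (by omega)]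
  unfold Lc
  ring

private theorem ex_0_3_2 (a k : ℤ⟦X⟧) : fs a k 0 3 2 = C 4096 * (k ^ 2 * a ^ 4) + C (-524288) * (k ^ 4 * a ^ 2) + C 16777216 * (k ^ 6 * a ^ 0) := by
  have e : fs a k 0 3 2 = (a + 24 * k) ^ 0 * ((a - 8 * k) ^ 2) ^ 1 * (64 * (k * (a + 8 * k))) ^ 2 := rfl
  rw [e]
  simp only [map_neg, map_ofNat, map_one]
  ring

theorem x1_0_3_2 (q : Qd A Y a k) (l : ℕ) (hl : l % 2 = 1) :
    coeff l (fs a k 0 3 2) = 0 := by
  rw [ex_0_3_2]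
  simp only [map_add, co_c, mono_co q l 2 4 (by omega), mono_co q l 4 2 (by omega), mono_co q l 6 0 (by omega)]
  ring

private theorem ex_0_3_3 (a k : ℤ⟦X⟧) : fs a k 0 3 3 = C 262144 * (k ^ 3 * a ^ 3) + C 6291456 * (k ^ 4 * a ^ 2) + C 50331648 * (k ^ 5 * a ^ 1) + C 134217728 * (k ^ 6 * a ^ 0) := by
  have e : fs a k 0 3 3 = (a + 24 * k) ^ 0 * ((a - 8 * k) ^ 2) ^ 0 * (64 * (k * (a + 8 * k))) ^ 3 := rfl
  rw [e]
  simp only [map_neg, map_ofNat, map_one]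
  ring

theorem x1_0_3_3 (q : Qd A Y a k) (l : ℕ) (hl : l % 2 = 1) :
    coeff l (fs a k 0 3 3) = 262144 * Lc l a k 3 3 + 50331648 * Lc l a k 5 1 := by
  rw [ex_0_3_3]
  simp only [map_add, co_c, mono_co q l 4 2 (by omega), mono_co q l 6 0 (by omega)]
  unfold Lc
  ring

private theorem ev_0_3_3_2_2 (q : Qd A Y a k) (l : ℕ) (hl : l % 2 = 1) :
    coeff (2 * l) (k ^ 4 * a ^ 2) = 64 * Lc l a k 3 3 + 12288 * Lc l a k 5 1 := by
  have h := mono_ev q l 2 2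
  have e : (k * (a + 8 * k)) ^ 2 * (a + 24 * k) ^ 2 = C 1 * (k ^ 2 * a ^ 4) + C 64 * (k ^ 3 * a ^ 3) + C 1408 * (k ^ 4 * a ^ 2) + C 12288 * (k ^ 5 * a ^ 1) + C 36864 * (k ^ 6 * a ^ 0) := by
    simp only [map_neg, map_ofNat, map_one]
    ring
  rw [e] at h
  simp only [map_add, co_c, mono_co q l 2 4 (by omega), mono_co q l 4 2 (by omega), mono_co q l 6 0 (by omega)] at h
  rw [show k ^ 4 * a ^ 2 = k ^ (2 * 2) * a ^ 2 from rfl, h]
  unfold Lc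
  ring

private theorem ev_0_3_3_3_0 (q : Qd A Y a k) (l : ℕ) (hl : l % 2 = 1) :
    coeff (2 * l) (k ^ 6 * a ^ 0) = 1 * Lc l a k 3 3 + 192 * Lc l a k 5 1 := by
  have h := mono_ev q l 3 0
  have e : (k * (a + 8 * k)) ^ 3 * (a + 24 * k) ^ 0 = C 1 * (k ^ 3 * a ^ 3) + C 24 * (k ^ 4 * a ^ 2) + C 192 * (k ^ 5 * a ^ 1) + C 512 * (k ^ 6 * a ^ 0) := by
    simp only [map_neg, map_ofNat, map_one]
    ring
  rw [e] at h
  simp only [map_add, co_c, mono_co q l 4 2 (by omega), mono_co q l 6 0 (by omega)] at h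
  rw [show k ^ 6 * a ^ 0 = k ^ (2 * 3) * a ^ 0 from rfl, h]
  unfold Lc
  ring

theorem x2_0_3_3 (q : Qd A Y a k) (l : ℕ) (hl : l % 2 = 1) :
    coeff (2 * l) (fs a k 0 3 3) =
      536870912 * Lc l a k 3 3 + 103079215104 * Lc l a k 5 1 := by
  rw [ex_0_3_3]
  simp only [map_add, co_c, mono_co q (2 * l) 3 3 (by omega), mono_co q (2 * l) 5 1 (by omega), ev_0_3_3_2_2 q l hl, ev_0_3_3_3_0 q l hl]
  ring

end Pool.Agent.Lib.MP_06b9d2_tl2
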