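import Pool.Agent.Lib.MP_06b9d2_tl2.Low
import Pool.Agent.Lib.MP_06b9d2_tl2.Ent20
import Pool.Agent.Lib.MP_06b9d2_tl2.Ent30
import Pool.Agent.Lib.MP_06b9d2_tl2.Lrel

/-!
Module TL2-P3z. Bounds for the `pc` with `m + n = 3`, `a = 0`.

Unfold `pc` (`simp [pc, Finset.sum_range_succ, Nat.choose]`), insert `mat_00`, `mat_NN`, `mat_low`, `mat_top`, `hM.out`, `hM.sym` and the values of `ent..` (for `N = 2, 3`). Result (`L(i,j)` is `Lc l a k i j`; checked by computer):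
`pc 3 0 0 = l^0 (l^4-1)^3`; `pc 3 0 1 = l (-3072 L(3,1) + 132608 L(3,3) + 25460736 L(5,1))`; `pc 3 0 2 = l (4096 L(3,3) + 786432 L(5,1))`; `pc 3 0 3 = 0`.
`pc 2 1 0 = 0`; `pc 2 1 1 = l^0 (l^4-1)^3 + l (4352 L(3,1) - 176896 L(3,3) - 33964032 L(5,1))`; `pc 2 1 2 = l (-1024 L(3,1))`; `pc 2 1 3 = 0`.
`pc m n r = 0` for `r > m + n` (`pc_deg`), `pc_m00`, `pc_mn0`. `16 ∣ l ^ 4 - 1` (`l` odd). For the integers in the brackets: `lrel`, `Lc l a k 3 1 = 2 ^ r0 * c'`, and for each of `r0 = 0, 1, 2` a linear divisibility (`omega`).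
-/

namespace Pool.Agent.Lib.MP_06b9d2_tl2

open PowerSeries Pool.Agent.L1
open Pool.Agent.Lib.MP_06b9d2_tls (V U TT br In PC Ig tt EgG Two Tl)

variable {A Y : ℂ⟦X⟧} {a k : ℤ⟦X⟧} {l : ℕ} {M : ℕ → ℕ → ℕ → ℂ}

private theorem p3z_l (hl : l.Prime) (hl2 : l ≠ 2) : ∃ w : ℤ, ((l : ℤ) ^ 4 - 1) ^ 3 = 2048 * w := by
  have hodd : l % 2 = 1 := Nat.odd_iff.1 (hl.odd_of_ne_two hl2)
  obtain ⟨t, ht⟩ : ∃ t : ℤ, (l : ℤ) = 2 * t + 1 := ⟨(l : ℤ) / 2, by omega⟩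
  obtain ⟨u, hu⟩ : ∃ u : ℤ, t * (t + 1) = 2 * u := by
    obtain ⟨u, hu⟩ := Int.even_mul_succ_self t
    exact ⟨u, by rw [hu]; ring⟩
  have h2 : (l : ℤ) ^ 4 - 1 = 16 * (u * (4 * u + 1)) := by
    rw [ht]
    have h3 : (2 * t + 1) ^ 2 = 8 * u + 1 := by linear_combination 4 * hu
    calc (2 * t + 1) ^ 4 - 1 = ((2 * t + 1) ^ 2) ^ 2 - 1 := by ring
      _ = 16 * (u * (4 * u + 1)) := by rw [h3]; ring
  exact ⟨2 * (u * (4 * u + 1)) ^ 3, by rw [h2]; ring⟩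

private theorem p3z_c (q : Qd A Y a k) (r0 : ℕ) (hr : r0 ≤ 2) (hc : (2 : ℤ) ^ r0 ∣ Lc l a k 3 1) :
    ∃ c z t : ℤ, Lc l a k 3 1 = 2 ^ r0 * c ∧ Lc l a k 3 3 = 2 ^ r0 * c + 16 * z ∧
      2 ^ (9 + r0) * t = 2048 := by
  obtain ⟨c, hc⟩ := hc
  obtain ⟨z, _, _, _, _, h1, _⟩ := lrel q l
  refine ⟨c, z, 2 ^ (2 - r0), hc, by rw [h1, hc], ?_⟩
  rw [← pow_add, show 9 + r0 + (2 - r0) = 11 by omega]
  norm_num

private theorem p3z_a (r : ℕ) : pc M 3 0 r = -M 0 r 0 + 3 * M 1 r 0 - 3 * M 2 r 0 + M 3 r 0 := by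
  unfold pc
  simp [Finset.sum_range_succ, Nat.choose]
  ring

private theorem p3z_b (r : ℕ) : pc M 2 1 (r + 1) =
    -(M 0 r 0 - 2 * M 1 r 0 + M 2 r 0) + (M 1 (r + 1) 1 - 2 * M 2 (r + 1) 1 + M 3 (r + 1) 1) := by
  unfold pc
  simp [Finset.sum_range_succ, Nat.choose]
  ring

theorem p30z (h : Core A Y) (q : Qd A Y a k) (hl : l.Prime) (hl2 : l ≠ 2) (hM : MatD l A Y 0 M)
    (r0 : ℕ) (hr : r0 ≤ 2) (hc : (2 : ℤ) ^ r0 ∣ Lc l a k 3 1) (r : ℕ) :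
    ∃ z : ℤ, pc M 3 0 r = ((2 ^ (9 + r0) * z : ℤ) : ℂ) := by
  obtain ⟨c, z, t, hc1, hc3, ht⟩ := p3z_c q r0 hr hc
  obtain ⟨w, hw⟩ := p3z_l hl hl2
  obtain ⟨e20, e21⟩ := ent20 h q hl hl2 hM
  obtain ⟨e30, e31, e32, e33⟩ := ent30 h q hl hl2 hM
  have ht' : (2 : ℤ) ^ r0 * 512 * t = 2048 := by rw [← ht, pow_add]; ring
  rcases Nat.lt_or_ge 3 r with h3 | h3
  · exact ⟨0, by rw [pc_deg hM 3 0 r (by omega)]; simp⟩
  · interval_cases r
    · refine ⟨t * w, ?_⟩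
      rw [pc_m00 h hl hl2 hM 3 (by norm_num)]
      have h1 : (2 : ℤ) ^ (9 + r0) * (t * w) = ((l : ℤ) ^ 4 - 1) ^ 3 := by
        rw [hw, ← ht]; ring
      rw [h1]
      push_cast
      ring
    · refine ⟨253 * l * c + t * (1036 * l * z + 12432 * l * Lc l a k 5 1), ?_⟩
      rw [p3z_a, hM.out 0 1 0 (by norm_num), mat_top h hl hl2 hM 1 0 (by norm_num), e20, e30]
      have h1 : (2 : ℤ) ^ (9 + r0) * (253 * l * c + t * (1036 * l * z + 12432 * l * Lc l a k 5 1)) =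
          -3 * ((l : ℤ) * (1024 * Lc l a k 3 1)) +
            (l : ℤ) * (132608 * Lc l a k 3 3 + 25460736 * Lc l a k 5 1) := by
        rw [hc1, hc3, pow_add]
        linear_combination (1036 * (l : ℤ) * z + 12432 * l * Lc l a k 5 1) * ht'
      rw [h1]
      push_cast
      ring
    · refine ⟨t * (2 * l * Lc l a k 3 3 + 384 * l * Lc l a k 5 1), ?_⟩
      rw [p3z_a, hM.out 0 2 0 (by norm_num), hM.out 1 2 0 (by norm_num),
        mat_top h hl hl2 hM 2 0 (by norm_num)]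
      have h2 := hM.sym 3 1 3 (by norm_num) (by norm_num)
      rw [e33] at h2
      have h1 : (2 : ℤ) ^ (9 + r0) * (t * (2 * l * Lc l a k 3 3 + 384 * l * Lc l a k 5 1)) =
          (l : ℤ) * (4096 * Lc l a k 3 3 + 786432 * Lc l a k 5 1) := by
        rw [pow_add]
        linear_combination (2 * (l : ℤ) * Lc l a k 3 3 + 384 * l * Lc l a k 5 1) * ht'
      have h3 : M 3 2 0 = M 3 (3 - 1) (3 - 3) := rfl
      rw [h3, h2, h1]
      ring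
    · refine ⟨0, ?_⟩
      rw [p3z_a, hM.out 0 3 0 (by norm_num), hM.out 1 3 0 (by norm_num), hM.out 2 3 0 (by norm_num),
        mat_top h hl hl2 hM 3 0 (by norm_num)]
      simp

theorem p21z (h : Core A Y) (q : Qd A Y a k) (hl : l.Prime) (hl2 : l ≠ 2) (hM : MatD l A Y 0 M)
    (r0 : ℕ) (hr : r0 ≤ 2) (hc : (2 : ℤ) ^ r0 ∣ Lc l a k 3 1) (r : ℕ) :
    ∃ z : ℤ, pc M 2 1 r = ((2 ^ (9 + r0) * z : ℤ) : ℂ) := by
  obtain ⟨c, z, t, hc1, hc3, ht⟩ := p3z_c q r0 hr hc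
  obtain ⟨w, hw⟩ := p3z_l hl hl2
  obtain ⟨e20, e21⟩ := ent20 h q hl hl2 hM
  obtain ⟨e30, e31, e32, e33⟩ := ent30 h q hl hl2 hM
  have ht' : (2 : ℤ) ^ r0 * 512 * t = 2048 := by rw [← ht, pow_add]; ring
  rcases Nat.lt_or_ge 3 r with h3 | h3
  · exact ⟨0, by rw [pc_deg hM 2 1 r (by omega)]; simp⟩
  · interval_cases r
    · exact ⟨0, by rw [pc_mn0 h hl hl2 hM 2 1 (by norm_num)]; simp⟩
    · refine ⟨t * w - 337 * l * c - t * (1382 * l * z + 16584 * l * Lc l a k 5 1), ?_⟩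
      rw [p3z_b 0, mat_00 h hl hl2 hM 0, mat_00 h hl hl2 hM 1, mat_00 h hl hl2 hM 2]
      simp only [Nat.zero_add]
      rw [mat_NN h hl hl2 hM 1, e21, e31]
      have h1 : (2 : ℤ) ^ (9 + r0) * (t * w - 337 * l * c - t * (1382 * l * z + 16584 * l * Lc l a k 5 1)) =
          ((l : ℤ) ^ 4 - 1) ^ 3 +
            (l : ℤ) * (4352 * Lc l a k 3 1 - 176896 * Lc l a k 3 3 - 33964032 * Lc l a k 5 1) := by
        rw [hc1, hc3, hw, pow_add]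
        linear_combination (w - (1382 * (l : ℤ) * z + 16584 * l * Lc l a k 5 1)) * ht'
      rw [h1]
      push_cast
      ring
    · refine ⟨-2 * l * c, ?_⟩
      rw [p3z_b 1, hM.out 0 1 0 (by norm_num), mat_top h hl hl2 hM 1 0 (by norm_num), e20]
      simp only [Nat.reduceAdd]
      rw [hM.out 1 2 1 (by norm_num), mat_top h hl hl2 hM 2 1 (by norm_num)]
      have h2 := hM.sym 3 1 2 (by norm_num) (by norm_num)
      rw [e32] at h2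
      have h3 : M 3 2 1 = M 3 (3 - 1) (3 - 2) := rfl
      rw [h3, h2]
      have h1 : (2 : ℤ) ^ (9 + r0) * (-2 * l * c) = -((l : ℤ) * (1024 * Lc l a k 3 1)) := by
        rw [hc1, pow_add]
        ring
      rw [h1]
      push_cast
      ring
    · refine ⟨0, ?_⟩
      rw [p3z_b 2, hM.out 0 2 0 (by norm_num), hM.out 1 2 0 (by norm_num),
        mat_top h hl hl2 hM 2 0 (by norm_num)]
      simp only [Nat.reduceAdd]
      rw [hM.out 1 3 1 (by norm_num), hM.out 2 3 1 (by norm_num), mat_top h hl hl2 hM 3 1 (by norm_num)]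
      simp

end Pool.Agent.Lib.MP_06b9d2_tl2
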