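import Pool.Agent.Lib.MP_06b9d2_tl2.Qd

/-!
Module TL2-Xf. Expansions of the forms `fs`; `Lc l a k i j = coeff l (k ^ i * a ^ j)`, `l` odd.

`x1_e_N_s`: expand `fs a k e N s` (`unfold fs`, `ring`, the numerals as factors; e.g. write each term as `(c : ℤ) • (k ^ i * a ^ j)`, `map_zsmul`/`zsmul_eq_mul`) as below: the coefficients of the terms with even `i` are `0` (`mono_co`).
`fs 1 4 0`: (1) k^0 a^9 + (-40) k^1 a^8 + (256) k^2 a^7 + (14336) k^3 a^6 + (-401408) k^4 a^5 + (5046272) k^5 a^4 + (-36700160) k^6 a^3 + (159383552) k^7 a^2 + (-385875968) k^8 a^1 + (402653184) k^9 a^0.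
`fs 1 4 1`: (64) k^1 a^8 + (-1024) k^2 a^7 + (-24576) k^3 a^6 + (720896) k^4 a^5 + (-5242880) k^5 a^4 + (-12582912) k^6 a^3 + (369098752) k^7 a^2 + (-1879048192) k^8 a^1 + (3221225472) k^9 a^0.
`fs 1 4 2`: (4096) k^2 a^7 + (32768) k^3 a^6 + (-1835008) k^4 a^5 + (2097152) k^5 a^4 + (184549376) k^6 a^3 + (-671088640) k^7 a^2 + (-5368709120) k^8 a^1 + (25769803776) k^9 a^0.
`fs 1 4 3`: (262144) k^3 a^6 + (8388608) k^4 a^5 + (16777216) k^5 a^4 + (-1073741824) k^6 a^3 + (-5368709120) k^7 a^2 + (34359738368) k^8 a^1 + (206158430208) k^9 a^0.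
`fs 1 4 4`: (16777216) k^4 a^5 + (939524096) k^5 a^4 + (19327352832) k^6 a^3 + (188978561024) k^7 a^2 + (893353197568) k^8 a^1 + (1649267441664) k^9 a^0.
-/

namespace Pool.Agent.Lib.MP_06b9d2_tl2

open PowerSeries Pool.Agent.L1
open Pool.Agent.Lib.MP_06b9d2_tls (V U TT br In PC Ig tt EgG Two Tl)

variable {A Y : ℂ⟦X⟧} {a k : ℤ⟦X⟧}

private theorem xf_int (l : ℕ) (c : ℤ) (f : ℤ⟦X⟧) : coeff l ((c : ℤ⟦X⟧) * f) = c * coeff l f := by
  rw [show (c : ℤ⟦X⟧) = C c from (map_intCast (C : ℤ →+* ℤ⟦X⟧) c).symm, PowerSeries.coeff_C_mul]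

private theorem xf_co (q : Qd A Y a k) (l : ℕ) (hl : l % 2 = 1) (f : ℤ⟦X⟧)
    (c0 c1 c2 c3 c4 c5 c6 c7 c8 c9 : ℤ)
    (hf : f = (c0 : ℤ⟦X⟧) * (k ^ 0 * a ^ 9) + (c1 : ℤ⟦X⟧) * (k ^ 1 * a ^ 8) + (c2 : ℤ⟦X⟧) * (k ^ 2 * a ^ 7) +
      (c3 : ℤ⟦X⟧) * (k ^ 3 * a ^ 6) + (c4 : ℤ⟦X⟧) * (k ^ 4 * a ^ 5) + (c5 : ℤ⟦X⟧) * (k ^ 5 * a ^ 4) +
      (c6 : ℤ⟦X⟧) * (k ^ 6 * a ^ 3) + (c7 : ℤ⟦X⟧) * (k ^ 7 * a ^ 2) + (c8 : ℤ⟦X⟧) * (k ^ 8 * a ^ 1) +
      (c9 : ℤ⟦X⟧) * (k ^ 9 * a ^ 0)) :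
    coeff l f = c1 * Lc l a k 1 8 + c3 * Lc l a k 3 6 + c5 * Lc l a k 5 4 + c7 * Lc l a k 7 2 +
      c9 * Lc l a k 9 0 := by
  rw [hf]
  simp only [map_add, xf_int]
  rw [mono_co q l 0 9 (by omega), mono_co q l 2 7 (by omega), mono_co q l 4 5 (by omega),
    mono_co q l 6 3 (by omega), mono_co q l 8 1 (by omega)]
  unfold Lc
  ring

theorem x1_1_4_0 (q : Qd A Y a k) (l : ℕ) (hl : l % 2 = 1) :
    coeff l (fs a k 1 4 0) = -40 * Lc l a k 1 8 + 14336 * Lc l a k 3 6 + 5046272 * Lc l a k 5 4 + 159383552 * Lc l a k 7 2 + 402653184 * Lc l a k 9 0 := by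
  refine (xf_co q l hl _ (1) (-40) (256) (14336) (-401408) (5046272) (-36700160) (159383552) (-385875968) (402653184) (by
    unfold fs
    push_cast
    ring)).trans (by ring)

theorem x1_1_4_1 (q : Qd A Y a k) (l : ℕ) (hl : l % 2 = 1) :
    coeff l (fs a k 1 4 1) = 64 * Lc l a k 1 8 - 24576 * Lc l a k 3 6 - 5242880 * Lc l a k 5 4 + 369098752 * Lc l a k 7 2 + 3221225472 * Lc l a k 9 0 := by
  refine (xf_co q l hl _ (0) (64) (-1024) (-24576) (720896) (-5242880) (-12582912) (369098752) (-1879048192) (3221225472) (by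
    unfold fs
    push_cast
    ring)).trans (by ring)

theorem x1_1_4_2 (q : Qd A Y a k) (l : ℕ) (hl : l % 2 = 1) :
    coeff l (fs a k 1 4 2) = 32768 * Lc l a k 3 6 + 2097152 * Lc l a k 5 4 - 671088640 * Lc l a k 7 2 + 25769803776 * Lc l a k 9 0 := by
  refine (xf_co q l hl _ (0) (0) (4096) (32768) (-1835008) (2097152) (184549376) (-671088640) (-5368709120) (25769803776) (by
    unfold fs
    push_cast
    ring)).trans (by ring)

theorem x1_1_4_3 (q : Qd A Y a k) (l : ℕ) (hl : l % 2 = 1) :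
    coeff l (fs a k 1 4 3) = 262144 * Lc l a k 3 6 + 16777216 * Lc l a k 5 4 - 5368709120 * Lc l a k 7 2 + 206158430208 * Lc l a k 9 0 := by
  refine (xf_co q l hl _ (0) (0) (0) (262144) (8388608) (16777216) (-1073741824) (-5368709120) (34359738368) (206158430208) (by
    unfold fs
    push_cast
    ring)).trans (by ring)

theorem x1_1_4_4 (q : Qd A Y a k) (l : ℕ) (hl : l % 2 = 1) :
    coeff l (fs a k 1 4 4) = 939524096 * Lc l a k 5 4 + 188978561024 * Lc l a k 7 2 + 1649267441664 * Lc l a k 9 0 := by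
  refine (xf_co q l hl _ (0) (0) (0) (0) (16777216) (939524096) (19327352832) (188978561024) (893353197568) (1649267441664) (by
    unfold fs
    push_cast
    ring)).trans (by ring)

end Pool.Agent.Lib.MP_06b9d2_tl2
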