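import Pool.Agent.Lib.MP_06b9d2_tl2.Qd

/-!
Module TL2-Xg. Expansions of the forms `fs`; `Lc l a k i j = coeff l (k ^ i * a ^ j)`, `l` odd.

`x1_e_N_s`: expand `fs a k e N s` (`unfold fs`, `ring`, the numerals as factors; e.g. write each term as `(c : ℤ) • (k ^ i * a ^ j)`, `map_zsmul`/`zsmul_eq_mul`) as below: the coefficients of the terms with even `i` are `0` (`mono_co`).
`x2_e_N_s`: coefficient of `x ^ (2 l)`: expand `fs a k e N s` in the `k ^ i a ^ j`; the terms with odd `i` vanish (`mono_co`), for even `i = 2 t` use `mono_ev`: the coefficient is the coefficient of `x ^ l` of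
`1 4 0`: (1) (k (a + 8 k))^0 (a + 24 k)^9 + (256) (k (a + 8 k))^1 (a + 24 k)^7 + (-401408) (k (a + 8 k))^2 (a + 24 k)^5 + (-36700160) (k (a + 8 k))^3 (a + 24 k)^3 + (-385875968) (k (a + 8 k))^4 (a + 24 k)^1.
`1 4 1`: (-1024) (k (a + 8 k))^1 (a + 24 k)^7 + (720896) (k (a + 8 k))^2 (a + 24 k)^5 + (-12582912) (k (a + 8 k))^3 (a + 24 k)^3 + (-1879048192) (k (a + 8 k))^4 (a + 24 k)^1.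
`1 4 2`: (4096) (k (a + 8 k))^1 (a + 24 k)^7 + (-1835008) (k (a + 8 k))^2 (a + 24 k)^5 + (184549376) (k (a + 8 k))^3 (a + 24 k)^3 + (-5368709120) (k (a + 8 k))^4 (a + 24 k)^1.
`1 4 4`: (16777216) (k (a + 8 k))^2 (a + 24 k)^5 + (19327352832) (k (a + 8 k))^3 (a + 24 k)^3 + (893353197568) (k (a + 8 k))^4 (a + 24 k)^1.
Expand this in `k ^ i a ^ j` and use `mono_co` again (only odd `i` remain). (All numbers checked by computer for `l = 3, 5, 7, 11`.)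
-/

namespace Pool.Agent.Lib.MP_06b9d2_tl2

open PowerSeries Pool.Agent.L1
open Pool.Agent.Lib.MP_06b9d2_tls (V U TT br In PC Ig tt EgG Two Tl)

variable {A Y : ℂ⟦X⟧} {a k : ℤ⟦X⟧}

private theorem cz (n : ℕ) (c : ℤ) (f : ℤ⟦X⟧) : coeff n ((c : ℤ⟦X⟧) * f) = c * coeff n f := by
  rw [← zsmul_eq_mul, map_zsmul, smul_eq_mul]

theorem x2_1_4_0 (q : Qd A Y a k) (l : ℕ) (hl : l % 2 = 1) :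
    coeff (2 * l) (fs a k 1 4 0) =
      472 * Lc l a k 1 8 - 86689792 * Lc l a k 3 6 - 246091546624 * Lc l a k 5 4 - 46603725438976 * Lc l a k 7 2 - 490218574577664 * Lc l a k 9 0 := by
  have h1 : fs a k 1 4 0 = ((1 : ℤ) : ℤ⟦X⟧) * (k ^ 0 * a ^ 9) + ((-40 : ℤ) : ℤ⟦X⟧) * (k ^ 1 * a ^ 8) + ((256 : ℤ) : ℤ⟦X⟧) * (k ^ 2 * a ^ 7) + ((14336 : ℤ) : ℤ⟦X⟧) * (k ^ 3 * a ^ 6) + ((-401408 : ℤ) : ℤ⟦X⟧) * (k ^ 4 * a ^ 5) + ((5046272 : ℤ) : ℤ⟦X⟧) * (k ^ 5 * a ^ 4) + ((-36700160 : ℤ) : ℤ⟦X⟧) * (k ^ 6 * a ^ 3) + ((159383552 : ℤ) : ℤ⟦X⟧) * (k ^ 7 * a ^ 2) + ((-385875968 : ℤ) : ℤ⟦X⟧) * (k ^ 8 * a ^ 1) + ((402653184 : ℤ) : ℤ⟦X⟧) * (k ^ 9 * a ^ 0) := by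
    unfold fs
    push_cast
    ring
  have h2 : ((1 : ℤ) : ℤ⟦X⟧) * ((k * (a + 8 * k)) ^ 0 * (a + 24 * k) ^ 9) + ((256 : ℤ) : ℤ⟦X⟧) * ((k * (a + 8 * k)) ^ 1 * (a + 24 * k) ^ 7) + ((-401408 : ℤ) : ℤ⟦X⟧) * ((k * (a + 8 * k)) ^ 2 * (a + 24 * k) ^ 5) + ((-36700160 : ℤ) : ℤ⟦X⟧) * ((k * (a + 8 * k)) ^ 3 * (a + 24 * k) ^ 3) + ((-385875968 : ℤ) : ℤ⟦X⟧) * ((k * (a + 8 * k)) ^ 4 * (a + 24 * k) ^ 1) = ((1 : ℤ) : ℤ⟦X⟧) * (k ^ 0 * a ^ 9) + ((472 : ℤ) : ℤ⟦X⟧) * (k ^ 1 * a ^ 8) + ((-335616 : ℤ) : ℤ⟦X⟧) * (k ^ 2 * a ^ 7) + ((-86689792 : ℤ) : ℤ⟦X⟧) * (k ^ 3 * a ^ 6) + ((-6827155456 : ℤ) : ℤ⟦X⟧) * (k ^ 4 * a ^ 5) + ((-246091546624 : ℤ) : ℤ⟦X⟧) * (k ^ 5 * a ^ 4) + ((-4619106254848 : ℤ) : ℤ⟦X⟧) * (k ^ 6 * a ^ 3) + ((-46603725438976 : ℤ) : ℤ⟦X⟧) * (k ^ 7 * a ^ 2) + ((-239279456387072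 : ℤ) : ℤ⟦X⟧) * (k ^ 8 * a ^ 1) + ((-490218574577664 : ℤ) : ℤ⟦X⟧) * (k ^ 9 * a ^ 0) := by
    push_cast
    ring
  have h3 : coeff (2 * l) (fs a k 1 4 0) = coeff l (((1 : ℤ) : ℤ⟦X⟧) * ((k * (a + 8 * k)) ^ 0 * (a + 24 * k) ^ 9) + ((256 : ℤ) : ℤ⟦X⟧) * ((k * (a + 8 * k)) ^ 1 * (a + 24 * k) ^ 7) + ((-401408 : ℤ) : ℤ⟦X⟧) * ((k * (a + 8 * k)) ^ 2 * (a + 24 * k) ^ 5) + ((-36700160 : ℤ) : ℤ⟦X⟧) * ((k * (a + 8 * k)) ^ 3 * (a + 24 * k) ^ 3) + ((-385875968 : ℤ) : ℤ⟦X⟧) * ((k * (a + 8 * k)) ^ 4 * (a + 24 * k) ^ 1)) := by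
    rw [h1]
    simp only [map_add, cz]
    rw [mono_co q (2 * l) 1 8 (by omega), mono_co q (2 * l) 3 6 (by omega), mono_co q (2 * l) 5 4 (by omega), mono_co q (2 * l) 7 2 (by omega), mono_co q (2 * l) 9 0 (by omega), ← mono_ev q l 0 9, ← mono_ev q l 1 7, ← mono_ev q l 2 5, ← mono_ev q l 3 3, ← mono_ev q l 4 1]
    ring
  rw [h3, h2]
  simp only [map_add, cz]
  rw [mono_co q l 0 9 (by omega), mono_co q l 2 7 (by omega), mono_co q l 4 5 (by omega), mono_co q l 6 3 (by omega), mono_co q l 8 1 (by omega)]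
  unfold Lc
  ring

theorem x2_1_4_1 (q : Qd A Y a k) (l : ℕ) (hl : l % 2 = 1) :
    coeff (2 * l) (fs a k 1 4 1) =
      -1024 * Lc l a k 1 8 + 71696384 * Lc l a k 3 6 + 4647288832 * Lc l a k 5 4 - 1466194460672 * Lc l a k 7 2 + 56023553409024 * Lc l a k 9 0 := by
  have h1 : fs a k 1 4 1 = ((64 : ℤ) : ℤ⟦X⟧) * (k ^ 1 * a ^ 8) + ((-1024 : ℤ) : ℤ⟦X⟧) * (k ^ 2 * a ^ 7) + ((-24576 : ℤ) : ℤ⟦X⟧) * (k ^ 3 * a ^ 6) + ((720896 : ℤ) : ℤ⟦X⟧) * (k ^ 4 * a ^ 5) + ((-5242880 : ℤ) : ℤ⟦X⟧) * (k ^ 5 * a ^ 4) + ((-12582912 : ℤ) : ℤ⟦X⟧) * (k ^ 6 * a ^ 3) + ((369098752 : ℤ) : ℤ⟦X⟧) * (k ^ 7 * a ^ 2) + ((-1879048192 : ℤ) : ℤ⟦X⟧) * (k ^ 8 * a ^ 1) + ((3221225472 : ℤ) : ℤ⟦X⟧) * (k ^ 9 * a ^ 0) := by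
    unfold fs
    push_cast
    ring
  have h2 : ((-1024 : ℤ) : ℤ⟦X⟧) * ((k * (a + 8 * k)) ^ 1 * (a + 24 * k) ^ 7) + ((720896 : ℤ) : ℤ⟦X⟧) * ((k * (a + 8 * k)) ^ 2 * (a + 24 * k) ^ 5) + ((-12582912 : ℤ) : ℤ⟦X⟧) * ((k * (a + 8 * k)) ^ 3 * (a + 24 * k) ^ 3) + ((-1879048192 : ℤ) : ℤ⟦X⟧) * ((k * (a + 8 * k)) ^ 4 * (a + 24 * k) ^ 1) = ((-1024 : ℤ) : ℤ⟦X⟧) * (k ^ 1 * a ^ 8) + ((540672 : ℤ) : ℤ⟦X⟧) * (k ^ 2 * a ^ 7) + ((71696384 : ℤ) : ℤ⟦X⟧) * (k ^ 3 * a ^ 6) + ((1901068288 : ℤ) : ℤ⟦X⟧) * (k ^ 4 * a ^ 5) + ((4647288832 : ℤ) : ℤ⟦X⟧) * (k ^ 5 * a ^ 4) + ((-251054260224 : ℤ) : ℤ⟦X⟧) * (k ^ 6 * a ^ 3) + ((-1466194460672 : ℤ) : ℤ⟦X⟧) * (k ^ 7 * a ^ 2) + ((8138963025920 : ℤ) : ℤ⟦X⟧) * (k ^ 8 * a ^ 1) + ((56023553409024 : ℤ) : ℤ⟦X⟧) * (k ^ 9 * a ^ 0) := by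
    push_cast
    ring
  have h3 : coeff (2 * l) (fs a k 1 4 1) = coeff l (((-1024 : ℤ) : ℤ⟦X⟧) * ((k * (a + 8 * k)) ^ 1 * (a + 24 * k) ^ 7) + ((720896 : ℤ) : ℤ⟦X⟧) * ((k * (a + 8 * k)) ^ 2 * (a + 24 * k) ^ 5) + ((-12582912 : ℤ) : ℤ⟦X⟧) * ((k * (a + 8 * k)) ^ 3 * (a + 24 * k) ^ 3) + ((-1879048192 : ℤ) : ℤ⟦X⟧) * ((k * (a + 8 * k)) ^ 4 * (a + 24 * k) ^ 1)) := by
    rw [h1]
    simp only [map_add, cz]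
    rw [mono_co q (2 * l) 1 8 (by omega), mono_co q (2 * l) 3 6 (by omega), mono_co q (2 * l) 5 4 (by omega), mono_co q (2 * l) 7 2 (by omega), mono_co q (2 * l) 9 0 (by omega), ← mono_ev q l 1 7, ← mono_ev q l 2 5, ← mono_ev q l 3 3, ← mono_ev q l 4 1]
    ring
  rw [h3, h2]
  simp only [map_add, cz]
  rw [mono_co q l 2 7 (by omega), mono_co q l 4 5 (by omega), mono_co q l 6 3 (by omega), mono_co q l 8 1 (by omega)]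
  unfold Lc
  ring

theorem x2_1_4_2 (q : Qd A Y a k) (l : ℕ) (hl : l % 2 = 1) :
    coeff (2 * l) (fs a k 1 4 2) =
      4096 * Lc l a k 1 8 - 9961472 * Lc l a k 3 6 - 872415232 * Lc l a k 5 4 + 195421011968 * Lc l a k 7 2 - 6390911336448 * Lc l a k 9 0 := by
  have h1 : fs a k 1 4 2 = ((4096 : ℤ) : ℤ⟦X⟧) * (k ^ 2 * a ^ 7) + ((32768 : ℤ) : ℤ⟦X⟧) * (k ^ 3 * a ^ 6) + ((-1835008 : ℤ) : ℤ⟦X⟧) * (k ^ 4 * a ^ 5) + ((2097152 : ℤ) : ℤ⟦X⟧) * (k ^ 5 * a ^ 4) + ((184549376 : ℤ) : ℤ⟦X⟧) * (k ^ 6 * a ^ 3) + ((-671088640 : ℤ) : ℤ⟦X⟧) * (k ^ 7 * a ^ 2) + ((-5368709120 : ℤ) : ℤ⟦X⟧) * (k ^ 8 * a ^ 1) + ((25769803776 : ℤ) : ℤ⟦X⟧) * (k ^ 9 * a ^ 0) := by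
    unfold fs
    push_cast
    ring
  have h2 : ((4096 : ℤ) : ℤ⟦X⟧) * ((k * (a + 8 * k)) ^ 1 * (a + 24 * k) ^ 7) + ((-1835008 : ℤ) : ℤ⟦X⟧) * ((k * (a + 8 * k)) ^ 2 * (a + 24 * k) ^ 5) + ((184549376 : ℤ) : ℤ⟦X⟧) * ((k * (a + 8 * k)) ^ 3 * (a + 24 * k) ^ 3) + ((-5368709120 : ℤ) : ℤ⟦X⟧) * ((k * (a + 8 * k)) ^ 4 * (a + 24 * k) ^ 1) = ((4096 : ℤ) : ℤ⟦X⟧) * (k ^ 1 * a ^ 8) + ((-1114112 : ℤ) : ℤ⟦X⟧) * (k ^ 2 * a ^ 7) + ((-9961472 : ℤ) : ℤ⟦X⟧) * (k ^ 3 * a ^ 6) + ((515899392 : ℤ) : ℤ⟦X⟧) * (k ^ 4 * a ^ 5) + ((-872415232 : ℤ) : ℤ⟦X⟧) * (k ^ 5 * a ^ 4) + ((-48049946624 : ℤ) : ℤ⟦X⟧) * (k ^ 6 * a ^ 3) + ((195421011968 : ℤ) : ℤ⟦X⟧) * (k ^ 7 * a ^ 2) + ((1254130450432 : ℤ) : ℤ⟦X⟧) * (k ^ 8 * a ^ 1) + ((-6390911336448 : ℤ) : ℤ⟦X⟧) * (k ^ 9 * a ^ 0) := by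
    push_cast
    ring
  have h3 : coeff (2 * l) (fs a k 1 4 2) = coeff l (((4096 : ℤ) : ℤ⟦X⟧) * ((k * (a + 8 * k)) ^ 1 * (a + 24 * k) ^ 7) + ((-1835008 : ℤ) : ℤ⟦X⟧) * ((k * (a + 8 * k)) ^ 2 * (a + 24 * k) ^ 5) + ((184549376 : ℤ) : ℤ⟦X⟧) * ((k * (a + 8 * k)) ^ 3 * (a + 24 * k) ^ 3) + ((-5368709120 : ℤ) : ℤ⟦X⟧) * ((k * (a + 8 * k)) ^ 4 * (a + 24 * k) ^ 1)) := by
    rw [h1]
    simp only [map_add, cz]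
    rw [mono_co q (2 * l) 3 6 (by omega), mono_co q (2 * l) 5 4 (by omega), mono_co q (2 * l) 7 2 (by omega), mono_co q (2 * l) 9 0 (by omega), ← mono_ev q l 1 7, ← mono_ev q l 2 5, ← mono_ev q l 3 3, ← mono_ev q l 4 1]
    ring
  rw [h3, h2]
  simp only [map_add, cz]
  rw [mono_co q l 2 7 (by omega), mono_co q l 4 5 (by omega), mono_co q l 6 3 (by omega), mono_co q l 8 1 (by omega)]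
  unfold Lc
  ring

theorem x2_1_4_4 (q : Qd A Y a k) (l : ℕ) (hl : l % 2 = 1) :
    coeff (2 * l) (fs a k 1 4 4) =
      21609054208 * Lc l a k 3 6 + 124528281780224 * Lc l a k 5 4 + 24327244520357888 * Lc l a k 7 2 + 233166833832689664 * Lc l a k 9 0 := by
  have h1 : fs a k 1 4 4 = ((16777216 : ℤ) : ℤ⟦X⟧) * (k ^ 4 * a ^ 5) + ((939524096 : ℤ) : ℤ⟦X⟧) * (k ^ 5 * a ^ 4) + ((19327352832 : ℤ) : ℤ⟦X⟧) * (k ^ 6 * a ^ 3) + ((188978561024 : ℤ) : ℤ⟦X⟧) * (k ^ 7 * a ^ 2) + ((893353197568 : ℤ) : ℤ⟦X⟧) * (k ^ 8 * a ^ 1) + ((1649267441664 : ℤ) : ℤ⟦X⟧) * (k ^ 9 * a ^ 0) := by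
    unfold fs
    push_cast
    ring
  have h2 : ((16777216 : ℤ) : ℤ⟦X⟧) * ((k * (a + 8 * k)) ^ 2 * (a + 24 * k) ^ 5) + ((19327352832 : ℤ) : ℤ⟦X⟧) * ((k * (a + 8 * k)) ^ 3 * (a + 24 * k) ^ 3) + ((893353197568 : ℤ) : ℤ⟦X⟧) * ((k * (a + 8 * k)) ^ 4 * (a + 24 * k) ^ 1) = ((16777216 : ℤ) : ℤ⟦X⟧) * (k ^ 2 * a ^ 7) + ((21609054208 : ℤ) : ℤ⟦X⟧) * (k ^ 3 * a ^ 6) + ((2878701830144 : ℤ) : ℤ⟦X⟧) * (k ^ 4 * a ^ 5) + ((124528281780224 : ℤ) : ℤ⟦X⟧) * (k ^ 5 * a ^ 4) + ((2446069774417920 : ℤ) : ℤ⟦X⟧) * (k ^ 6 * a ^ 3) + ((24327244520357888 : ℤ) : ℤ⟦X⟧) * (k ^ 7 * a ^ 2) + ((119886349846183936 : ℤ) : ℤ⟦X⟧) * (k ^ 8 * a ^ 1) + ((233166833832689664 : ℤ) : ℤ⟦X⟧) * (k ^ 9 * a ^ 0) := by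
    push_cast
    ring
  have h3 : coeff (2 * l) (fs a k 1 4 4) = coeff l (((16777216 : ℤ) : ℤ⟦X⟧) * ((k * (a + 8 * k)) ^ 2 * (a + 24 * k) ^ 5) + ((19327352832 : ℤ) : ℤ⟦X⟧) * ((k * (a + 8 * k)) ^ 3 * (a + 24 * k) ^ 3) + ((893353197568 : ℤ) : ℤ⟦X⟧) * ((k * (a + 8 * k)) ^ 4 * (a + 24 * k) ^ 1)) := by
    rw [h1]
    simp only [map_add, cz]
    rw [mono_co q (2 * l) 5 4 (by omega), mono_co q (2 * l) 7 2 (by omega), mono_co q (2 * l) 9 0 (by omega), ← mono_ev q l 2 5, ← mono_ev q l 3 3, ← mono_ev q l 4 1]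
    ring
  rw [h3, h2]
  simp only [map_add, cz]
  rw [mono_co q l 2 7 (by omega), mono_co q l 4 5 (by omega), mono_co q l 6 3 (by omega), mono_co q l 8 1 (by omega)]
  unfold Lc
  ring

end Pool.Agent.Lib.MP_06b9d2_tl2
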