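import Pool.Agent.Lib.MP_06b9d2_tl2.Row
import Pool.Agent.Lib.MP_06b9d2_tl2.Xf
import Pool.Agent.Lib.MP_06b9d2_tl2.Xg

/-!
Module TL2-Ent41. The matrix for `a = 1`, `N = 4`.

`row1` (`24 e - 16 N = -40`; `M 4 0 s = 0` for `s > 0`, `M 4 0 0 = l + l ^ 18`): `l x1(s) = 64 M 4 1 s` for `s = 1, .., 4`, `l x1(0) = -40 M 4 0 0 + 64 M 4 1 0`. `row2`: `128 N ^ 2 - 16 N + 24 - 384 N = 472`, `64 (24 + 24 - 64) = -1024`: `l x2(s) = -1024 M 4 1 s + 4096 M 4 2 s` (`s = 1, 2, 4`),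
`l x2(0) = 472 M 4 0 0 - 1024 M 4 1 0 + 4096 M 4 2 0`. `M 4 2 4 = M 4 2 0` (`hM.sym`). Order: `M 4 1 4`, `M 4 1 3`, `M 4 1 2`; `M 4 2 0 = M 4 2 4` from `x2(4)`; the two equations for `s = 0` give `Lc l a k 1 8` and `M 4 1 0`; then `M 4 1 1`, `M 4 2 1`, `M 4 2 2`.
-/

namespace Pool.Agent.Lib.MP_06b9d2_tl2

open PowerSeries Pool.Agent.L1
open Pool.Agent.Lib.MP_06b9d2_tls (V U TT br In PC Ig tt EgG Two Tl)

variable {A Y : ℂ⟦X⟧} {a k : ℤ⟦X⟧} {l : ℕ} {M : ℕ → ℕ → ℕ → ℂ}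

theorem ent41 (h : Core A Y) (q : Qd A Y a k) (hl : l.Prime) (hl2 : l ≠ 2) (hM : MatD l A Y 1 M) :
    M 4 1 0 = (((l : ℤ) * (80712704 * Lc l a k 3 6 + 464246079488 * Lc l a k 5 4 + 90687760498688 * Lc l a k 7 2 + 869358020591616 * Lc l a k 9 0) : ℤ) : ℂ) ∧
    M 4 1 1 = (((l : ℤ) * (1 + (l : ℤ) ^ 17 - 129140352 * Lc l a k 3 6 - 742793682944 * Lc l a k 5 4 - 145100407046144 * Lc l a k 7 2 - 1390972772548608 * Lc l a k 9 0) : ℤ) : ℂ) ∧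
    M 4 1 2 = (((l : ℤ) * (512 * Lc l a k 3 6 + 32768 * Lc l a k 5 4 - 10485760 * Lc l a k 7 2 + 402653184 * Lc l a k 9 0) : ℤ) : ℂ) ∧
    M 4 1 3 = (((l : ℤ) * (4096 * Lc l a k 3 6 + 262144 * Lc l a k 5 4 - 83886080 * Lc l a k 7 2 + 3221225472 * Lc l a k 9 0) : ℤ) : ℂ) ∧
    M 4 1 4 = (((l : ℤ) * (14680064 * Lc l a k 5 4 + 2952790016 * Lc l a k 7 2 + 25769803776 * Lc l a k 9 0) : ℤ) : ℂ) ∧
    M 4 2 0 = (((l : ℤ) * (5275648 * Lc l a k 3 6 + 30406082560 * Lc l a k 5 4 + 5940006879232 * Lc l a k 7 2 + 56931938992128 * Lc l a k 9 0) : ℤ) : ℂ) ∧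
    M 4 2 1 = (((l : ℤ) * (17408 * Lc l a k 3 6 + 1114112 * Lc l a k 5 4 - 356515840 * Lc l a k 7 2 + 13690208256 * Lc l a k 9 0) : ℤ) : ℂ) ∧
    M 4 2 2 = (((l : ℤ) * (1 + (l : ℤ) ^ 17 - 129142272 * Lc l a k 3 6 - 742793805824 * Lc l a k 5 4 - 145100367724544 * Lc l a k 7 2 - 1390974282498048 * Lc l a k 9 0) : ℤ) : ℂ) := by
  have hlo : l % 2 = 1 := by
    rcases Nat.Prime.eq_two_or_odd hl with h1 | h1
    · exact absurd h1 hl2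
    · exact h1
  have hl0 : (l : ℂ) ≠ 0 := by exact_mod_cast hl.ne_zero
  have m0 : M 4 0 0 = l + (l : ℂ) ^ 18 := mat_00 h hl hl2 hM 4
  have m01 : M 4 0 1 = 0 := mat_low h hl hl2 hM 4 1 (by norm_num) (by norm_num)
  have m02 : M 4 0 2 = 0 := mat_low h hl hl2 hM 4 2 (by norm_num) (by norm_num)
  have m03 : M 4 0 3 = 0 := mat_low h hl hl2 hM 4 3 (by norm_num) (by norm_num)
  have m04 : M 4 0 4 = 0 := mat_low h hl hl2 hM 4 4 (by norm_num) (by norm_num)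
  have hs : M 4 2 4 = M 4 2 0 := hM.sym 4 2 0 (by norm_num) (by norm_num)
  have r0 := row1 h q hl hl2 le_rfl hM 4 0 (by norm_num)
  have r1 := row1 h q hl hl2 le_rfl hM 4 1 (by norm_num)
  have r2 := row1 h q hl hl2 le_rfl hM 4 2 (by norm_num)
  have r3 := row1 h q hl hl2 le_rfl hM 4 3 (by norm_num)
  have r4 := row1 h q hl hl2 le_rfl hM 4 4 (by norm_num)
  have s0 := row2 h q hl hl2 le_rfl hM 4 0 (by norm_num) (by norm_num)
  have s1 := row2 h q hl hl2 le_rfl hM 4 1 (by norm_num) (by norm_num)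
  have s2 := row2 h q hl hl2 le_rfl hM 4 2 (by norm_num) (by norm_num)
  have s4 := row2 h q hl hl2 le_rfl hM 4 4 (by norm_num) (by norm_num)
  rw [x1_1_4_0 q l hlo, m0] at r0
  rw [x1_1_4_1 q l hlo, m01] at r1
  rw [x1_1_4_2 q l hlo, m02] at r2
  rw [x1_1_4_3 q l hlo, m03] at r3
  rw [x1_1_4_4 q l hlo, m04] at r4
  rw [x2_1_4_0 q l hlo, m0] at s0
  rw [x2_1_4_1 q l hlo, m01] at s1
  rw [x2_1_4_2 q l hlo, m02] at s2
  rw [x2_1_4_4 q l hlo, m04, hs] at s4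
  push_cast at r0 r1 r2 r3 r4 s0 s1 s2 s4
  have e12 : M 4 1 2 = (l : ℂ) * (512 * Lc l a k 3 6 + 32768 * Lc l a k 5 4 - 10485760 * Lc l a k 7 2 + 402653184 * Lc l a k 9 0) := by
    linear_combination (-1 / 64 : ℂ) * r2
  have e13 : M 4 1 3 = (l : ℂ) * (4096 * Lc l a k 3 6 + 262144 * Lc l a k 5 4 - 83886080 * Lc l a k 7 2 + 3221225472 * Lc l a k 9 0) := by
    linear_combination (-1 / 64 : ℂ) * r3
  have e14 : M 4 1 4 = (l : ℂ) * (14680064 * Lc l a k 5 4 + 2952790016 * Lc l a k 7 2 + 25769803776 * Lc l a k 9 0) := by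
    linear_combination (-1 / 64 : ℂ) * r4
  have e20 : M 4 2 0 = (l : ℂ) * (5275648 * Lc l a k 3 6 + 30406082560 * Lc l a k 5 4 + 5940006879232 * Lc l a k 7 2 + 56931938992128 * Lc l a k 9 0) := by
    linear_combination (-1 / 4096 : ℂ) * s4 + (1024 / 4096 : ℂ) * e14
  have e10 : M 4 1 0 = (l : ℂ) * (80712704 * Lc l a k 3 6 + 464246079488 * Lc l a k 5 4 + 90687760498688 * Lc l a k 7 2 + 869358020591616 * Lc l a k 9 0) := by
    linear_combination (472 / 10752 : ℂ) * r0 + (40 / 10752 : ℂ) * s0 + (163840 / 10752 : ℂ) * e20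
  have e11 : M 4 1 1 = (l : ℂ) * (1 + (l : ℂ) ^ 17 - 129140352 * Lc l a k 3 6 - 742793682944 * Lc l a k 5 4 - 145100407046144 * Lc l a k 7 2 - 1390972772548608 * Lc l a k 9 0) := by
    linear_combination (-1 / 64 : ℂ) * r1 - (1 / 40 : ℂ) * r0 - (64 / 40 : ℂ) * e10
  have e21 : M 4 2 1 = (l : ℂ) * (17408 * Lc l a k 3 6 + 1114112 * Lc l a k 5 4 - 356515840 * Lc l a k 7 2 + 13690208256 * Lc l a k 9 0) := by
    linear_combination (-1 / 4096 : ℂ) * s1 - (1 / 256 : ℂ) * r1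
  have e22 : M 4 2 2 = (l : ℂ) * (1 + (l : ℂ) ^ 17 - 129142272 * Lc l a k 3 6 - 742793805824 * Lc l a k 5 4 - 145100367724544 * Lc l a k 7 2 - 1390974282498048 * Lc l a k 9 0) := by
    linear_combination (-1 / 4096 : ℂ) * s2 + (1024 / 4096 : ℂ) * e12 - (1 / 40 : ℂ) * r0 - (64 / 40 : ℂ) * e10
  refine ⟨?_, ?_, ?_, ?_, ?_, ?_, ?_, ?_⟩ <;> push_cast
  · exact e10
  · exact e11
  · exact e12
  · exact e13
  · exact e14
  · exact e20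
  · exact e21
  · exact e22

end Pool.Agent.Lib.MP_06b9d2_tl2
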