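import Pool.Agent.Lib.MP_06b9d2_tl2.Low
import Pool.Agent.Lib.MP_06b9d2_tl2.Ent21
import Pool.Agent.Lib.MP_06b9d2_tl2.Ent31
import Pool.Agent.Lib.MP_06b9d2_tl2.Ent41
import Pool.Agent.Lib.MP_06b9d2_tl2.Lrel

/-!
Module TL2-P4o. Bounds for the `pc` with `m + n = 4`, `a = 1`.

Unfold `pc` (`simp [pc, Finset.sum_range_succ, Nat.choose]`), insert `mat_00`, `mat_NN`, `mat_low`, `mat_top`, `hM.out`, `hM.sym` and the values of `ent..` (for `N = 2, 3, 4`). Result (`L(i,j)` is `Lc l a k i j`; checked by computer):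
`pc 4 0 0 = l^2 (l^4-1)^4`; `pc 4 0 1 = l (15360 L(3,2) + 589824 L(5,0) - 2392064 L(3,4) - 1572864000 L(5,2) - 26977763328 L(7,0) + 80712704 L(3,6) + 464246079488 L(5,4) + 90687760498688 L(7,2) + 869358020591616 L(9,0))`; `pc 4 0 2 = l (-16384 L(3,4) - 12582912 L(5,2) - 201326592 L(7,0) + 5275648 L(3,6) + 30406082560 L(5,4) + 5940006879232 L(7,2) + 56931938992128 L(9,0))`; `pc 4 0 3 = l (14680064 L(5,4) + 2952790016 L(7,2) + 25769803776 L(9,0))`; `pc 4 0 4 = 0`.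
`pc 3 1 0 = 0`; `pc 3 1 1 = l^2 (l^4-1)^4 + l (-59520 L(3,2) - 2285568 L(5,0) + 4783872 L(3,4) + 3145531392 L(5,2) + 53952380928 L(7,0) - 129140352 L(3,6) - 742793682944 L(5,4) - 145100407046144 L(7,2) - 1390972772548608 L(9,0))`; `pc 3 1 2 = l (7680 L(3,2) + 294912 L(5,0) - 602624 L(3,4) - 392626176 L(5,2) - 6763315200 L(7,0) + 17408 L(3,6) + 1114112 L(5,4) - 356515840 L(7,2) + 13690208256 L(9,0))`; `pc 3 1 3 = l (-4096 L(3,4) - 3145728 L(5,2) - 50331648 L(7,0) + 4096 L(3,6) + 262144 L(5,4) - 83886080 L(7,2) + 3221225472 L(9,0))`; `pc 3 1 4 = 0`.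
`pc 2 2 0 = 0`; `pc 2 2 1 = l (2560 L(3,2) + 98304 L(5,0) - 3072 L(3,4) + 393216 L(5,2) - 12582912 L(7,0) + 512 L(3,6) + 32768 L(5,4) - 10485760 L(7,2) + 402653184 L(9,0))`; `pc 2 2 2 = l^2 (l^4-1)^4 + l (-79360 L(3,2) - 3047424 L(5,0) + 6378496 L(3,4) + 4194041856 L(5,2) + 71936507904 L(7,0) - 129142272 L(3,6) - 742793805824 L(5,4) - 145100367724544 L(7,2) - 1390974282498048 L(9,0))`; `pc 2 2 3 = l (2560 L(3,2) + 98304 L(5,0) - 3072 L(3,4) + 393216 L(5,2) - 12582912 L(7,0) + 512 L(3,6) + 32768 L(5,4) - 10485760 L(7,2) + 402653184 L(9,0))`; `pc 2 2 4 = 0`.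
`pc m n r = 0` for `r > m + n` (`pc_deg`), `pc_m00`, `pc_mn0`. `16 ∣ l ^ 4 - 1` (`l` odd). For the integers in the brackets: `lrel`, `Lc l a k 3 1 = 2 ^ r0 * c'`, and for each of `r0 = 0, 1, 2` a linear divisibility (`omega`).
-/

namespace Pool.Agent.Lib.MP_06b9d2_tl2

open PowerSeries Pool.Agent.L1
open Pool.Agent.Lib.MP_06b9d2_tls (V U TT br In PC Ig tt EgG Two Tl)

variable {A Y : ℂ⟦X⟧} {a k : ℤ⟦X⟧} {l : ℕ} {M : ℕ → ℕ → ℕ → ℂ}

private lemma P4o_fin (x : ℂ) (n : ℤ) (m : ℕ) (h1 : x = (n : ℂ)) (h2 : (2 ^ m : ℤ) ∣ n) :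
    ∃ z : ℤ, x = ((2 ^ m * z : ℤ) : ℂ) := by
  obtain ⟨z, hz⟩ := h2
  exact ⟨z, by rw [h1, hz]⟩

private lemma P4o_l4 (l m : ℕ) (hl : l.Prime) (hl2 : l ≠ 2) (hm : m ≤ 16) :
    (2 ^ m : ℤ) ∣ (l : ℤ) ^ 2 * ((l : ℤ) ^ 4 - 1) ^ 4 := by
  have hlo : l % 2 = 1 := by
    rcases Nat.Prime.eq_two_or_odd hl with h1 | h1
    · exact absurd h1 hl2
    · exact h1
  have h16 : (2 ^ 4 : ℤ) ∣ (l : ℤ) ^ 4 - 1 := by
    obtain ⟨t, ht⟩ : ∃ t : ℤ, (l : ℤ) = 2 * t + 1 := ⟨(l / 2 : ℕ), by omega⟩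
    obtain ⟨u, hu⟩ := Int.even_or_odd' t
    rcases hu with hu | hu
    · rw [ht, hu]
      exact ⟨u + 6 * u ^ 2 + 16 * u ^ 3 + 16 * u ^ 4, by ring⟩
    · rw [ht, hu]
      exact ⟨5 + 27 * u + 54 * u ^ 2 + 48 * u ^ 3 + 16 * u ^ 4, by ring⟩
  have h2 : (2 ^ 16 : ℤ) ∣ ((l : ℤ) ^ 4 - 1) ^ 4 := by
    have h3 := pow_dvd_pow_of_dvd h16 4
    rw [← pow_mul] at h3
    exact h3
  exact ((pow_dvd_pow 2 hm).trans h2).mul_left _

private lemma P4o_lin (q : Qd A Y a k) (r0 : ℕ) (hr : r0 ≤ 2) (hc : (2 : ℤ) ^ r0 ∣ Lc l a k 3 1) :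
    ((2 : ℤ) ^ (11 + r0) ∣ 15360 * Lc l a k 3 2 + 589824 * Lc l a k 5 0 - 2392064 * Lc l a k 3 4 - 1572864000 * Lc l a k 5 2 - 26977763328 * Lc l a k 7 0 + 80712704 * Lc l a k 3 6 + 464246079488 * Lc l a k 5 4 + 90687760498688 * Lc l a k 7 2 + 869358020591616 * Lc l a k 9 0) ∧
    ((2 : ℤ) ^ (11 + r0) ∣ -16384 * Lc l a k 3 4 - 12582912 * Lc l a k 5 2 - 201326592 * Lc l a k 7 0 + 5275648 * Lc l a k 3 6 + 30406082560 * Lc l a k 5 4 + 5940006879232 * Lc l a k 7 2 + 56931938992128 * Lc l a k 9 0) ∧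
    ((2 : ℤ) ^ (11 + r0) ∣ 14680064 * Lc l a k 5 4 + 2952790016 * Lc l a k 7 2 + 25769803776 * Lc l a k 9 0) ∧
    ((2 : ℤ) ^ (9 + r0) ∣ -59520 * Lc l a k 3 2 - 2285568 * Lc l a k 5 0 + 4783872 * Lc l a k 3 4 + 3145531392 * Lc l a k 5 2 + 53952380928 * Lc l a k 7 0 - 129140352 * Lc l a k 3 6 - 742793682944 * Lc l a k 5 4 - 145100407046144 * Lc l a k 7 2 - 1390972772548608 * Lc l a k 9 0) ∧
    ((2 : ℤ) ^ (9 + r0) ∣ 7680 * Lc l a k 3 2 + 294912 * Lc l a k 5 0 - 602624 * Lc l a k 3 4 - 392626176 * Lc l a k 5 2 - 6763315200 * Lc l a k 7 0 + 17408 * Lc l a k 3 6 + 1114112 * Lc l a k 5 4 - 356515840 * Lc l a k 7 2 + 13690208256 * Lc l a k 9 0) ∧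
    ((2 : ℤ) ^ (9 + r0) ∣ -4096 * Lc l a k 3 4 - 3145728 * Lc l a k 5 2 - 50331648 * Lc l a k 7 0 + 4096 * Lc l a k 3 6 + 262144 * Lc l a k 5 4 - 83886080 * Lc l a k 7 2 + 3221225472 * Lc l a k 9 0) ∧
    ((2 : ℤ) ^ (10 + r0) ∣ 2560 * Lc l a k 3 2 + 98304 * Lc l a k 5 0 - 3072 * Lc l a k 3 4 + 393216 * Lc l a k 5 2 - 12582912 * Lc l a k 7 0 + 512 * Lc l a k 3 6 + 32768 * Lc l a k 5 4 - 10485760 * Lc l a k 7 2 + 402653184 * Lc l a k 9 0) ∧
    ((2 : ℤ) ^ (10 + r0) ∣ -79360 * Lc l a k 3 2 - 3047424 * Lc l a k 5 0 + 6378496 * Lc l a k 3 4 + 4194041856 * Lc l a k 5 2 + 71936507904 * Lc l a k 7 0 - 129142272 * Lc l a k 3 6 - 742793805824 * Lc l a k 5 4 - 145100367724544 * Lc l a k 7 2 - 1390974282498048 * Lc l a k 9 0) := by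
  obtain ⟨z₁, z₂, z₃, z₄, z₅, h1, h2, h3, h4, h5⟩ := lrel q l
  obtain ⟨c, hc'⟩ := hc
  have e4 : Lc l a k 3 4 = Lc l a k 3 1 + 8 * z₃ + 16 * z₄ := by rw [h4, h3]
  have e6 : Lc l a k 3 6 = Lc l a k 3 1 + 8 * z₃ + 32 * z₅ := by rw [h5, h3]
  rw [h3, e4, e6, hc']
  generalize Lc l a k 5 0 = x1
  generalize Lc l a k 5 2 = x2
  generalize Lc l a k 5 4 = x3
  generalize Lc l a k 7 0 = x4
  generalize Lc l a k 7 2 = x5
  generalize Lc l a k 9 0 = x6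
  interval_cases r0
  · norm_num only
    refine ⟨?_, ?_, ?_, ?_, ?_, ?_, ?_, ?_⟩ <;> omega
  · norm_num only
    refine ⟨?_, ?_, ?_, ?_, ?_, ?_, ?_, ?_⟩ <;> omega
  · norm_num only
    refine ⟨?_, ?_, ?_, ?_, ?_, ?_, ?_, ?_⟩ <;> omega


set_option linter.unusedSimpArgs false

theorem p40o (h : Core A Y) (q : Qd A Y a k) (hl : l.Prime) (hl2 : l ≠ 2) (hM : MatD l A Y 1 M)
    (r0 : ℕ) (hr : r0 ≤ 2) (hc : (2 : ℤ) ^ r0 ∣ Lc l a k 3 1) (r : ℕ) :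
    ∃ z : ℤ, pc M 4 0 r = ((2 ^ (11 + r0) * z : ℤ) : ℂ) := by
  obtain ⟨d1, d2, d3, d4, d5, d6, d7, d8⟩ := P4o_lin (l := l) q r0 hr hc
  obtain ⟨a20, a21⟩ := ent21 h q hl hl2 hM
  obtain ⟨b0, b1, b2, b3⟩ := ent31 h q hl hl2 hM
  obtain ⟨c0, c1, c2, c3, c4, c5, c6, c7⟩ := ent41 h q hl hl2 hM
  have s1 : M 2 1 2 = M 2 1 0 := hM.sym 2 1 0 (by norm_num) (by norm_num)
  have s2 : M 3 2 0 = M 3 1 3 := hM.sym 3 1 3 (by norm_num) (by norm_num)
  have s3 : M 3 2 1 = M 3 1 2 := hM.sym 3 1 2 (by norm_num) (by norm_num)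
  have s4 : M 3 2 2 = M 3 1 1 := hM.sym 3 1 1 (by norm_num) (by norm_num)
  have s5 : M 3 2 3 = M 3 1 0 := hM.sym 3 1 0 (by norm_num) (by norm_num)
  have s6 : M 4 3 0 = M 4 1 4 := hM.sym 4 1 4 (by norm_num) (by norm_num)
  have s7 : M 4 3 1 = M 4 1 3 := hM.sym 4 1 3 (by norm_num) (by norm_num)
  have s8 : M 4 3 2 = M 4 1 2 := hM.sym 4 1 2 (by norm_num) (by norm_num)
  have s9 : M 4 3 3 = M 4 1 1 := hM.sym 4 1 1 (by norm_num) (by norm_num)
  have s10 : M 4 3 4 = M 4 1 0 := hM.sym 4 1 0 (by norm_num) (by norm_num)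
  have s11 : M 4 2 3 = M 4 2 1 := hM.sym 4 2 1 (by norm_num) (by norm_num)
  have s12 : M 4 2 4 = M 4 2 0 := hM.sym 4 2 0 (by norm_num) (by norm_num)
  have f000 : M 0 0 0 = (l : ℂ) + (l : ℂ) ^ 2 := mat_00 h hl hl2 hM 0
  have f010 : M 0 1 0 = 0 := hM.out 0 1 0 (by norm_num)
  have f020 : M 0 2 0 = 0 := hM.out 0 2 0 (by norm_num)
  have f030 : M 0 3 0 = 0 := hM.out 0 3 0 (by norm_num)
  have f040 : M 0 4 0 = 0 := hM.out 0 4 0 (by norm_num)
  have f100 : M 1 0 0 = (l : ℂ) + (l : ℂ) ^ 6 := mat_00 h hl hl2 hM 1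
  have f101 : M 1 0 1 = 0 := mat_low h hl hl2 hM 1 1 (by norm_num) (by norm_num)
  have f110 : M 1 1 0 = 0 := mat_top h hl hl2 hM 1 0 (by norm_num)
  have f111 : M 1 1 1 = (l : ℂ) + (l : ℂ) ^ 6 := mat_NN h hl hl2 hM 1
  have f120 : M 1 2 0 = 0 := hM.out 1 2 0 (by norm_num)
  have f121 : M 1 2 1 = 0 := hM.out 1 2 1 (by norm_num)
  have f130 : M 1 3 0 = 0 := hM.out 1 3 0 (by norm_num)
  have f131 : M 1 3 1 = 0 := hM.out 1 3 1 (by norm_num)
  have f140 : M 1 4 0 = 0 := hM.out 1 4 0 (by norm_num)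
  have f141 : M 1 4 1 = 0 := hM.out 1 4 1 (by norm_num)
  have f200 : M 2 0 0 = (l : ℂ) + (l : ℂ) ^ 10 := mat_00 h hl hl2 hM 2
  have f201 : M 2 0 1 = 0 := mat_low h hl hl2 hM 2 1 (by norm_num) (by norm_num)
  have f202 : M 2 0 2 = 0 := mat_low h hl hl2 hM 2 2 (by norm_num) (by norm_num)
  have f220 : M 2 2 0 = 0 := mat_top h hl hl2 hM 2 0 (by norm_num)
  have f221 : M 2 2 1 = 0 := mat_top h hl hl2 hM 2 1 (by norm_num)
  have f222 : M 2 2 2 = (l : ℂ) + (l : ℂ) ^ 10 := mat_NN h hl hl2 hM 2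
  have f230 : M 2 3 0 = 0 := hM.out 2 3 0 (by norm_num)
  have f231 : M 2 3 1 = 0 := hM.out 2 3 1 (by norm_num)
  have f232 : M 2 3 2 = 0 := hM.out 2 3 2 (by norm_num)
  have f240 : M 2 4 0 = 0 := hM.out 2 4 0 (by norm_num)
  have f241 : M 2 4 1 = 0 := hM.out 2 4 1 (by norm_num)
  have f242 : M 2 4 2 = 0 := hM.out 2 4 2 (by norm_num)
  have f300 : M 3 0 0 = (l : ℂ) + (l : ℂ) ^ 14 := mat_00 h hl hl2 hM 3
  have f301 : M 3 0 1 = 0 := mat_low h hl hl2 hM 3 1 (by norm_num) (by norm_num)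
  have f302 : M 3 0 2 = 0 := mat_low h hl hl2 hM 3 2 (by norm_num) (by norm_num)
  have f303 : M 3 0 3 = 0 := mat_low h hl hl2 hM 3 3 (by norm_num) (by norm_num)
  have f330 : M 3 3 0 = 0 := mat_top h hl hl2 hM 3 0 (by norm_num)
  have f331 : M 3 3 1 = 0 := mat_top h hl hl2 hM 3 1 (by norm_num)
  have f332 : M 3 3 2 = 0 := mat_top h hl hl2 hM 3 2 (by norm_num)
  have f333 : M 3 3 3 = (l : ℂ) + (l : ℂ) ^ 14 := mat_NN h hl hl2 hM 3
  have f340 : M 3 4 0 = 0 := hM.out 3 4 0 (by norm_num)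
  have f341 : M 3 4 1 = 0 := hM.out 3 4 1 (by norm_num)
  have f342 : M 3 4 2 = 0 := hM.out 3 4 2 (by norm_num)
  have f343 : M 3 4 3 = 0 := hM.out 3 4 3 (by norm_num)
  have f400 : M 4 0 0 = (l : ℂ) + (l : ℂ) ^ 18 := mat_00 h hl hl2 hM 4
  have f401 : M 4 0 1 = 0 := mat_low h hl hl2 hM 4 1 (by norm_num) (by norm_num)
  have f402 : M 4 0 2 = 0 := mat_low h hl hl2 hM 4 2 (by norm_num) (by norm_num)
  have f403 : M 4 0 3 = 0 := mat_low h hl hl2 hM 4 3 (by norm_num) (by norm_num)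
  have f404 : M 4 0 4 = 0 := mat_low h hl hl2 hM 4 4 (by norm_num) (by norm_num)
  have f440 : M 4 4 0 = 0 := mat_top h hl hl2 hM 4 0 (by norm_num)
  have f441 : M 4 4 1 = 0 := mat_top h hl hl2 hM 4 1 (by norm_num)
  have f442 : M 4 4 2 = 0 := mat_top h hl hl2 hM 4 2 (by norm_num)
  have f443 : M 4 4 3 = 0 := mat_top h hl hl2 hM 4 3 (by norm_num)
  have f444 : M 4 4 4 = (l : ℂ) + (l : ℂ) ^ 18 := mat_NN h hl hl2 hM 4
  rcases lt_or_ge 4 r with hr4 | hr4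
  · exact ⟨0, by rw [pc_deg hM 4 0 r hr4]; push_cast; ring⟩
  interval_cases r
  · refine P4o_fin _ ((l : ℤ) ^ 2 * ((l : ℤ) ^ 4 - 1) ^ 4) _ ?_ (P4o_l4 l _ hl hl2 (by omega))
    rw [pc_m00 h hl hl2 hM 4 (by norm_num)]
    push_cast
    ring
  · refine P4o_fin _ ((l : ℤ) * (15360 * Lc l a k 3 2 + 589824 * Lc l a k 5 0 - 2392064 * Lc l a k 3 4 - 1572864000 * Lc l a k 5 2 - 26977763328 * Lc l a k 7 0 + 80712704 * Lc l a k 3 6 + 464246079488 * Lc l a k 5 4 + 90687760498688 * Lc l a k 7 2 + 869358020591616 * Lc l a k 9 0)) _ ?_ (d1.mul_left _)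
    simp only [pc, Finset.sum_range_succ, Finset.sum_range_zero, zero_add, Nat.choose]
    norm_num [Nat.choose, s1, s2, s3, s4, s5, s6, s7, s8, s9, s10, s11, s12, f000, f010, f020, f030, f040, f100, f101, f110, f111, f120, f121, f130, f131, f140, f141, f200, f201, f202, f220, f221, f222, f230, f231, f232, f240, f241, f242, f300, f301, f302, f303, f330, f331, f332, f333, f340, f341, f342, f343, f400, f401, f402, f403, f404, f440, f441, f442, f443, f444, a20, a21, b0, b1, b2, b3, c0, c1, c2, c3, c4, c5, c6, c7]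
    try ring
  · refine P4o_fin _ ((l : ℤ) * (-16384 * Lc l a k 3 4 - 12582912 * Lc l a k 5 2 - 201326592 * Lc l a k 7 0 + 5275648 * Lc l a k 3 6 + 30406082560 * Lc l a k 5 4 + 5940006879232 * Lc l a k 7 2 + 56931938992128 * Lc l a k 9 0)) _ ?_ (d2.mul_left _)
    simp only [pc, Finset.sum_range_succ, Finset.sum_range_zero, zero_add, Nat.choose]
    norm_num [Nat.choose, s1, s2, s3, s4, s5, s6, s7, s8, s9, s10, s11, s12, f000, f010, f020, f030, f040, f100, f101, f110, f111, f120, f121, f130, f131, f140, f141, f200, f201, f202, f220, f221, f222, f230, f231, f232, f240, f241, f242, f300, f301, f302, f303, f330, f331, f332, f333, f340, f341, f342, f343, f400, f401, f402, f403, f404, f440, f441, f442, f443, f444, a20, a21, b0, b1, b2, b3, c0, c1, c2, c3, c4, c5, c6, c7]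
    try ring
  · refine P4o_fin _ ((l : ℤ) * (14680064 * Lc l a k 5 4 + 2952790016 * Lc l a k 7 2 + 25769803776 * Lc l a k 9 0)) _ ?_ (d3.mul_left _)
    simp only [pc, Finset.sum_range_succ, Finset.sum_range_zero, zero_add, Nat.choose]
    norm_num [Nat.choose, s1, s2, s3, s4, s5, s6, s7, s8, s9, s10, s11, s12, f000, f010, f020, f030, f040, f100, f101, f110, f111, f120, f121, f130, f131, f140, f141, f200, f201, f202, f220, f221, f222, f230, f231, f232, f240, f241, f242, f300, f301, f302, f303, f330, f331, f332, f333, f340, f341, f342, f343, f400, f401, f402, f403, f404, f440, f441, f442, f443, f444, a20, a21, b0, b1, b2, b3, c0, c1, c2, c3, c4, c5, c6, c7]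
    try ring
  · refine ⟨0, ?_⟩
    simp [pc, Finset.sum_range_succ, Nat.choose, s1, s2, s3, s4, s5, s6, s7, s8, s9, s10, s11, s12, f000, f010, f020, f030, f040, f100, f101, f110, f111, f120, f121, f130, f131, f140, f141, f200, f201, f202, f220, f221, f222, f230, f231, f232, f240, f241, f242, f300, f301, f302, f303, f330, f331, f332, f333, f340, f341, f342, f343, f400, f401, f402, f403, f404, f440, f441, f442, f443, f444, a20, a21, b0, b1, b2, b3, c0, c1, c2, c3, c4, c5, c6, c7]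

theorem p31o (h : Core A Y) (q : Qd A Y a k) (hl : l.Prime) (hl2 : l ≠ 2) (hM : MatD l A Y 1 M)
    (r0 : ℕ) (hr : r0 ≤ 2) (hc : (2 : ℤ) ^ r0 ∣ Lc l a k 3 1) (r : ℕ) :
    ∃ z : ℤ, pc M 3 1 r = ((2 ^ (9 + r0) * z : ℤ) : ℂ) := by
  obtain ⟨d1, d2, d3, d4, d5, d6, d7, d8⟩ := P4o_lin (l := l) q r0 hr hc
  obtain ⟨a20, a21⟩ := ent21 h q hl hl2 hM
  obtain ⟨b0, b1, b2, b3⟩ := ent31 h q hl hl2 hM
  obtain ⟨c0, c1, c2, c3, c4, c5, c6, c7⟩ := ent41 h q hl hl2 hM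
  have s1 : M 2 1 2 = M 2 1 0 := hM.sym 2 1 0 (by norm_num) (by norm_num)
  have s2 : M 3 2 0 = M 3 1 3 := hM.sym 3 1 3 (by norm_num) (by norm_num)
  have s3 : M 3 2 1 = M 3 1 2 := hM.sym 3 1 2 (by norm_num) (by norm_num)
  have s4 : M 3 2 2 = M 3 1 1 := hM.sym 3 1 1 (by norm_num) (by norm_num)
  have s5 : M 3 2 3 = M 3 1 0 := hM.sym 3 1 0 (by norm_num) (by norm_num)
  have s6 : M 4 3 0 = M 4 1 4 := hM.sym 4 1 4 (by norm_num) (by norm_num)
  have s7 : M 4 3 1 = M 4 1 3 := hM.sym 4 1 3 (by norm_num) (by norm_num)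
  have s8 : M 4 3 2 = M 4 1 2 := hM.sym 4 1 2 (by norm_num) (by norm_num)
  have s9 : M 4 3 3 = M 4 1 1 := hM.sym 4 1 1 (by norm_num) (by norm_num)
  have s10 : M 4 3 4 = M 4 1 0 := hM.sym 4 1 0 (by norm_num) (by norm_num)
  have s11 : M 4 2 3 = M 4 2 1 := hM.sym 4 2 1 (by norm_num) (by norm_num)
  have s12 : M 4 2 4 = M 4 2 0 := hM.sym 4 2 0 (by norm_num) (by norm_num)
  have f000 : M 0 0 0 = (l : ℂ) + (l : ℂ) ^ 2 := mat_00 h hl hl2 hM 0
  have f010 : M 0 1 0 = 0 := hM.out 0 1 0 (by norm_num)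
  have f020 : M 0 2 0 = 0 := hM.out 0 2 0 (by norm_num)
  have f030 : M 0 3 0 = 0 := hM.out 0 3 0 (by norm_num)
  have f040 : M 0 4 0 = 0 := hM.out 0 4 0 (by norm_num)
  have f100 : M 1 0 0 = (l : ℂ) + (l : ℂ) ^ 6 := mat_00 h hl hl2 hM 1
  have f101 : M 1 0 1 = 0 := mat_low h hl hl2 hM 1 1 (by norm_num) (by norm_num)
  have f110 : M 1 1 0 = 0 := mat_top h hl hl2 hM 1 0 (by norm_num)
  have f111 : M 1 1 1 = (l : ℂ) + (l : ℂ) ^ 6 := mat_NN h hl hl2 hM 1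
  have f120 : M 1 2 0 = 0 := hM.out 1 2 0 (by norm_num)
  have f121 : M 1 2 1 = 0 := hM.out 1 2 1 (by norm_num)
  have f130 : M 1 3 0 = 0 := hM.out 1 3 0 (by norm_num)
  have f131 : M 1 3 1 = 0 := hM.out 1 3 1 (by norm_num)
  have f140 : M 1 4 0 = 0 := hM.out 1 4 0 (by norm_num)
  have f141 : M 1 4 1 = 0 := hM.out 1 4 1 (by norm_num)
  have f200 : M 2 0 0 = (l : ℂ) + (l : ℂ) ^ 10 := mat_00 h hl hl2 hM 2
  have f201 : M 2 0 1 = 0 := mat_low h hl hl2 hM 2 1 (by norm_num) (by norm_num)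
  have f202 : M 2 0 2 = 0 := mat_low h hl hl2 hM 2 2 (by norm_num) (by norm_num)
  have f220 : M 2 2 0 = 0 := mat_top h hl hl2 hM 2 0 (by norm_num)
  have f221 : M 2 2 1 = 0 := mat_top h hl hl2 hM 2 1 (by norm_num)
  have f222 : M 2 2 2 = (l : ℂ) + (l : ℂ) ^ 10 := mat_NN h hl hl2 hM 2
  have f230 : M 2 3 0 = 0 := hM.out 2 3 0 (by norm_num)
  have f231 : M 2 3 1 = 0 := hM.out 2 3 1 (by norm_num)
  have f232 : M 2 3 2 = 0 := hM.out 2 3 2 (by norm_num)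
  have f240 : M 2 4 0 = 0 := hM.out 2 4 0 (by norm_num)
  have f241 : M 2 4 1 = 0 := hM.out 2 4 1 (by norm_num)
  have f242 : M 2 4 2 = 0 := hM.out 2 4 2 (by norm_num)
  have f300 : M 3 0 0 = (l : ℂ) + (l : ℂ) ^ 14 := mat_00 h hl hl2 hM 3
  have f301 : M 3 0 1 = 0 := mat_low h hl hl2 hM 3 1 (by norm_num) (by norm_num)
  have f302 : M 3 0 2 = 0 := mat_low h hl hl2 hM 3 2 (by norm_num) (by norm_num)
  have f303 : M 3 0 3 = 0 := mat_low h hl hl2 hM 3 3 (by norm_num) (by norm_num)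
  have f330 : M 3 3 0 = 0 := mat_top h hl hl2 hM 3 0 (by norm_num)
  have f331 : M 3 3 1 = 0 := mat_top h hl hl2 hM 3 1 (by norm_num)
  have f332 : M 3 3 2 = 0 := mat_top h hl hl2 hM 3 2 (by norm_num)
  have f333 : M 3 3 3 = (l : ℂ) + (l : ℂ) ^ 14 := mat_NN h hl hl2 hM 3
  have f340 : M 3 4 0 = 0 := hM.out 3 4 0 (by norm_num)
  have f341 : M 3 4 1 = 0 := hM.out 3 4 1 (by norm_num)
  have f342 : M 3 4 2 = 0 := hM.out 3 4 2 (by norm_num)
  have f343 : M 3 4 3 = 0 := hM.out 3 4 3 (by norm_num)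
  have f400 : M 4 0 0 = (l : ℂ) + (l : ℂ) ^ 18 := mat_00 h hl hl2 hM 4
  have f401 : M 4 0 1 = 0 := mat_low h hl hl2 hM 4 1 (by norm_num) (by norm_num)
  have f402 : M 4 0 2 = 0 := mat_low h hl hl2 hM 4 2 (by norm_num) (by norm_num)
  have f403 : M 4 0 3 = 0 := mat_low h hl hl2 hM 4 3 (by norm_num) (by norm_num)
  have f404 : M 4 0 4 = 0 := mat_low h hl hl2 hM 4 4 (by norm_num) (by norm_num)
  have f440 : M 4 4 0 = 0 := mat_top h hl hl2 hM 4 0 (by norm_num)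
  have f441 : M 4 4 1 = 0 := mat_top h hl hl2 hM 4 1 (by norm_num)
  have f442 : M 4 4 2 = 0 := mat_top h hl hl2 hM 4 2 (by norm_num)
  have f443 : M 4 4 3 = 0 := mat_top h hl hl2 hM 4 3 (by norm_num)
  have f444 : M 4 4 4 = (l : ℂ) + (l : ℂ) ^ 18 := mat_NN h hl hl2 hM 4
  rcases lt_or_ge 4 r with hr4 | hr4
  · exact ⟨0, by rw [pc_deg hM 3 1 r hr4]; push_cast; ring⟩
  interval_cases r
  · exact ⟨0, by rw [pc_mn0 h hl hl2 hM 3 1 (by norm_num)]; push_cast; ring⟩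
  · refine P4o_fin _ ((l : ℤ) ^ 2 * ((l : ℤ) ^ 4 - 1) ^ 4 + (l : ℤ) * (-59520 * Lc l a k 3 2 - 2285568 * Lc l a k 5 0 + 4783872 * Lc l a k 3 4 + 3145531392 * Lc l a k 5 2 + 53952380928 * Lc l a k 7 0 - 129140352 * Lc l a k 3 6 - 742793682944 * Lc l a k 5 4 - 145100407046144 * Lc l a k 7 2 - 1390972772548608 * Lc l a k 9 0)) _ ?_ (dvd_add (P4o_l4 l _ hl hl2 (by omega)) (d4.mul_left _))
    simp only [pc, Finset.sum_range_succ, Finset.sum_range_zero, zero_add, Nat.choose]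
    norm_num [Nat.choose, s1, s2, s3, s4, s5, s6, s7, s8, s9, s10, s11, s12, f000, f010, f020, f030, f040, f100, f101, f110, f111, f120, f121, f130, f131, f140, f141, f200, f201, f202, f220, f221, f222, f230, f231, f232, f240, f241, f242, f300, f301, f302, f303, f330, f331, f332, f333, f340, f341, f342, f343, f400, f401, f402, f403, f404, f440, f441, f442, f443, f444, a20, a21, b0, b1, b2, b3, c0, c1, c2, c3, c4, c5, c6, c7]
    try ring
  · refine P4o_fin _ ((l : ℤ) * (7680 * Lc l a k 3 2 + 294912 * Lc l a k 5 0 - 602624 * Lc l a k 3 4 - 392626176 * Lc l a k 5 2 - 6763315200 * Lc l a k 7 0 + 17408 * Lc l a k 3 6 + 1114112 * Lc l a k 5 4 - 356515840 * Lc l a k 7 2 + 13690208256 * Lc l a k 9 0)) _ ?_ (d5.mul_left _)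
    simp only [pc, Finset.sum_range_succ, Finset.sum_range_zero, zero_add, Nat.choose]
    norm_num [Nat.choose, s1, s2, s3, s4, s5, s6, s7, s8, s9, s10, s11, s12, f000, f010, f020, f030, f040, f100, f101, f110, f111, f120, f121, f130, f131, f140, f141, f200, f201, f202, f220, f221, f222, f230, f231, f232, f240, f241, f242, f300, f301, f302, f303, f330, f331, f332, f333, f340, f341, f342, f343, f400, f401, f402, f403, f404, f440, f441, f442, f443, f444, a20, a21, b0, b1, b2, b3, c0, c1, c2, c3, c4, c5, c6, c7]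
    try ring
  · refine P4o_fin _ ((l : ℤ) * (-4096 * Lc l a k 3 4 - 3145728 * Lc l a k 5 2 - 50331648 * Lc l a k 7 0 + 4096 * Lc l a k 3 6 + 262144 * Lc l a k 5 4 - 83886080 * Lc l a k 7 2 + 3221225472 * Lc l a k 9 0)) _ ?_ (d6.mul_left _)
    simp only [pc, Finset.sum_range_succ, Finset.sum_range_zero, zero_add, Nat.choose]
    norm_num [Nat.choose, s1, s2, s3, s4, s5, s6, s7, s8, s9, s10, s11, s12, f000, f010, f020, f030, f040, f100, f101, f110, f111, f120, f121, f130, f131, f140, f141, f200, f201, f202, f220, f221, f222, f230, f231, f232, f240, f241, f242, f300, f301, f302, f303, f330, f331, f332, f333, f340, f341, f342, f343, f400, f401, f402, f403, f404, f440, f441, f442, f443, f444, a20, a21, b0, b1, b2, b3, c0, c1, c2, c3, c4, c5, c6, c7]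
    try ring
  · refine ⟨0, ?_⟩
    simp [pc, Finset.sum_range_succ, Nat.choose, s1, s2, s3, s4, s5, s6, s7, s8, s9, s10, s11, s12, f000, f010, f020, f030, f040, f100, f101, f110, f111, f120, f121, f130, f131, f140, f141, f200, f201, f202, f220, f221, f222, f230, f231, f232, f240, f241, f242, f300, f301, f302, f303, f330, f331, f332, f333, f340, f341, f342, f343, f400, f401, f402, f403, f404, f440, f441, f442, f443, f444, a20, a21, b0, b1, b2, b3, c0, c1, c2, c3, c4, c5, c6, c7]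

theorem p22o (h : Core A Y) (q : Qd A Y a k) (hl : l.Prime) (hl2 : l ≠ 2) (hM : MatD l A Y 1 M)
    (r0 : ℕ) (hr : r0 ≤ 2) (hc : (2 : ℤ) ^ r0 ∣ Lc l a k 3 1) (r : ℕ) :
    ∃ z : ℤ, pc M 2 2 r = ((2 ^ (10 + r0) * z : ℤ) : ℂ) := by
  obtain ⟨d1, d2, d3, d4, d5, d6, d7, d8⟩ := P4o_lin (l := l) q r0 hr hc
  obtain ⟨a20, a21⟩ := ent21 h q hl hl2 hM
  obtain ⟨b0, b1, b2, b3⟩ := ent31 h q hl hl2 hM
  obtain ⟨c0, c1, c2, c3, c4, c5, c6, c7⟩ := ent41 h q hl hl2 hM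
  have s1 : M 2 1 2 = M 2 1 0 := hM.sym 2 1 0 (by norm_num) (by norm_num)
  have s2 : M 3 2 0 = M 3 1 3 := hM.sym 3 1 3 (by norm_num) (by norm_num)
  have s3 : M 3 2 1 = M 3 1 2 := hM.sym 3 1 2 (by norm_num) (by norm_num)
  have s4 : M 3 2 2 = M 3 1 1 := hM.sym 3 1 1 (by norm_num) (by norm_num)
  have s5 : M 3 2 3 = M 3 1 0 := hM.sym 3 1 0 (by norm_num) (by norm_num)
  have s6 : M 4 3 0 = M 4 1 4 := hM.sym 4 1 4 (by norm_num) (by norm_num)
  have s7 : M 4 3 1 = M 4 1 3 := hM.sym 4 1 3 (by norm_num) (by norm_num)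
  have s8 : M 4 3 2 = M 4 1 2 := hM.sym 4 1 2 (by norm_num) (by norm_num)
  have s9 : M 4 3 3 = M 4 1 1 := hM.sym 4 1 1 (by norm_num) (by norm_num)
  have s10 : M 4 3 4 = M 4 1 0 := hM.sym 4 1 0 (by norm_num) (by norm_num)
  have s11 : M 4 2 3 = M 4 2 1 := hM.sym 4 2 1 (by norm_num) (by norm_num)
  have s12 : M 4 2 4 = M 4 2 0 := hM.sym 4 2 0 (by norm_num) (by norm_num)
  have f000 : M 0 0 0 = (l : ℂ) + (l : ℂ) ^ 2 := mat_00 h hl hl2 hM 0
  have f010 : M 0 1 0 = 0 := hM.out 0 1 0 (by norm_num)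
  have f020 : M 0 2 0 = 0 := hM.out 0 2 0 (by norm_num)
  have f030 : M 0 3 0 = 0 := hM.out 0 3 0 (by norm_num)
  have f040 : M 0 4 0 = 0 := hM.out 0 4 0 (by norm_num)
  have f100 : M 1 0 0 = (l : ℂ) + (l : ℂ) ^ 6 := mat_00 h hl hl2 hM 1
  have f101 : M 1 0 1 = 0 := mat_low h hl hl2 hM 1 1 (by norm_num) (by norm_num)
  have f110 : M 1 1 0 = 0 := mat_top h hl hl2 hM 1 0 (by norm_num)
  have f111 : M 1 1 1 = (l : ℂ) + (l : ℂ) ^ 6 := mat_NN h hl hl2 hM 1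
  have f120 : M 1 2 0 = 0 := hM.out 1 2 0 (by norm_num)
  have f121 : M 1 2 1 = 0 := hM.out 1 2 1 (by norm_num)
  have f130 : M 1 3 0 = 0 := hM.out 1 3 0 (by norm_num)
  have f131 : M 1 3 1 = 0 := hM.out 1 3 1 (by norm_num)
  have f140 : M 1 4 0 = 0 := hM.out 1 4 0 (by norm_num)
  have f141 : M 1 4 1 = 0 := hM.out 1 4 1 (by norm_num)
  have f200 : M 2 0 0 = (l : ℂ) + (l : ℂ) ^ 10 := mat_00 h hl hl2 hM 2
  have f201 : M 2 0 1 = 0 := mat_low h hl hl2 hM 2 1 (by norm_num) (by norm_num)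
  have f202 : M 2 0 2 = 0 := mat_low h hl hl2 hM 2 2 (by norm_num) (by norm_num)
  have f220 : M 2 2 0 = 0 := mat_top h hl hl2 hM 2 0 (by norm_num)
  have f221 : M 2 2 1 = 0 := mat_top h hl hl2 hM 2 1 (by norm_num)
  have f222 : M 2 2 2 = (l : ℂ) + (l : ℂ) ^ 10 := mat_NN h hl hl2 hM 2
  have f230 : M 2 3 0 = 0 := hM.out 2 3 0 (by norm_num)
  have f231 : M 2 3 1 = 0 := hM.out 2 3 1 (by norm_num)
  have f232 : M 2 3 2 = 0 := hM.out 2 3 2 (by norm_num)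
  have f240 : M 2 4 0 = 0 := hM.out 2 4 0 (by norm_num)
  have f241 : M 2 4 1 = 0 := hM.out 2 4 1 (by norm_num)
  have f242 : M 2 4 2 = 0 := hM.out 2 4 2 (by norm_num)
  have f300 : M 3 0 0 = (l : ℂ) + (l : ℂ) ^ 14 := mat_00 h hl hl2 hM 3
  have f301 : M 3 0 1 = 0 := mat_low h hl hl2 hM 3 1 (by norm_num) (by norm_num)
  have f302 : M 3 0 2 = 0 := mat_low h hl hl2 hM 3 2 (by norm_num) (by norm_num)
  have f303 : M 3 0 3 = 0 := mat_low h hl hl2 hM 3 3 (by norm_num) (by norm_num)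
  have f330 : M 3 3 0 = 0 := mat_top h hl hl2 hM 3 0 (by norm_num)
  have f331 : M 3 3 1 = 0 := mat_top h hl hl2 hM 3 1 (by norm_num)
  have f332 : M 3 3 2 = 0 := mat_top h hl hl2 hM 3 2 (by norm_num)
  have f333 : M 3 3 3 = (l : ℂ) + (l : ℂ) ^ 14 := mat_NN h hl hl2 hM 3
  have f340 : M 3 4 0 = 0 := hM.out 3 4 0 (by norm_num)
  have f341 : M 3 4 1 = 0 := hM.out 3 4 1 (by norm_num)
  have f342 : M 3 4 2 = 0 := hM.out 3 4 2 (by norm_num)
  have f343 : M 3 4 3 = 0 := hM.out 3 4 3 (by norm_num)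
  have f400 : M 4 0 0 = (l : ℂ) + (l : ℂ) ^ 18 := mat_00 h hl hl2 hM 4
  have f401 : M 4 0 1 = 0 := mat_low h hl hl2 hM 4 1 (by norm_num) (by norm_num)
  have f402 : M 4 0 2 = 0 := mat_low h hl hl2 hM 4 2 (by norm_num) (by norm_num)
  have f403 : M 4 0 3 = 0 := mat_low h hl hl2 hM 4 3 (by norm_num) (by norm_num)
  have f404 : M 4 0 4 = 0 := mat_low h hl hl2 hM 4 4 (by norm_num) (by norm_num)
  have f440 : M 4 4 0 = 0 := mat_top h hl hl2 hM 4 0 (by norm_num)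
  have f441 : M 4 4 1 = 0 := mat_top h hl hl2 hM 4 1 (by norm_num)
  have f442 : M 4 4 2 = 0 := mat_top h hl hl2 hM 4 2 (by norm_num)
  have f443 : M 4 4 3 = 0 := mat_top h hl hl2 hM 4 3 (by norm_num)
  have f444 : M 4 4 4 = (l : ℂ) + (l : ℂ) ^ 18 := mat_NN h hl hl2 hM 4
  rcases lt_or_ge 4 r with hr4 | hr4
  · exact ⟨0, by rw [pc_deg hM 2 2 r hr4]; push_cast; ring⟩
  interval_cases r
  · exact ⟨0, by rw [pc_mn0 h hl hl2 hM 2 2 (by norm_num)]; push_cast; ring⟩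
  · refine P4o_fin _ ((l : ℤ) * (2560 * Lc l a k 3 2 + 98304 * Lc l a k 5 0 - 3072 * Lc l a k 3 4 + 393216 * Lc l a k 5 2 - 12582912 * Lc l a k 7 0 + 512 * Lc l a k 3 6 + 32768 * Lc l a k 5 4 - 10485760 * Lc l a k 7 2 + 402653184 * Lc l a k 9 0)) _ ?_ (d7.mul_left _)
    simp only [pc, Finset.sum_range_succ, Finset.sum_range_zero, zero_add, Nat.choose]
    norm_num [Nat.choose, s1, s2, s3, s4, s5, s6, s7, s8, s9, s10, s11, s12, f000, f010, f020, f030, f040, f100, f101, f110, f111, f120, f121, f130, f131, f140, f141, f200, f201, f202, f220, f221, f222, f230, f231, f232, f240, f241, f242, f300, f301, f302, f303, f330, f331, f332, f333, f340, f341, f342, f343, f400, f401, f402, f403, f404, f440, f441, f442, f443, f444, a20, a21, b0, b1, b2, b3, c0, c1, c2, c3, c4, c5, c6, c7]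
    try ring
  · refine P4o_fin _ ((l : ℤ) ^ 2 * ((l : ℤ) ^ 4 - 1) ^ 4 + (l : ℤ) * (-79360 * Lc l a k 3 2 - 3047424 * Lc l a k 5 0 + 6378496 * Lc l a k 3 4 + 4194041856 * Lc l a k 5 2 + 71936507904 * Lc l a k 7 0 - 129142272 * Lc l a k 3 6 - 742793805824 * Lc l a k 5 4 - 145100367724544 * Lc l a k 7 2 - 1390974282498048 * Lc l a k 9 0)) _ ?_ (dvd_add (P4o_l4 l _ hl hl2 (by omega)) (d8.mul_left _))
    simp only [pc, Finset.sum_range_succ, Finset.sum_range_zero, zero_add, Nat.choose]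
    norm_num [Nat.choose, s1, s2, s3, s4, s5, s6, s7, s8, s9, s10, s11, s12, f000, f010, f020, f030, f040, f100, f101, f110, f111, f120, f121, f130, f131, f140, f141, f200, f201, f202, f220, f221, f222, f230, f231, f232, f240, f241, f242, f300, f301, f302, f303, f330, f331, f332, f333, f340, f341, f342, f343, f400, f401, f402, f403, f404, f440, f441, f442, f443, f444, a20, a21, b0, b1, b2, b3, c0, c1, c2, c3, c4, c5, c6, c7]
    try ring
  · refine P4o_fin _ ((l : ℤ) * (2560 * Lc l a k 3 2 + 98304 * Lc l a k 5 0 - 3072 * Lc l a k 3 4 + 393216 * Lc l a k 5 2 - 12582912 * Lc l a k 7 0 + 512 * Lc l a k 3 6 + 32768 * Lc l a k 5 4 - 10485760 * Lc l a k 7 2 + 402653184 * Lc l a k 9 0)) _ ?_ (d7.mul_left _)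
    simp only [pc, Finset.sum_range_succ, Finset.sum_range_zero, zero_add, Nat.choose]
    norm_num [Nat.choose, s1, s2, s3, s4, s5, s6, s7, s8, s9, s10, s11, s12, f000, f010, f020, f030, f040, f100, f101, f110, f111, f120, f121, f130, f131, f140, f141, f200, f201, f202, f220, f221, f222, f230, f231, f232, f240, f241, f242, f300, f301, f302, f303, f330, f331, f332, f333, f340, f341, f342, f343, f400, f401, f402, f403, f404, f440, f441, f442, f443, f444, a20, a21, b0, b1, b2, b3, c0, c1, c2, c3, c4, c5, c6, c7]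
    try ring
  · refine ⟨0, ?_⟩
    simp [pc, Finset.sum_range_succ, Nat.choose, s1, s2, s3, s4, s5, s6, s7, s8, s9, s10, s11, s12, f000, f010, f020, f030, f040, f100, f101, f110, f111, f120, f121, f130, f131, f140, f141, f200, f201, f202, f220, f221, f222, f230, f231, f232, f240, f241, f242, f300, f301, f302, f303, f330, f331, f332, f333, f340, f341, f342, f343, f400, f401, f402, f403, f404, f440, f441, f442, f443, f444, a20, a21, b0, b1, b2, b3, c0, c1, c2, c3, c4, c5, c6, c7]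

end Pool.Agent.Lib.MP_06b9d2_tl2
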