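import Pool.Agent.Lib.MP_06b9d2_tl2.Qd

/-!
Module TL2-Xd. Expansions of the forms `fs`; `Lc l a k i j = coeff l (k ^ i * a ^ j)`, `l` odd.

`x1_e_N_s`: expand `fs a k e N s` (`unfold fs`, `ring`, the numerals as factors; e.g. write each term as `(c : ℤ) • (k ^ i * a ^ j)`, `map_zsmul`/`zsmul_eq_mul`) as below: the coefficients of the terms with even `i` are `0` (`mono_co`).
`fs 0 4 0`: (1) k^0 a^8 + (-64) k^1 a^7 + (1792) k^2 a^6 + (-28672) k^3 a^5 + (286720) k^4 a^4 + (-1835008) k^5 a^3 + (7340032) k^6 a^2 + (-16777216) k^7 a^1 + (16777216) k^8 a^0.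
`fs 0 4 1`: (64) k^1 a^7 + (-2560) k^2 a^6 + (36864) k^3 a^5 + (-163840) k^4 a^4 + (-1310720) k^5 a^3 + (18874368) k^6 a^2 + (-83886080) k^7 a^1 + (134217728) k^8 a^0.
`fs 0 4 2`: (4096) k^2 a^6 + (-65536) k^3 a^5 + (-262144) k^4 a^4 + (8388608) k^5 a^3 + (-16777216) k^6 a^2 + (-268435456) k^7 a^1 + (1073741824) k^8 a^0.
`fs 0 4 3`: (262144) k^3 a^5 + (2097152) k^4 a^4 + (-33554432) k^5 a^3 + (-268435456) k^6 a^2 + (1073741824) k^7 a^1 + (8589934592) k^8 a^0.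
`fs 0 4 4`: (16777216) k^4 a^4 + (536870912) k^5 a^3 + (6442450944) k^6 a^2 + (34359738368) k^7 a^1 + (68719476736) k^8 a^0.
-/

namespace Pool.Agent.Lib.MP_06b9d2_tl2

open PowerSeries Pool.Agent.L1
open Pool.Agent.Lib.MP_06b9d2_tls (V U TT br In PC Ig tt EgG Two Tl)

variable {A Y : ℂ⟦X⟧} {a k : ℤ⟦X⟧}

private lemma xd_c (c : ℤ) (f : ℤ⟦X⟧) (l : ℕ) : coeff l ((c : ℤ⟦X⟧) * f) = c * coeff l f := by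
  rw [show ((c : ℤ) : ℤ⟦X⟧) = C c from (eq_intCast (C : ℤ →+* ℤ⟦X⟧) c).symm, PowerSeries.coeff_C_mul]

theorem x1_0_4_0 (q : Qd A Y a k) (l : ℕ) (hl : l % 2 = 1) :
    coeff l (fs a k 0 4 0) = -64 * Lc l a k 1 7 - 28672 * Lc l a k 3 5 - 1835008 * Lc l a k 5 3 - 16777216 * Lc l a k 7 1 := by
  have h : fs a k 0 4 0 = ((1 : ℤ) : ℤ⟦X⟧) * (k ^ 0 * a ^ 8) + ((-64 : ℤ) : ℤ⟦X⟧) * (k ^ 1 * a ^ 7) + ((1792 : ℤ) : ℤ⟦X⟧) * (k ^ 2 * a ^ 6) + ((-28672 : ℤ) : ℤ⟦X⟧) * (k ^ 3 * a ^ 5) + ((286720 : ℤ) : ℤ⟦X⟧) * (k ^ 4 * a ^ 4) + ((-1835008 : ℤ) : ℤ⟦X⟧) * (k ^ 5 * a ^ 3) + ((7340032 : ℤ) : ℤ⟦X⟧) * (k ^ 6 * a ^ 2) + ((-16777216 : ℤ) : ℤ⟦X⟧) * (k ^ 7 * a ^ 1) + ((16777216 : ℤ) : ℤ⟦X⟧) * (k ^ 8 * a ^ 0) := by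
    unfold fs
    push_cast
    ring
  rw [h]
  simp only [map_add, xd_c]
  rw [mono_co q l 0 8 (by omega), mono_co q l 2 6 (by omega), mono_co q l 4 4 (by omega), mono_co q l 6 2 (by omega), mono_co q l 8 0 (by omega)]
  unfold Lc
  ring

theorem x1_0_4_1 (q : Qd A Y a k) (l : ℕ) (hl : l % 2 = 1) :
    coeff l (fs a k 0 4 1) = 64 * Lc l a k 1 7 + 36864 * Lc l a k 3 5 - 1310720 * Lc l a k 5 3 - 83886080 * Lc l a k 7 1 := by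
  have h : fs a k 0 4 1 = ((64 : ℤ) : ℤ⟦X⟧) * (k ^ 1 * a ^ 7) + ((-2560 : ℤ) : ℤ⟦X⟧) * (k ^ 2 * a ^ 6) + ((36864 : ℤ) : ℤ⟦X⟧) * (k ^ 3 * a ^ 5) + ((-163840 : ℤ) : ℤ⟦X⟧) * (k ^ 4 * a ^ 4) + ((-1310720 : ℤ) : ℤ⟦X⟧) * (k ^ 5 * a ^ 3) + ((18874368 : ℤ) : ℤ⟦X⟧) * (k ^ 6 * a ^ 2) + ((-83886080 : ℤ) : ℤ⟦X⟧) * (k ^ 7 * a ^ 1) + ((134217728 : ℤ) : ℤ⟦X⟧) * (k ^ 8 * a ^ 0) := by
    unfold fs
    push_cast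
    ring
  rw [h]
  simp only [map_add, xd_c]
  rw [mono_co q l 2 6 (by omega), mono_co q l 4 4 (by omega), mono_co q l 6 2 (by omega), mono_co q l 8 0 (by omega)]
  unfold Lc
  ring

theorem x1_0_4_2 (q : Qd A Y a k) (l : ℕ) (hl : l % 2 = 1) :
    coeff l (fs a k 0 4 2) = -65536 * Lc l a k 3 5 + 8388608 * Lc l a k 5 3 - 268435456 * Lc l a k 7 1 := by
  have h : fs a k 0 4 2 = ((4096 : ℤ) : ℤ⟦X⟧) * (k ^ 2 * a ^ 6) + ((-65536 : ℤ) : ℤ⟦X⟧) * (k ^ 3 * a ^ 5) + ((-262144 : ℤ) : ℤ⟦X⟧) * (k ^ 4 * a ^ 4) + ((8388608 : ℤ) : ℤ⟦X⟧) * (k ^ 5 * a ^ 3) + ((-16777216 : ℤ) : ℤ⟦X⟧) * (k ^ 6 * a ^ 2) + ((-268435456 : ℤ) : ℤ⟦X⟧) * (k ^ 7 * a ^ 1) + ((1073741824 : ℤ) : ℤ⟦X⟧) * (k ^ 8 * a ^ 0) := by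
    unfold fs
    push_cast
    ring
  rw [h]
  simp only [map_add, xd_c]
  rw [mono_co q l 2 6 (by omega), mono_co q l 4 4 (by omega), mono_co q l 6 2 (by omega), mono_co q l 8 0 (by omega)]
  unfold Lc
  ring

theorem x1_0_4_3 (q : Qd A Y a k) (l : ℕ) (hl : l % 2 = 1) :
    coeff l (fs a k 0 4 3) = 262144 * Lc l a k 3 5 - 33554432 * Lc l a k 5 3 + 1073741824 * Lc l a k 7 1 := by
  have h : fs a k 0 4 3 = ((262144 : ℤ) : ℤ⟦X⟧) * (k ^ 3 * a ^ 5) + ((2097152 : ℤ) : ℤ⟦X⟧) * (k ^ 4 * a ^ 4) + ((-33554432 : ℤ) : ℤ⟦X⟧) * (k ^ 5 * a ^ 3) + ((-268435456 : ℤ) : ℤ⟦X⟧) * (k ^ 6 * a ^ 2) + ((1073741824 : ℤ) : ℤ⟦X⟧) * (k ^ 7 * a ^ 1) + ((8589934592 : ℤ) : ℤ⟦X⟧) * (k ^ 8 * a ^ 0) := by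
    unfold fs
    push_cast
    ring
  rw [h]
  simp only [map_add, xd_c]
  rw [mono_co q l 4 4 (by omega), mono_co q l 6 2 (by omega), mono_co q l 8 0 (by omega)]
  unfold Lc
  ring

theorem x1_0_4_4 (q : Qd A Y a k) (l : ℕ) (hl : l % 2 = 1) :
    coeff l (fs a k 0 4 4) = 536870912 * Lc l a k 5 3 + 34359738368 * Lc l a k 7 1 := by
  have h : fs a k 0 4 4 = ((16777216 : ℤ) : ℤ⟦X⟧) * (k ^ 4 * a ^ 4) + ((536870912 : ℤ) : ℤ⟦X⟧) * (k ^ 5 * a ^ 3) + ((6442450944 : ℤ) : ℤ⟦X⟧) * (k ^ 6 * a ^ 2) + ((34359738368 : ℤ) : ℤ⟦X⟧) * (k ^ 7 * a ^ 1) + ((68719476736 : ℤ) : ℤ⟦X⟧) * (k ^ 8 * a ^ 0) := by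
    unfold fs
    push_cast
    ring
  rw [h]
  simp only [map_add, xd_c]
  rw [mono_co q l 4 4 (by omega), mono_co q l 6 2 (by omega), mono_co q l 8 0 (by omega)]
  unfold Lc
  ring

end Pool.Agent.Lib.MP_06b9d2_tl2
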