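import Pool.Agent.Lib.MP_06b9d2_tl2.Qd

/-!
Module TL2-Xe. Expansions of the forms `fs`; `Lc l a k i j = coeff l (k ^ i * a ^ j)`, `l` odd.

`x1_e_N_s`: expand `fs a k e N s` (`unfold fs`, `ring`, the numerals as factors; e.g. write each term as `(c : ℤ) • (k ^ i * a ^ j)`, `map_zsmul`/`zsmul_eq_mul`) as below: the coefficients of the terms with even `i` are `0` (`mono_co`).
`x2_e_N_s`: coefficient of `x ^ (2 l)`: expand `fs a k e N s` in the `k ^ i a ^ j`; the terms with odd `i` vanish (`mono_co`), for even `i = 2 t` use `mono_ev`: the coefficient is the coefficient of `x ^ l` of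
`0 4 0`: (1) (k (a + 8 k))^0 (a + 24 k)^8 + (1792) (k (a + 8 k))^1 (a + 24 k)^6 + (286720) (k (a + 8 k))^2 (a + 24 k)^4 + (7340032) (k (a + 8 k))^3 (a + 24 k)^2 + (16777216) (k (a + 8 k))^4 (a + 24 k)^0.
`0 4 1`: (-2560) (k (a + 8 k))^1 (a + 24 k)^6 + (-163840) (k (a + 8 k))^2 (a + 24 k)^4 + (18874368) (k (a + 8 k))^3 (a + 24 k)^2 + (134217728) (k (a + 8 k))^4 (a + 24 k)^0.
`0 4 2`: (4096) (k (a + 8 k))^1 (a + 24 k)^6 + (-262144) (k (a + 8 k))^2 (a + 24 k)^4 + (-16777216) (k (a + 8 k))^3 (a + 24 k)^2 + (1073741824) (k (a + 8 k))^4 (a + 24 k)^0.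
`0 4 4`: (16777216) (k (a + 8 k))^2 (a + 24 k)^4 + (6442450944) (k (a + 8 k))^3 (a + 24 k)^2 + (68719476736) (k (a + 8 k))^4 (a + 24 k)^0.
Expand this in `k ^ i a ^ j` and use `mono_co` again (only odd `i` remain). (All numbers checked by computer for `l = 3, 5, 7, 11`.)
-/

namespace Pool.Agent.Lib.MP_06b9d2_tl2

open PowerSeries Pool.Agent.L1
open Pool.Agent.Lib.MP_06b9d2_tls (V U TT br In PC Ig tt EgG Two Tl)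

variable {A Y : ℂ⟦X⟧} {a k : ℤ⟦X⟧}

private theorem cz (n : ℕ) (c : ℤ) (f : ℤ⟦X⟧) : coeff n ((c : ℤ⟦X⟧) * f) = c * coeff n f := by
  rw [← zsmul_eq_mul, map_zsmul, smul_eq_mul]

theorem x2_0_4_0 (q : Qd A Y a k) (l : ℕ) (hl : l % 2 = 1) :
    coeff (2 * l) (fs a k 0 4 0) =
      1984 * Lc l a k 1 7 + 57774080 * Lc l a k 3 5 + 61427941376 * Lc l a k 5 3 + 4627273613312 * Lc l a k 7 1 := by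
  have h1 : fs a k 0 4 0 = ((1 : ℤ) : ℤ⟦X⟧) * (k ^ 0 * a ^ 8) + ((-64 : ℤ) : ℤ⟦X⟧) * (k ^ 1 * a ^ 7) + ((1792 : ℤ) : ℤ⟦X⟧) * (k ^ 2 * a ^ 6) + ((-28672 : ℤ) : ℤ⟦X⟧) * (k ^ 3 * a ^ 5) + ((286720 : ℤ) : ℤ⟦X⟧) * (k ^ 4 * a ^ 4) + ((-1835008 : ℤ) : ℤ⟦X⟧) * (k ^ 5 * a ^ 3) + ((7340032 : ℤ) : ℤ⟦X⟧) * (k ^ 6 * a ^ 2) + ((-16777216 : ℤ) : ℤ⟦X⟧) * (k ^ 7 * a ^ 1) + ((16777216 : ℤ) : ℤ⟦X⟧) * (k ^ 8 * a ^ 0) := by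
    unfold fs
    push_cast
    ring
  have h2 : ((1 : ℤ) : ℤ⟦X⟧) * ((k * (a + 8 * k)) ^ 0 * (a + 24 * k) ^ 8) + ((1792 : ℤ) : ℤ⟦X⟧) * ((k * (a + 8 * k)) ^ 1 * (a + 24 * k) ^ 6) + ((286720 : ℤ) : ℤ⟦X⟧) * ((k * (a + 8 * k)) ^ 2 * (a + 24 * k) ^ 4) + ((7340032 : ℤ) : ℤ⟦X⟧) * ((k * (a + 8 * k)) ^ 3 * (a + 24 * k) ^ 2) + ((16777216 : ℤ) : ℤ⟦X⟧) * ((k * (a + 8 * k)) ^ 4 * (a + 24 * k) ^ 0) = ((1 : ℤ) : ℤ⟦X⟧) * (k ^ 0 * a ^ 8) + ((1984 : ℤ) : ℤ⟦X⟧) * (k ^ 1 * a ^ 7) + ((575232 : ℤ) : ℤ⟦X⟧) * (k ^ 2 * a ^ 6) + ((57774080 : ℤ) : ℤ⟦X⟧) * (k ^ 3 * a ^ 5) + ((2637455360 : ℤ) : ℤ⟦X⟧) * (k ^ 4 * a ^ 4) + ((61427941376 : ℤ) : ℤ⟦X⟧) * (k ^ 5 * a ^ 3) + ((753841209344 : ℤ) : ℤ⟦X⟧) * (k ^ 6 * a ^ 2) + ((4627273613312 : ℤ) : ℤ⟦X⟧) * (k ^ 7 * a ^ 1) + ((11171226714112 :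 ℤ) : ℤ⟦X⟧) * (k ^ 8 * a ^ 0) := by
    push_cast
    ring
  have h3 : coeff (2 * l) (fs a k 0 4 0) = coeff l (((1 : ℤ) : ℤ⟦X⟧) * ((k * (a + 8 * k)) ^ 0 * (a + 24 * k) ^ 8) + ((1792 : ℤ) : ℤ⟦X⟧) * ((k * (a + 8 * k)) ^ 1 * (a + 24 * k) ^ 6) + ((286720 : ℤ) : ℤ⟦X⟧) * ((k * (a + 8 * k)) ^ 2 * (a + 24 * k) ^ 4) + ((7340032 : ℤ) : ℤ⟦X⟧) * ((k * (a + 8 * k)) ^ 3 * (a + 24 * k) ^ 2) + ((16777216 : ℤ) : ℤ⟦X⟧) * ((k * (a + 8 * k)) ^ 4 * (a + 24 * k) ^ 0)) := by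
    rw [h1]
    simp only [map_add, cz]
    rw [mono_co q (2 * l) 1 7 (by omega), mono_co q (2 * l) 3 5 (by omega), mono_co q (2 * l) 5 3 (by omega), mono_co q (2 * l) 7 1 (by omega), ← mono_ev q l 0 8, ← mono_ev q l 1 6, ← mono_ev q l 2 4, ← mono_ev q l 3 2, ← mono_ev q l 4 0]
    ring
  rw [h3, h2]
  simp only [map_add, cz]
  rw [mono_co q l 0 8 (by omega), mono_co q l 2 6 (by omega), mono_co q l 4 4 (by omega), mono_co q l 6 2 (by omega), mono_co q l 8 0 (by omega)]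
  unfold Lc
  ring

theorem x2_0_4_1 (q : Qd A Y a k) (l : ℕ) (hl : l % 2 = 1) :
    coeff (2 * l) (fs a k 0 4 1) =
      -2560 * Lc l a k 1 7 - 24543232 * Lc l a k 3 5 + 3005218816 * Lc l a k 5 3 - 91133837312 * Lc l a k 7 1 := by
  have h1 : fs a k 0 4 1 = ((64 : ℤ) : ℤ⟦X⟧) * (k ^ 1 * a ^ 7) + ((-2560 : ℤ) : ℤ⟦X⟧) * (k ^ 2 * a ^ 6) + ((36864 : ℤ) : ℤ⟦X⟧) * (k ^ 3 * a ^ 5) + ((-163840 : ℤ) : ℤ⟦X⟧) * (k ^ 4 * a ^ 4) + ((-1310720 : ℤ) : ℤ⟦X⟧) * (k ^ 5 * a ^ 3) + ((18874368 : ℤ) : ℤ⟦X⟧) * (k ^ 6 * a ^ 2) + ((-83886080 : ℤ) : ℤ⟦X⟧) * (k ^ 7 * a ^ 1) + ((134217728 : ℤ) : ℤ⟦X⟧) * (k ^ 8 * a ^ 0) := by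
    unfold fs
    push_cast
    ring
  have h2 : ((-2560 : ℤ) : ℤ⟦X⟧) * ((k * (a + 8 * k)) ^ 1 * (a + 24 * k) ^ 6) + ((-163840 : ℤ) : ℤ⟦X⟧) * ((k * (a + 8 * k)) ^ 2 * (a + 24 * k) ^ 4) + ((18874368 : ℤ) : ℤ⟦X⟧) * ((k * (a + 8 * k)) ^ 3 * (a + 24 * k) ^ 2) + ((134217728 : ℤ) : ℤ⟦X⟧) * ((k * (a + 8 * k)) ^ 4 * (a + 24 * k) ^ 0) = ((-2560 : ℤ) : ℤ⟦X⟧) * (k ^ 1 * a ^ 7) + ((-552960 : ℤ) : ℤ⟦X⟧) * (k ^ 2 * a ^ 6) + ((-24543232 : ℤ) : ℤ⟦X⟧) * (k ^ 3 * a ^ 5) + ((-219938816 : ℤ) : ℤ⟦X⟧) * (k ^ 4 * a ^ 4) + ((3005218816 : ℤ) : ℤ⟦X⟧) * (k ^ 5 * a ^ 3) + ((36289118208 : ℤ) : ℤ⟦X⟧) * (k ^ 6 * a ^ 2) + ((-91133837312 : ℤ) : ℤ⟦X⟧) * (k ^ 7 * a ^ 1) + ((-1276679028736 : ℤ) : ℤ⟦X⟧) * (k ^ 8 * a ^ 0) := by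
    push_cast
    ring
  have h3 : coeff (2 * l) (fs a k 0 4 1) = coeff l (((-2560 : ℤ) : ℤ⟦X⟧) * ((k * (a + 8 * k)) ^ 1 * (a + 24 * k) ^ 6) + ((-163840 : ℤ) : ℤ⟦X⟧) * ((k * (a + 8 * k)) ^ 2 * (a + 24 * k) ^ 4) + ((18874368 : ℤ) : ℤ⟦X⟧) * ((k * (a + 8 * k)) ^ 3 * (a + 24 * k) ^ 2) + ((134217728 : ℤ) : ℤ⟦X⟧) * ((k * (a + 8 * k)) ^ 4 * (a + 24 * k) ^ 0)) := by
    rw [h1]
    simp only [map_add, cz]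
    rw [mono_co q (2 * l) 1 7 (by omega), mono_co q (2 * l) 3 5 (by omega), mono_co q (2 * l) 5 3 (by omega), mono_co q (2 * l) 7 1 (by omega), ← mono_ev q l 1 6, ← mono_ev q l 2 4, ← mono_ev q l 3 2, ← mono_ev q l 4 0]
    ring
  rw [h3, h2]
  simp only [map_add, cz]
  rw [mono_co q l 2 6 (by omega), mono_co q l 4 4 (by omega), mono_co q l 6 2 (by omega), mono_co q l 8 0 (by omega)]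
  unfold Lc
  ring

theorem x2_0_4_2 (q : Qd A Y a k) (l : ℕ) (hl : l % 2 = 1) :
    coeff (2 * l) (fs a k 0 4 2) =
      4096 * Lc l a k 1 7 - 6029312 * Lc l a k 3 5 + 989855744 * Lc l a k 5 3 - 39728447488 * Lc l a k 7 1 := by
  have h1 : fs a k 0 4 2 = ((4096 : ℤ) : ℤ⟦X⟧) * (k ^ 2 * a ^ 6) + ((-65536 : ℤ) : ℤ⟦X⟧) * (k ^ 3 * a ^ 5) + ((-262144 : ℤ) : ℤ⟦X⟧) * (k ^ 4 * a ^ 4) + ((8388608 : ℤ) : ℤ⟦X⟧) * (k ^ 5 * a ^ 3) + ((-16777216 : ℤ) : ℤ⟦X⟧) * (k ^ 6 * a ^ 2) + ((-268435456 : ℤ) : ℤ⟦X⟧) * (k ^ 7 * a ^ 1) + ((1073741824 : ℤ) : ℤ⟦X⟧) * (k ^ 8 * a ^ 0) := by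
    unfold fs
    push_cast
    ring
  have h2 : ((4096 : ℤ) : ℤ⟦X⟧) * ((k * (a + 8 * k)) ^ 1 * (a + 24 * k) ^ 6) + ((-262144 : ℤ) : ℤ⟦X⟧) * ((k * (a + 8 * k)) ^ 2 * (a + 24 * k) ^ 4) + ((-16777216 : ℤ) : ℤ⟦X⟧) * ((k * (a + 8 * k)) ^ 3 * (a + 24 * k) ^ 2) + ((1073741824 : ℤ) : ℤ⟦X⟧) * ((k * (a + 8 * k)) ^ 4 * (a + 24 * k) ^ 0) = ((4096 : ℤ) : ℤ⟦X⟧) * (k ^ 1 * a ^ 7) + ((360448 : ℤ) : ℤ⟦X⟧) * (k ^ 2 * a ^ 6) + ((-6029312 : ℤ) : ℤ⟦X⟧) * (k ^ 3 * a ^ 5) + ((-44040192 : ℤ) : ℤ⟦X⟧) * (k ^ 4 * a ^ 4) + ((989855744 : ℤ) : ℤ⟦X⟧) * (k ^ 5 * a ^ 3) + ((-939524096 : ℤ) : ℤ⟦X⟧) * (k ^ 6 * a ^ 2) + ((-39728447488 : ℤ) : ℤ⟦X⟧) * (k ^ 7 * a ^ 1) + ((146028888064 : ℤ) : ℤ⟦X⟧) * (k ^ 8 * a ^ 0) := by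
    push_cast
    ring
  have h3 : coeff (2 * l) (fs a k 0 4 2) = coeff l (((4096 : ℤ) : ℤ⟦X⟧) * ((k * (a + 8 * k)) ^ 1 * (a + 24 * k) ^ 6) + ((-262144 : ℤ) : ℤ⟦X⟧) * ((k * (a + 8 * k)) ^ 2 * (a + 24 * k) ^ 4) + ((-16777216 : ℤ) : ℤ⟦X⟧) * ((k * (a + 8 * k)) ^ 3 * (a + 24 * k) ^ 2) + ((1073741824 : ℤ) : ℤ⟦X⟧) * ((k * (a + 8 * k)) ^ 4 * (a + 24 * k) ^ 0)) := by
    rw [h1]
    simp only [map_add, cz]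
    rw [mono_co q (2 * l) 3 5 (by omega), mono_co q (2 * l) 5 3 (by omega), mono_co q (2 * l) 7 1 (by omega), ← mono_ev q l 1 6, ← mono_ev q l 2 4, ← mono_ev q l 3 2, ← mono_ev q l 4 0]
    ring
  rw [h3, h2]
  simp only [map_add, cz]
  rw [mono_co q l 2 6 (by omega), mono_co q l 4 4 (by omega), mono_co q l 6 2 (by omega), mono_co q l 8 0 (by omega)]
  unfold Lc
  ring

theorem x2_0_4_4 (q : Qd A Y a k) (l : ℕ) (hl : l % 2 = 1) :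
    coeff (2 * l) (fs a k 0 4 4) =
      8321499136 * Lc l a k 3 5 + 16527034155008 * Lc l a k 5 3 + 1159984767303680 * Lc l a k 7 1 := by
  have h1 : fs a k 0 4 4 = ((16777216 : ℤ) : ℤ⟦X⟧) * (k ^ 4 * a ^ 4) + ((536870912 : ℤ) : ℤ⟦X⟧) * (k ^ 5 * a ^ 3) + ((6442450944 : ℤ) : ℤ⟦X⟧) * (k ^ 6 * a ^ 2) + ((34359738368 : ℤ) : ℤ⟦X⟧) * (k ^ 7 * a ^ 1) + ((68719476736 : ℤ) : ℤ⟦X⟧) * (k ^ 8 * a ^ 0) := by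
    unfold fs
    push_cast
    ring
  have h2 : ((16777216 : ℤ) : ℤ⟦X⟧) * ((k * (a + 8 * k)) ^ 2 * (a + 24 * k) ^ 4) + ((6442450944 : ℤ) : ℤ⟦X⟧) * ((k * (a + 8 * k)) ^ 3 * (a + 24 * k) ^ 2) + ((68719476736 : ℤ) : ℤ⟦X⟧) * ((k * (a + 8 * k)) ^ 4 * (a + 24 * k) ^ 0) = ((16777216 : ℤ) : ℤ⟦X⟧) * (k ^ 2 * a ^ 6) + ((8321499136 : ℤ) : ℤ⟦X⟧) * (k ^ 3 * a ^ 5) + ((617401548800 : ℤ) : ℤ⟦X⟧) * (k ^ 4 * a ^ 4) + ((16527034155008 : ℤ) : ℤ⟦X⟧) * (k ^ 5 * a ^ 3) + ((202241420034048 : ℤ) : ℤ⟦X⟧) * (k ^ 6 * a ^ 2) + ((1159984767303680 : ℤ) : ℤ⟦X⟧) * (k ^ 7 * a ^ 1) + ((2537672836907008 : ℤ) : ℤ⟦X⟧) * (k ^ 8 * a ^ 0) := by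
    push_cast
    ring
  have h3 : coeff (2 * l) (fs a k 0 4 4) = coeff l (((16777216 : ℤ) : ℤ⟦X⟧) * ((k * (a + 8 * k)) ^ 2 * (a + 24 * k) ^ 4) + ((6442450944 : ℤ) : ℤ⟦X⟧) * ((k * (a + 8 * k)) ^ 3 * (a + 24 * k) ^ 2) + ((68719476736 : ℤ) : ℤ⟦X⟧) * ((k * (a + 8 * k)) ^ 4 * (a + 24 * k) ^ 0)) := by
    rw [h1]
    simp only [map_add, cz]
    rw [mono_co q (2 * l) 5 3 (by omega), mono_co q (2 * l) 7 1 (by omega), ← mono_ev q l 2 4, ← mono_ev q l 3 2, ← mono_ev q l 4 0]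
    ring
  rw [h3, h2]
  simp only [map_add, cz]
  rw [mono_co q l 2 6 (by omega), mono_co q l 4 4 (by omega), mono_co q l 6 2 (by omega), mono_co q l 8 0 (by omega)]
  unfold Lc
  ring

end Pool.Agent.Lib.MP_06b9d2_tl2
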