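import Pool.Agent.Lib.MP_06b9d2_tl2.Row
import Pool.Agent.Lib.MP_06b9d2_tl2.Xd
import Pool.Agent.Lib.MP_06b9d2_tl2.Xe

/-!
Module TL2-Ent40. The matrix for `a = 0`, `N = 4`.

`row1` (`24 e - 16 N = -64`; `M 4 0 s = 0` for `s > 0`, `M 4 0 0 = l + l ^ 16`): `l x1(s) = 64 M 4 1 s` for `s = 1, .., 4`, `l x1(0) = -64 M 4 0 0 + 64 M 4 1 0`. `row2`: `128 N ^ 2 - 16 N = 1984`, `64 (24 - 64) = -2560`: `l x2(s) = -2560 M 4 1 s + 4096 M 4 2 s` (`s = 1, 2, 4`),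
`l x2(0) = 1984 M 4 0 0 - 2560 M 4 1 0 + 4096 M 4 2 0`. `M 4 2 4 = M 4 2 0` (`hM.sym`). Order: `M 4 1 4`, `M 4 1 3`, `M 4 1 2`; `M 4 2 0 = M 4 2 4` from `x2(4)`; the two equations for `s = 0` give `Lc l a k 1 7` and `M 4 1 0`; then `M 4 1 1`, `M 4 2 1`, `M 4 2 2`.
-/

namespace Pool.Agent.Lib.MP_06b9d2_tl2

open PowerSeries Pool.Agent.L1
open Pool.Agent.Lib.MP_06b9d2_tls (V U TT br In PC Ig tt EgG Two Tl)

variable {A Y : ℂ⟦X⟧} {a k : ℤ⟦X⟧} {l : ℕ} {M : ℕ → ℕ → ℕ → ℂ}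

theorem ent40 (h : Core A Y) (q : Qd A Y a k) (hl : l.Prime) (hl2 : l ≠ 2) (hM : MatD l A Y 0 M) :
    M 4 1 0 = (((l : ℤ) * (14348288 * Lc l a k 3 5 + 28623503360 * Lc l a k 5 3 + 2008215977984 * Lc l a k 7 1) : ℤ) : ℂ) ∧
    M 4 1 1 = (((l : ℤ) * (1 + (l : ℤ) ^ 15 - 14348160 * Lc l a k 3 5 - 28623552512 * Lc l a k 5 3 - 2008217550848 * Lc l a k 7 1) : ℤ) : ℂ) ∧
    M 4 1 2 = (((l : ℤ) * (-1024 * Lc l a k 3 5 + 131072 * Lc l a k 5 3 - 4194304 * Lc l a k 7 1) : ℤ) : ℂ) ∧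
    M 4 1 3 = (((l : ℤ) * (4096 * Lc l a k 3 5 - 524288 * Lc l a k 5 3 + 16777216 * Lc l a k 7 1) : ℤ) : ℂ) ∧
    M 4 1 4 = (((l : ℤ) * (8388608 * Lc l a k 5 3 + 536870912 * Lc l a k 7 1) : ℤ) : ℂ) ∧
    M 4 2 0 = (((l : ℤ) * (2031616 * Lc l a k 3 5 + 4040163328 * Lc l a k 5 3 + 283534950400 * Lc l a k 7 1) : ℤ) : ℂ) ∧
    M 4 2 1 = (((l : ℤ) * (-5632 * Lc l a k 3 5 + 720896 * Lc l a k 5 3 - 23068672 * Lc l a k 7 1) : ℤ) : ℂ) ∧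
    M 4 2 2 = (((l : ℤ) * (1 + (l : ℤ) ^ 15 - 14350848 * Lc l a k 3 5 - 28623208448 * Lc l a k 5 3 - 2008228560896 * Lc l a k 7 1) : ℤ) : ℂ) := by
  have hodd : l % 2 = 1 := hl.eq_two_or_odd.resolve_left hl2
  have m0 := mat_00 h hl hl2 hM 4
  have m1 := mat_low h hl hl2 hM 4 1 (by norm_num) (by norm_num)
  have m2 := mat_low h hl hl2 hM 4 2 (by norm_num) (by norm_num)
  have m3 := mat_low h hl hl2 hM 4 3 (by norm_num) (by norm_num)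
  have m4 := mat_low h hl hl2 hM 4 4 (by norm_num) (by norm_num)
  have sy : M 4 2 4 = M 4 2 0 := hM.sym 4 2 0 (by norm_num) (by norm_num)
  have e0 := row1 h q hl hl2 (by norm_num) hM 4 0 (by norm_num)
  have e1 := row1 h q hl hl2 (by norm_num) hM 4 1 (by norm_num)
  have e2 := row1 h q hl hl2 (by norm_num) hM 4 2 (by norm_num)
  have e3 := row1 h q hl hl2 (by norm_num) hM 4 3 (by norm_num)
  have e4 := row1 h q hl hl2 (by norm_num) hM 4 4 (by norm_num)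
  have f0 := row2 h q hl hl2 (by norm_num) hM 4 0 (by norm_num) (by norm_num)
  have f1 := row2 h q hl hl2 (by norm_num) hM 4 1 (by norm_num) (by norm_num)
  have f2 := row2 h q hl hl2 (by norm_num) hM 4 2 (by norm_num) (by norm_num)
  have f4 := row2 h q hl hl2 (by norm_num) hM 4 4 (by norm_num) (by norm_num)
  rw [x1_0_4_0 q l hodd] at e0
  rw [x1_0_4_1 q l hodd, m1] at e1
  rw [x1_0_4_2 q l hodd, m2] at e2
  rw [x1_0_4_3 q l hodd, m3] at e3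
  rw [x1_0_4_4 q l hodd, m4] at e4
  rw [x2_0_4_0 q l hodd] at f0
  rw [x2_0_4_1 q l hodd, m1] at f1
  rw [x2_0_4_2 q l hodd, m2] at f2
  rw [x2_0_4_4 q l hodd, m4] at f4
  push_cast at e0 e1 e2 e3 e4 f0 f1 f2 f4 m0
  have h0 : M 4 1 0 = (((l : ℤ) * (14348288 * Lc l a k 3 5 + 28623503360 * Lc l a k 5 3 + 2008215977984 * Lc l a k 7 1) : ℤ) : ℂ) := by
    push_cast
    linear_combination (1 / 576) * (f0 + 31 * e0 - f4 - 4096 * sy - 40 * e4)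
  have h2 : M 4 1 2 = (((l : ℤ) * (-1024 * Lc l a k 3 5 + 131072 * Lc l a k 5 3 - 4194304 * Lc l a k 7 1) : ℤ) : ℂ) := by
    push_cast
    linear_combination (-1 / 64) * e2
  have h3 : M 4 1 3 = (((l : ℤ) * (4096 * Lc l a k 3 5 - 524288 * Lc l a k 5 3 + 16777216 * Lc l a k 7 1) : ℤ) : ℂ) := by
    push_cast
    linear_combination (-1 / 64) * e3
  have h4 : M 4 1 4 = (((l : ℤ) * (8388608 * Lc l a k 5 3 + 536870912 * Lc l a k 7 1) : ℤ) : ℂ) := by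
    push_cast
    linear_combination (-1 / 64) * e4
  have k0 : M 4 2 0 = (((l : ℤ) * (2031616 * Lc l a k 3 5 + 4040163328 * Lc l a k 5 3 + 283534950400 * Lc l a k 7 1) : ℤ) : ℂ) := by
    push_cast
    linear_combination (-1 / 4096) * f4 - sy + (-40 / 4096) * e4
  have hd : (l : ℂ) * (Lc l a k 1 7 : ℂ) = M 4 1 1 - 576 * (l * (Lc l a k 3 5 : ℂ)) + 20480 * (l * (Lc l a k 5 3 : ℂ)) +
      1310720 * (l * (Lc l a k 7 1 : ℂ)) := by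
    linear_combination (1 / 64) * e1
  have h1 : M 4 1 1 = (((l : ℤ) * (1 + (l : ℤ) ^ 15 - 14348160 * Lc l a k 3 5 - 28623552512 * Lc l a k 5 3 - 2008217550848 * Lc l a k 7 1) : ℤ) : ℂ) := by
    push_cast
    push_cast at h0
    linear_combination (-1 / 64) * e1 - (1 / 64) * e0 - h0 + m0
  refine ⟨h0, h1, h2, h3, h4, k0, ?_, ?_⟩
  · push_cast
    linear_combination (-1 / 4096) * f1 - (2560 / 4096) * hd
  · push_cast
    push_cast at h1 h2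
    linear_combination (-1 / 4096) * f2 + hd + h1 + (2560 / 4096) * h2

end Pool.Agent.Lib.MP_06b9d2_tl2
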