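import Pool.Agent.Lib.MP_06b9d2_tl2.Low
import Pool.Agent.Lib.MP_06b9d2_tl2.Ent20
import Pool.Agent.Lib.MP_06b9d2_tl2.Ent30
import Pool.Agent.Lib.MP_06b9d2_tl2.Ent40
import Pool.Agent.Lib.MP_06b9d2_tl2.Lrel

/-!
Module TL2-P4z. Bounds for the `pc` with `m + n = 4`, `a = 0`.

Unfold `pc` (`simp [pc, Finset.sum_range_succ, Nat.choose]`), insert `mat_00`, `mat_NN`, `mat_low`, `mat_top`, `hM.out`, `hM.sym` and the values of `ent..` (for `N = 2, 3, 4`). Result (`L(i,j)` is `Lc l a k i j`; checked by computer):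
`pc 4 0 0 = l^0 (l^4-1)^4`; `pc 4 0 1 = l (6144 L(3,1) - 530432 L(3,3) - 101842944 L(5,1) + 14348288 L(3,5) + 28623503360 L(5,3) + 2008215977984 L(7,1))`; `pc 4 0 2 = l (-16384 L(3,3) - 3145728 L(5,1) + 2031616 L(3,5) + 4040163328 L(5,3) + 283534950400 L(7,1))`; `pc 4 0 3 = l (8388608 L(5,3) + 536870912 L(7,1))`; `pc 4 0 4 = 0`.
`pc 3 1 0 = 0`; `pc 3 1 1 = l^0 (l^4-1)^4 + l (-6528 L(3,1) + 530688 L(3,3) + 101892096 L(5,1) - 14348160 L(3,5) - 28623552512 L(5,3) - 2008217550848 L(7,1))`; `pc 3 1 2 = l (3072 L(3,1) - 132608 L(3,3) - 25460736 L(5,1) - 5632 L(3,5) + 720896 L(5,3) - 23068672 L(7,1))`; `pc 3 1 3 = l (-4096 L(3,3) - 786432 L(5,1) + 4096 L(3,5) - 524288 L(5,3) + 16777216 L(7,1))`; `pc 3 1 4 = 0`.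
`pc 2 2 0 = 0`; `pc 2 2 1 = l (1024 L(3,1) - 1024 L(3,5) + 131072 L(5,3) - 4194304 L(7,1))`; `pc 2 2 2 = l^0 (l^4-1)^4 + l (-8704 L(3,1) + 707584 L(3,3) + 135856128 L(5,1) - 14350848 L(3,5) - 28623208448 L(5,3) - 2008228560896 L(7,1))`; `pc 2 2 3 = l (1024 L(3,1) - 1024 L(3,5) + 131072 L(5,3) - 4194304 L(7,1))`; `pc 2 2 4 = 0`.
`pc m n r = 0` for `r > m + n` (`pc_deg`), `pc_m00`, `pc_mn0`. `16 ∣ l ^ 4 - 1` (`l` odd). For the integers in the brackets: `lrel`, `Lc l a k 3 1 = 2 ^ r0 * c'`, and for each of `r0 = 0, 1, 2` a linear divisibility (`omega`).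
-/

namespace Pool.Agent.Lib.MP_06b9d2_tl2

open PowerSeries Pool.Agent.L1
open Pool.Agent.Lib.MP_06b9d2_tls (V U TT br In PC Ig tt EgG Two Tl)

variable {A Y : ℂ⟦X⟧} {a k : ℤ⟦X⟧} {l : ℕ} {M : ℕ → ℕ → ℕ → ℂ}

private theorem p4z_pow (hl : l.Prime) (hl2 : l ≠ 2) : ∃ w : ℤ, ((l : ℤ) ^ 4 - 1) ^ 4 = 65536 * w := by
  obtain ⟨c, hc⟩ : Odd l := hl.odd_of_ne_two hl2
  have h1 : ∃ w : ℤ, (l : ℤ) ^ 4 - 1 = 16 * w := by
    obtain ⟨d, hd⟩ : Even ((c : ℤ) * (c + 1)) := Int.even_mul_succ_self c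
    have h2 : (l : ℤ) = 2 * c + 1 := by exact_mod_cast hc
    refine ⟨(c : ℤ) * (c + 1) * (2 * c ^ 2 + 2 * c + 1) - (c * (c + 1)) * (2 * c ^ 2 + 2 * c + 1) +
      d * (2 * c ^ 2 + 2 * c + 1), ?_⟩
    rw [h2]
    have h3 : (c : ℤ) * (c + 1) = 2 * d := by rw [hd]; ring
    linear_combination 8 * (2 * (c : ℤ) ^ 2 + 2 * c + 1) * h3
  obtain ⟨w, hw⟩ := h1
  exact ⟨w ^ 4, by rw [hw]; ring⟩

private theorem p4z_400 (h : Core A Y) (q : Qd A Y a k) (hl : l.Prime) (hl2 : l ≠ 2) (hM : MatD l A Y 0 M) :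
    pc M 4 0 0 = ((((l : ℤ) ^ 4 - 1) ^ 4 + (l : ℤ) * (0) : ℤ) : ℂ) := by
  have e : pc M 4 0 0 = M 4 0 0 - 4 * M 3 0 0 + 6 * M 2 0 0 - 4 * M 1 0 0 + M 0 0 0 := by
    simp [pc, Finset.sum_range_succ, Nat.choose]
    try ring
  have v400 : M 4 0 0 = (l : ℂ) + (l : ℂ) ^ 16 := mat_00 h hl hl2 hM 4
  have v300 : M 3 0 0 = (l : ℂ) + (l : ℂ) ^ 12 := mat_00 h hl hl2 hM 3
  have v200 : M 2 0 0 = (l : ℂ) + (l : ℂ) ^ 8 := mat_00 h hl hl2 hM 2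
  have v100 : M 1 0 0 = (l : ℂ) + (l : ℂ) ^ 4 := mat_00 h hl hl2 hM 1
  have v000 : M 0 0 0 = (l : ℂ) + (l : ℂ) ^ 0 := mat_00 h hl hl2 hM 0
  rw [e]
  simp only [v000, v100, v200, v300, v400]
  push_cast
  ring

private theorem p4z_401 (h : Core A Y) (q : Qd A Y a k) (hl : l.Prime) (hl2 : l ≠ 2) (hM : MatD l A Y 0 M) :
    pc M 4 0 1 = ((0 * ((l : ℤ) ^ 4 - 1) ^ 4 + (l : ℤ) * (6144 * Lc l a k 3 1 - 530432 * Lc l a k 3 3 - 101842944 * Lc l a k 5 1 + 14348288 * Lc l a k 3 5 + 28623503360 * Lc l a k 5 3 + 2008215977984 * Lc l a k 7 1) : ℤ) : ℂ) := by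
  have e : pc M 4 0 1 = M 4 1 0 - 4 * M 3 1 0 + 6 * M 2 1 0 - 4 * M 1 1 0 + M 0 1 0 := by
    simp [pc, Finset.sum_range_succ, Nat.choose]
    try ring
  have v410 : M 4 1 0 = (((l : ℤ) * (14348288 * Lc l a k 3 5 + 28623503360 * Lc l a k 5 3 + 2008215977984 * Lc l a k 7 1) : ℤ) : ℂ) := (ent40 h q hl hl2 hM).1
  have v310 : M 3 1 0 = (((l : ℤ) * (132608 * Lc l a k 3 3 + 25460736 * Lc l a k 5 1) : ℤ) : ℂ) := (ent30 h q hl hl2 hM).1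
  have v210 : M 2 1 0 = (((l : ℤ) * (1024 * Lc l a k 3 1) : ℤ) : ℂ) := (ent20 h q hl hl2 hM).1
  have v110 : M 1 1 0 = 0 := mat_top h hl hl2 hM 1 0 (by norm_num)
  have v010 : M 0 1 0 = 0 := hM.out 0 1 0 (by norm_num)
  rw [e]
  simp only [v010, v110, v210, v310, v410]
  push_cast
  ring

private theorem p4z_402 (h : Core A Y) (q : Qd A Y a k) (hl : l.Prime) (hl2 : l ≠ 2) (hM : MatD l A Y 0 M) :
    pc M 4 0 2 = ((0 * ((l : ℤ) ^ 4 - 1) ^ 4 + (l : ℤ) * (-16384 * Lc l a k 3 3 - 3145728 * Lc l a k 5 1 + 2031616 * Lc l a k 3 5 + 4040163328 * Lc l a k 5 3 + 283534950400 * Lc l a k 7 1) : ℤ) : ℂ) := by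
  have e : pc M 4 0 2 = M 4 2 0 - 4 * M 3 2 0 + 6 * M 2 2 0 - 4 * M 1 2 0 + M 0 2 0 := by
    simp [pc, Finset.sum_range_succ, Nat.choose]
    try ring
  have v420 : M 4 2 0 = (((l : ℤ) * (2031616 * Lc l a k 3 5 + 4040163328 * Lc l a k 5 3 + 283534950400 * Lc l a k 7 1) : ℤ) : ℂ) := (ent40 h q hl hl2 hM).2.2.2.2.2.1
  have v313 : M 3 1 3 = (((l : ℤ) * (4096 * Lc l a k 3 3 + 786432 * Lc l a k 5 1) : ℤ) : ℂ) := (ent30 h q hl hl2 hM).2.2.2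
  have v320 : M 3 2 0 = M 3 1 3 := hM.sym 3 1 3 (by norm_num) (by norm_num)
  have v220 : M 2 2 0 = 0 := mat_top h hl hl2 hM 2 0 (by norm_num)
  have v120 : M 1 2 0 = 0 := hM.out 1 2 0 (by norm_num)
  have v020 : M 0 2 0 = 0 := hM.out 0 2 0 (by norm_num)
  rw [e]
  simp only [v020, v120, v220, v313, v320, v420]
  push_cast
  ring

private theorem p4z_403 (h : Core A Y) (q : Qd A Y a k) (hl : l.Prime) (hl2 : l ≠ 2) (hM : MatD l A Y 0 M) :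
    pc M 4 0 3 = ((0 * ((l : ℤ) ^ 4 - 1) ^ 4 + (l : ℤ) * (8388608 * Lc l a k 5 3 + 536870912 * Lc l a k 7 1) : ℤ) : ℂ) := by
  have e : pc M 4 0 3 = M 4 3 0 - 4 * M 3 3 0 + 6 * M 2 3 0 - 4 * M 1 3 0 + M 0 3 0 := by
    simp [pc, Finset.sum_range_succ, Nat.choose]
    try ring
  have v414 : M 4 1 4 = (((l : ℤ) * (8388608 * Lc l a k 5 3 + 536870912 * Lc l a k 7 1) : ℤ) : ℂ) := (ent40 h q hl hl2 hM).2.2.2.2.1
  have v430 : M 4 3 0 = M 4 1 4 := hM.sym 4 1 4 (by norm_num) (by norm_num)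
  have v330 : M 3 3 0 = 0 := mat_top h hl hl2 hM 3 0 (by norm_num)
  have v230 : M 2 3 0 = 0 := hM.out 2 3 0 (by norm_num)
  have v130 : M 1 3 0 = 0 := hM.out 1 3 0 (by norm_num)
  have v030 : M 0 3 0 = 0 := hM.out 0 3 0 (by norm_num)
  rw [e]
  simp only [v030, v130, v230, v330, v414, v430]
  push_cast
  ring

private theorem p4z_404 (h : Core A Y) (q : Qd A Y a k) (hl : l.Prime) (hl2 : l ≠ 2) (hM : MatD l A Y 0 M) :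
    pc M 4 0 4 = ((0 * ((l : ℤ) ^ 4 - 1) ^ 4 + (l : ℤ) * (0) : ℤ) : ℂ) := by
  have e : pc M 4 0 4 = M 4 4 0 - 4 * M 3 4 0 + 6 * M 2 4 0 - 4 * M 1 4 0 + M 0 4 0 := by
    simp [pc, Finset.sum_range_succ, Nat.choose]
    try ring
  have v440 : M 4 4 0 = 0 := mat_top h hl hl2 hM 4 0 (by norm_num)
  have v340 : M 3 4 0 = 0 := hM.out 3 4 0 (by norm_num)
  have v240 : M 2 4 0 = 0 := hM.out 2 4 0 (by norm_num)
  have v140 : M 1 4 0 = 0 := hM.out 1 4 0 (by norm_num)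
  have v040 : M 0 4 0 = 0 := hM.out 0 4 0 (by norm_num)
  rw [e]
  simp only [v040, v140, v240, v340, v440]
  push_cast
  ring

private theorem p4z_310 (h : Core A Y) (q : Qd A Y a k) (hl : l.Prime) (hl2 : l ≠ 2) (hM : MatD l A Y 0 M) :
    pc M 3 1 0 = ((0 * ((l : ℤ) ^ 4 - 1) ^ 4 + (l : ℤ) * (0) : ℤ) : ℂ) := by
  have e : pc M 3 1 0 = M 4 0 1 - 3 * M 3 0 1 + 3 * M 2 0 1 - M 1 0 1 := by
    simp [pc, Finset.sum_range_succ, Nat.choose]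
    try ring
  have v401 : M 4 0 1 = 0 := mat_low h hl hl2 hM 4 1 (by norm_num) (by norm_num)
  have v301 : M 3 0 1 = 0 := mat_low h hl hl2 hM 3 1 (by norm_num) (by norm_num)
  have v201 : M 2 0 1 = 0 := mat_low h hl hl2 hM 2 1 (by norm_num) (by norm_num)
  have v101 : M 1 0 1 = 0 := mat_low h hl hl2 hM 1 1 (by norm_num) (by norm_num)
  rw [e]
  simp only [v101, v201, v301, v401]
  push_cast
  ring

private theorem p4z_311 (h : Core A Y) (q : Qd A Y a k) (hl : l.Prime) (hl2 : l ≠ 2) (hM : MatD l A Y 0 M) :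
    pc M 3 1 1 = ((((l : ℤ) ^ 4 - 1) ^ 4 + (l : ℤ) * (-6528 * Lc l a k 3 1 + 530688 * Lc l a k 3 3 + 101892096 * Lc l a k 5 1 - 14348160 * Lc l a k 3 5 - 28623552512 * Lc l a k 5 3 - 2008217550848 * Lc l a k 7 1) : ℤ) : ℂ) := by
  have e : pc M 3 1 1 = M 4 1 1 - 3 * M 3 1 1 - M 3 0 0 + 3 * M 2 1 1 + 3 * M 2 0 0 - M 1 1 1 - 3 * M 1 0 0 + M 0 0 0 := by
    simp [pc, Finset.sum_range_succ, Nat.choose]
    try ring
  have v411 : M 4 1 1 = (((l : ℤ) * (1 + (l : ℤ) ^ 15 - 14348160 * Lc l a k 3 5 - 28623552512 * Lc l a k 5 3 - 2008217550848 * Lc l a k 7 1) : ℤ) : ℂ) := (ent40 h q hl hl2 hM).2.1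
  have v311 : M 3 1 1 = (((l : ℤ) * (1 + (l : ℤ) ^ 11 - 176896 * Lc l a k 3 3 - 33964032 * Lc l a k 5 1) : ℤ) : ℂ) := (ent30 h q hl hl2 hM).2.1
  have v300 : M 3 0 0 = (l : ℂ) + (l : ℂ) ^ 12 := mat_00 h hl hl2 hM 3
  have v211 : M 2 1 1 = (((l : ℤ) * (1 + (l : ℤ) ^ 7 - 2176 * Lc l a k 3 1) : ℤ) : ℂ) := (ent20 h q hl hl2 hM).2
  have v200 : M 2 0 0 = (l : ℂ) + (l : ℂ) ^ 8 := mat_00 h hl hl2 hM 2
  have v111 : M 1 1 1 = (l : ℂ) + (l : ℂ) ^ 4 := mat_NN h hl hl2 hM 1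
  have v100 : M 1 0 0 = (l : ℂ) + (l : ℂ) ^ 4 := mat_00 h hl hl2 hM 1
  have v000 : M 0 0 0 = (l : ℂ) + (l : ℂ) ^ 0 := mat_00 h hl hl2 hM 0
  rw [e]
  simp only [v000, v100, v111, v200, v211, v300, v311, v411]
  push_cast
  ring

private theorem p4z_312 (h : Core A Y) (q : Qd A Y a k) (hl : l.Prime) (hl2 : l ≠ 2) (hM : MatD l A Y 0 M) :
    pc M 3 1 2 = ((0 * ((l : ℤ) ^ 4 - 1) ^ 4 + (l : ℤ) * (3072 * Lc l a k 3 1 - 132608 * Lc l a k 3 3 - 25460736 * Lc l a k 5 1 - 5632 * Lc l a k 3 5 + 720896 * Lc l a k 5 3 - 23068672 * Lc l a k 7 1) : ℤ) : ℂ) := by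
  have e : pc M 3 1 2 = M 4 2 1 - 3 * M 3 2 1 - M 3 1 0 + 3 * M 2 2 1 + 3 * M 2 1 0 - M 1 2 1 - 3 * M 1 1 0 + M 0 1 0 := by
    simp [pc, Finset.sum_range_succ, Nat.choose]
    try ring
  have v421 : M 4 2 1 = (((l : ℤ) * (-5632 * Lc l a k 3 5 + 720896 * Lc l a k 5 3 - 23068672 * Lc l a k 7 1) : ℤ) : ℂ) := (ent40 h q hl hl2 hM).2.2.2.2.2.2.1
  have v312 : M 3 1 2 = 0 := (ent30 h q hl hl2 hM).2.2.1
  have v321 : M 3 2 1 = M 3 1 2 := hM.sym 3 1 2 (by norm_num) (by norm_num)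
  have v310 : M 3 1 0 = (((l : ℤ) * (132608 * Lc l a k 3 3 + 25460736 * Lc l a k 5 1) : ℤ) : ℂ) := (ent30 h q hl hl2 hM).1
  have v221 : M 2 2 1 = 0 := mat_top h hl hl2 hM 2 1 (by norm_num)
  have v210 : M 2 1 0 = (((l : ℤ) * (1024 * Lc l a k 3 1) : ℤ) : ℂ) := (ent20 h q hl hl2 hM).1
  have v121 : M 1 2 1 = 0 := hM.out 1 2 1 (by norm_num)
  have v110 : M 1 1 0 = 0 := mat_top h hl hl2 hM 1 0 (by norm_num)
  have v010 : M 0 1 0 = 0 := hM.out 0 1 0 (by norm_num)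
  rw [e]
  simp only [v010, v110, v121, v210, v221, v310, v312, v321, v421]
  push_cast
  ring

private theorem p4z_313 (h : Core A Y) (q : Qd A Y a k) (hl : l.Prime) (hl2 : l ≠ 2) (hM : MatD l A Y 0 M) :
    pc M 3 1 3 = ((0 * ((l : ℤ) ^ 4 - 1) ^ 4 + (l : ℤ) * (-4096 * Lc l a k 3 3 - 786432 * Lc l a k 5 1 + 4096 * Lc l a k 3 5 - 524288 * Lc l a k 5 3 + 16777216 * Lc l a k 7 1) : ℤ) : ℂ) := by
  have e : pc M 3 1 3 = M 4 3 1 - 3 * M 3 3 1 - M 3 2 0 + 3 * M 2 3 1 + 3 * M 2 2 0 - M 1 3 1 - 3 * M 1 2 0 + M 0 2 0 := by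
    simp [pc, Finset.sum_range_succ, Nat.choose]
    try ring
  have v413 : M 4 1 3 = (((l : ℤ) * (4096 * Lc l a k 3 5 - 524288 * Lc l a k 5 3 + 16777216 * Lc l a k 7 1) : ℤ) : ℂ) := (ent40 h q hl hl2 hM).2.2.2.1
  have v431 : M 4 3 1 = M 4 1 3 := hM.sym 4 1 3 (by norm_num) (by norm_num)
  have v331 : M 3 3 1 = 0 := mat_top h hl hl2 hM 3 1 (by norm_num)
  have v313 : M 3 1 3 = (((l : ℤ) * (4096 * Lc l a k 3 3 + 786432 * Lc l a k 5 1) : ℤ) : ℂ) := (ent30 h q hl hl2 hM).2.2.2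
  have v320 : M 3 2 0 = M 3 1 3 := hM.sym 3 1 3 (by norm_num) (by norm_num)
  have v231 : M 2 3 1 = 0 := hM.out 2 3 1 (by norm_num)
  have v220 : M 2 2 0 = 0 := mat_top h hl hl2 hM 2 0 (by norm_num)
  have v131 : M 1 3 1 = 0 := hM.out 1 3 1 (by norm_num)
  have v120 : M 1 2 0 = 0 := hM.out 1 2 0 (by norm_num)
  have v020 : M 0 2 0 = 0 := hM.out 0 2 0 (by norm_num)
  rw [e]
  simp only [v020, v120, v131, v220, v231, v313, v320, v331, v413, v431]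
  push_cast
  ring

private theorem p4z_314 (h : Core A Y) (q : Qd A Y a k) (hl : l.Prime) (hl2 : l ≠ 2) (hM : MatD l A Y 0 M) :
    pc M 3 1 4 = ((0 * ((l : ℤ) ^ 4 - 1) ^ 4 + (l : ℤ) * (0) : ℤ) : ℂ) := by
  have e : pc M 3 1 4 = M 4 4 1 - 3 * M 3 4 1 - M 3 3 0 + 3 * M 2 4 1 + 3 * M 2 3 0 - M 1 4 1 - 3 * M 1 3 0 + M 0 3 0 := by
    simp [pc, Finset.sum_range_succ, Nat.choose]
    try ring
  have v441 : M 4 4 1 = 0 := mat_top h hl hl2 hM 4 1 (by norm_num)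
  have v341 : M 3 4 1 = 0 := hM.out 3 4 1 (by norm_num)
  have v330 : M 3 3 0 = 0 := mat_top h hl hl2 hM 3 0 (by norm_num)
  have v241 : M 2 4 1 = 0 := hM.out 2 4 1 (by norm_num)
  have v230 : M 2 3 0 = 0 := hM.out 2 3 0 (by norm_num)
  have v141 : M 1 4 1 = 0 := hM.out 1 4 1 (by norm_num)
  have v130 : M 1 3 0 = 0 := hM.out 1 3 0 (by norm_num)
  have v030 : M 0 3 0 = 0 := hM.out 0 3 0 (by norm_num)
  rw [e]
  simp only [v030, v130, v141, v230, v241, v330, v341, v441]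
  push_cast
  ring

private theorem p4z_220 (h : Core A Y) (q : Qd A Y a k) (hl : l.Prime) (hl2 : l ≠ 2) (hM : MatD l A Y 0 M) :
    pc M 2 2 0 = ((0 * ((l : ℤ) ^ 4 - 1) ^ 4 + (l : ℤ) * (0) : ℤ) : ℂ) := by
  have e : pc M 2 2 0 = M 4 0 2 - 2 * M 3 0 2 + M 2 0 2 := by
    simp [pc, Finset.sum_range_succ, Nat.choose]
    try ring
  have v402 : M 4 0 2 = 0 := mat_low h hl hl2 hM 4 2 (by norm_num) (by norm_num)
  have v302 : M 3 0 2 = 0 := mat_low h hl hl2 hM 3 2 (by norm_num) (by norm_num)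
  have v202 : M 2 0 2 = 0 := mat_low h hl hl2 hM 2 2 (by norm_num) (by norm_num)
  rw [e]
  simp only [v202, v302, v402]
  push_cast
  ring

private theorem p4z_221 (h : Core A Y) (q : Qd A Y a k) (hl : l.Prime) (hl2 : l ≠ 2) (hM : MatD l A Y 0 M) :
    pc M 2 2 1 = ((0 * ((l : ℤ) ^ 4 - 1) ^ 4 + (l : ℤ) * (1024 * Lc l a k 3 1 - 1024 * Lc l a k 3 5 + 131072 * Lc l a k 5 3 - 4194304 * Lc l a k 7 1) : ℤ) : ℂ) := by
  have e : pc M 2 2 1 = M 4 1 2 - 2 * M 3 1 2 - 2 * M 3 0 1 + M 2 1 2 + 4 * M 2 0 1 - 2 * M 1 0 1 := by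
    simp [pc, Finset.sum_range_succ, Nat.choose]
    try ring
  have v412 : M 4 1 2 = (((l : ℤ) * (-1024 * Lc l a k 3 5 + 131072 * Lc l a k 5 3 - 4194304 * Lc l a k 7 1) : ℤ) : ℂ) := (ent40 h q hl hl2 hM).2.2.1
  have v312 : M 3 1 2 = 0 := (ent30 h q hl hl2 hM).2.2.1
  have v301 : M 3 0 1 = 0 := mat_low h hl hl2 hM 3 1 (by norm_num) (by norm_num)
  have v210 : M 2 1 0 = (((l : ℤ) * (1024 * Lc l a k 3 1) : ℤ) : ℂ) := (ent20 h q hl hl2 hM).1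
  have v212 : M 2 1 2 = M 2 1 0 := hM.sym 2 1 0 (by norm_num) (by norm_num)
  have v201 : M 2 0 1 = 0 := mat_low h hl hl2 hM 2 1 (by norm_num) (by norm_num)
  have v101 : M 1 0 1 = 0 := mat_low h hl hl2 hM 1 1 (by norm_num) (by norm_num)
  rw [e]
  simp only [v101, v201, v210, v212, v301, v312, v412]
  push_cast
  ring

private theorem p4z_222 (h : Core A Y) (q : Qd A Y a k) (hl : l.Prime) (hl2 : l ≠ 2) (hM : MatD l A Y 0 M) :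
    pc M 2 2 2 = ((((l : ℤ) ^ 4 - 1) ^ 4 + (l : ℤ) * (-8704 * Lc l a k 3 1 + 707584 * Lc l a k 3 3 + 135856128 * Lc l a k 5 1 - 14350848 * Lc l a k 3 5 - 28623208448 * Lc l a k 5 3 - 2008228560896 * Lc l a k 7 1) : ℤ) : ℂ) := by
  have e : pc M 2 2 2 = M 4 2 2 - 2 * M 3 2 2 - 2 * M 3 1 1 + M 2 2 2 + 4 * M 2 1 1 + M 2 0 0 - 2 * M 1 1 1 - 2 * M 1 0 0 + M 0 0 0 := by
    simp [pc, Finset.sum_range_succ, Nat.choose]
    try ring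
  have v422 : M 4 2 2 = (((l : ℤ) * (1 + (l : ℤ) ^ 15 - 14350848 * Lc l a k 3 5 - 28623208448 * Lc l a k 5 3 - 2008228560896 * Lc l a k 7 1) : ℤ) : ℂ) := (ent40 h q hl hl2 hM).2.2.2.2.2.2.2
  have v311 : M 3 1 1 = (((l : ℤ) * (1 + (l : ℤ) ^ 11 - 176896 * Lc l a k 3 3 - 33964032 * Lc l a k 5 1) : ℤ) : ℂ) := (ent30 h q hl hl2 hM).2.1
  have v322 : M 3 2 2 = M 3 1 1 := hM.sym 3 1 1 (by norm_num) (by norm_num)
  have v222 : M 2 2 2 = (l : ℂ) + (l : ℂ) ^ 8 := mat_NN h hl hl2 hM 2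
  have v211 : M 2 1 1 = (((l : ℤ) * (1 + (l : ℤ) ^ 7 - 2176 * Lc l a k 3 1) : ℤ) : ℂ) := (ent20 h q hl hl2 hM).2
  have v200 : M 2 0 0 = (l : ℂ) + (l : ℂ) ^ 8 := mat_00 h hl hl2 hM 2
  have v111 : M 1 1 1 = (l : ℂ) + (l : ℂ) ^ 4 := mat_NN h hl hl2 hM 1
  have v100 : M 1 0 0 = (l : ℂ) + (l : ℂ) ^ 4 := mat_00 h hl hl2 hM 1
  have v000 : M 0 0 0 = (l : ℂ) + (l : ℂ) ^ 0 := mat_00 h hl hl2 hM 0
  rw [e]
  simp only [v000, v100, v111, v200, v211, v222, v311, v322, v422]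
  push_cast
  ring

private theorem p4z_223 (h : Core A Y) (q : Qd A Y a k) (hl : l.Prime) (hl2 : l ≠ 2) (hM : MatD l A Y 0 M) :
    pc M 2 2 3 = ((0 * ((l : ℤ) ^ 4 - 1) ^ 4 + (l : ℤ) * (1024 * Lc l a k 3 1 - 1024 * Lc l a k 3 5 + 131072 * Lc l a k 5 3 - 4194304 * Lc l a k 7 1) : ℤ) : ℂ) := by
  have e : pc M 2 2 3 = M 4 3 2 - 2 * M 3 3 2 - 2 * M 3 2 1 + M 2 3 2 + 4 * M 2 2 1 + M 2 1 0 - 2 * M 1 2 1 - 2 * M 1 1 0 + M 0 1 0 := by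
    simp [pc, Finset.sum_range_succ, Nat.choose]
    try ring
  have v412 : M 4 1 2 = (((l : ℤ) * (-1024 * Lc l a k 3 5 + 131072 * Lc l a k 5 3 - 4194304 * Lc l a k 7 1) : ℤ) : ℂ) := (ent40 h q hl hl2 hM).2.2.1
  have v432 : M 4 3 2 = M 4 1 2 := hM.sym 4 1 2 (by norm_num) (by norm_num)
  have v332 : M 3 3 2 = 0 := mat_top h hl hl2 hM 3 2 (by norm_num)
  have v312 : M 3 1 2 = 0 := (ent30 h q hl hl2 hM).2.2.1
  have v321 : M 3 2 1 = M 3 1 2 := hM.sym 3 1 2 (by norm_num) (by norm_num)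
  have v232 : M 2 3 2 = 0 := hM.out 2 3 2 (by norm_num)
  have v221 : M 2 2 1 = 0 := mat_top h hl hl2 hM 2 1 (by norm_num)
  have v210 : M 2 1 0 = (((l : ℤ) * (1024 * Lc l a k 3 1) : ℤ) : ℂ) := (ent20 h q hl hl2 hM).1
  have v121 : M 1 2 1 = 0 := hM.out 1 2 1 (by norm_num)
  have v110 : M 1 1 0 = 0 := mat_top h hl hl2 hM 1 0 (by norm_num)
  have v010 : M 0 1 0 = 0 := hM.out 0 1 0 (by norm_num)
  rw [e]
  simp only [v010, v110, v121, v210, v221, v232, v312, v321, v332, v412, v432]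
  push_cast
  ring

private theorem p4z_224 (h : Core A Y) (q : Qd A Y a k) (hl : l.Prime) (hl2 : l ≠ 2) (hM : MatD l A Y 0 M) :
    pc M 2 2 4 = ((0 * ((l : ℤ) ^ 4 - 1) ^ 4 + (l : ℤ) * (0) : ℤ) : ℂ) := by
  have e : pc M 2 2 4 = M 4 4 2 - 2 * M 3 4 2 - 2 * M 3 3 1 + M 2 4 2 + 4 * M 2 3 1 + M 2 2 0 - 2 * M 1 3 1 - 2 * M 1 2 0 + M 0 2 0 := by
    simp [pc, Finset.sum_range_succ, Nat.choose]
    try ring
  have v442 : M 4 4 2 = 0 := mat_top h hl hl2 hM 4 2 (by norm_num)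
  have v342 : M 3 4 2 = 0 := hM.out 3 4 2 (by norm_num)
  have v331 : M 3 3 1 = 0 := mat_top h hl hl2 hM 3 1 (by norm_num)
  have v242 : M 2 4 2 = 0 := hM.out 2 4 2 (by norm_num)
  have v231 : M 2 3 1 = 0 := hM.out 2 3 1 (by norm_num)
  have v220 : M 2 2 0 = 0 := mat_top h hl hl2 hM 2 0 (by norm_num)
  have v131 : M 1 3 1 = 0 := hM.out 1 3 1 (by norm_num)
  have v120 : M 1 2 0 = 0 := hM.out 1 2 0 (by norm_num)
  have v020 : M 0 2 0 = 0 := hM.out 0 2 0 (by norm_num)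
  rw [e]
  simp only [v020, v120, v131, v220, v231, v242, v331, v342, v442]
  push_cast
  ring

theorem p40z (h : Core A Y) (q : Qd A Y a k) (hl : l.Prime) (hl2 : l ≠ 2) (hM : MatD l A Y 0 M)
    (r0 : ℕ) (hr : r0 ≤ 2) (hc : (2 : ℤ) ^ r0 ∣ Lc l a k 3 1) (r : ℕ) :
    ∃ z : ℤ, pc M 4 0 r = ((2 ^ (11 + r0) * z : ℤ) : ℂ) := by
  obtain ⟨w, hw⟩ := p4z_pow hl hl2
  obtain ⟨z₁, z₂, _, _, _, h33, h35, _⟩ := lrel q l
  have key : ∀ (f : ℤ) (T : ℤ), (2 : ℤ) ^ (11 + r0) ∣ T →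
      ∃ z : ℤ, f * ((l : ℤ) ^ 4 - 1) ^ 4 + (l : ℤ) * T = 2 ^ (11 + r0) * z := by
    rintro f T ⟨t, rfl⟩
    rw [hw]
    interval_cases r0
    · exact ⟨2 ^ 5 * f * w + l * t, by ring⟩
    · exact ⟨2 ^ 4 * f * w + l * t, by ring⟩
    · exact ⟨2 ^ 3 * f * w + l * t, by ring⟩
  rcases Nat.lt_or_ge 4 r with h4 | h4
  · exact ⟨0, by rw [pc_deg hM 4 0 r (by omega)]; simp⟩
  have hc3 : r0 = 0 ∨ r0 = 1 ∧ (2 : ℤ) ∣ Lc l a k 3 1 ∨ r0 = 2 ∧ (4 : ℤ) ∣ Lc l a k 3 1 := by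
    interval_cases r0
    · exact Or.inl rfl
    · exact Or.inr (Or.inl ⟨rfl, by simpa using hc⟩)
    · exact Or.inr (Or.inr ⟨rfl, by norm_num at hc; exact hc⟩)
  interval_cases r
  · obtain ⟨z, hz⟩ := key 1 (0) (by
      rcases hc3 with rfl | ⟨rfl, h5⟩ | ⟨rfl, h5⟩ <;> norm_num <;> omega)
    refine ⟨z, ?_⟩
    rw [p4z_400 h q hl hl2 hM, ← hz]
    push_cast
    ring
  · obtain ⟨z, hz⟩ := key 0 (6144 * Lc l a k 3 1 - 530432 * Lc l a k 3 3 - 101842944 * Lc l a k 5 1 + 14348288 * Lc l a k 3 5 + 28623503360 * Lc l a k 5 3 + 2008215977984 * Lc l a k 7 1) (by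
      rcases hc3 with rfl | ⟨rfl, h5⟩ | ⟨rfl, h5⟩ <;> norm_num <;> omega)
    refine ⟨z, ?_⟩
    rw [p4z_401 h q hl hl2 hM, ← hz]
  · obtain ⟨z, hz⟩ := key 0 (-16384 * Lc l a k 3 3 - 3145728 * Lc l a k 5 1 + 2031616 * Lc l a k 3 5 + 4040163328 * Lc l a k 5 3 + 283534950400 * Lc l a k 7 1) (by
      rcases hc3 with rfl | ⟨rfl, h5⟩ | ⟨rfl, h5⟩ <;> norm_num <;> omega)
    refine ⟨z, ?_⟩
    rw [p4z_402 h q hl hl2 hM, ← hz]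
  · obtain ⟨z, hz⟩ := key 0 (8388608 * Lc l a k 5 3 + 536870912 * Lc l a k 7 1) (by
      rcases hc3 with rfl | ⟨rfl, h5⟩ | ⟨rfl, h5⟩ <;> norm_num <;> omega)
    refine ⟨z, ?_⟩
    rw [p4z_403 h q hl hl2 hM, ← hz]
  · obtain ⟨z, hz⟩ := key 0 (0) (by
      rcases hc3 with rfl | ⟨rfl, h5⟩ | ⟨rfl, h5⟩ <;> norm_num <;> omega)
    refine ⟨z, ?_⟩
    rw [p4z_404 h q hl hl2 hM, ← hz]

theorem p31z (h : Core A Y) (q : Qd A Y a k) (hl : l.Prime) (hl2 : l ≠ 2) (hM : MatD l A Y 0 M)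
    (r0 : ℕ) (hr : r0 ≤ 2) (hc : (2 : ℤ) ^ r0 ∣ Lc l a k 3 1) (r : ℕ) :
    ∃ z : ℤ, pc M 3 1 r = ((2 ^ (9 + r0) * z : ℤ) : ℂ) := by
  obtain ⟨w, hw⟩ := p4z_pow hl hl2
  obtain ⟨z₁, z₂, _, _, _, h33, h35, _⟩ := lrel q l
  have key : ∀ (f : ℤ) (T : ℤ), (2 : ℤ) ^ (9 + r0) ∣ T →
      ∃ z : ℤ, f * ((l : ℤ) ^ 4 - 1) ^ 4 + (l : ℤ) * T = 2 ^ (9 + r0) * z := by
    rintro f T ⟨t, rfl⟩
    rw [hw]
    interval_cases r0
    · exact ⟨2 ^ 7 * f * w + l * t, by ring⟩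
    · exact ⟨2 ^ 6 * f * w + l * t, by ring⟩
    · exact ⟨2 ^ 5 * f * w + l * t, by ring⟩
  rcases Nat.lt_or_ge 4 r with h4 | h4
  · exact ⟨0, by rw [pc_deg hM 3 1 r (by omega)]; simp⟩
  have hc3 : r0 = 0 ∨ r0 = 1 ∧ (2 : ℤ) ∣ Lc l a k 3 1 ∨ r0 = 2 ∧ (4 : ℤ) ∣ Lc l a k 3 1 := by
    interval_cases r0
    · exact Or.inl rfl
    · exact Or.inr (Or.inl ⟨rfl, by simpa using hc⟩)
    · exact Or.inr (Or.inr ⟨rfl, by norm_num at hc; exact hc⟩)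
  interval_cases r
  · obtain ⟨z, hz⟩ := key 0 (0) (by
      rcases hc3 with rfl | ⟨rfl, h5⟩ | ⟨rfl, h5⟩ <;> norm_num <;> omega)
    refine ⟨z, ?_⟩
    rw [p4z_310 h q hl hl2 hM, ← hz]
  · obtain ⟨z, hz⟩ := key 1 (-6528 * Lc l a k 3 1 + 530688 * Lc l a k 3 3 + 101892096 * Lc l a k 5 1 - 14348160 * Lc l a k 3 5 - 28623552512 * Lc l a k 5 3 - 2008217550848 * Lc l a k 7 1) (by
      rcases hc3 with rfl | ⟨rfl, h5⟩ | ⟨rfl, h5⟩ <;> norm_num <;> omega)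
    refine ⟨z, ?_⟩
    rw [p4z_311 h q hl hl2 hM, ← hz]
    push_cast
    ring
  · obtain ⟨z, hz⟩ := key 0 (3072 * Lc l a k 3 1 - 132608 * Lc l a k 3 3 - 25460736 * Lc l a k 5 1 - 5632 * Lc l a k 3 5 + 720896 * Lc l a k 5 3 - 23068672 * Lc l a k 7 1) (by
      rcases hc3 with rfl | ⟨rfl, h5⟩ | ⟨rfl, h5⟩ <;> norm_num <;> omega)
    refine ⟨z, ?_⟩
    rw [p4z_312 h q hl hl2 hM, ← hz]
  · obtain ⟨z, hz⟩ := key 0 (-4096 * Lc l a k 3 3 - 786432 * Lc l a k 5 1 + 4096 * Lc l a k 3 5 - 524288 * Lc l a k 5 3 + 16777216 * Lc l a k 7 1) (by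
      rcases hc3 with rfl | ⟨rfl, h5⟩ | ⟨rfl, h5⟩ <;> norm_num <;> omega)
    refine ⟨z, ?_⟩
    rw [p4z_313 h q hl hl2 hM, ← hz]
  · obtain ⟨z, hz⟩ := key 0 (0) (by
      rcases hc3 with rfl | ⟨rfl, h5⟩ | ⟨rfl, h5⟩ <;> norm_num <;> omega)
    refine ⟨z, ?_⟩
    rw [p4z_314 h q hl hl2 hM, ← hz]

theorem p22z (h : Core A Y) (q : Qd A Y a k) (hl : l.Prime) (hl2 : l ≠ 2) (hM : MatD l A Y 0 M)
    (r0 : ℕ) (hr : r0 ≤ 2) (hc : (2 : ℤ) ^ r0 ∣ Lc l a k 3 1) (r : ℕ) :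
    ∃ z : ℤ, pc M 2 2 r = ((2 ^ (10 + r0) * z : ℤ) : ℂ) := by
  obtain ⟨w, hw⟩ := p4z_pow hl hl2
  obtain ⟨z₁, z₂, _, _, _, h33, h35, _⟩ := lrel q l
  have key : ∀ (f : ℤ) (T : ℤ), (2 : ℤ) ^ (10 + r0) ∣ T →
      ∃ z : ℤ, f * ((l : ℤ) ^ 4 - 1) ^ 4 + (l : ℤ) * T = 2 ^ (10 + r0) * z := by
    rintro f T ⟨t, rfl⟩
    rw [hw]
    interval_cases r0
    · exact ⟨2 ^ 6 * f * w + l * t, by ring⟩
    · exact ⟨2 ^ 5 * f * w + l * t, by ring⟩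
    · exact ⟨2 ^ 4 * f * w + l * t, by ring⟩
  rcases Nat.lt_or_ge 4 r with h4 | h4
  · exact ⟨0, by rw [pc_deg hM 2 2 r (by omega)]; simp⟩
  have hc3 : r0 = 0 ∨ r0 = 1 ∧ (2 : ℤ) ∣ Lc l a k 3 1 ∨ r0 = 2 ∧ (4 : ℤ) ∣ Lc l a k 3 1 := by
    interval_cases r0
    · exact Or.inl rfl
    · exact Or.inr (Or.inl ⟨rfl, by simpa using hc⟩)
    · exact Or.inr (Or.inr ⟨rfl, by norm_num at hc; exact hc⟩)
  interval_cases r
  · obtain ⟨z, hz⟩ := key 0 (0) (by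
      rcases hc3 with rfl | ⟨rfl, h5⟩ | ⟨rfl, h5⟩ <;> norm_num <;> omega)
    refine ⟨z, ?_⟩
    rw [p4z_220 h q hl hl2 hM, ← hz]
  · obtain ⟨z, hz⟩ := key 0 (1024 * Lc l a k 3 1 - 1024 * Lc l a k 3 5 + 131072 * Lc l a k 5 3 - 4194304 * Lc l a k 7 1) (by
      rcases hc3 with rfl | ⟨rfl, h5⟩ | ⟨rfl, h5⟩ <;> norm_num <;> omega)
    refine ⟨z, ?_⟩
    rw [p4z_221 h q hl hl2 hM, ← hz]
  · obtain ⟨z, hz⟩ := key 1 (-8704 * Lc l a k 3 1 + 707584 * Lc l a k 3 3 + 135856128 * Lc l a k 5 1 - 14350848 * Lc l a k 3 5 - 28623208448 * Lc l a k 5 3 - 2008228560896 * Lc l a k 7 1) (by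
      rcases hc3 with rfl | ⟨rfl, h5⟩ | ⟨rfl, h5⟩ <;> norm_num <;> omega)
    refine ⟨z, ?_⟩
    rw [p4z_222 h q hl hl2 hM, ← hz]
    push_cast
    ring
  · obtain ⟨z, hz⟩ := key 0 (1024 * Lc l a k 3 1 - 1024 * Lc l a k 3 5 + 131072 * Lc l a k 5 3 - 4194304 * Lc l a k 7 1) (by
      rcases hc3 with rfl | ⟨rfl, h5⟩ | ⟨rfl, h5⟩ <;> norm_num <;> omega)
    refine ⟨z, ?_⟩
    rw [p4z_223 h q hl hl2 hM, ← hz]
  · obtain ⟨z, hz⟩ := key 0 (0) (by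
      rcases hc3 with rfl | ⟨rfl, h5⟩ | ⟨rfl, h5⟩ <;> norm_num <;> omega)
    refine ⟨z, ?_⟩
    rw [p4z_224 h q hl hl2 hM, ← hz]

end Pool.Agent.Lib.MP_06b9d2_tl2
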