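import Pool.Agent.Lib.MP_06b9d2_tls.TwoQ
import Pool.Agent.Lib.MP_06b9d2_tl2.PcI
import Pool.Agent.Lib.MP_06b9d2_tl2.P3z
import Pool.Agent.Lib.MP_06b9d2_tl2.P3o
import Pool.Agent.Lib.MP_06b9d2_tl2.P4z
import Pool.Agent.Lib.MP_06b9d2_tl2.P4o

/-!
Module TL2-Dat. The data for `twoQ` (helper25's `MP_06b9d2_tls/TwoQ.lean`), `p = 2`, `κ = pc M`.

`W = κ 2 0 0 - κ 1 1 1 = M 2 0 0 - M 2 1 1` (`pc_dif`), `M 2 0 0 = l + l ^ (8 + 2 e)` (`mat_00`). `e = 0`: `W = l * 2176 * Lc 3 1` (`ent20`), `2176 = 2 ^ 7 * 17`; `e = 1`: `W = l (19840 Lc 3 2 + 761856 Lc 5 0) = 2 ^ 7 l (155 Lc 3 2 + 5952 Lc 5 0)` (`ent21`), `Lc 3 2 = Lc 3 1 + 8 z` (`lrel`), `5952 = 64 * 93`. As `Lc 3 1 = 2 ^ r0 u`,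
`u` odd, `r0 ≤ 2`: `v W = v (2 ^ (7 + r0))` (`v_exact`) (`valW`). `deg`: `pc_deg`. `h011`, ..: `pc_sym`. `h300`, `h400`: `pc_m00`, `16 ∣ l ^ 4 - 1`: `v ≤ v (2 ^ 12)`, `v (2 ^ 16)`; `v (2 (2 W)) = v (2 ^ (9 + r0))`, `v (12 (2 W)) = v (2 ^ (10 + r0))`.
`big`: the bound is `v (m! n!) v (2 ^ (8 + r0))`. `m + n = 0`: `pc_deg`. `m + n = 1`: `pc_101`, `pc_deg`. `m + n = 2`: `(2,0,1)`: `pc_201`, `ent20`, `ent21`: `1024 l Lc 3 1`, `l (2560 Lc 3 2 + 98304 Lc 5 0)`: `v ≤ v (2 ^ (9 + r0))` (`2560 = 2 ^ 9 * 5`, `98304 = 2 ^ 15 * 3`); `(0,2,1)`: `pc_sym`; the others are `0` (`pc_202`, `pc_110`, `pc_sym`, `pc_deg`).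
`m + n = 3`: `v (m! n!) = v 2` (`v_f`): `p30z`, `p21z`, `p30o`, `p21o`, and `(0,3)`, `(1,2)` by `pc_sym` (for `r ≤ 3`). `m + n = 4`: `v (4!) = v (2 ^ 3)`, `v (3! 1!) = v 2`, `v (2! 2!) = v (2 ^ 2)`: `p40z`, ..; `(0,4)`, `(1,3)` by `pc_sym`. `m + n = 5`: `pcP`: `v ≤ v 2 ^ 13`, and `v (m! n!) ≥ v 2 ^ 3` (`v_f`), `8 + r0 + 3 ≤ 13`.
`m + n ≥ 6`: `pcP`, `v (m! n!) ≥ v ((m + n)!) ≥ v 2 ^ (m + n - 1)` (`m! n! ∣ (m + n)!`: `Nat.factorial_mul_factorial_dvd_factorial_add`, `v_fact`) and `8 + r0 + (m + n - 1) ≤ (5 (m + n) + 1) / 2`.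
-/

namespace Pool.Agent.Lib.MP_06b9d2_tl2

open PowerSeries Pool.Agent.L1
open Pool.Agent.Lib.MP_06b9d2_tls (V U TT br In PC Ig tt EgG Two Tl)

open Pool.Agent.Lib.MP_06b9d2_tls (DatQ MQ)

variable {A Y : ℂ⟦X⟧} {a k : ℤ⟦X⟧} {l e : ℕ} {M : ℕ → ℕ → ℕ → ℂ} {O : ValuationSubring ℂ}

private theorem lc_e (q : Qd A Y a k) (l r0 : ℕ) (hr : r0 ≤ 2) (u : ℤ) (hc : Lc l a k 3 1 = 2 ^ r0 * u) :
    ∃ z : ℤ, Lc l a k 3 2 = 2 ^ r0 * (u + 2 * z) := by
  obtain ⟨z₁, z₂, z₃, z₄, z₅, -, -, h3, -, -⟩ := lrel q l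
  refine ⟨2 ^ (2 - r0) * z₃, ?_⟩
  rw [h3, hc]
  interval_cases r0 <;> norm_num <;> ring

private theorem odd_mul {x y : ℤ} (hx : ¬ 2 ∣ x) (hy : ¬ 2 ∣ y) : ¬ 2 ∣ x * y := by
  intro h
  rcases Int.prime_two.dvd_or_dvd h with h | h
  · exact hx h
  · exact hy h

private theorem l_odd (hl : l.Prime) (hl2 : l ≠ 2) : ¬ (2 : ℤ) ∣ (l : ℤ) := by
  intro h
  have h1 : 2 ∣ l := by exact_mod_cast h
  exact hl2 ((Nat.prime_dvd_prime_iff_eq Nat.prime_two hl).1 h1).symm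

private theorem W_ex (h : Core A Y) (q : Qd A Y a k) (hl : l.Prime) (hl2 : l ≠ 2) (he : e ≤ 1)
    (hM : MatD l A Y e M) (r0 : ℕ) (hr : r0 ≤ 2) (u : ℤ) (hc : Lc l a k 3 1 = 2 ^ r0 * u) (hu : ¬ 2 ∣ u) :
    ∃ v : ℤ, ¬ 2 ∣ v ∧ pc M 2 0 0 - pc M 1 1 1 = ((2 ^ (7 + r0) * v : ℤ) : ℂ) := by
  have hlo := l_odd hl hl2
  rw [pc_dif h hl hl2 hM, mat_00 h hl hl2 hM 2]
  obtain ⟨z, hz⟩ := lc_e q l r0 hr u hc
  interval_cases e
  · refine ⟨(l : ℤ) * (17 * u), odd_mul hlo (odd_mul (by norm_num) hu), ?_⟩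
    rw [(ent20 h q hl hl2 hM).2, hc]
    push_cast
    ring
  · refine ⟨(l : ℤ) * (155 * u + 2 * (155 * z + 2 ^ (2 - r0) * (744 * Lc l a k 5 0))), ?_, ?_⟩
    · refine odd_mul hlo ?_
      intro hd
      have h1 : (2 : ℤ) ∣ 155 * u := by
        have h2 := Int.dvd_sub hd (Dvd.intro (155 * z + 2 ^ (2 - r0) * (744 * Lc l a k 5 0)) rfl)
        rwa [add_sub_cancel_right] at h2
      exact odd_mul (by norm_num) hu h1
    · rw [(ent21 h q hl hl2 hM).2, hz]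
      have h4 : (2 : ℂ) ^ r0 * 2 ^ (2 - r0) = 4 := by
        rw [← pow_add]
        have : r0 + (2 - r0) = 2 := by omega
        rw [this]
        norm_num
      push_cast
      rw [pow_add]
      linear_combination (-(l : ℂ) * 128 * 2 * 744 * (Lc l a k 5 0 : ℂ)) * h4

theorem valW (h : Core A Y) (h2 : O.valuation 2 < 1) (q : Qd A Y a k) (hl : l.Prime) (hl2 : l ≠ 2) (he : e ≤ 1)
    (hM : MatD l A Y e M) (r0 : ℕ) (hr : r0 ≤ 2) (u : ℤ) (hc : Lc l a k 3 1 = 2 ^ r0 * u) (hu : ¬ 2 ∣ u) :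
    O.valuation (pc M 2 0 0 - pc M 1 1 1) = O.valuation (2 ^ (7 + r0)) := by
  obtain ⟨v, hv, hW⟩ := W_ex h q hl hl2 he hM r0 hr u hc hu
  rw [hW]
  exact v_exact h2 _ v (7 + r0) rfl hv

private theorem big_of (h2 : O.valuation 2 < 1) {W : ℂ} {r0 : ℕ}
    (hw : O.valuation W = O.valuation (2 ^ (7 + r0))) (f x : ℂ) (k j : ℕ)
    (hx : O.valuation x ≤ O.valuation 2 ^ k) (hf : O.valuation 2 ^ j ≤ O.valuation f)
    (hk : 8 + r0 + j ≤ k) : O.valuation x ≤ O.valuation (f * (2 * W)) := by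
  rw [map_mul, map_mul, hw, map_pow]
  calc O.valuation x ≤ O.valuation 2 ^ k := hx
    _ ≤ O.valuation 2 ^ (8 + r0 + j) := pow_le_pow_of_le_one zero_le h2.le hk
    _ = O.valuation 2 ^ j * (O.valuation 2 * O.valuation 2 ^ (7 + r0)) := by
        rw [← pow_succ', ← pow_add]
        congr 1
        omega
    _ ≤ _ := mul_le_mul' hf le_rfl

private theorem v_ex {z : ℤ} {x : ℂ} {k : ℕ} (hx : x = ((2 ^ k * z : ℤ) : ℂ)) :
    O.valuation x ≤ O.valuation 2 ^ k := by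
  rw [hx, ← map_pow]
  exact v_dvd O _ k (Dvd.intro _ rfl)

private theorem v_fac {h2 : O.valuation 2 < 1} (m n : ℕ) :
    O.valuation 2 ^ (m + n - 1) ≤ O.valuation (((m.factorial * n.factorial : ℕ)) : ℂ) := by
  refine (v_fact h2 (m + n)).trans ?_
  obtain ⟨c, hc⟩ := Nat.factorial_mul_factorial_dvd_factorial_add m n
  rw [hc]
  push_cast
  rw [map_mul]
  have hc1 : O.valuation (c : ℂ) ≤ 1 := by
    have := v_int O (c : ℤ)
    rwa [Int.cast_natCast] at this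
  exact mul_le_of_le_one_right' hc1

private theorem l4 (hl : l.Prime) (hl2 : l ≠ 2) : (2 : ℤ) ^ 4 ∣ (l : ℤ) ^ 4 - 1 := by
  have hlo := l_odd hl hl2
  obtain ⟨t, ht⟩ : ∃ t : ℤ, (l : ℤ) = 2 * t + 1 := ⟨(l : ℤ) / 2, by omega⟩
  rw [ht]
  obtain ⟨s, hs⟩ : ∃ s : ℤ, t * (t + 1) = 2 * s := by
    obtain ⟨s, hs⟩ := Int.even_mul_succ_self t
    exact ⟨s, by rw [hs]; ring⟩
  refine ⟨s * (2 * t ^ 2 + 2 * t + 1), ?_⟩
  have : (2 * t + 1) ^ 4 - 1 = 8 * (t * (t + 1)) * (2 * t ^ 2 + 2 * t + 1) := by ring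
  rw [this, hs]
  ring

theorem datQ (h : Core A Y) (h2 : O.valuation 2 < 1) (q : Qd A Y a k) (hl : l.Prime) (hl2 : l ≠ 2) (he : e ≤ 1)
    (hM : MatD l A Y e M) (r0 : ℕ) (hr : r0 ≤ 2) (u : ℤ) (hc : Lc l a k 3 1 = 2 ^ r0 * u) (hu : ¬ 2 ∣ u) :
    DatQ O 2 (pc M) := by
  have hw := valW h h2 q hl hl2 he hM r0 hr u hc hu
  have hw1 : O.valuation (pc M 2 0 0 - pc M 1 1 1) = O.valuation 2 ^ (7 + r0) := by rw [hw, map_pow]
  obtain ⟨v2, v3, v4, v5⟩ := v_f h2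
  have hdv : (2 : ℤ) ^ r0 ∣ Lc l a k 3 1 := ⟨u, hc⟩
  have sym : ∀ m n r : ℕ, r ≤ m + n → pc M n m (m + n - r) = pc M m n r := fun m n r hrr =>
    pc_sym hM m n r hrr
  have v1 : O.valuation ((Nat.factorial 1 : ℕ) : ℂ) = 1 := by simp
  have v0 : O.valuation ((Nat.factorial 0 : ℕ) : ℂ) = 1 := by simp
  -- the entries of degree three and four
  have p30 : ∀ r, O.valuation (pc M 3 0 r) ≤ O.valuation 2 ^ (9 + r0) := by
    intro r
    interval_cases e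
    · obtain ⟨z, hz⟩ := p30z h q hl hl2 hM r0 hr hdv r
      exact v_ex hz
    · obtain ⟨z, hz⟩ := p30o h q hl hl2 hM r0 hr hdv r
      exact v_ex hz
  have p21 : ∀ r, O.valuation (pc M 2 1 r) ≤ O.valuation 2 ^ (9 + r0) := by
    intro r
    interval_cases e
    · obtain ⟨z, hz⟩ := p21z h q hl hl2 hM r0 hr hdv r
      exact v_ex hz
    · obtain ⟨z, hz⟩ := p21o h q hl hl2 hM r0 hr hdv r
      exact v_ex hz
  have p40 : ∀ r, O.valuation (pc M 4 0 r) ≤ O.valuation 2 ^ (11 + r0) := by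
    intro r
    interval_cases e
    · obtain ⟨z, hz⟩ := p40z h q hl hl2 hM r0 hr hdv r
      exact v_ex hz
    · obtain ⟨z, hz⟩ := p40o h q hl hl2 hM r0 hr hdv r
      exact v_ex hz
  have p31 : ∀ r, O.valuation (pc M 3 1 r) ≤ O.valuation 2 ^ (9 + r0) := by
    intro r
    interval_cases e
    · obtain ⟨z, hz⟩ := p31z h q hl hl2 hM r0 hr hdv r
      exact v_ex hz
    · obtain ⟨z, hz⟩ := p31o h q hl hl2 hM r0 hr hdv r
      exact v_ex hz
  have p22 : ∀ r, O.valuation (pc M 2 2 r) ≤ O.valuation 2 ^ (10 + r0) := by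
    intro r
    interval_cases e
    · obtain ⟨z, hz⟩ := p22z h q hl hl2 hM r0 hr hdv r
      exact v_ex hz
    · obtain ⟨z, hz⟩ := p22o h q hl hl2 hM r0 hr hdv r
      exact v_ex hz
  have p201 : O.valuation (pc M 2 0 1) ≤ O.valuation 2 ^ (9 + r0) := by
    rw [pc_201 h hl hl2 hM]
    obtain ⟨z, hz⟩ := lc_e q l r0 hr u hc
    interval_cases e
    · rw [(ent20 h q hl hl2 hM).1, hc]
      have e1 : (((l : ℤ) * (1024 * (2 ^ r0 * u)) : ℤ) : ℂ) = ((2 ^ (9 + r0) * ((l : ℤ) * (2 * u)) : ℤ) : ℂ) := by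
        push_cast
        ring
      exact v_ex e1
    · rw [(ent21 h q hl hl2 hM).1, hz]
      have h4 : (2 : ℂ) ^ r0 * 2 ^ (2 - r0) = 4 := by
        rw [← pow_add]
        have : r0 + (2 - r0) = 2 := by omega
        rw [this]
        norm_num
      have e1 : (((l : ℤ) * (2560 * (2 ^ r0 * (u + 2 * z)) + 98304 * Lc l a k 5 0) : ℤ) : ℂ) =
          ((2 ^ (9 + r0) * ((l : ℤ) * (5 * (u + 2 * z) + 2 ^ (2 - r0) * (48 * Lc l a k 5 0))) : ℤ) : ℂ) := by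
        push_cast
        rw [pow_add]
        linear_combination (-(l : ℂ) * 512 * 48 * (Lc l a k 5 0 : ℂ)) * h4
      exact v_ex e1
  have h24 : ∀ m : ℕ, O.valuation (pc M m 0 0) ≤ O.valuation 2 ^ (4 * m) ∨ m = 0 := by
    intro m
    rcases Nat.eq_zero_or_pos m with h0 | h0
    · exact Or.inr h0
    · left
      rw [pc_m00 h hl hl2 hM m h0]
      obtain ⟨c, hc'⟩ := l4 hl hl2
      have e1 : (l : ℂ) ^ (2 * e) * ((l : ℂ) ^ 4 - 1) ^ m =
          ((2 ^ (4 * m) * ((l : ℤ) ^ (2 * e) * c ^ m) : ℤ) : ℂ) := by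
        have e2 : (l : ℂ) ^ 4 - 1 = (2 : ℂ) ^ 4 * (c : ℂ) := by exact_mod_cast hc'
        rw [e2, mul_pow, ← pow_mul]
        push_cast
        ring
      exact v_ex e1
  refine ⟨h2, ?_, fun m n r hd => pc_deg hM m n r hd, sym 1 0 0 (by omega), sym 2 0 0 (by omega),
    sym 3 0 0 (by omega), sym 4 0 0 (by omega), ?_, ?_, ?_⟩
  · rw [← O.valuation.ne_zero_iff, hw1]
    exact pow_ne_zero _ ((map_ne_zero _).2 (by norm_num))
  · refine big_of h2 hw _ _ (4 * 3) 1 ((h24 3).resolve_right (by norm_num)) ?_ (by omega)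
    rw [pow_one]
  · refine big_of h2 hw _ _ (4 * 4) 2 ((h24 4).resolve_right (by norm_num)) ?_ (by omega)
    have e1 := v_exact h2 12 3 2 (by norm_num) (by norm_num)
    rw [map_pow] at e1
    have e2 : (((12 : ℤ)) : ℂ) = 12 := by norm_num
    rw [e2] at e1
    rw [e1]
  · intro m n r hcond h30 h03 h40 h04
    rcases Nat.lt_or_ge (m + n) r with hrr | hrr
    · rw [pc_deg hM m n r hrr, map_zero]
      exact zero_le
    rcases Nat.lt_or_ge 5 (m + n) with h6 | h6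
    · refine big_of h2 hw _ _ ((5 * (m + n) + 1) / 2) (m + n - 1) (pcP h h2 hl hl2 hM m n r)
        (v_fac (h2 := h2) m n) ?_
      omega
    rcases Nat.eq_or_lt_of_le h6 with h5 | h5
    · refine big_of h2 hw _ _ ((5 * (m + n) + 1) / 2) 3 (pcP h h2 hl hl2 hM m n r) ?_ (by omega)
      have h7 : O.valuation 2 ^ 3 = O.valuation (((m + n).factorial : ℕ) : ℂ) := by
        rw [h5]
        exact v5.symm
      rw [h7]
      obtain ⟨c, hc'⟩ := Nat.factorial_mul_factorial_dvd_factorial_add m n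
      rw [hc']
      push_cast
      rw [map_mul]
      have hc1 : O.valuation (c : ℂ) ≤ 1 := by
        have := v_int O (c : ℤ)
        rwa [Int.cast_natCast] at this
      exact mul_le_of_le_one_right' hc1
    have hm5 : m ≤ 4 := by omega
    have hn5 : n ≤ 4 := by omega
    have hz : ∀ x : ℂ, x = 0 → ∀ y : ℂ, O.valuation x ≤ O.valuation y := by
      intro x hx y
      rw [hx, map_zero]
      exact zero_le
    interval_cases m <;> interval_cases n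
    · omega
    · refine hz _ ?_ _
      have : r = 0 := by omega
      rw [this]
      exact (pc_101 h hl hl2 hM).2
    · rcases Nat.eq_zero_or_pos r with h0 | h0
      · refine hz _ ?_ _
        rw [h0]
        exact (pc_202 h hl hl2 hM).2
      · have h1 : r = 1 := by omega
        have h7 := sym 2 0 1 (by omega)
        have h8 : 2 + 0 - 1 = 1 := rfl
        rw [h8] at h7
        rw [h1, h7]
        refine big_of h2 hw _ _ (9 + r0) 1 p201 ?_ (by omega)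
        rw [Nat.cast_mul, map_mul, v0, v2, one_mul, pow_one]
    · have h7 := sym 3 0 (3 - r) (by omega)
      have h8 : 3 + 0 - (3 - r) = r := by omega
      rw [h8] at h7
      rw [h7]
      refine big_of h2 hw _ _ (9 + r0) 1 (p30 _) ?_ (by omega)
      rw [Nat.cast_mul, map_mul, v0, v3, one_mul, pow_one]
    · have h7 := sym 4 0 (4 - r) (by omega)
      have h8 : 4 + 0 - (4 - r) = r := by omega
      rw [h8] at h7
      rw [h7]
      refine big_of h2 hw _ _ (11 + r0) 3 (p40 _) ?_ (by omega)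
      rw [Nat.cast_mul, map_mul, v0, v4, one_mul]
    · refine hz _ ?_ _
      have : r = 1 := by omega
      rw [this]
      exact (pc_101 h hl hl2 hM).1
    · refine hz _ ?_ _
      rcases Nat.eq_zero_or_pos r with h0 | h0
      · rw [h0]
        exact (pc_110 h hl hl2 hM).1
      · have : r = 2 := by omega
        rw [this]
        exact (pc_110 h hl hl2 hM).2
    · have h7 := sym 2 1 (3 - r) (by omega)
      have h8 : 2 + 1 - (3 - r) = r := by omega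
      rw [h8] at h7
      rw [h7]
      refine big_of h2 hw _ _ (9 + r0) 1 (p21 _) ?_ (by omega)
      rw [Nat.cast_mul, map_mul, v1, v2, one_mul, pow_one]
    · have h7 := sym 3 1 (4 - r) (by omega)
      have h8 : 3 + 1 - (4 - r) = r := by omega
      rw [h8] at h7
      rw [h7]
      refine big_of h2 hw _ _ (9 + r0) 1 (p31 _) ?_ (by omega)
      rw [Nat.cast_mul, map_mul, v1, v3, one_mul, pow_one]
    · omega
    · refine Or.elim (Nat.lt_or_ge r 2) (fun h1 => ?_) (fun h1 => ?_)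
      · have : r = 1 := by omega
        rw [this]
        refine big_of h2 hw _ _ (9 + r0) 1 p201 ?_ (by omega)
        rw [Nat.cast_mul, map_mul, v0, v2, mul_one, pow_one]
      · refine hz _ ?_ _
        have : r = 2 := by omega
        rw [this]
        exact (pc_202 h hl hl2 hM).1
    · refine big_of h2 hw _ _ (9 + r0) 1 (p21 _) ?_ (by omega)
      rw [Nat.cast_mul, map_mul, v1, v2, mul_one, pow_one]
    · refine big_of h2 hw _ _ (10 + r0) 2 (p22 _) ?_ (by omega)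
      rw [Nat.cast_mul, map_mul, v2, pow_two]
    · omega
    · omega
    · refine big_of h2 hw _ _ (9 + r0) 1 (p30 _) ?_ (by omega)
      rw [Nat.cast_mul, map_mul, v0, v3, mul_one, pow_one]
    · refine big_of h2 hw _ _ (9 + r0) 1 (p31 _) ?_ (by omega)
      rw [Nat.cast_mul, map_mul, v1, v3, mul_one, pow_one]
    · omega
    · omega
    · omega
    · refine big_of h2 hw _ _ (11 + r0) 3 (p40 _) ?_ (by omega)
      rw [Nat.cast_mul, map_mul, v0, v4, mul_one]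
    · omega
    · omega
    · omega
    · omega

end Pool.Agent.Lib.MP_06b9d2_tl2
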