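import Pool.Agent.Lib.MP_06b9d2_tl2.CoreS
import Pool.Agent.Lib.MP_06b9d2_tl2.Mat2
import Pool.Agent.Lib.MP_06b9d2_tl2.PcMat
import Pool.Agent.Lib.MP_06b9d2_tl2.Dat
import Pool.Agent.Lib.MP_06b9d2_tl2.Cl
import Pool.Agent.Lib.MP_06b9d2_tls.Lv2

/-!
Module TL2-TwoL. The matrix of `T_l` on the level two forms has eigenspaces of dimension at most two. (Model: `MP_06b9d2_tls/TwoL.lean`.)

`exists_O2`: copy `exists_O` of `MP_06b9d2_ssp/POa.lean` with `2` for `3`. `core_ex`, `qd_ex`: `A, Y`, `a, k`; `a' = A + 3 Y`, `g' = 8 (Y (A + Y))`: `V 2 a' = A`, `V 2 g' = Y ^ 2` (`cubA`, `cubG`), so `Lv2 a' g'` from `h4`, `h6` (`V_inj`). `V 2 (mo2 a' g' e N s) = moX A Y e N s`. `matD_ex` gives `M` for `a = e`.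
`TT l l (2 N + e) f = l • Tl l (4 N + 2 e) f` (`(l * l) ^ (2 N + e) = l * (l ^ (4 N + 2 e) / l)`). `TT_V2`, `V_inj`: `Tl l (4 N + 2 e) (mo2 a' g' e N s) = ∑ j, (M N j s / l) • mo2 a' g' e N j`. `Mx j s = M N j s / l`. Symmetry: `hM.sym`. `Two`: for `j, s ≤ N`: `M N j s = MG2 (pc M) N j s` (`pc_mat`) and `MG2 = MQ` (definitions),
so `EgG Mx N lam x ↔ EgG (MQ (pc M) N) N (l lam) x`; `datQ`, `twoQ`. `Lc l a k 3 1 = 2 ^ r0 u`: `cl3`, `cl5`, `cl7`, `cl15` with `kap_l` (needs `matD_ex` for `a = 1`).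
-/

namespace Pool.Agent.Lib.MP_06b9d2_tl2

open PowerSeries Pool.Agent.L1
open Pool.Agent.Lib.MP_06b9d2_tls (V U TT br In PC Ig tt EgG Two Tl)

open Pool.Agent.Lib.MP_06b9d2_tls (Lv2 mo2 V_inj V_sum V_smul V_mul V_pow V_sub V_ofNat V_add MQ twoQ)

private theorem two_scale2 {Mx My : ℕ → ℕ → ℂ} {N : ℕ} (r : ℂ) (hr : r ≠ 0)
    (h : ∀ j ≤ N, ∀ s ≤ N, Mx j s = r * My j s) (hy : Two My N) : Two Mx N := by
  intro lam
  obtain ⟨L, hL⟩ := hy (lam / r)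
  refine ⟨L, fun x hx hs h0 => hL x ?_ hs h0⟩
  intro j hj
  have h1 := hx j hj
  have h2 : ∑ s ∈ Finset.range (N + 1), Mx j s * x s =
      r * ∑ s ∈ Finset.range (N + 1), My j s * x s := by
    rw [Finset.mul_sum]
    refine Finset.sum_congr rfl fun s hs => ?_
    rw [h j hj s (Nat.lt_succ_iff.1 (Finset.mem_range.1 hs))]
    ring
  rw [h2] at h1
  apply mul_left_cancel₀ hr
  rw [h1, ← mul_assoc, mul_div_cancel₀ _ hr]

theorem exists_O2 : ∃ O : ValuationSubring ℂ, O.valuation 2 < 1 := by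
  have h3 : (2 : ℂ) ∈ (Int.castRingHom ℂ).range := ⟨2, by simp⟩
  have hI : Ideal.span {(⟨2, h3⟩ : (Int.castRingHom ℂ).range)} ≠ ⊤ := by
    rw [Ne, Ideal.eq_top_iff_one, Ideal.mem_span_singleton']
    rintro ⟨⟨_, n, rfl⟩, ha⟩
    have h1 := congrArg Subtype.val ha
    have h2 : (n : ℂ) * 2 = 1 := h1
    have h4 : n * 2 = 1 := by exact_mod_cast h2
    omega
  obtain ⟨B, _, hB⟩ := Ideal.image_subset_nonunits_valuationSubring _ hI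
  refine ⟨B, ?_⟩
  rw [← ValuationSubring.mem_nonunits_iff]
  exact hB ⟨⟨2, h3⟩, Ideal.mem_span_singleton_self _, rfl⟩

private theorem TT_Tl2 {l : ℕ} (hl : l ≠ 0) (v : ℕ) (f : ℂ⟦X⟧) :
    TT l l v f = (l : ℂ) • Tl l (2 * v) f := by
  have h2 : (l : ℂ) ≠ 0 := by exact_mod_cast hl
  have h1 : ((l : ℂ) * l) ^ v = (l : ℂ) ^ (2 * v) := by
    rw [pow_mul, sq]
  rw [TT, Tl, h1, smul_add, smul_smul, mul_div_cancel₀ _ h2]

private theorem V_mo2 {A Y : ℂ⟦X⟧} (h : Core A Y) (e N s : ℕ) :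
    V 2 (mo2 (A + 3 * Y) (8 * (Y * (A + Y))) e N s) = moX A Y e N s := by
  have h2 : (2 : ℕ) ≠ 0 := two_ne_zero
  unfold mo2 moX
  rw [V_mul h2, V_mul h2, V_pow h2, V_pow h2, V_pow h2, V_sub h2, V_pow h2, cubA h, cubG h]

theorem two_l2 (l : ℕ) (hl : l.Prime) (h8 : l % 8 = 3 ∨ l % 8 = 5 ∨ l % 16 = 7 ∨ l % 32 = 15) :
    ∃ a g : ℂ⟦X⟧, Lv2 a g ∧ ∀ e N : ℕ, e ≤ 1 → ∃ Mx : ℕ → ℕ → ℂ,
      (∀ s ≤ N, Tl l (4 * N + 2 * e) (mo2 a g e N s) = ∑ j ∈ Finset.range (N + 1), Mx j s • mo2 a g e N j) ∧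
      (∀ j s, j ≤ N → s ≤ N → Mx (N - j) (N - s) = Mx j s) ∧ Two Mx N := by
  obtain ⟨A, Y, h⟩ := core_ex
  obtain ⟨a, k, q⟩ := qd_ex h
  obtain ⟨O, hO⟩ := exists_O2
  have hl0 : (l : ℂ) ≠ 0 := by exact_mod_cast hl.ne_zero
  have h20 : (2 : ℕ) ≠ 0 := two_ne_zero
  have hl2 : l ≠ 2 := by
    rintro rfl
    omega
  obtain ⟨M1, hM1⟩ := matD_ex h hl hl2 1 le_rfl
  have hk : coeff l k = 1 + (l : ℤ) := kap_l h q hl hl2 hM1
  obtain ⟨r0, u, hr0, hc, hu⟩ : ∃ (r0 : ℕ) (u : ℤ), r0 ≤ 2 ∧ Lc l a k 3 1 = 2 ^ r0 * u ∧ ¬ 2 ∣ u := by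
    rcases h8 with h3 | h5 | h7 | h15
    · obtain ⟨u, hu1, hu2⟩ := cl3 q l hk h3
      exact ⟨0, u, by norm_num, hu1, hu2⟩
    · obtain ⟨u, hu1, hu2⟩ := cl5 q l hk h5
      exact ⟨2, u, by norm_num, hu1, hu2⟩
    · obtain ⟨u, hu1, hu2⟩ := cl7 q l hk h7
      exact ⟨1, u, by norm_num, hu1, hu2⟩
    · obtain ⟨u, hu1, hu2⟩ := cl15 q l hk h15
      exact ⟨2, u, by norm_num, hu1, hu2⟩
  refine ⟨A + 3 * Y, 8 * (Y * (A + Y)), ⟨?_, ?_, ?_⟩, ?_⟩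
  · obtain ⟨α, κ, hA, hY, hα0, hκ0, _⟩ := h.int
    have e1 : ∀ f : ℤ⟦X⟧, constantCoeff f = 0 →
        constantCoeff (PowerSeries.map (Int.castRingHom ℂ) f) = 0 := by
      intro f hf
      rw [← coeff_zero_eq_constantCoeff_apply, coeff_map, coeff_zero_eq_constantCoeff_apply, hf, map_zero]
    rw [hA, hY]
    simp only [map_add, map_mul, map_one, e1 α hα0, e1 κ hκ0, mul_zero, add_zero]
  · apply V_inj h20
    rw [h.h4, V_add h20, V_pow h20, cubA h, V_mul h20 3, cubG h, V_ofNat h20 3]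
  · apply V_inj h20
    rw [h.h6, V_mul h20, V_sub h20, V_pow h20, cubA h, V_mul h20 9, cubG h, V_ofNat h20 9]
  intro e N he
  obtain ⟨M, hM⟩ := matD_ex h hl hl2 e he
  refine ⟨fun j s => M N j s / l, ?_, ?_, ?_⟩
  · intro s hs
    have h1 : V 2 (TT l l (2 * N + e) (mo2 (A + 3 * Y) (8 * (Y * (A + Y))) e N s)) =
        V 2 (∑ j ∈ Finset.range (N + 1), M N j s • mo2 (A + 3 * Y) (8 * (Y * (A + Y))) e N j) := by
      rw [← TT_V2 hl hl2, V_mo2 h, hM.eq N s hs, V_sum h20]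
      refine Finset.sum_congr rfl fun j _ => ?_
      rw [V_smul h20, V_mo2 h]
    have h2 := V_inj h20 h1
    rw [TT_Tl2 hl.ne_zero, show 2 * (2 * N + e) = 4 * N + 2 * e by ring] at h2
    have h3 := congrArg (fun f => (l : ℂ)⁻¹ • f) h2
    simp only [smul_smul, inv_mul_cancel₀ hl0, one_smul, Finset.smul_sum] at h3
    rw [h3]
    refine Finset.sum_congr rfl fun j _ => ?_
    simp only [div_eq_inv_mul]
  · intro j s hj hs
    simp only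
    rw [hM.sym N j s hj hs]
  · have hT : Two (MQ (pc M) N) N :=
      twoQ O N 2 two_ne_zero (pc M) (datQ h hO q hl hl2 he hM r0 hr0 u hc hu)
    refine two_scale2 (l : ℂ)⁻¹ (inv_ne_zero hl0) ?_ hT
    intro j hj s hs
    rw [pc_mat h hl hl2 hM N j s hj hs, div_eq_inv_mul]
    rfl

end Pool.Agent.Lib.MP_06b9d2_tl2
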