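import Pool.Agent.Lib.MP_06b9d2_tl2.TwoL
import Pool.Agent.Lib.MP_06b9d2_tls.PrE2
import Pool.Agent.Lib.MP_06b9d2_tls.PrZ2

/-!
The eigenspaces of `T_(l^i)`, `i ≥ 1`, have dimension at most one for the primes `l ≡ 3, 5` modulo `8`,
`7` modulo `16`, `15` modulo `32`.
-/

namespace Pool.Agent.Lib.MP_06b9d2_tl2

open PowerSeries Pool.Agent.L1
open Pool.Agent.Lib.MP_06b9d2_tls (V U TT br In PC Ig tt EgG Two Tl)

open Pool.Agent.Lib.MP_06b9d2_tls (Lv2 mo2 V_inj V_sum V_smul V_mul V_pow V_sub V_ofNat V_add MQ twoQ HypM2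
  PosM2 MQ_near KerOne kerOne_of_hyp2 kerOne_pow2)

private theorem TT_Tl2 {l : ℕ} (hl : l ≠ 0) (v : ℕ) (f : ℂ⟦X⟧) :
    TT l l v f = (l : ℂ) • Tl l (2 * v) f := by
  have h2 : (l : ℂ) ≠ 0 := by exact_mod_cast hl
  have h1 : ((l : ℂ) * l) ^ v = (l : ℂ) ^ (2 * v) := by
    rw [pow_mul, sq]
  rw [TT, Tl, h1, smul_add, smul_smul, mul_div_cancel₀ _ h2]

private theorem V_mo2 {A Y : ℂ⟦X⟧} (h : Core A Y) (e N s : ℕ) :
    V 2 (mo2 (A + 3 * Y) (8 * (Y * (A + Y))) e N s) = moX A Y e N s := by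
  have h2 : (2 : ℕ) ≠ 0 := two_ne_zero
  unfold mo2 moX
  rw [V_mul h2, V_mul h2, V_pow h2, V_pow h2, V_pow h2, V_sub h2, V_pow h2, cubA h, cubG h]

theorem hypM2_l (l : ℕ) (hl : l.Prime) (h8 : l % 8 = 3 ∨ l % 8 = 5 ∨ l % 16 = 7 ∨ l % 32 = 15) :
    HypM2 l := by
  obtain ⟨A, Y, h⟩ := core_ex
  obtain ⟨a, k, q⟩ := qd_ex h
  obtain ⟨O, hO⟩ := exists_O2
  have hl0 : (l : ℂ) ≠ 0 := by exact_mod_cast hl.ne_zero
  have h20 : (2 : ℕ) ≠ 0 := two_ne_zero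
  have hl2 : l ≠ 2 := by
    rintro rfl
    omega
  obtain ⟨M1, hM1⟩ := matD_ex h hl hl2 1 le_rfl
  have hk : coeff l k = 1 + (l : ℤ) := kap_l h q hl hl2 hM1
  obtain ⟨r0, u, hr0, hc, hu⟩ : ∃ (r0 : ℕ) (u : ℤ), r0 ≤ 2 ∧ Lc l a k 3 1 = 2 ^ r0 * u ∧ ¬ 2 ∣ u := by
    rcases h8 with h3 | h5 | h7 | h15
    · obtain ⟨u, hu1, hu2⟩ := cl3 q l hk h3
      exact ⟨0, u, by norm_num, hu1, hu2⟩
    · obtain ⟨u, hu1, hu2⟩ := cl5 q l hk h5
      exact ⟨2, u, by norm_num, hu1, hu2⟩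
    · obtain ⟨u, hu1, hu2⟩ := cl7 q l hk h7
      exact ⟨1, u, by norm_num, hu1, hu2⟩
    · obtain ⟨u, hu1, hu2⟩ := cl15 q l hk h15
      exact ⟨2, u, by norm_num, hu1, hu2⟩
  have hlv : O.valuation (l : ℂ) = 1 := by
    have := Pool.Agent.Lib.MP_06b9d2_p2.val_odd hO (l : ℤ) (by omega)
    simpa using this
  refine ⟨O, A + 3 * Y, 8 * (Y * (A + Y)), hO, ⟨?_, ?_, ?_⟩, ?_⟩
  · obtain ⟨α, κ, hA, hY, hα0, hκ0, _⟩ := h.int
    have e1 : ∀ f : ℤ⟦X⟧, constantCoeff f = 0 →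
        constantCoeff (PowerSeries.map (Int.castRingHom ℂ) f) = 0 := by
      intro f hf
      rw [← coeff_zero_eq_constantCoeff_apply, coeff_map, coeff_zero_eq_constantCoeff_apply, hf, map_zero]
    rw [hA, hY]
    simp only [map_add, map_mul, map_one, e1 α hα0, e1 κ hκ0, mul_zero, add_zero]
  · apply V_inj h20
    rw [h.h4, V_add h20, V_pow h20, cubA h, V_mul h20 3, cubG h, V_ofNat h20 3]
  · apply V_inj h20
    rw [h.h6, V_mul h20, V_sub h20, V_pow h20, cubA h, V_mul h20 9, cubG h, V_ofNat h20 9]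
  intro e N he
  obtain ⟨M, hM⟩ := matD_ex h hl hl2 e he
  refine ⟨fun j s => M N j s / l, ?_, ?_⟩
  · intro s hs
    have h1 : V 2 (TT l l (2 * N + e) (mo2 (A + 3 * Y) (8 * (Y * (A + Y))) e N s)) =
        V 2 (∑ j ∈ Finset.range (N + 1), M N j s • mo2 (A + 3 * Y) (8 * (Y * (A + Y))) e N j) := by
      rw [← TT_V2 hl hl2, V_mo2 h, hM.eq N s hs, V_sum h20]
      refine Finset.sum_congr rfl fun j _ => ?_
      rw [V_smul h20, V_mo2 h]
    have h2 := V_inj h20 h1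
    rw [TT_Tl2 hl.ne_zero, show 2 * (2 * N + e) = 4 * N + 2 * e by ring] at h2
    have h3 := congrArg (fun f => (l : ℂ)⁻¹ • f) h2
    simp only [smul_smul, inv_mul_cancel₀ hl0, one_smul, Finset.smul_sum] at h3
    rw [h3]
    refine Finset.sum_congr rfl fun j _ => ?_
    simp only [div_eq_inv_mul]
  · have hD := datQ h hO q hl hl2 he hM r0 hr0 u hc hu
    have hw := valW h hO q hl hl2 he hM r0 hr0 u hc hu
    obtain ⟨d0, hd0⟩ : ∃ d0 : ℂ, d0 = pc M 0 0 0 + N * pc M 1 0 0 + (N.choose 2 : ℂ) * pc M 2 0 0 := ⟨_, rfl⟩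
    have hv : ∀ j ≤ N, ∀ s ≤ N, O.valuation (M N j s / l - if j = s then d0 / l else 0) ≤
        O.valuation 2 ^ 6 := by
      intro j hj s hs
      have h4 : M N j s / l - (if j = s then d0 / l else 0) =
          (MQ (pc M) N j s - if j = s then d0 else 0) / l := by
        have h5 : M N j s = MQ (pc M) N j s := by
          rw [pc_mat h hl hl2 hM N j s hj hs]
          rfl
        rw [h5]
        by_cases hjs : j = s
        · rw [if_pos hjs, if_pos hjs, sub_div]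
        · rw [if_neg hjs, if_neg hjs, sub_zero, sub_zero]
      rw [h4, map_div₀, hlv, div_one, hd0]
      refine (MQ_near hD N j s hj hs).trans ?_
      rw [hw, map_pow]
      exact pow_le_pow_right_of_le_one' hO.le (by omega)
    refine ⟨d0 / l, hv, ?_⟩
    have h5 := hv 0 (Nat.zero_le _) 0 (Nat.zero_le _)
    rw [if_pos rfl, mat_00 h hl hl2 hM] at h5
    have h6 : d0 / l - (1 + (l : ℂ) ^ (4 * N + 2 * e) / l) =
        -(((l : ℂ) + (l : ℂ) ^ (2 * (2 * N + e))) / l - d0 / l) := by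
      rw [show 2 * (2 * N + e) = 4 * N + 2 * e by ring]
      field_simp
      ring
    rw [h6, Valuation.map_neg]
    exact h5

theorem kerOne_ppow2 (l : ℕ) (hl : l.Prime) (h8 : l % 8 = 3 ∨ l % 8 = 5 ∨ l % 16 = 7 ∨ l % 32 = 15)
    (i : ℕ) (hi : 1 ≤ i) : KerOne (l ^ i) := by
  refine kerOne_pow2 hl (by omega) (by omega) (kerOne_of_hyp2 hl ?_) (hypM2_l l hl h8) i hi
  exact two_l2 l hl h8

end Pool.Agent.Lib.MP_06b9d2_tl2
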