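import Pool.Agent.Lib.MP_06b9d2_tl2.Defs
import Pool.Agent.Lib.MP_06b9d2_tls.Vb

/-!
Module TL2-Ayi. Independence of the monomials. (Model: `MP_06b9d2_tls/Ayi.lean`.)

`AY_ind`: the least `r` with `f r ≠ 0`: the coefficient of `x ^ r` of the sum is `8 ^ r f_r` (`A = 1 + ..`, `Y = 8 x + ..`, `coeff 1 κ = 1`).
`TT_V2`: coefficient `r` (`TT_coeff`): `U l (V 2 f)`: `2 ∣ l r ↔ 2 ∣ r` (`l` prime, `l ≠ 2`), `(l r) / 2 = l (r / 2)`; `V l (V 2 f) = V 2 (V l f)` (`V_V`). (Model: `TT_V3` in `MP_06b9d2_tls/Vb.lean`.)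
-/

namespace Pool.Agent.Lib.MP_06b9d2_tl2

open PowerSeries Pool.Agent.L1
open Pool.Agent.Lib.MP_06b9d2_tls (V U TT br In PC Ig tt EgG Two Tl)

theorem AY_ind {A Y : ℂ⟦X⟧} (h : Core A Y) (k : ℕ) (f : ℕ → ℂ)
    (hf : ∑ r ∈ Finset.range (k + 1), f r • (A ^ (k - r) * Y ^ r) = 0) : ∀ r ≤ k, f r = 0 := by
  obtain ⟨α, κ, hA, hY, hα, hκ, hκ1⟩ := h.int
  have hA0 : constantCoeff A = 1 := by
    rw [hA, map_add, map_one, map_mul, ← coeff_zero_eq_constantCoeff_apply (PowerSeries.map _ α), coeff_map,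
      coeff_zero_eq_constantCoeff_apply, hα, map_zero, mul_zero, add_zero]
  have hY0 : constantCoeff Y = 0 := by
    rw [hY, map_mul, ← coeff_zero_eq_constantCoeff_apply (PowerSeries.map _ κ), coeff_map,
      coeff_zero_eq_constantCoeff_apply, hκ, map_zero, mul_zero]
  have h8 : (8 : ℂ⟦X⟧) = C (8 : ℂ) := by rw [map_ofNat]
  have hY1 : coeff 1 Y = 8 := by
    rw [hY, h8, coeff_C_mul, coeff_map, hκ1, map_one, mul_one]
  obtain ⟨Z, hZ⟩ := X_dvd_iff.2 hY0
  have hZ0 : constantCoeff Z = 8 := by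
    rw [hZ, show (1 : ℕ) = 0 + 1 from rfl, coeff_succ_X_mul, coeff_zero_eq_constantCoeff_apply] at hY1
    exact hY1
  intro r
  induction r using Nat.strong_induction_on with
  | _ r ih =>
    intro hr
    have h1 := congrArg (coeff r) hf
    rw [map_sum, map_zero, Finset.sum_eq_single r] at h1
    · rw [PowerSeries.coeff_smul, hZ, mul_pow, mul_left_comm, coeff_X_pow_mul', if_pos le_rfl, Nat.sub_self,
        coeff_zero_eq_constantCoeff_apply, map_mul, map_pow, map_pow, hA0, hZ0, one_pow, one_mul, smul_eq_mul] at h1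
      rcases mul_eq_zero.1 h1 with h2 | h2
      · exact h2
      · exact absurd h2 (pow_ne_zero _ (by norm_num))
    · intro s hs hsr
      rcases lt_or_gt_of_ne hsr with h2 | h2
      · rw [ih s h2 (by omega), zero_smul, map_zero]
      · rw [PowerSeries.coeff_smul, hZ, mul_pow, mul_left_comm, coeff_X_pow_mul', if_neg (by omega), smul_zero]
    · intro hn
      exact absurd (Finset.mem_range.2 (by omega)) hn

theorem TT_V2 {l : ℕ} (hl : l.Prime) (h2 : l ≠ 2) (e : ℂ) (w : ℕ) (f : ℂ⟦X⟧) :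
    TT l e w (V 2 f) = V 2 (TT l e w f) := by
  have hU : U l (V 2 f) = V 2 (U l f) := by
    ext m
    unfold U
    rw [PowerSeries.coeff_mk, Pool.Agent.Lib.MP_06b9d2_tls.V_coeff, Pool.Agent.Lib.MP_06b9d2_tls.V_coeff,
      PowerSeries.coeff_mk]
    have hc : Nat.Coprime 2 l := (Nat.coprime_primes Nat.prime_two hl).2 (Ne.symm h2)
    by_cases h : 2 ∣ m
    · rw [if_pos (Dvd.dvd.mul_left h l), if_pos h, Nat.mul_div_assoc l h]
    · rw [if_neg h, if_neg]
      intro h'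
      exact h (hc.dvd_of_dvd_mul_left h')
  unfold TT
  rw [hU, Pool.Agent.Lib.MP_06b9d2_tls.V_V hl.ne_zero (by norm_num), mul_comm l 2,
    ← Pool.Agent.Lib.MP_06b9d2_tls.V_V (by norm_num) hl.ne_zero,
    Pool.Agent.Lib.MP_06b9d2_tls.V_add (by norm_num), Pool.Agent.Lib.MP_06b9d2_tls.V_smul (by norm_num),
    Pool.Agent.Lib.MP_06b9d2_tls.V_smul (by norm_num)]

end Pool.Agent.Lib.MP_06b9d2_tl2
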