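import Pool.Agent.Lib.MP_06b9d2_tls.DefsC

/-!
MP_06b9d2_nt, board TL2: simple spectrum of `T_l` by a 2-adic argument. Definitions.

`A`, `Y` are power series in `x = exp (π i τ)`: the expansions of the modular forms of weight two for `Γ(2)`
`a = (θ₃ ^ 4 + θ₄ ^ 4) / 2 = 1 + 24 ∑ (∑_{d ∣ n, d odd} d) x ^ (2 n)` and `Y = θ₂ ^ 4 / 2 = 8 ∑_{n odd} σ(n) x ^ n`.
The branches (weight two) are `br l l i` and `l` times the Hecke operator in weight `2 w` is `TT l l w` of board TLS.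
-/

namespace Pool.Agent.Lib.MP_06b9d2_tl2

open PowerSeries Pool.Agent.L1
open Pool.Agent.Lib.MP_06b9d2_tls (V U TT br In PC Ig tt EgG Two Tl)

/-- the value of `a` at the cusps `∞`, `S`, `T S` if `a = F`, `Y = G` at `∞` -/
noncomputable def cA (F G : ℂ⟦X⟧) : Fin 3 → ℂ⟦X⟧ :=
  ![F, (-(1 / 2) : ℂ) • (F + 3 * G), (-(1 / 2) : ℂ) • (F + 3 * G)]

/-- the same for `Y` -/
noncomputable def cY (F G : ℂ⟦X⟧) : Fin 3 → ℂ⟦X⟧ :=
  ![G, (-(1 / 2) : ℂ) • (F - G), (1 / 2 : ℂ) • (F - G)]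

/-- the properties of the expansions of `a` and `Y` -/
structure Core (A Y : ℂ⟦X⟧) : Prop where
  int : ∃ α κ : ℤ⟦X⟧, A = 1 + 24 * PowerSeries.map (Int.castRingHom ℂ) α ∧
    Y = 8 * PowerSeries.map (Int.castRingHom ℂ) κ ∧ constantCoeff α = 0 ∧ constantCoeff κ = 0 ∧
    coeff 1 κ = 1
  grA : ∀ n, n % 2 = 1 → coeff n A = 0
  grY : ∀ n, n % 2 = 0 → coeff n Y = 0
  h4 : V 2 (e4 ℂ) = A ^ 2 + 3 * Y ^ 2
  h6 : V 2 (e6 ℂ) = A * (A ^ 2 - 9 * Y ^ 2)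
  b1 : A = V 2 (A + 3 * Y)
  b2 : Y ^ 2 = 8 * V 2 (Y * (A + Y))
  hecke : ∀ l : ℕ, l.Prime → l ≠ 2 → ∀ (w : ℕ) (P : MvPolynomial (Fin 2) ℂ), P.IsHomogeneous w →
    ∃ P' : MvPolynomial (Fin 2) ℂ, P'.IsHomogeneous w ∧
      ∑ i : Option (Fin l), MvPolynomial.aeval ![cA (br l l i A) (br l l i Y),
          cY (br l l i A) (br l l i Y)] P =
        MvPolynomial.aeval ![cA (V l A) (V l Y), cY (V l A) (V l Y)] P'

/-! ### the 2-adic data -/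

/-- the matrix of `l T_l`: `κ m n r` is the coefficient of `B ^ (m + n - r) G ^ r` in the power sum
`∑ x_i ^ a u_i ^ m v_i ^ n`, `u_i = β_i - B`, `v_i = γ_i - G` -/
noncomputable def MG2 (κ : ℕ → ℕ → ℕ → ℂ) (N j s : ℕ) : ℂ :=
  ∑ m ∈ Finset.range (N + 1), ∑ n ∈ Finset.range (N + 1),
    if s ≤ j + n then ((N - s).choose m : ℂ) * (s.choose n : ℂ) * κ m n (j + n - s) else 0

/-! ### the formal part -/

/-- the square root of `2` -/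
noncomputable def pr : ℂ := ((Real.sqrt 2 : ℝ) : ℂ)

/-- `A = 1 + 8 (..)`, `Y = 8 κ` with `κ` primitive, no constant terms in `A - 1`, `Y` -/
structure Bs (O : ValuationSubring ℂ) (A Y : ℂ⟦X⟧) : Prop where
  a0 : constantCoeff A = 1
  y0 : constantCoeff Y = 0
  aI : In O (A - 1) 8
  yI : In O Y 8
  yP : ∃ n, O.valuation (coeff n Y) = O.valuation 8

/-- evaluation of polynomials in two variables at the three cusps -/
noncomputable def ev (F G : Fin 3 → ℂ⟦X⟧) : MvPolynomial (Fin 2) ℂ →ₐ[ℂ] (Fin 3 → ℂ⟦X⟧) :=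
  MvPolynomial.aeval ![F, G]

/-- the values at the three cusps of the homogeneous polynomials of degree `m` in `A`, `Y` -/
noncomputable def HH (A Y : ℂ⟦X⟧) (m : ℕ) : Submodule ℂ (Fin 3 → ℂ⟦X⟧) :=
  (MvPolynomial.homogeneousSubmodule (Fin 2) ℂ m).map (ev (cA A Y) (cY A Y)).toLinearMap

/-- `u_i = β_i - B` -/
noncomputable def ub (l : ℕ) (A Y : ℂ⟦X⟧) (i : Option (Fin l)) : ℂ⟦X⟧ :=
  br l l i A ^ 2 - br l l i Y ^ 2 - (V l A ^ 2 - V l Y ^ 2)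

/-- `v_i = γ_i - G` -/
noncomputable def vb (l : ℕ) (Y : ℂ⟦X⟧) (i : Option (Fin l)) : ℂ⟦X⟧ := br l l i Y ^ 2 - V l Y ^ 2

/-- the form `A ^ a B ^ (N - s) G ^ s`, `B = A ^ 2 - Y ^ 2`, `G = Y ^ 2` -/
noncomputable def moX (A Y : ℂ⟦X⟧) (a N s : ℕ) : ℂ⟦X⟧ := A ^ a * (A ^ 2 - Y ^ 2) ^ (N - s) * (Y ^ 2) ^ s

/-- `M N j s` is the matrix of `TT l l (2 N + a)` on the forms `moX A Y a N s`, `a = 0, 1` -/
structure MatD (l : ℕ) (A Y : ℂ⟦X⟧) (a : ℕ) (M : ℕ → ℕ → ℕ → ℂ) : Prop where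
  eq : ∀ N s, s ≤ N → TT l l (2 * N + a) (moX A Y a N s) =
    ∑ j ∈ Finset.range (N + 1), M N j s • moX A Y a N j
  sym : ∀ N j s, j ≤ N → s ≤ N → M N (N - j) (N - s) = M N j s
  out : ∀ N j s, N < j → M N j s = 0

/-- the coefficients of `∑ x_i ^ a u_i ^ m v_i ^ n` (`a` is fixed in `M`) -/
noncomputable def pc (M : ℕ → ℕ → ℕ → ℂ) (m n r : ℕ) : ℂ :=
  ∑ i ∈ Finset.range (m + 1), ∑ j ∈ Finset.range (n + 1),
    (m.choose i : ℂ) * (n.choose j : ℂ) * (-1) ^ (m - i) * (-1) ^ (n - j) *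
      (if n ≤ r + j then M (i + j) (r + j - n) j else 0)

/-- `f (x ^ 2)` -/
noncomputable def E (f : ℤ⟦X⟧) : ℤ⟦X⟧ := PowerSeries.expand 2 two_ne_zero f

/-- the series over `ℤ`: `a = A`, `k = Y / 8` -/
structure Qd (A Y : ℂ⟦X⟧) (a k : ℤ⟦X⟧) : Prop where
  hA : A = PowerSeries.map (Int.castRingHom ℂ) a
  hY : Y = 8 * PowerSeries.map (Int.castRingHom ℂ) k
  a24 : ∃ α : ℤ⟦X⟧, a = 1 + 24 * α ∧ constantCoeff α = 0
  gra : ∀ n, n % 2 = 1 → coeff n a = 0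
  grk : ∀ n, n % 2 = 0 → coeff n k = 0
  k1 : coeff 1 k = 1
  r1 : a = E (a + 24 * k)
  r2 : k ^ 2 = E (k * (a + 8 * k))

/-- the coefficient of `x ^ l` in `κ ^ i A ^ j` -/
noncomputable def Lc (l : ℕ) (a k : ℤ⟦X⟧) (i j : ℕ) : ℤ := coeff l (k ^ i * a ^ j)

/-- the form `moX A Y e N s` as a series in `q = x ^ 2`: `(A + 3 Y) ^ e ((A - Y) ^ 2) ^ (N - s) (8 Y (A + Y)) ^ s` -/
noncomputable def fs (a k : ℤ⟦X⟧) (e N s : ℕ) : ℤ⟦X⟧ :=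
  (a + 24 * k) ^ e * ((a - 8 * k) ^ 2) ^ (N - s) * (64 * (k * (a + 8 * k))) ^ s

end Pool.Agent.Lib.MP_06b9d2_tl2
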