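import Pool.Agent.Lib.MP_06b9d2_tl2.Qd

/-!
Module TL2-Dg. The logarithmic derivative of `κ` modulo `8`.

`D f = X * f'` (`coeff n (D f) = n coeff n f`; use `PowerSeries.derivative`/`derivativeFun` or define `D` by `mk`), a derivation of `ℤ⟦X⟧` with `D (E f) = 2 E (D f)`. `k = X u`, `coeff 0 u = 1` (`grk`, `k1`), so `u` is a unit and `D k = k (1 + γ)`, `γ = X u' u⁻¹`, `coeff 0 γ = 0`.
Apply `D` to `r2` and cancel `2`: `k D k = E (D k (a + 8 k) + k (D a + 8 D k)) = E (k (1 + γ) (a + 16 k) + k D a)`. The left side is `k ^ 2 (1 + γ) = E k * E (a + 8 k) * (1 + γ)`; cancel `E k`: `E (a + 8 k) γ = E (γ (a + 16 k) + 8 k + D a)`. (*)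
`a = 1 + 24 α`, `D a = 24 D α`. Modulo `8`: `γ ≡ E γ`, so all coefficients of `γ` are divisible by `8` (strong induction: `0` for odd index, `coeff (2 n) ≡ coeff n`, `coeff 0 γ = 0`): `γ = 8 g`. Cancel `8` in (*): `E (a + 8 k) g = E (g (a + 16 k) + k + 3 D α)`, so modulo `8`:
`g ≡ E (g + k + P)`, `P = 3 D α`. From `r1`: `α = E (α + k)`, `D α = 2 E (D α + D k)`, `D k = k (1 + 8 g) ≡ k`: `P ≡ 2 E P + 6 E k`. Now `g ≡ E k + E (g + P)`; `g + P ≡ E (g + 7 k + 3 P)`; `g + 3 P ≡ E (g + 19 k + 7 P)`: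
`g ≡ E k + E (E (g + 7 k + 3 P)) = E k + 7 E (E k) + E (E (g + 3 P)) ≡ E k + 7 E (E k) + E (E (E w))`, `w = g + 19 k + 7 P`.
-/

namespace Pool.Agent.Lib.MP_06b9d2_tl2

open PowerSeries Pool.Agent.L1
open Pool.Agent.Lib.MP_06b9d2_tls (V U TT br In PC Ig tt EgG Two Tl)

variable {A Y : ℂ⟦X⟧} {a k : ℤ⟦X⟧}

/-- `x f'` -/
private noncomputable def dD (f : ℤ⟦X⟧) : ℤ⟦X⟧ := PowerSeries.X * PowerSeries.derivative ℤ f

private theorem dD_coeff (f : ℤ⟦X⟧) (n : ℕ) : coeff n (dD f) = n * coeff n f := by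
  unfold dD
  cases n with
  | zero => simp
  | succ n =>
    rw [PowerSeries.coeff_succ_X_mul, PowerSeries.coeff_derivative]
    push_cast
    ring

private theorem dD_add (f g : ℤ⟦X⟧) : dD (f + g) = dD f + dD g := by
  unfold dD
  rw [map_add, mul_add]

private theorem dD_mul (f g : ℤ⟦X⟧) : dD (f * g) = f * dD g + g * dD f := by
  unfold dD
  rw [Derivation.leibniz, smul_eq_mul, smul_eq_mul]
  ring

private theorem dD_one : dD 1 = 0 := by
  unfold dD
  rw [PowerSeries.derivative_one, mul_zero]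

private theorem dD_nat (m : ℕ) [m.AtLeastTwo] (f : ℤ⟦X⟧) :
    dD ((OfNat.ofNat m : ℤ⟦X⟧) * f) = (OfNat.ofNat m : ℤ⟦X⟧) * dD f := by
  have h : ∀ g : ℤ⟦X⟧, (OfNat.ofNat m : ℤ⟦X⟧) * g = C (OfNat.ofNat m : ℤ) * g := by
    intro g
    rw [map_ofNat]
  rw [h, h]
  ext n
  rw [dD_coeff, PowerSeries.coeff_C_mul, PowerSeries.coeff_C_mul, dD_coeff]
  ring

private theorem E_nat (m : ℕ) [m.AtLeastTwo] (f : ℤ⟦X⟧) :
    E ((OfNat.ofNat m : ℤ⟦X⟧) * f) = (OfNat.ofNat m : ℤ⟦X⟧) * E f := by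
  rw [E_mul]
  congr 1
  unfold E
  rw [map_ofNat]

private theorem dD_E (f : ℤ⟦X⟧) : dD (E f) = 2 * E (dD f) := by
  have h : (2 : ℤ⟦X⟧) = C (2 : ℤ) := (map_ofNat (C : ℤ →+* ℤ⟦X⟧) 2).symm
  rw [h]
  ext n
  rw [dD_coeff, PowerSeries.coeff_C_mul]
  rcases Nat.mod_two_eq_zero_or_one n with hn | hn
  · obtain ⟨m, rfl⟩ : ∃ m, n = 2 * m := ⟨n / 2, by omega⟩
    rw [E_even, E_even, dD_coeff]
    push_cast
    ring
  · rw [E_odd _ _ hn, E_odd _ _ hn]
    ring

private theorem div8 {f z : ℤ⟦X⟧} (h : f = E f + 8 * z) (h0 : coeff 0 f = 0) : ∃ g : ℤ⟦X⟧, f = 8 * g := by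
  have h8 : (8 : ℤ⟦X⟧) = C (8 : ℤ) := (map_ofNat (C : ℤ →+* ℤ⟦X⟧) 8).symm
  have hd : ∀ n, (8 : ℤ) ∣ coeff n f := by
    intro n
    induction n using Nat.strong_induction_on with
    | _ n ih =>
      rcases Nat.eq_zero_or_pos n with hn0 | hn0
      · rw [hn0, h0]
        exact dvd_zero _
      · rw [h, map_add, h8, PowerSeries.coeff_C_mul]
        apply dvd_add _ (dvd_mul_right _ _)
        rcases Nat.mod_two_eq_zero_or_one n with hn | hn
        · obtain ⟨m, rfl⟩ : ∃ m, n = 2 * m := ⟨n / 2, by omega⟩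
          rw [E_even]
          exact ih m (by omega)
        · rw [E_odd _ _ hn]
          exact dvd_zero _
  refine ⟨PowerSeries.mk fun n => coeff n f / 8, ?_⟩
  rw [h8]
  ext n
  rw [PowerSeries.coeff_C_mul, PowerSeries.coeff_mk]
  exact (Int.mul_ediv_cancel' (hd n)).symm

private theorem nat_ne (m : ℤ) (hm : m ≠ 0) : (C m : ℤ⟦X⟧) ≠ 0 := by
  intro h
  apply hm
  have := congrArg (coeff 0) h
  rw [PowerSeries.coeff_zero_C] at this
  simpa using this

private theorem two_ne : (2 : ℤ⟦X⟧) ≠ 0 := by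
  have h := nat_ne 2 (by norm_num)
  rwa [map_ofNat] at h

private theorem eight_ne : (8 : ℤ⟦X⟧) ≠ 0 := by
  have h := nat_ne 8 (by norm_num)
  rwa [map_ofNat] at h

private theorem twentyfour_ne : (24 : ℤ⟦X⟧) ≠ 0 := by
  have h := nat_ne 24 (by norm_num)
  rwa [map_ofNat] at h

private theorem E_lin (x y z : ℤ⟦X⟧) : E (x + 8 * y + 7 * z) = E x + 8 * E y + 7 * E z := by
  rw [E_add, E_add, E_nat 8, E_nat 7]

private theorem E_sub' (f g : ℤ⟦X⟧) : E (f - g) = E f - E g := by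
  unfold E
  rw [map_sub]

private theorem E_one' : E (1 : ℤ⟦X⟧) = 1 := by
  unfold E
  rw [map_one]

private theorem E_ne {f : ℤ⟦X⟧} (hf : f ≠ 0) : E f ≠ 0 := by
  intro h
  apply hf
  ext n
  rw [← E_even, h, map_zero, map_zero]

theorem dg (q : Qd A Y a k) : ∃ g w y : ℤ⟦X⟧,
    (∀ n : ℕ, ((n : ℤ) - 1) * coeff n k = 8 * coeff n (k * g)) ∧
      g = E k + 7 * E (E k) + E (E (E w)) + 8 * y := by
  obtain ⟨α, hα, hα0⟩ := q.a24
  -- `D k = k (1 + γ)`
  have hk0 : constantCoeff k = 0 := by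
    rw [← PowerSeries.coeff_zero_eq_constantCoeff_apply]
    exact q.grk 0 rfl
  obtain ⟨u, hu⟩ := PowerSeries.X_dvd_iff.2 hk0
  have hu0 : constantCoeff u = 1 := by
    have h1 := q.k1
    rw [hu, show (1 : ℕ) = 0 + 1 from rfl, PowerSeries.coeff_succ_X_mul] at h1
    rwa [← PowerSeries.coeff_zero_eq_constantCoeff_apply]
  have hunit : IsUnit u := by
    rw [PowerSeries.isUnit_iff_constantCoeff, hu0]
    exact isUnit_one
  obtain ⟨v, hv⟩ := hunit.exists_right_inv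
  obtain ⟨γ, hγdef⟩ : ∃ γ, γ = v * dD u := ⟨_, rfl⟩
  have hX : dD (PowerSeries.X : ℤ⟦X⟧) = PowerSeries.X := by
    unfold dD
    rw [PowerSeries.derivative_X, mul_one]
  have hDk : dD k = k * (1 + γ) := by
    rw [hu, dD_mul, hX, hγdef]
    linear_combination (-PowerSeries.X * dD u) * hv
  have hγ0 : coeff 0 γ = 0 := by
    rw [hγdef, PowerSeries.coeff_zero_eq_constantCoeff_apply, map_mul,
      ← PowerSeries.coeff_zero_eq_constantCoeff_apply (dD u), dD_coeff]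
    simp
  have hkne : k ≠ 0 := by
    intro h
    have h1 := q.k1
    rw [h] at h1
    simp at h1
  have hDa : dD a = 24 * dD α := by
    rw [hα, dD_add, dD_one, dD_nat, zero_add]
  -- the main identity
  have hstar : E (a + 8 * k) * γ = E (γ * (a + 16 * k) + 8 * k + dD a) := by
    have h1 : dD (k * k) = 2 * E (dD (k * (a + 8 * k))) := by
      rw [← pow_two, q.r2, dD_E]
    rw [dD_mul, dD_mul, dD_add, dD_nat, hDk] at h1
    have h2 : (2 : ℤ⟦X⟧) * (k ^ 2 * (1 + γ)) =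
        2 * (E k * E ((1 + γ) * (a + 16 * k) + dD a)) := by
      rw [← E_mul]
      have h3 : k * ((1 + γ) * (a + 16 * k) + dD a) =
          k * (dD a + 8 * (k * (1 + γ))) + (a + 8 * k) * (k * (1 + γ)) := by ring
      rw [h3, ← h1]
      ring
    have h4 := mul_left_cancel₀ two_ne h2
    rw [q.r2, E_mul, mul_assoc] at h4
    have h5 := mul_left_cancel₀ (E_ne hkne) h4
    have h6 : γ * (a + 16 * k) + 8 * k + dD a = (1 + γ) * (a + 16 * k) + dD a - (a + 8 * k) := by ring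
    rw [h6, E_sub', ← h5]
    ring
  -- `γ = 8 g`
  obtain ⟨g, hg⟩ : ∃ g : ℤ⟦X⟧, γ = 8 * g := by
    apply div8 (z := E (3 * α * γ + 2 * k * γ + k + 3 * dD α) - E (3 * α + k) * γ) _ hγ0
    have h1 : γ * (a + 16 * k) + 8 * k + dD a = γ + 8 * (3 * α * γ + 2 * k * γ + k + 3 * dD α) := by
      rw [hDa, hα]
      ring
    have h2 : a + 8 * k = 1 + 8 * (3 * α + k) := by
      rw [hα]
      ring
    rw [h1, h2, E_add, E_add, E_nat 8, E_nat 8, E_one'] at hstar
    linear_combination hstar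
  -- modulo `8`
  have hgstar : g = E (g + k + 3 * dD α) + 8 * (E (3 * α * g + 2 * k * g) - E (3 * α + k) * g) := by
    have h1 : γ * (a + 16 * k) + 8 * k + dD a =
        8 * (g + k + 3 * dD α + 8 * (3 * α * g + 2 * k * g)) := by
      rw [hDa, hα, hg]
      ring
    have h2 : a + 8 * k = 1 + 8 * (3 * α + k) := by
      rw [hα]
      ring
    rw [h1, h2, hg, E_nat 8, E_add 1, E_nat 8, E_one', E_add (g + k + 3 * dD α), E_nat 8] at hstar
    have h3 : (8 : ℤ⟦X⟧) * ((1 + 8 * E (3 * α + k)) * g) =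
        8 * (E (g + k + 3 * dD α) + 8 * E (3 * α * g + 2 * k * g)) := by
      linear_combination hstar
    have h4 := mul_left_cancel₀ eight_ne h3
    linear_combination h4
  have hαE : α = E (α + k) := by
    have h1 := q.r1
    have h2 : a + 24 * k = 1 + 24 * (α + k) := by
      rw [hα]
      ring
    rw [h2, E_add, E_nat 24, E_one'] at h1
    have h3 : (24 : ℤ⟦X⟧) * α = 24 * E (α + k) := by
      linear_combination h1 - hα
    exact mul_left_cancel₀ twentyfour_ne h3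
  have hDα : dD α = 2 * E (dD α + k * (1 + 8 * g)) := by
    conv_lhs => rw [hαE]
    rw [dD_E, dD_add, hDk, hg]
  obtain ⟨P, hP⟩ : ∃ P, P = 3 * dD α := ⟨_, rfl⟩
  have hPE : P = 2 * E P + 6 * E k + 8 * (6 * E (k * g)) := by
    have h1 : dD α + k * (1 + 8 * g) = dD α + (k + 8 * (k * g)) := by ring
    rw [h1, E_add, E_add, E_nat 8] at hDα
    rw [hP, E_nat 3]
    linear_combination 3 * hDα
  obtain ⟨y1, hy1⟩ : ∃ y1, y1 = E (3 * α * g + 2 * k * g) - E (3 * α + k) * g := ⟨_, rfl⟩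
  obtain ⟨y2, hy2⟩ : ∃ y2, y2 = 6 * E (k * g) := ⟨_, rfl⟩
  rw [← hy1, ← hP, E_add, E_add] at hgstar
  rw [← hy2] at hPE
  -- `E (g + P)` and `E (g + 3 P)`
  have hA1 : g + P = E (g + 7 * k + 3 * P) + 8 * (y1 + y2) := by
    rw [E_add, E_add, E_nat 7, E_nat 3]
    linear_combination hgstar + hPE
  have hA2 : g + 3 * P = E (g + 19 * k + 7 * P) + 8 * (y1 + 3 * y2) := by
    rw [E_add, E_add, E_nat 19, E_nat 7]
    linear_combination hgstar + 3 * hPE
  refine ⟨g, g + 19 * k + 7 * P, E (E (y1 + 3 * y2)) + E (y1 + y2) + y1, ?_, ?_⟩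
  · intro n
    have h1 := congrArg (coeff n) hDk
    have h8 : (8 : ℤ⟦X⟧) = C (8 : ℤ) := (map_ofNat (C : ℤ →+* ℤ⟦X⟧) 8).symm
    have h2 : k * (1 + γ) = k + 8 * (k * g) := by
      rw [hg]
      ring
    rw [h2, dD_coeff, map_add, h8, PowerSeries.coeff_C_mul] at h1
    linarith
  · have h1 : E g + E P = E (E (g + 7 * k + 3 * P)) + 8 * E (y1 + y2) := by
      rw [← E_add, hA1, E_add, E_nat 8]
    have h2 : g + 7 * k + 3 * P = (g + 3 * P) + 7 * k := by ring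
    have h3 : E (E (g + 7 * k + 3 * P)) =
        E (E (E (g + 19 * k + 7 * P))) + 8 * E (E (y1 + 3 * y2)) + 7 * E (E k) := by
      rw [h2, hA2, E_lin, E_lin]
    linear_combination hgstar + h1 + h3

end Pool.Agent.Lib.MP_06b9d2_tl2
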