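import Pool.Agent.Lib.MP_06b9d2_tl2.New
import Pool.Agent.Lib.MP_06b9d2_tl2.Val
import Pool.Agent.Lib.MP_06b9d2_tls.Br
import Pool.Agent.Lib.MP_06b9d2_tls.PCm

/-!
Module TL2-Fam. Families of branches satisfy the hypotheses of `root`. (Model: `MP_06b9d2_tls/Fam.lean`; here `e = l`, three cusps, no `om`.)

`hec`: `h.hecke`: for `P` homogeneous of degree `w`, `∑ i, ev (zx i) (zy i) P ∈ HH (V l A) (V l Y) w`, where `zx i = cA (br i A) (br i Y)`, `zy i = cY (br i A) (br i Y)`. `fam_sum`: binomial theorem.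
`bs_V`: `A = 1 + 24 α`, `Y = 8 κ` with integral `α`, `κ` without constant terms, `coeff 1 κ = 1`; `V l` keeps the coefficients (`V_coeff`); `yP`: `n = l`.
`near_A`: `some b`: the coefficients are multiplied by roots of unity (`v_root`), the constant coefficient is `1`; `none`: `(l * l) • V A - 1 = (l ^ 2 - 1) + l ^ 2 (V A - 1)` and `8 ∣ l ^ 2 - 1` (`l` odd). `near_Y` the same.
-/

namespace Pool.Agent.Lib.MP_06b9d2_tl2

open PowerSeries Pool.Agent.L1
open Pool.Agent.Lib.MP_06b9d2_tls (V U TT br In PC Ig tt EgG Two Tl)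
open Pool.Agent.Lib.MP_06b9d2_tls (V_coeff V_cc V_sub V_one In_add)

theorem hec {A Y : ℂ⟦X⟧} (h : Core A Y) {l : ℕ} (hl : l.Prime) (hl2 : l ≠ 2) (w : ℕ)
    (P : MvPolynomial (Fin 2) ℂ) (hP : P.IsHomogeneous w) :
    ∑ i : Option (Fin l), ev (cA (br l l i A) (br l l i Y)) (cY (br l l i A) (br l l i Y)) P ∈
      HH (V l A) (V l Y) w := by
  obtain ⟨P', hP', hE⟩ := h.hecke l hl hl2 w P hP
  exact ⟨P', (MvPolynomial.mem_homogeneousSubmodule _ _).2 hP', hE.symm⟩

private theorem lin_hom (α β : ℂ) (k : ℕ) :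
    ((α • (MvPolynomial.X 0 : MvPolynomial (Fin 2) ℂ) + β • MvPolynomial.X 1) ^ k).IsHomogeneous k := by
  have h0 : (α • (MvPolynomial.X 0 : MvPolynomial (Fin 2) ℂ)).IsHomogeneous 1 := by
    rw [← MvPolynomial.mem_homogeneousSubmodule]
    exact Submodule.smul_mem _ _ ((MvPolynomial.mem_homogeneousSubmodule _ _).2 (MvPolynomial.isHomogeneous_X ℂ 0))
  have h1 : (β • (MvPolynomial.X 1 : MvPolynomial (Fin 2) ℂ)).IsHomogeneous 1 := by
    rw [← MvPolynomial.mem_homogeneousSubmodule]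
    exact Submodule.smul_mem _ _ ((MvPolynomial.mem_homogeneousSubmodule _ _).2 (MvPolynomial.isHomogeneous_X ℂ 1))
  simpa using (h0.add h1).pow k

private theorem ev_lin (F G : Fin 3 → ℂ⟦X⟧) (α β : ℂ) (k : ℕ) :
    ev F G ((α • (MvPolynomial.X 0 : MvPolynomial (Fin 2) ℂ) + β • MvPolynomial.X 1) ^ k) =
      (α • F + β • G) ^ k := by
  simp [ev]

private theorem nsmul_HH {A Y : ℂ⟦X⟧} {m : ℕ} {r : Fin 3 → ℂ⟦X⟧} (hr : r ∈ HH A Y m) (n : ℕ) :
    r * (n : Fin 3 → ℂ⟦X⟧) ∈ HH A Y m := by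
  have h : r * (n : Fin 3 → ℂ⟦X⟧) = n • r := by
    rw [nsmul_eq_mul, mul_comm]
  rw [h]
  exact Submodule.smul_of_tower_mem _ n hr

theorem fam_sum {A Y : ℂ⟦X⟧} (h : Core A Y) {l : ℕ} (hl : l.Prime) (hl2 : l ≠ 2) (α β α' β' : ℂ) (m : ℕ) :
    ∑ i : Option (Fin l), (α • cA (br l l i A) (br l l i Y) + β • cY (br l l i A) (br l l i Y) +
      α' • cA (V l A) (V l Y) + β' • cY (V l A) (V l Y)) ^ m ∈ HH (V l A) (V l Y) m := by
  have h1 : ∑ i : Option (Fin l), (α • cA (br l l i A) (br l l i Y) + β • cY (br l l i A) (br l l i Y) +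
      α' • cA (V l A) (V l Y) + β' • cY (V l A) (V l Y)) ^ m =
      ∑ k ∈ Finset.range (m + 1), (∑ i : Option (Fin l),
        (α • cA (br l l i A) (br l l i Y) + β • cY (br l l i A) (br l l i Y)) ^ k) *
        (α' • cA (V l A) (V l Y) + β' • cY (V l A) (V l Y)) ^ (m - k) *
          ((m.choose k : ℕ) : Fin 3 → ℂ⟦X⟧) := by
    simp only [Finset.sum_mul]
    rw [Finset.sum_comm]
    refine Finset.sum_congr rfl fun i _ => ?_
    rw [add_assoc (α • cA (br l l i A) (br l l i Y) + β • cY (br l l i A) (br l l i Y)), add_pow]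
  rw [h1]
  refine Submodule.sum_mem _ fun k hk => ?_
  have hk' : k ≤ m := Nat.lt_succ_iff.1 (Finset.mem_range.1 hk)
  refine nsmul_HH ?_ _
  have h2 : ∑ i : Option (Fin l),
        (α • cA (br l l i A) (br l l i Y) + β • cY (br l l i A) (br l l i Y)) ^ k ∈
        HH (V l A) (V l Y) k := by
    have h3 := hec h hl hl2 k _ (lin_hom α β k)
    simpa only [ev_lin] using h3
  have h4 : (α' • cA (V l A) (V l Y) + β' • cY (V l A) (V l Y)) ^ (m - k) ∈
      HH (V l A) (V l Y) (m - k) := by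
    have h5 := HH_pow (Submodule.add_mem _ (Submodule.smul_mem _ α' (HH_A (V l A) (V l Y)).1)
      (Submodule.smul_mem _ β' (HH_A (V l A) (V l Y)).2)) (m - k)
    simpa using h5
  have h6 := HH_mul h2 h4
  rwa [Nat.add_sub_cancel' hk'] at h6

private theorem In_V {O : ValuationSubring ℂ} {F : ℂ⟦X⟧} {r : ℂ} (hF : In O F r) (n : ℕ) : In O (V n F) r := by
  intro m
  rw [V_coeff]
  split_ifs
  · exact hF _
  · simp

private theorem In_A {A Y : ℂ⟦X⟧} (h : Core A Y) (O : ValuationSubring ℂ) : In O (A - 1) 8 ∧ In O Y 8 ∧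
    constantCoeff A = 1 ∧ constantCoeff Y = 0 ∧ coeff 1 Y = 8 := by
  obtain ⟨A₁, κ, hA, hY, ha, hk, hk1⟩ := h.int
  have c8 : (8 : ℂ⟦X⟧) = C (8 : ℂ) := (map_ofNat C 8).symm
  have c24 : (24 : ℂ⟦X⟧) = C (24 : ℂ) := (map_ofNat C 24).symm
  have e24 : O.valuation (24 : ℂ) ≤ O.valuation 8 := by
    have e : (24 : ℂ) = 8 * ((3 : ℤ) : ℂ) := by norm_num
    rw [e, map_mul]
    exact mul_le_of_le_one_right' (v_int O 3)
  refine ⟨?_, ?_, ?_, ?_, ?_⟩
  · intro n
    rw [hA, add_sub_cancel_left, c24, PowerSeries.coeff_C_mul, PowerSeries.coeff_map, map_mul]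
    exact (mul_le_of_le_one_right' (v_int O _)).trans e24
  · intro n
    rw [hY, c8, PowerSeries.coeff_C_mul, PowerSeries.coeff_map, map_mul]
    exact mul_le_of_le_one_right' (v_int O _)
  · have ha' : coeff 0 A₁ = 0 := by rw [PowerSeries.coeff_zero_eq_constantCoeff_apply]; exact ha
    rw [← PowerSeries.coeff_zero_eq_constantCoeff_apply, hA, c24, map_add, PowerSeries.coeff_C_mul,
      PowerSeries.coeff_map, ha']
    simp
  · have hk' : coeff 0 κ = 0 := by rw [PowerSeries.coeff_zero_eq_constantCoeff_apply]; exact hk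
    rw [← PowerSeries.coeff_zero_eq_constantCoeff_apply, hY, c8, PowerSeries.coeff_C_mul,
      PowerSeries.coeff_map, hk']
    simp
  · rw [hY, c8, PowerSeries.coeff_C_mul, PowerSeries.coeff_map, hk1]
    simp

theorem bs_V {A Y : ℂ⟦X⟧} (h : Core A Y) (O : ValuationSubring ℂ) {l : ℕ} (hl : l ≠ 0) :
    Bs O (V l A) (V l Y) := by
  obtain ⟨h1, h2, h3, h4, h5⟩ := In_A h O
  refine ⟨?_, ?_, ?_, ?_, ?_⟩
  · rw [V_cc hl, h3]
  · rw [V_cc hl, h4]
  · have h6 : V l A - 1 = V l (A - 1) := by rw [V_sub hl, V_one hl]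
    rw [h6]
    exact In_V h1 l
  · exact In_V h2 l
  · refine ⟨l, ?_⟩
    rw [V_coeff, if_pos dvd_rfl, Nat.div_self (Nat.pos_of_ne_zero hl), h5]

private theorem In_rescale {O : ValuationSubring ℂ} {F : ℂ⟦X⟧} {r z : ℂ} (hz : O.valuation z = 1) (hF : In O F r) :
    In O (PowerSeries.rescale z F) r := by
  intro n
  rw [PowerSeries.coeff_rescale, map_mul, map_pow, hz, one_pow, one_mul]
  exact hF n

private theorem v_zeta (O : ValuationSubring ℂ) {l : ℕ} (hl : l ≠ 0) (b : ℕ) :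
    O.valuation (Complex.exp (2 * Real.pi * Complex.I * b / l)) = 1 := by
  refine v_root O _ l hl ?_
  rw [← Complex.exp_nat_mul]
  have hl' : (l : ℂ) ≠ 0 := Nat.cast_ne_zero.2 hl
  have : (l : ℂ) * (2 * Real.pi * Complex.I * b / l) = b * (2 * Real.pi * Complex.I) := by
    field_simp
  rw [this]
  exact Complex.exp_nat_mul_two_pi_mul_I b

private theorem el_int {l : ℕ} (hl : l.Prime) (hl2 : l ≠ 2) :
    ∃ n : ℤ, (l : ℂ) * l = n ∧ ∃ k : ℤ, n - 1 = 8 * k := by
  have hodd : l % 2 = 1 := by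
    rcases hl.eq_two_or_odd with h | h
    · exact absurd h hl2
    · exact h
  refine ⟨(l : ℤ) * l, by push_cast; rfl, ((l : ℤ) * l - 1) / 8, ?_⟩
  obtain ⟨m, hm⟩ : ∃ m : ℤ, (l : ℤ) = 2 * m + 1 := ⟨(l : ℤ) / 2, by omega⟩
  have hpar : (m * (m + 1)) % 2 = 0 := by
    rcases Int.emod_two_eq_zero_or_one m with h | h
    · rw [Int.mul_emod, h]
      simp
    · rw [Int.mul_emod, Int.add_emod, h]
      simp
  obtain ⟨r, hr⟩ : ∃ r : ℤ, m * (m + 1) = 2 * r := ⟨m * (m + 1) / 2, by omega⟩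
  have h8 : (l : ℤ) * l - 1 = 8 * r := by
    rw [hm]
    linear_combination 4 * hr
  rw [h8]
  omega

theorem near_A {A Y : ℂ⟦X⟧} (h : Core A Y) (O : ValuationSubring ℂ) {l : ℕ} (hl : l.Prime) (hl2 : l ≠ 2)
    (i : Option (Fin l)) : In O (br l l i A - 1) 8 := by
  obtain ⟨h1, -⟩ := In_A h O
  have hl0 : l ≠ 0 := hl.ne_zero
  match i with
  | none =>
    have h2 : br l l none A - 1 = ((l : ℂ) * l) • V (l ^ 2) (A - 1) + C ((l : ℂ) * l - 1) := by
      have h3 : br l l none A = ((l : ℂ) * l) • V (l ^ 2) A := rfl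
      rw [h3, V_sub (pow_ne_zero 2 hl0), V_one (pow_ne_zero 2 hl0), smul_sub, map_sub, map_one,
        PowerSeries.smul_eq_C_mul, PowerSeries.smul_eq_C_mul, mul_one]
      ring
    obtain ⟨n, hn, k, hk⟩ := el_int hl hl2
    have h4 : In O (C ((l : ℂ) * l - 1)) 8 := by
      intro m
      rw [PowerSeries.coeff_C]
      split_ifs
      · have h5 : (l : ℂ) * l - 1 = 8 * (k : ℂ) := by
          rw [hn]
          exact_mod_cast hk
        rw [h5, map_mul]
        exact mul_le_of_le_one_right' (v_int O _)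
      · simp
    have h6 : In O (((l : ℂ) * l) • V (l ^ 2) (A - 1)) 8 := by
      intro m
      rw [PowerSeries.coeff_smul, smul_eq_mul, map_mul, hn]
      exact mul_le_of_le_one_of_le (v_int O _) (In_V h1 _ m)
    rw [h2]
    exact In_add h6 h4
  | some b =>
    have h2 : br l l (some b) A - 1 = PowerSeries.rescale (Complex.exp (2 * Real.pi * Complex.I * (b : ℕ) / l)) (A - 1) := by
      rw [map_sub, map_one]
      rfl
    rw [h2]
    exact In_rescale (v_zeta O hl0 _) h1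

theorem near_Y {A Y : ℂ⟦X⟧} (h : Core A Y) (O : ValuationSubring ℂ) {l : ℕ} (hl : l.Prime) (hl2 : l ≠ 2)
    (i : Option (Fin l)) : In O (br l l i Y) 8 := by
  obtain ⟨-, h1, -⟩ := In_A h O
  have hl0 : l ≠ 0 := hl.ne_zero
  match i with
  | none =>
    obtain ⟨n, hn, k, hk⟩ := el_int hl hl2
    intro m
    have h3 : br l l none Y = ((l : ℂ) * l) • V (l ^ 2) Y := rfl
    rw [h3, PowerSeries.coeff_smul, smul_eq_mul, map_mul, hn]
    exact mul_le_of_le_one_of_le (v_int O _) (In_V h1 _ m)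
  | some b =>
    have h2 : br l l (some b) Y = PowerSeries.rescale (Complex.exp (2 * Real.pi * Complex.I * (b : ℕ) / l)) Y := rfl
    rw [h2]
    exact In_rescale (v_zeta O hl0 _) h1

end Pool.Agent.Lib.MP_06b9d2_tl2
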