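import Pool.Agent.Lib.MP_06b9d2_tl2.Dg

/-!
Module TL2-Kf. Congruences for the coefficients `κ_m` of `k`.

Tool (`dvd_co`): if `D ∣ coeff i f * coeff j g` for all `i + j = n` then `D ∣ coeff n (f g)` (`coeff_mul`, `Finset.dvd_sum`). `coeff j (E k) ≠ 0` only for `j = 2 j'`, `j'` odd; `coeff j (E (E k)) ≠ 0` only for `j = 4 j'`, `j'` odd; `coeff j (E (E (E w))) ≠ 0` only for `8 ∣ j`. Let `z = coeff m (k g)`, `(m - 1) κ_m = 8 z` (`dg`).
`kf3`: `m = 8 t + 3`: `(4 t + 1) κ_m = 4 z`. `kf5`: `m = 8 t + 5`: `(2 t + 1) κ_m = 2 z`. `kf7`: `m = 8 t + 7`: `(4 t + 3) κ_m = 4 z`, so `4 ∣ κ_m`; and `z` is even: modulo `2`, `z ≡ [k E k]_m + [k E E k]_m + [k E E E w]_m`; first: `i + 2 j' = m`: `j' ≡ 1` mod `4`: `i ≡ 5` mod `8`, `κ_i` even (`kf5`);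
`j' ≡ 3` mod `4`: `κ_{j'}` even (`j' ≡ 3, 7` mod `8`, `4 ∣ κ_{j'}`); second: `i ≡ 3` mod `8`, even; third: `i ≡ 7` mod `8`, `4 ∣ κ_i`. So `(4 t + 3) κ_m = 4 z` is divisible by `8`. The first part of this (`[k E k]_m` even) is `kek7`.
`kt3`: `m ≡ 3` mod `8`, `κ_m = 4 t'`: `((m - 1) / 2) t' = z`, so `t' ≡ z` mod `2`, and `z ≡ [k E k]_m` mod `2`: second term: `i = m - 4 j' ≡ 7` mod `8` even; third: `i ≡ 3` mod `8` even. `kt5`: `m ≡ 5` mod `8`, `κ_m = 2 t'`, `((m - 1) / 4) t' = z`, and `z ≡ [k E E k]_m`: first term: `i = m - 2 j' ≡ 3, 7` mod `8` even;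
third: `i ≡ 5` mod `8` even.
-/

namespace Pool.Agent.Lib.MP_06b9d2_tl2

open PowerSeries Pool.Agent.L1
open Pool.Agent.Lib.MP_06b9d2_tls (V U TT br In PC Ig tt EgG Two Tl)

variable {A Y : ℂ⟦X⟧} {a k : ℤ⟦X⟧}

theorem dvd_co (D : ℤ) (f g : ℤ⟦X⟧) (n : ℕ) (h : ∀ i j, i + j = n → D ∣ coeff i f * coeff j g) :
    D ∣ coeff n (f * g) := by
  rw [PowerSeries.coeff_mul]
  refine Finset.dvd_sum fun x hx => ?_
  exact h x.1 x.2 (Finset.HasAntidiagonal.mem_antidiagonal.1 hx)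

private lemma kf_E (q : Qd A Y a k) (j : ℕ) (hj : j % 4 ≠ 2) : coeff j (E k) = 0 := by
  rcases Nat.even_or_odd' j with ⟨n, rfl | rfl⟩
  · rw [E_even]
    exact q.grk n (by omega)
  · exact E_odd k _ (by omega)

private lemma kf_EE (q : Qd A Y a k) (j : ℕ) (hj : j % 8 ≠ 4) : coeff j (E (E k)) = 0 := by
  rcases Nat.even_or_odd' j with ⟨n, rfl | rfl⟩
  · rw [E_even]
    exact kf_E q n (by omega)
  · exact E_odd _ _ (by omega)

private lemma kf_EEE (w : ℤ⟦X⟧) (j : ℕ) (hj : j % 8 ≠ 0) : coeff j (E (E (E w))) = 0 := by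
  rcases Nat.even_or_odd' j with ⟨n, rfl | rfl⟩
  · rw [E_even]
    rcases Nat.even_or_odd' n with ⟨n', rfl | rfl⟩
    · rw [E_even]
      exact E_odd _ _ (by omega)
    · exact E_odd _ _ (by omega)
  · exact E_odd _ _ (by omega)

/-- the relation for the coefficient of `x ^ m` -/
private lemma kf_rel (q : Qd A Y a k) : ∃ w y : ℤ⟦X⟧, ∀ m : ℕ, ((m : ℤ) - 1) * coeff m k =
    8 * (coeff m (k * E k) + 7 * coeff m (k * E (E k)) + coeff m (k * E (E (E w))) + 8 * coeff m (k * y)) := by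
  obtain ⟨g, w, y, h1, h2⟩ := dg q
  refine ⟨w, y, fun m => ?_⟩
  rw [h1 m, h2]
  have e : k * (E k + 7 * E (E k) + E (E (E w)) + 8 * y) =
      k * E k + (7 : ℤ) • (k * E (E k)) + k * E (E (E w)) + (8 : ℤ) • (k * y) := by
    rw [zsmul_eq_mul, zsmul_eq_mul]
    push_cast
    ring
  rw [e, map_add, map_add, map_add, map_zsmul, map_zsmul, smul_eq_mul, smul_eq_mul]

theorem kf3 (q : Qd A Y a k) (m : ℕ) (hm : m % 8 = 3) : (4 : ℤ) ∣ coeff m k := by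
  obtain ⟨w, y, h⟩ := kf_rel q
  have h1 := h m
  obtain ⟨t, rfl⟩ : ∃ t, m = 8 * t + 3 := ⟨m / 8, by omega⟩
  generalize coeff (8 * t + 3) (k * E k) + 7 * coeff (8 * t + 3) (k * E (E k)) +
    coeff (8 * t + 3) (k * E (E (E w))) + 8 * coeff (8 * t + 3) (k * y) = z at h1
  push_cast at h1
  have h2 : (4 * (t : ℤ) + 1) * coeff (8 * t + 3) k = 4 * z := by linarith
  exact ⟨z - t * coeff (8 * t + 3) k, by linear_combination h2⟩

theorem kf5 (q : Qd A Y a k) (m : ℕ) (hm : m % 8 = 5) : (2 : ℤ) ∣ coeff m k := by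
  obtain ⟨w, y, h⟩ := kf_rel q
  have h1 := h m
  obtain ⟨t, rfl⟩ : ∃ t, m = 8 * t + 5 := ⟨m / 8, by omega⟩
  generalize coeff (8 * t + 5) (k * E k) + 7 * coeff (8 * t + 5) (k * E (E k)) +
    coeff (8 * t + 5) (k * E (E (E w))) + 8 * coeff (8 * t + 5) (k * y) = z at h1
  push_cast at h1
  have h2 : (2 * (t : ℤ) + 1) * coeff (8 * t + 5) k = 2 * z := by linarith
  exact ⟨z - t * coeff (8 * t + 5) k, by linear_combination h2⟩

private lemma kf7a (q : Qd A Y a k) (m : ℕ) (hm : m % 8 = 7) : (4 : ℤ) ∣ coeff m k := by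
  obtain ⟨w, y, h⟩ := kf_rel q
  have h1 := h m
  obtain ⟨t, rfl⟩ : ∃ t, m = 8 * t + 7 := ⟨m / 8, by omega⟩
  generalize coeff (8 * t + 7) (k * E k) + 7 * coeff (8 * t + 7) (k * E (E k)) +
    coeff (8 * t + 7) (k * E (E (E w))) + 8 * coeff (8 * t + 7) (k * y) = z at h1
  push_cast at h1
  have h2 : (4 * (t : ℤ) + 3) * coeff (8 * t + 7) k = 4 * z := by linarith
  exact ⟨coeff (8 * t + 7) k - z + t * coeff (8 * t + 7) k, by linear_combination -h2⟩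

/-- all coefficients of `k` with an exponent which is not `1` modulo `8` are even -/
private lemma kf_even (q : Qd A Y a k) (m : ℕ) (hm : m % 8 ≠ 1) : (2 : ℤ) ∣ coeff m k := by
  by_cases h2 : m % 2 = 0
  · rw [q.grk m h2]
    exact dvd_zero _
  · have h3 : m % 8 = 3 ∨ m % 8 = 5 ∨ m % 8 = 7 := by omega
    rcases h3 with h3 | h3 | h3
    · exact dvd_trans (by norm_num) (kf3 q m h3)
    · exact kf5 q m h3
    · exact dvd_trans (by norm_num) (kf7a q m h3)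

private lemma kf_t2 (q : Qd A Y a k) (m : ℕ) (hm : m % 8 ≠ 5) : (2 : ℤ) ∣ coeff m (k * E (E k)) := by
  refine dvd_co 2 k (E (E k)) m fun i j hij => ?_
  by_cases hj : j % 8 = 4
  · exact Dvd.dvd.mul_right (kf_even q i (by omega)) _
  · rw [kf_EE q j hj, mul_zero]
    exact dvd_zero _

private lemma kf_t3 (q : Qd A Y a k) (w : ℤ⟦X⟧) (m : ℕ) (hm : m % 8 ≠ 1) :
    (2 : ℤ) ∣ coeff m (k * E (E (E w))) := by
  refine dvd_co 2 k (E (E (E w))) m fun i j hij => ?_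
  by_cases hj : j % 8 = 0
  · exact Dvd.dvd.mul_right (kf_even q i (by omega)) _
  · rw [kf_EEE w j hj, mul_zero]
    exact dvd_zero _

theorem kek7 (q : Qd A Y a k) (m : ℕ) (hm : m % 8 = 7) : (2 : ℤ) ∣ coeff m (k * E k) := by
  refine dvd_co 2 k (E k) m fun i j hij => ?_
  by_cases hj : j % 4 = 2
  · by_cases hi : i % 8 = 1
    · obtain ⟨n, rfl⟩ : ∃ n, j = 2 * n := ⟨j / 2, by omega⟩
      rw [E_even]
      exact Dvd.dvd.mul_left (kf_even q n (by omega)) _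
    · exact Dvd.dvd.mul_right (kf_even q i hi) _
  · rw [kf_E q j hj, mul_zero]
    exact dvd_zero _

theorem kf7 (q : Qd A Y a k) (m : ℕ) (hm : m % 8 = 7) : (8 : ℤ) ∣ coeff m k := by
  obtain ⟨w, y, h⟩ := kf_rel q
  have h1 := h m
  obtain ⟨x, hx⟩ := kek7 q m hm
  obtain ⟨x2, hx2⟩ := kf_t2 q m (by omega)
  obtain ⟨x3, hx3⟩ := kf_t3 q w m (by omega)
  obtain ⟨c, hc⟩ := kf7a q m hm
  rw [hx, hx2, hx3, hc] at h1
  rw [hc]
  obtain ⟨t, ht⟩ : ∃ t, m = 8 * t + 7 := ⟨m / 8, by omega⟩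
  have h5 : (m : ℤ) = 8 * t + 7 := by exact_mod_cast ht
  rw [h5] at h1
  have h6 : 8 * (4 * c) = 8 * (8 * ((x + 7 * x2 + x3 + 4 * coeff m (k * y)) - 2 * t * c - c)) := by
    linear_combination 4 * h1
  exact ⟨_, mul_left_cancel₀ (by norm_num) h6⟩

theorem kt3 (q : Qd A Y a k) (m : ℕ) (hm : m % 8 = 3) :
    ∃ t s : ℤ, coeff m k = 4 * t ∧ coeff m (k * E k) = t + 2 * s := by
  obtain ⟨w, y, h⟩ := kf_rel q
  have h1 := h m
  obtain ⟨x2, hx2⟩ := kf_t2 q m (by omega)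
  obtain ⟨x3, hx3⟩ := kf_t3 q w m (by omega)
  obtain ⟨c, hc⟩ := kf3 q m hm
  rw [hx2, hx3, hc] at h1
  obtain ⟨t, ht⟩ : ∃ t, m = 8 * t + 3 := ⟨m / 8, by omega⟩
  have h5 : (m : ℤ) = 8 * t + 3 := by exact_mod_cast ht
  rw [h5] at h1
  refine ⟨c, 2 * t * c - 7 * x2 - x3 - 4 * coeff m (k * y), hc, ?_⟩
  have h6 : 8 * coeff m (k * E k) = 8 * (c + 2 * (2 * t * c - 7 * x2 - x3 - 4 * coeff m (k * y))) := by
    linear_combination -h1
  exact mul_left_cancel₀ (by norm_num) h6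

theorem kt5 (q : Qd A Y a k) (m : ℕ) (hm : m % 8 = 5) :
    ∃ t s : ℤ, coeff m k = 2 * t ∧ coeff m (k * E (E k)) = t + 2 * s := by
  obtain ⟨w, y, h⟩ := kf_rel q
  have h1 := h m
  obtain ⟨x1, hx1⟩ : (2 : ℤ) ∣ coeff m (k * E k) := by
    refine dvd_co 2 k (E k) m fun i j hij => ?_
    by_cases hj : j % 4 = 2
    · exact Dvd.dvd.mul_right (kf_even q i (by omega)) _
    · rw [kf_E q j hj, mul_zero]
      exact dvd_zero _
  obtain ⟨x3, hx3⟩ := kf_t3 q w m (by omega)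
  obtain ⟨c, hc⟩ := kf5 q m hm
  rw [hx1, hx3, hc] at h1
  obtain ⟨t, ht⟩ : ∃ t, m = 8 * t + 5 := ⟨m / 8, by omega⟩
  have h5 : (m : ℤ) = 8 * t + 5 := by exact_mod_cast ht
  rw [h5] at h1
  refine ⟨c, t * c - x1 - x3 - 4 * coeff m (k * y) - 3 * coeff m (k * E (E k)), hc, ?_⟩
  have h6 : 8 * coeff m (k * E (E k)) =
      8 * (c + 2 * (t * c - x1 - x3 - 4 * coeff m (k * y) - 3 * coeff m (k * E (E k)))) := by
    linear_combination -h1
  exact mul_left_cancel₀ (by norm_num) h6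

end Pool.Agent.Lib.MP_06b9d2_tl2
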