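import Pool.Agent.Lib.MP_06b9d2_tl2.Val

/-!
Module TL2-Lin3. The three cusp inequality for linear forms. (Model: `MP_06b9d2_tls/Lin4.lean`.)

`v = O.valuation`, `b = v 2 < 1`. If `v α < v β`: `v (α ± β) = v β`, so both `mx` are `≥ v β` and the first maximum is `≥ v (8 β) = b ^ 3 v β`: the right side is `≥ b ^ 6 (v β) ^ 4`. If `v β < v α`: all three maxima are `≥ v α`.
If `v α = v β` (if both are `0` the claim is trivial; otherwise divide by `β`, or work directly with `g = v α = v β ≠ 0`): the first maximum is `g`. Claim: `mx₊ * mx₋ ≥ b ^ 6 g ^ 2`, where `mx_± = max (v (α ± β)) (v (8 (3 α ∓ β)))`.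
Note `2 α = (α + β) + (α - β)`, so `max (v (α + β)) (v (α - β)) ≥ b g`. By symmetry (`β ↦ -β`) let `v (α - β) ≥ b g`, so `mx₋ ≥ b g`. It remains `mx₊ ≥ b ^ 5 g`: if `v (α + β) < b ^ 5 g` then `3 α - β = 4 α - (α + β)` has valuation `b ^ 2 g` (`b ^ 5 g < b ^ 2 g`), so
`v (8 (3 α - β)) = b ^ 5 g`.
-/

namespace Pool.Agent.Lib.MP_06b9d2_tl2

open PowerSeries Pool.Agent.L1
open Pool.Agent.Lib.MP_06b9d2_tls (V U TT br In PC Ig tt EgG Two Tl)

/-- the maximum at the cusp `S` (`β`) or `T S` (`-β`) -/
noncomputable def mx (O : ValuationSubring ℂ) (α β : ℂ) : O.ValueGroup :=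
  max (O.valuation (α + β)) (O.valuation (8 * (3 * α - β)))

private theorem lin3_half {O : ValuationSubring ℂ} (h2 : O.valuation 2 < 1) {α β : ℂ}
    (hg : O.valuation α = O.valuation β)
    (h : O.valuation 2 * O.valuation α ≤ O.valuation (α - β)) :
    O.valuation 2 ^ 6 * O.valuation α ^ 2 ≤ mx O α β * mx O α (-β) := by
  have h8 : O.valuation 8 = O.valuation 2 ^ 3 := by
    rw [← map_pow]
    norm_num
  have h4 : O.valuation 4 = O.valuation 2 ^ 2 := by
    rw [← map_pow]
    norm_num
  have hm : O.valuation 2 * O.valuation α ≤ mx O α (-β) := by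
    refine h.trans (le_trans ?_ (le_max_left _ _))
    rw [sub_eq_add_neg]
  have hp : O.valuation 2 ^ 5 * O.valuation α ≤ mx O α β := by
    rcases le_or_gt (O.valuation 2 ^ 5 * O.valuation α) (O.valuation (α + β)) with h5 | h5
    · exact h5.trans (le_max_left _ _)
    · have e : 3 * α - β = -(α + β) + 4 * α := by ring
      have h6 : O.valuation (4 * α) = O.valuation 2 ^ 2 * O.valuation α := by rw [map_mul, h4]
      have h7 : O.valuation (-(α + β)) < O.valuation (4 * α) := by
        rw [Valuation.map_neg, h6]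
        refine lt_of_lt_of_le h5 ?_
        exact mul_le_mul_left (pow_le_pow_right_of_le_one' h2.le (by norm_num)) _
      have h9 : O.valuation (8 * (3 * α - β)) = O.valuation 2 ^ 5 * O.valuation α := by
        rw [map_mul, e, Valuation.map_add_eq_of_lt_right _ h7, h6, h8, ← mul_assoc, ← pow_add]
      exact h9.symm.le.trans (le_max_right _ _)
  calc O.valuation 2 ^ 6 * O.valuation α ^ 2
      = (O.valuation 2 ^ 5 * O.valuation α) * (O.valuation 2 * O.valuation α) := by
        rw [mul_mul_mul_comm, ← pow_succ, ← pow_two]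
    _ ≤ _ := mul_le_mul' hp hm

theorem lin3 {O : ValuationSubring ℂ} (h2 : O.valuation 2 < 1) (α β : ℂ) :
    max (O.valuation α) (O.valuation β) ^ 4 * O.valuation 2 ^ 6 ≤
      max (O.valuation α) (O.valuation (8 * β)) ^ 2 * (mx O α β * mx O α (-β)) := by
  have h8 : O.valuation 8 = O.valuation 2 ^ 3 := by
    rw [← map_pow]
    norm_num
  rcases lt_trichotomy (O.valuation β) (O.valuation α) with h | h | h
  · have hp : O.valuation α ≤ mx O α β := by
      have h1 : O.valuation (α + β) = O.valuation α := Valuation.map_add_eq_of_lt_left _ h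
      exact h1.symm.le.trans (le_max_left _ _)
    have hm : O.valuation α ≤ mx O α (-β) := by
      have h1 : O.valuation (α + -β) = O.valuation α :=
        Valuation.map_add_eq_of_lt_left _ (by rwa [Valuation.map_neg])
      exact h1.symm.le.trans (le_max_left _ _)
    rw [max_eq_left h.le]
    calc O.valuation α ^ 4 * O.valuation 2 ^ 6 ≤ O.valuation α ^ 4 * 1 :=
          mul_le_mul_right (pow_le_one' h2.le _) _
      _ = O.valuation α ^ 2 * (O.valuation α * O.valuation α) := by
          rw [mul_one, ← pow_two, ← pow_add]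
      _ ≤ _ := mul_le_mul' (pow_le_pow_left' (le_max_left _ _) _) (mul_le_mul' hp hm)
  · have key : O.valuation 2 ^ 6 * O.valuation α ^ 2 ≤ mx O α β * mx O α (-β) := by
      have e : 2 * α = (α + β) + (α - β) := by ring
      have h3 : O.valuation 2 * O.valuation α ≤ max (O.valuation (α + β)) (O.valuation (α - β)) := by
        rw [← map_mul, e]
        exact Valuation.map_add _ _ _
      rcases le_max_iff.1 h3 with h5 | h5
      · have h6 := lin3_half (α := α) (β := -β) h2 (by rw [Valuation.map_neg]; exact h.symm)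
          (by rw [sub_neg_eq_add]; exact h5)
        rwa [neg_neg, mul_comm (mx O α (-β))] at h6
      · exact lin3_half h2 h.symm h5
    rw [h, max_self]
    calc O.valuation α ^ 4 * O.valuation 2 ^ 6
        = O.valuation α ^ 2 * (O.valuation 2 ^ 6 * O.valuation α ^ 2) := by
          rw [mul_comm (O.valuation 2 ^ 6), ← mul_assoc, ← pow_add]
      _ ≤ _ := mul_le_mul' (pow_le_pow_left' (le_max_left _ _) _) key
  · have hp : O.valuation β ≤ mx O α β := by
      have h1 : O.valuation (α + β) = O.valuation β := Valuation.map_add_eq_of_lt_right _ h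
      exact h1.symm.le.trans (le_max_left _ _)
    have hm : O.valuation β ≤ mx O α (-β) := by
      have h1 : O.valuation (α + -β) = O.valuation β := by
        rw [Valuation.map_add_eq_of_lt_right _ (by rwa [Valuation.map_neg]), Valuation.map_neg]
      exact h1.symm.le.trans (le_max_left _ _)
    rw [max_eq_right h.le]
    have hf : O.valuation 2 ^ 3 * O.valuation β ≤ max (O.valuation α) (O.valuation (8 * β)) := by
      refine le_trans (le_of_eq ?_) (le_max_right _ _)
      rw [map_mul, h8]
    calc O.valuation β ^ 4 * O.valuation 2 ^ 6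
        = (O.valuation 2 ^ 3 * O.valuation β) ^ 2 * (O.valuation β * O.valuation β) := by
          rw [mul_pow, ← pow_mul, ← pow_two, mul_assoc, ← pow_add, mul_comm]
      _ ≤ _ := mul_le_mul' (pow_le_pow_left' hf _) (mul_le_mul' hp hm)

end Pool.Agent.Lib.MP_06b9d2_tl2
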