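import Pool.Agent.Lib.MP_06b9d2_tl2.Ayi
import Pool.Agent.Lib.MP_06b9d2_tls.Br

/-!
Module TL2-Mat1. The matrix of `TT l l w`, `w = 2 N + a`, on the forms `moX` and the statement at the cusp `S`. (Model: `MP_06b9d2_tls/Mat1.lean`.)

`P = X 0 ^ a * (X 0 ^ 2 - X 1 ^ 2) ^ (N - s) * (X 1 ^ 2) ^ s` is homogeneous of degree `w` and `aeval ![A, Y] P = moX A Y a N s`. `h.hecke` gives `P'`. Component `0` (evaluation at `0` is an algebra homomorphism, `cA F G 0 = F`, `cY F G 0 = G`):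
`∑ i, aeval ![br i A, br i Y] P = V l (aeval ![A, Y] P')`; with `br_sum` (with `e = l`) and `V_inj`: `TT l l w (moX A Y a N s) = aeval ![A, Y] P'`. Write `P' = ∑_{r ≤ w} f_r X 0 ^ (w - r) X 1 ^ r`. Grading: `moX A Y a N s` has only even exponents (`grA`, `grY`), so has
`TT` of it (`l` odd); `A ^ (w - r) Y ^ r` has only exponents `≡ r` modulo `2`. So the odd part of `aeval ![A, Y] P'` vanishes: `∑_{r odd} f_r A ^ (w - r) Y ^ r = 0`, hence `f_r = 0` for odd `r` (`AY_ind`).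
So `P' = ∑_{j ≤ N} f_{2 j} X 0 ^ a (X 0 ^ 2) ^ (N - j) (X 1 ^ 2) ^ j` (`w - 2 j = a + 2 (N - j)` for `j ≤ N`; for `a ≥ 2` there are also `r = 2 j` with `N < j`, `2 j ≤ w`: AVOID this by assuming `a ≤ 1` as in the statement), and `X 0 ^ 2 = (X 0 ^ 2 - X 1 ^ 2) + X 1 ^ 2`:
expand by the binomial theorem: `P' = ∑_j g_j X 0 ^ a (X 0 ^ 2 - X 1 ^ 2) ^ (N - j) (X 1 ^ 2) ^ j`. Component `1` of `h.hecke`: `cA F G 1 = -(1/2) • (F + 3 G)`, `cY F G 1 = -(1/2) • (F - G)`, `hom_smul`: cancel `(-(1/2)) ^ w`.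
-/

namespace Pool.Agent.Lib.MP_06b9d2_tl2

open PowerSeries Pool.Agent.L1
open Pool.Agent.Lib.MP_06b9d2_tls (V U TT br In PC Ig tt EgG Two Tl)

/-! ### homogeneous polynomials in two variables -/

private theorem m1_sum (m : ℕ) (P : MvPolynomial (Fin 2) ℂ) (hP : P.IsHomogeneous m) :
    P = ∑ r ∈ Finset.range (m + 1), MvPolynomial.monomial (Finsupp.single 0 (m - r) + Finsupp.single 1 r)
      (MvPolynomial.coeff (Finsupp.single 0 (m - r) + Finsupp.single 1 r) P) := by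
  ext d
  rw [MvPolynomial.coeff_sum]
  simp only [MvPolynomial.coeff_monomial]
  by_cases hd : d 0 + d 1 = m
  · have hmem : d 1 ∈ Finset.range (m + 1) := by
      rw [Finset.mem_range]; omega
    have hdd : (Finsupp.single (0 : Fin 2) (m - d 1) + Finsupp.single 1 (d 1) : Fin 2 →₀ ℕ) = d := by
      ext i
      fin_cases i
      · simp; omega
      · simp
    rw [Finset.sum_eq_single_of_mem _ hmem]
    · rw [if_pos hdd, hdd]
    · intro r _ hr
      rw [if_neg]
      intro h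
      apply hr
      rw [← h]
      simp
  · have h0 : MvPolynomial.coeff d P = 0 := by
      apply hP.coeff_eq_zero
      rw [Finsupp.degree_eq_sum]
      simpa [Fin.sum_univ_two] using hd
    rw [h0]
    symm
    apply Finset.sum_eq_zero
    intro r hr
    rw [Finset.mem_range] at hr
    rw [if_neg]
    intro h
    apply hd
    rw [← h]
    simp
    omega

private theorem m1_aeval (m : ℕ) (P : MvPolynomial (Fin 2) ℂ) (hP : P.IsHomogeneous m) (F G : ℂ⟦X⟧) :
    MvPolynomial.aeval ![F, G] P = ∑ r ∈ Finset.range (m + 1),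
      (MvPolynomial.coeff (Finsupp.single 0 (m - r) + Finsupp.single 1 r) P) • (F ^ (m - r) * G ^ r) := by
  conv_lhs => rw [m1_sum m P hP]
  rw [map_sum]
  apply Finset.sum_congr rfl
  intro r hr
  rw [MvPolynomial.aeval_monomial]
  rw [Finsupp.prod_add_index' (fun _ => pow_zero _) (fun _ _ _ => pow_add _ _ _)]
  have h5 : ((Finsupp.single (0 : Fin 2) (m - r)).prod fun x => HPow.hPow ((![F, G] : Fin 2 → ℂ⟦X⟧) x)) =
      F ^ (m - r) := Finsupp.prod_single_index (h := fun x n => ((![F, G] : Fin 2 → ℂ⟦X⟧) x) ^ n) (pow_zero _)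
  have h6 : ((Finsupp.single (1 : Fin 2) r).prod fun x => HPow.hPow ((![F, G] : Fin 2 → ℂ⟦X⟧) x)) =
      G ^ r := Finsupp.prod_single_index (h := fun x n => ((![F, G] : Fin 2 → ℂ⟦X⟧) x) ^ n) (pow_zero _)
  rw [h5, h6, Algebra.smul_def]

/-- evaluation of the polynomial with the values in a power of the ring -/
private theorem m1_comp (F G : Fin 3 → ℂ⟦X⟧) (P : MvPolynomial (Fin 2) ℂ) (c : Fin 3) :
    (MvPolynomial.aeval ![F, G] P) c = MvPolynomial.aeval ![F c, G c] P := by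
  have h := MvPolynomial.comp_aeval_apply (![F, G] : Fin 2 → (Fin 3 → ℂ⟦X⟧))
    (Pi.evalAlgHom ℂ (fun _ : Fin 3 => ℂ⟦X⟧) c) P
  rw [Pi.evalAlgHom_apply] at h
  rw [h]
  congr 2
  funext i
  fin_cases i <;> rfl

/-- the polynomial of the form `moX` -/
private noncomputable def m1P (a N s : ℕ) : MvPolynomial (Fin 2) ℂ :=
  MvPolynomial.X 0 ^ a * (MvPolynomial.X 0 ^ 2 - MvPolynomial.X 1 ^ 2) ^ (N - s) * (MvPolynomial.X 1 ^ 2) ^ s

private theorem m1P_hom (a N s : ℕ) (hs : s ≤ N) : (m1P a N s).IsHomogeneous (2 * N + a) := by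
  have h1 : (MvPolynomial.X 0 ^ a : MvPolynomial (Fin 2) ℂ).IsHomogeneous (1 * a) :=
    (MvPolynomial.isHomogeneous_X ℂ (0 : Fin 2)).pow a
  have h2 : (MvPolynomial.X 0 ^ 2 : MvPolynomial (Fin 2) ℂ).IsHomogeneous (1 * 2) :=
    (MvPolynomial.isHomogeneous_X ℂ (0 : Fin 2)).pow 2
  have h3 : (MvPolynomial.X 1 ^ 2 : MvPolynomial (Fin 2) ℂ).IsHomogeneous (1 * 2) :=
    (MvPolynomial.isHomogeneous_X ℂ (1 : Fin 2)).pow 2
  have h4 := (h1.mul ((h2.sub h3).pow (N - s))).mul (h3.pow s)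
  have h5 : 1 * a + 1 * 2 * (N - s) + 1 * 2 * s = 2 * N + a := by omega
  rw [h5] at h4
  exact h4

private theorem m1P_aeval (a N s : ℕ) (F G : ℂ⟦X⟧) :
    MvPolynomial.aeval ![F, G] (m1P a N s) = moX F G a N s := by
  simp [m1P, moX]

/-! ### the change of basis -/

private theorem m1_bin (a N j : ℕ) (hj : j ≤ N) : ∃ c : ℕ → ℂ, ∀ F G : ℂ⟦X⟧,
    F ^ a * (F ^ 2) ^ (N - j) * (G ^ 2) ^ j = ∑ i ∈ Finset.range (N + 1), c i • moX F G a N i := by
  refine ⟨fun i => if j ≤ i then (((N - j).choose (i - j) : ℕ) : ℂ) else 0, fun F G => ?_⟩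
  have h1 : (F ^ 2) ^ (N - j) = (G ^ 2 + (F ^ 2 - G ^ 2)) ^ (N - j) := by
    congr 1
    ring
  rw [h1, add_pow]
  have h2 : ∑ i ∈ Finset.range (N + 1),
      (if j ≤ i then (((N - j).choose (i - j) : ℕ) : ℂ) else 0) • moX F G a N i =
      ∑ i ∈ Finset.Ico j (N + 1), (((N - j).choose (i - j) : ℕ) : ℂ) • moX F G a N i := by
    symm
    have hsub : Finset.Ico j (N + 1) ⊆ Finset.range (N + 1) := by
      intro i hi
      rw [Finset.mem_Ico] at hi
      rw [Finset.mem_range]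
      exact hi.2
    rw [← Finset.sum_subset hsub (f := fun i =>
      (if j ≤ i then (((N - j).choose (i - j) : ℕ) : ℂ) else 0) • moX F G a N i)]
    · apply Finset.sum_congr rfl
      intro i hi
      rw [Finset.mem_Ico] at hi
      rw [if_pos hi.1]
    · intro i hi hni
      rw [Finset.mem_range] at hi
      rw [Finset.mem_Ico] at hni
      rw [if_neg (by omega), zero_smul]
  rw [h2, Finset.sum_Ico_eq_sum_range, Finset.mul_sum, Finset.sum_mul]
  have h3 : N + 1 - j = N - j + 1 := by omega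
  rw [h3]
  apply Finset.sum_congr rfl
  intro i hi
  rw [Finset.mem_range] at hi
  have h4 : j + i - j = i := by omega
  have h5 : N - (j + i) = N - j - i := by omega
  rw [h4, moX, h5, Nat.cast_smul_eq_nsmul, nsmul_eq_mul, pow_add (G ^ 2) j i]
  ring

/-- homogeneous polynomials with only even powers of the second variable -/
private theorem m1_even (a N : ℕ) (ha : a ≤ 1) (f : ℕ → ℂ) (hf : ∀ r, r % 2 = 1 → r ≤ 2 * N + a → f r = 0) :
    ∃ g : ℕ → ℂ, ∀ F G : ℂ⟦X⟧,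
      ∑ r ∈ Finset.range (2 * N + a + 1), f r • (F ^ (2 * N + a - r) * G ^ r) =
        ∑ i ∈ Finset.range (N + 1), g i • moX F G a N i := by
  have hc : ∀ j : ℕ, ∃ c : ℕ → ℂ, j ≤ N → ∀ F G : ℂ⟦X⟧,
      F ^ a * (F ^ 2) ^ (N - j) * (G ^ 2) ^ j = ∑ i ∈ Finset.range (N + 1), c i • moX F G a N i := by
    intro j
    by_cases hj : j ≤ N
    · obtain ⟨c, hc⟩ := m1_bin a N j hj
      exact ⟨c, fun _ => hc⟩
    · exact ⟨0, fun h => absurd h hj⟩
  choose c hc using hc
  refine ⟨fun i => ∑ j ∈ Finset.range (N + 1), f (2 * j) * c j i, fun F G => ?_⟩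
  have h1 : ∑ r ∈ Finset.range (2 * N + a + 1), f r • (F ^ (2 * N + a - r) * G ^ r) =
      ∑ j ∈ Finset.range (N + 1), f (2 * j) • (F ^ (2 * N + a - 2 * j) * G ^ (2 * j)) := by
    symm
    rw [← Finset.sum_image (s := Finset.range (N + 1)) (g := fun j => 2 * j)
      (f := fun r => f r • (F ^ (2 * N + a - r) * G ^ r)) (by intro x _ y _ hxy; simpa using hxy)]
    apply Finset.sum_subset
    · intro r hr
      rw [Finset.mem_image] at hr
      obtain ⟨j, hj, rfl⟩ := hr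
      rw [Finset.mem_range] at hj ⊢
      omega
    · intro r hr hnr
      rw [Finset.mem_range] at hr
      rw [hf r ?_ (by omega), zero_smul]
      by_contra hcon
      apply hnr
      rw [Finset.mem_image]
      exact ⟨r / 2, by rw [Finset.mem_range]; omega, by omega⟩
  rw [h1]
  have h2 : ∀ j ∈ Finset.range (N + 1), f (2 * j) • (F ^ (2 * N + a - 2 * j) * G ^ (2 * j)) =
      ∑ i ∈ Finset.range (N + 1), (f (2 * j) * c j i) • moX F G a N i := by
    intro j hj
    rw [Finset.mem_range] at hj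
    have h3 : F ^ (2 * N + a - 2 * j) * G ^ (2 * j) = F ^ a * (F ^ 2) ^ (N - j) * (G ^ 2) ^ j := by
      rw [← pow_mul, ← pow_mul, ← pow_add]
      congr 2
      omega
    rw [h3, hc j (by omega) F G, Finset.smul_sum]
    apply Finset.sum_congr rfl
    intro i _
    rw [smul_smul]
  rw [Finset.sum_congr rfl h2, Finset.sum_comm]
  apply Finset.sum_congr rfl
  intro i _
  rw [Finset.sum_smul]

/-! ### parity -/

private theorem m1_rA {A Y : ℂ⟦X⟧} (h : Core A Y) : PowerSeries.rescale (-1 : ℂ) A = A := by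
  ext n
  rw [PowerSeries.coeff_rescale]
  rcases Nat.mod_two_eq_zero_or_one n with hn | hn
  · rw [Even.neg_one_pow (Nat.even_iff.2 hn), one_mul]
  · rw [h.grA n hn, mul_zero]

private theorem m1_rY {A Y : ℂ⟦X⟧} (h : Core A Y) : PowerSeries.rescale (-1 : ℂ) Y = -Y := by
  ext n
  rw [PowerSeries.coeff_rescale, map_neg]
  rcases Nat.mod_two_eq_zero_or_one n with hn | hn
  · rw [h.grY n hn, mul_zero, neg_zero]
  · rw [Odd.neg_one_pow (Nat.odd_iff.2 hn), neg_one_mul]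

private theorem m1_rTT {l : ℕ} (hl : l % 2 = 1) (e : ℂ) (w : ℕ) (f : ℂ⟦X⟧) :
    PowerSeries.rescale (-1 : ℂ) (TT l e w f) = TT l e w (PowerSeries.rescale (-1 : ℂ) f) := by
  ext n
  have hodd : Odd l := Nat.odd_iff.2 hl
  have h1 : ((-1 : ℂ)) ^ (l * n) = (-1) ^ n := by
    rw [pow_mul, hodd.neg_one_pow]
  rw [PowerSeries.coeff_rescale, Pool.Agent.Lib.MP_06b9d2_tls.TT_coeff,
    Pool.Agent.Lib.MP_06b9d2_tls.TT_coeff, PowerSeries.coeff_rescale, h1]
  split_ifs with hd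
  · obtain ⟨m, rfl⟩ := hd
    have hl0 : 0 < l := by omega
    have h2 : ((-1 : ℂ)) ^ (l * m) = (-1) ^ m := by
      rw [pow_mul, hodd.neg_one_pow]
    rw [Nat.mul_div_cancel_left m hl0, PowerSeries.coeff_rescale, h2]
    ring
  · ring

private theorem m1_rmo {A Y : ℂ⟦X⟧} (h : Core A Y) (a N s : ℕ) :
    PowerSeries.rescale (-1 : ℂ) (moX A Y a N s) = moX A Y a N s := by
  rw [moX, map_mul, map_mul, map_pow, map_pow, map_pow, map_sub, map_pow, map_pow, m1_rA h, m1_rY h, neg_sq]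

private theorem m1_rsmul (c : ℂ) (f : ℂ⟦X⟧) :
    PowerSeries.rescale (-1 : ℂ) (c • f) = c • PowerSeries.rescale (-1 : ℂ) f := by
  ext n
  rw [PowerSeries.coeff_rescale, PowerSeries.coeff_smul, PowerSeries.coeff_smul, PowerSeries.coeff_rescale,
    smul_eq_mul, smul_eq_mul]
  ring

theorem mat1 {A Y : ℂ⟦X⟧} (h : Core A Y) {l : ℕ} (hl : l.Prime) (hl2 : l ≠ 2) (a N s : ℕ) (ha : a ≤ 1) (hs : s ≤ N) :
    ∃ g : ℕ → ℂ,
      TT l l (2 * N + a) (moX A Y a N s) = ∑ j ∈ Finset.range (N + 1), g j • moX A Y a N j ∧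
      ∑ i : Option (Fin l), moX (br l l i A + 3 * br l l i Y) (br l l i A - br l l i Y) a N s =
        ∑ j ∈ Finset.range (N + 1), g j • moX (V l A + 3 * V l Y) (V l A - V l Y) a N j := by
  have hl0 : l ≠ 0 := hl.ne_zero
  have hlo : l % 2 = 1 := by
    rcases hl.eq_two_or_odd with h' | h'
    · exact absurd h' hl2
    · exact h'
  obtain ⟨P', hP', heq⟩ := h.hecke l hl hl2 (2 * N + a) (m1P a N s) (m1P_hom a N s hs)
  set f : ℕ → ℂ := fun r => MvPolynomial.coeff (Finsupp.single 0 (2 * N + a - r) + Finsupp.single 1 r) P' with hf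
  have hexp : ∀ F G : ℂ⟦X⟧, MvPolynomial.aeval ![F, G] P' =
      ∑ r ∈ Finset.range (2 * N + a + 1), f r • (F ^ (2 * N + a - r) * G ^ r) :=
    fun F G => m1_aeval (2 * N + a) P' hP' F G
  -- the component `0`
  have h0 := congrFun heq 0
  rw [Finset.sum_apply] at h0
  simp only [m1_comp] at h0
  have h0' : ∑ i : Option (Fin l), MvPolynomial.aeval ![br l l i A, br l l i Y] (m1P a N s) =
      MvPolynomial.aeval ![V l A, V l Y] P' := h0
  rw [Pool.Agent.Lib.MP_06b9d2_tls.br_sum l hl0 l (2 * N + a) A Y (m1P a N s) (m1P_hom a N s hs),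
    m1P_aeval] at h0'
  have hV : MvPolynomial.aeval ![V l A, V l Y] P' = V l (MvPolynomial.aeval ![A, Y] P') := by
    rw [hexp, hexp, Pool.Agent.Lib.MP_06b9d2_tls.V_sum hl0]
    apply Finset.sum_congr rfl
    intro r _
    rw [Pool.Agent.Lib.MP_06b9d2_tls.V_smul hl0, Pool.Agent.Lib.MP_06b9d2_tls.V_mul hl0,
      Pool.Agent.Lib.MP_06b9d2_tls.V_pow hl0, Pool.Agent.Lib.MP_06b9d2_tls.V_pow hl0]
  rw [hV] at h0'
  have hT : TT l l (2 * N + a) (moX A Y a N s) = MvPolynomial.aeval ![A, Y] P' :=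
    Pool.Agent.Lib.MP_06b9d2_tls.V_inj hl0 h0'
  -- the odd coefficients vanish
  have hodd : ∀ r ≤ 2 * N + a, f r * (1 - (-1) ^ r) = 0 := by
    apply AY_ind h (2 * N + a)
    have h1 : PowerSeries.rescale (-1 : ℂ) (MvPolynomial.aeval ![A, Y] P') = MvPolynomial.aeval ![A, Y] P' := by
      rw [← hT, m1_rTT hlo, m1_rmo h]
    rw [hexp, map_sum] at h1
    have h2 : ∀ r ∈ Finset.range (2 * N + a + 1),
        (f r * (1 - (-1) ^ r)) • (A ^ (2 * N + a - r) * Y ^ r) =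
        f r • (A ^ (2 * N + a - r) * Y ^ r) -
          PowerSeries.rescale (-1 : ℂ) (f r • (A ^ (2 * N + a - r) * Y ^ r)) := by
      intro r _
      rw [m1_rsmul, map_mul, map_pow, map_pow, m1_rA h, m1_rY h, neg_pow Y r]
      have h3 : ((-1 : ℂ⟦X⟧)) ^ r = C ((-1 : ℂ) ^ r) := by
        rw [map_pow, map_neg, map_one]
      rw [h3]
      simp only [PowerSeries.smul_eq_C_mul, map_mul, map_sub, map_one]
      ring
    rw [Finset.sum_congr rfl h2, Finset.sum_sub_distrib, h1, sub_self]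
  have hf0 : ∀ r, r % 2 = 1 → r ≤ 2 * N + a → f r = 0 := by
    intro r hr hrk
    have h1 := hodd r hrk
    rw [Odd.neg_one_pow (Nat.odd_iff.2 hr)] at h1
    have h2 : (1 - -1 : ℂ) ≠ 0 := by norm_num
    exact (mul_eq_zero.1 h1).resolve_right h2
  obtain ⟨g, hg⟩ := m1_even a N ha f hf0
  refine ⟨g, ?_, ?_⟩
  · rw [hT, hexp, hg]
  · -- the component `1`
    have h1 := congrFun heq 1
    rw [Finset.sum_apply] at h1
    simp only [m1_comp] at h1
    have h1' : ∑ i : Option (Fin l), MvPolynomial.aeval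
          ![(-(1 / 2) : ℂ) • (br l l i A + 3 * br l l i Y), (-(1 / 2) : ℂ) • (br l l i A - br l l i Y)]
          (m1P a N s) =
        MvPolynomial.aeval ![(-(1 / 2) : ℂ) • (V l A + 3 * V l Y), (-(1 / 2) : ℂ) • (V l A - V l Y)] P' := h1
    rw [Pool.Agent.Lib.MP_06b9d2_tls.hom_smul (2 * N + a) _ _ _ P' hP'] at h1'
    have h2 : ∀ i : Option (Fin l), MvPolynomial.aeval
          ![(-(1 / 2) : ℂ) • (br l l i A + 3 * br l l i Y), (-(1 / 2) : ℂ) • (br l l i A - br l l i Y)]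
          (m1P a N s) = (-(1 / 2) : ℂ) ^ (2 * N + a) •
            moX (br l l i A + 3 * br l l i Y) (br l l i A - br l l i Y) a N s := by
      intro i
      rw [Pool.Agent.Lib.MP_06b9d2_tls.hom_smul (2 * N + a) _ _ _ (m1P a N s) (m1P_hom a N s hs), m1P_aeval]
    rw [Finset.sum_congr rfl (fun i _ => h2 i), ← Finset.smul_sum] at h1'
    have h3 : ((-(1 / 2) : ℂ)) ^ (2 * N + a) ≠ 0 := pow_ne_zero _ (by norm_num)
    have h4 := smul_right_injective ℂ⟦X⟧ h3 h1'
    rw [h4, hexp, hg]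

end Pool.Agent.Lib.MP_06b9d2_tl2
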