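import Pool.Agent.Lib.MP_06b9d2_tl2.Mat3
import Pool.Agent.Lib.MP_06b9d2_tls.Br

/-!
Module TL2-Pc. The coefficients `pc` of the power sums. (Model: `MP_06b9d2_tls/Pc.lean`, here without `e`, `c`.)

Write `x_i = br l l i A`, `y_i = br l l i Y`, `β_i = x_i ^ 2 - y_i ^ 2`, `γ_i = y_i ^ 2`, `B = V l A ^ 2 - V l Y ^ 2`, `G = V l Y ^ 2`.
`mo_br`: `∑ i, x_i ^ a β_i ^ m γ_i ^ n = ∑_{j ≤ m + n} M (m + n) j n • V l A ^ a B ^ (m + n - j) G ^ j` (`br_sum` with `e = l` for the homogeneous polynomial of `moX`, `hM.eq` with `N = m + n`, `s = n`).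
`pc_sum`: `ub = β_i - B`, `vb = γ_i - G`: binomial theorem and `mo_br` for `(i, j)` in the place of `(m, n)`: the term is `M (i + j) r' j • V l A ^ a B ^ (i + j - r') G ^ r' * B ^ (m - i) G ^ (n - j)`, `r = r' + n - j` (reindex `r' = r + j - n`, terms with `r' > i + j` vanish by `hM.out`).
`pc_sym`: `hM.sym` in the definition of `pc` and `i + j - (r + j - n) = (m + n - r) + i - m`. `pc_deg`: `hM.out`. `pc_int`: `mat_int`, `mat_int'`, `hM.out` (the entries with `j > N` are `0`; in `pc` always `j ≤ i + j`).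
-/

namespace Pool.Agent.Lib.MP_06b9d2_tl2

open PowerSeries Pool.Agent.L1
open Pool.Agent.Lib.MP_06b9d2_tls (V U TT br In PC Ig tt EgG Two Tl)

variable {A Y : ℂ⟦X⟧} {l a : ℕ} {M : ℕ → ℕ → ℕ → ℂ}

private lemma V_moX {l : ℕ} (hl : l ≠ 0) (A Y : ℂ⟦X⟧) (a N j : ℕ) :
    V l (moX A Y a N j) = moX (V l A) (V l Y) a N j := by
  unfold moX
  rw [MP_06b9d2_tls.V_mul hl, MP_06b9d2_tls.V_mul hl, MP_06b9d2_tls.V_pow hl, MP_06b9d2_tls.V_pow hl,
    MP_06b9d2_tls.V_pow hl, MP_06b9d2_tls.V_sub hl, MP_06b9d2_tls.V_pow hl, MP_06b9d2_tls.V_pow hl]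

theorem mo_br (h : Core A Y) (hl : l.Prime) (hl2 : l ≠ 2) (hM : MatD l A Y a M) (m n : ℕ) :
    ∑ i : Option (Fin l), br l l i A ^ a * (br l l i A ^ 2 - br l l i Y ^ 2) ^ m * (br l l i Y ^ 2) ^ n =
      ∑ j ∈ Finset.range (m + n + 1), M (m + n) j n • moX (V l A) (V l Y) a (m + n) j := by
  have hl0 : l ≠ 0 := hl.ne_zero
  set P : MvPolynomial (Fin 2) ℂ :=
    MvPolynomial.X 0 ^ a * (MvPolynomial.X 0 ^ 2 - MvPolynomial.X 1 ^ 2) ^ m * (MvPolynomial.X 1 ^ 2) ^ n with hP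
  have hX : ∀ i : Fin 2, (MvPolynomial.X i : MvPolynomial (Fin 2) ℂ).IsHomogeneous 1 := fun i =>
    MvPolynomial.isHomogeneous_X ℂ i
  have h3 : ∀ i : Fin 2, ((MvPolynomial.X i : MvPolynomial (Fin 2) ℂ) ^ 2).IsHomogeneous 2 := fun i => by
    simpa using (hX i).pow 2
  have hhom : P.IsHomogeneous (2 * (m + n) + a) := by
    have h1 : P.IsHomogeneous (1 * a + 2 * m + 2 * n) :=
      (((hX 0).pow a).mul (((h3 0).sub (h3 1)).pow m)).mul ((h3 1).pow n)
    have h2 : 1 * a + 2 * m + 2 * n = 2 * (m + n) + a := by ring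
    rwa [h2] at h1
  have hev : ∀ F G : ℂ⟦X⟧, MvPolynomial.aeval ![F, G] P = F ^ a * (F ^ 2 - G ^ 2) ^ m * (G ^ 2) ^ n := by
    intro F G
    rw [hP]
    simp [map_mul, map_pow, map_sub, MvPolynomial.aeval_X]
  have h1 := MP_06b9d2_tls.br_sum l hl0 l (2 * (m + n) + a) A Y P hhom
  simp only [hev] at h1
  rw [h1]
  have h2 : A ^ a * (A ^ 2 - Y ^ 2) ^ m * (Y ^ 2) ^ n = moX A Y a (m + n) n := by
    unfold moX
    rw [Nat.add_sub_cancel]
  rw [h2, hM.eq (m + n) n (by omega), MP_06b9d2_tls.V_sum hl0]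
  refine Finset.sum_congr rfl fun j _ => ?_
  rw [MP_06b9d2_tls.V_smul hl0, V_moX hl0]

private lemma expand_aux (x β γ B G : ℂ⟦X⟧) (m n : ℕ) :
    x * (β - B) ^ m * (γ - G) ^ n =
      ∑ i ∈ Finset.range (m + 1), ∑ j ∈ Finset.range (n + 1),
        ((m.choose i : ℂ) * (n.choose j : ℂ) * (-1) ^ (m - i) * (-1) ^ (n - j)) •
          ((x * β ^ i * γ ^ j) * (B ^ (m - i) * G ^ (n - j))) := by
  have h1 : ∀ (β B : ℂ⟦X⟧) (m : ℕ), (β - B) ^ m = ∑ i ∈ Finset.range (m + 1),
      C ((-1) ^ (m - i) * (m.choose i : ℂ)) * (β ^ i * B ^ (m - i)) := by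
    intro β B m
    rw [sub_eq_add_neg, add_pow]
    refine Finset.sum_congr rfl fun i _ => ?_
    rw [neg_pow, map_mul, map_pow, map_natCast, map_neg, map_one]
    ring
  rw [h1 β B m, h1 γ G n, mul_assoc, Finset.sum_mul_sum, Finset.mul_sum]
  refine Finset.sum_congr rfl fun i _ => ?_
  rw [Finset.mul_sum]
  refine Finset.sum_congr rfl fun j _ => ?_
  rw [PowerSeries.smul_eq_C_mul]
  simp only [map_mul]
  ring

private lemma sum3 (s t u : Finset ℕ) (f : ℕ → ℕ → ℕ → ℂ⟦X⟧) :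
    ∑ p ∈ s, ∑ q ∈ t, ∑ r ∈ u, f p q r = ∑ r ∈ u, ∑ p ∈ s, ∑ q ∈ t, f p q r := by
  calc _ = ∑ p ∈ s, ∑ r ∈ u, ∑ q ∈ t, f p q r := Finset.sum_congr rfl (fun p _ => Finset.sum_comm)
    _ = _ := Finset.sum_comm

private lemma moX_shift (F G : ℂ⟦X⟧) (a m n i j r : ℕ) (hi : i ≤ m) (hj : j ≤ n) (hr : r ≤ i + j) :
    moX F G a (i + j) r * ((F ^ 2 - G ^ 2) ^ (m - i) * (G ^ 2) ^ (n - j)) =
      moX F G a (m + n) (n - j + r) := by
  unfold moX
  have h1 : m + n - (n - j + r) = (i + j - r) + (m - i) := by omega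
  rw [h1, pow_add, pow_add (G ^ 2)]
  ring

private lemma sum_shift (F G : ℂ⟦X⟧) (a m n i j : ℕ) (hi : i ≤ m) (hj : j ≤ n) (f : ℕ → ℂ)
    (hf : ∀ r, i + j < r → f r = 0) :
    (∑ r ∈ Finset.range (i + j + 1), f r • moX F G a (i + j) r) *
        ((F ^ 2 - G ^ 2) ^ (m - i) * (G ^ 2) ^ (n - j)) =
      ∑ r ∈ Finset.range (m + n + 1), (if n ≤ r + j then f (r + j - n) else 0) • moX F G a (m + n) r := by
  have h1 : m + n + 1 = (n - j) + (m + j + 1) := by omega
  rw [h1, Finset.sum_range_add _ (n - j) (m + j + 1), Finset.sum_mul]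
  have h2 : ∑ x ∈ Finset.range (n - j), (if n ≤ x + j then f (x + j - n) else 0) • moX F G a (m + n) x = 0 := by
    refine Finset.sum_eq_zero fun x hx => ?_
    rw [Finset.mem_range] at hx
    rw [if_neg (by omega), zero_smul]
  rw [h2, zero_add]
  have h3 : Finset.range (i + j + 1) ⊆ Finset.range (m + j + 1) := by
    intro x hx
    rw [Finset.mem_range] at hx ⊢
    omega
  rw [← Finset.sum_subset h3]
  · refine Finset.sum_congr rfl fun r hr => ?_
    rw [Finset.mem_range] at hr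
    rw [if_pos (by omega), smul_mul_assoc, moX_shift F G a m n i j r hi hj (by omega)]
    congr 2
    omega
  · intro x hx hx'
    rw [Finset.mem_range] at hx hx'
    rw [if_pos (by omega)]
    have h4 : n - j + x + j - n = x := by omega
    rw [h4, hf x (by omega), zero_smul]

theorem pc_sum (h : Core A Y) (hl : l.Prime) (hl2 : l ≠ 2) (hM : MatD l A Y a M) (m n : ℕ) :
    ∑ i : Option (Fin l), br l l i A ^ a * ub l A Y i ^ m * vb l Y i ^ n =
      ∑ r ∈ Finset.range (m + n + 1), pc M m n r • moX (V l A) (V l Y) a (m + n) r := by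
  set F := V l A with hF
  set G := V l Y with hG
  have hexp : ∀ i : Option (Fin l), br l l i A ^ a * ub l A Y i ^ m * vb l Y i ^ n =
      ∑ p ∈ Finset.range (m + 1), ∑ q ∈ Finset.range (n + 1),
        ((m.choose p : ℂ) * (n.choose q : ℂ) * (-1) ^ (m - p) * (-1) ^ (n - q)) •
          ((br l l i A ^ a * (br l l i A ^ 2 - br l l i Y ^ 2) ^ p * (br l l i Y ^ 2) ^ q) *
            ((F ^ 2 - G ^ 2) ^ (m - p) * (G ^ 2) ^ (n - q))) := by
    intro i
    unfold ub vb
    exact expand_aux _ _ _ _ _ m n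
  simp only [hexp]
  rw [Finset.sum_comm]
  have hstep : ∀ p ∈ Finset.range (m + 1),
      ∑ i : Option (Fin l), ∑ q ∈ Finset.range (n + 1),
        ((m.choose p : ℂ) * (n.choose q : ℂ) * (-1) ^ (m - p) * (-1) ^ (n - q)) •
          ((br l l i A ^ a * (br l l i A ^ 2 - br l l i Y ^ 2) ^ p * (br l l i Y ^ 2) ^ q) *
            ((F ^ 2 - G ^ 2) ^ (m - p) * (G ^ 2) ^ (n - q))) =
      ∑ q ∈ Finset.range (n + 1), ∑ r ∈ Finset.range (m + n + 1),
        ((m.choose p : ℂ) * (n.choose q : ℂ) * (-1) ^ (m - p) * (-1) ^ (n - q) *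
          (if n ≤ r + q then M (p + q) (r + q - n) q else 0)) • moX F G a (m + n) r := by
    intro p hp
    rw [Finset.mem_range] at hp
    rw [Finset.sum_comm]
    refine Finset.sum_congr rfl fun q hq => ?_
    rw [Finset.mem_range] at hq
    rw [← Finset.smul_sum, ← Finset.sum_mul, mo_br h hl hl2 hM p q, ← hF, ← hG,
      sum_shift F G a m n p q (by omega) (by omega) (fun r => M (p + q) r q)
        (fun r hr => hM.out (p + q) r q hr), Finset.smul_sum]
    refine Finset.sum_congr rfl fun r _ => ?_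
    rw [smul_smul]
  rw [Finset.sum_congr rfl hstep, sum3]
  refine Finset.sum_congr rfl fun r _ => ?_
  unfold pc
  rw [Finset.sum_smul]
  refine Finset.sum_congr rfl fun p _ => ?_
  rw [Finset.sum_smul]

theorem pc_sym (hM : MatD l A Y a M) (m n r : ℕ) (hr : r ≤ m + n) :
    pc M n m (m + n - r) = pc M m n r := by
  unfold pc
  rw [Finset.sum_comm]
  refine Finset.sum_congr rfl fun i hi => ?_
  refine Finset.sum_congr rfl fun j hj => ?_
  rw [Finset.mem_range] at hi hj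
  have key : (if m ≤ m + n - r + i then M (j + i) (m + n - r + i - m) i else 0) =
      (if n ≤ r + j then M (i + j) (r + j - n) j else 0) := by
    have hji : j + i = i + j := add_comm j i
    rw [hji]
    by_cases h1 : m ≤ m + n - r + i
    · rw [if_pos h1]
      by_cases h2 : n ≤ r + j
      · rw [if_pos h2]
        have hR : r + j - n ≤ i + j := by omega
        have hs := hM.sym (i + j) (r + j - n) j hR (by omega)
        have e1 : i + j - (r + j - n) = m + n - r + i - m := by omega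
        have e2 : i + j - j = i := by omega
        rw [e1, e2] at hs
        exact hs
      · rw [if_neg h2]
        exact hM.out (i + j) (m + n - r + i - m) i (by omega)
    · rw [if_neg h1]
      by_cases h2 : n ≤ r + j
      · rw [if_pos h2, hM.out (i + j) (r + j - n) j (by omega)]
      · rw [if_neg h2]
  rw [key]
  ring

theorem pc_deg (hM : MatD l A Y a M) (m n r : ℕ) (hr : m + n < r) : pc M m n r = 0 := by
  unfold pc
  refine Finset.sum_eq_zero fun i hi => ?_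
  refine Finset.sum_eq_zero fun j hj => ?_
  rw [Finset.mem_range] at hi hj
  rw [if_pos (by omega), hM.out (i + j) (r + j - n) j (by omega), mul_zero]

private noncomputable def RR : Subring ℂ := (Int.castRingHom ℂ).range

private lemma mem_RR (z : ℤ) : (z : ℂ) ∈ RR := ⟨z, rfl⟩

private lemma mem_RR_nat (z : ℕ) : (z : ℂ) ∈ RR := by
  have h1 := mem_RR (z : ℤ)
  rwa [Int.cast_natCast] at h1

theorem pc_int (h : Core A Y) (hl : l.Prime) (hl2 : l ≠ 2) (hM : MatD l A Y a M) (m n r : ℕ) :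
    ∃ z : ℤ, pc M m n r = (z : ℂ) := by
  have h64 : (64 : ℂ) ∈ RR := mem_RR_nat 64
  have hMr : ∀ i j R : ℕ, M (i + j) R j ∈ RR := by
    intro i j R
    by_cases hR : R ≤ i + j
    · rcases le_total R j with h1 | h1
      · obtain ⟨z, hz⟩ := mat_int h hl hl2 hM (i + j) R j h1 (by omega)
        rw [hz]
        exact RR.mul_mem (RR.pow_mem h64 _) (mem_RR z)
      · obtain ⟨z, hz⟩ := mat_int' h hl hl2 hM (i + j) R j h1 hR
        rw [hz]
        exact RR.mul_mem (RR.pow_mem h64 _) (mem_RR z)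
    · rw [hM.out (i + j) R j (by omega)]
      exact RR.zero_mem
  have hmem : pc M m n r ∈ RR := by
    unfold pc
    refine RR.sum_mem fun i _ => RR.sum_mem fun j _ => ?_
    refine RR.mul_mem (RR.mul_mem (RR.mul_mem (RR.mul_mem (mem_RR_nat _) (mem_RR_nat _))
      (RR.pow_mem (RR.neg_mem RR.one_mem) _)) (RR.pow_mem (RR.neg_mem RR.one_mem) _)) ?_
    split_ifs
    · exact hMr _ _ _
    · exact RR.zero_mem
  obtain ⟨q, hq⟩ := hmem
  exact ⟨q, hq.symm⟩

end Pool.Agent.Lib.MP_06b9d2_tl2
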