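import Pool.Agent.Lib.MP_06b9d2_tl2.Cub

/-!
Module TL2-Qd. The integral series. (Model: `MP_06b9d2_tls/Qd.lean`.)

`qd_ex`: `k = κ`, `a = 1 + 24 α` from `h.int`; `gra`, `grk`: `h.grA`, `h.grY` and injectivity of `ℤ → ℂ`; `r1`: `h.b1` (`V 2 (map f) = map (E f)`, `V_eq`, `PowerSeries.map` is injective), `r2`: `h.b2`: `64 map (k ^ 2) = 8 V 2 (8 map k (map a + 8 map k))`.
`mono_co`: parity: a product of series with only even (only odd) exponents: `coeff n (k ^ i * a ^ j) = 0` if `n` and `i` have different parity (induction on `i`, `j`, `coeff_mul`). `mono_ev`: `k ^ (2 t) * a ^ j = E ((k (a + 8 k)) ^ t (a + 24 k) ^ j)` (`r1`, `r2`, `E` is a ring homomorphism), coefficient of `x ^ (2 n)`.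
`E_coeff`: `coeff (2 n) (E f) = coeff n f`, `coeff (2 n + 1) (E f) = 0`. `a_sq`: `a = 1 + 24 α`: `a ^ 2 = 1 + 48 (α + 12 α ^ 2)`, `a ^ 4 = 1 + 96 (..)`. `a2`: `coeff 2 a = 24`: from `r1`: `coeff 2 a = coeff 1 (a + 24 k) = 0 + 24`. `cubFZ`: `cubF` over `ℤ`.
-/

namespace Pool.Agent.Lib.MP_06b9d2_tl2

open PowerSeries Pool.Agent.L1
open Pool.Agent.Lib.MP_06b9d2_tls (V U TT br In PC Ig tt EgG Two Tl)

variable {A Y : ℂ⟦X⟧} {a k : ℤ⟦X⟧}

private lemma qd_inj {f g : ℤ⟦X⟧}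
    (h : PowerSeries.map (Int.castRingHom ℂ) f = PowerSeries.map (Int.castRingHom ℂ) g) : f = g := by
  ext n
  have h1 := congrArg (coeff n) h
  rw [PowerSeries.coeff_map, PowerSeries.coeff_map] at h1
  simpa using h1

private lemma qd_V (f : ℤ⟦X⟧) : V 2 (PowerSeries.map (Int.castRingHom ℂ) f) =
    PowerSeries.map (Int.castRingHom ℂ) (E f) := by
  rw [Pool.Agent.Lib.MP_06b9d2_tls.V_eq 2 two_ne_zero, E, PowerSeries.map_expand]

theorem qd_ex (h : Core A Y) : ∃ a k : ℤ⟦X⟧, Qd A Y a k := by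
  obtain ⟨α, κ, hA, hY, hα0, hκ0, hκ1⟩ := h.int
  have hA' : A = PowerSeries.map (Int.castRingHom ℂ) (1 + 24 * α) := by
    rw [hA]
    simp only [map_add, map_mul, map_one, map_ofNat]
  refine ⟨1 + 24 * α, κ, hA', hY, ⟨α, rfl, hα0⟩, ?_, ?_, hκ1, ?_, ?_⟩
  · intro n hn
    have h1 := h.grA n hn
    rw [hA', PowerSeries.coeff_map] at h1
    have h2 : ((coeff n (1 + 24 * α) : ℤ) : ℂ) = 0 := h1
    exact_mod_cast h2
  · intro n hn
    have h1 := h.grY n hn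
    rw [hY, show (8 : ℂ⟦X⟧) = C 8 from (map_ofNat (C : ℂ →+* ℂ⟦X⟧) 8).symm, PowerSeries.coeff_C_mul,
      PowerSeries.coeff_map] at h1
    simpa using h1
  · apply qd_inj
    have h1 := h.b1
    rw [hA', hY] at h1
    rw [← qd_V]
    rw [h1.trans (congrArg (V 2) _)]
    simp only [map_add, map_mul, map_one, map_ofNat]
    ring
  · apply qd_inj
    have h1 := h.b2
    rw [hA', hY] at h1
    rw [← qd_V]
    have h64 : (64 : ℂ⟦X⟧) ≠ 0 := by
      rw [show (64 : ℂ⟦X⟧) = C 64 from (map_ofNat (C : ℂ →+* ℂ⟦X⟧) 64).symm]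
      intro h0
      have := congrArg (coeff 0) h0
      rw [PowerSeries.coeff_zero_C] at this
      simp at this
    apply mul_left_cancel₀ h64
    have h2 : (64 : ℂ⟦X⟧) * PowerSeries.map (Int.castRingHom ℂ) (κ ^ 2) =
        (8 * PowerSeries.map (Int.castRingHom ℂ) κ) ^ 2 := by
      rw [map_pow]
      ring
    have h3 : (64 : ℂ⟦X⟧) * V 2 (PowerSeries.map (Int.castRingHom ℂ) (κ * (1 + 24 * α + 8 * κ))) =
        8 * V 2 (8 * PowerSeries.map (Int.castRingHom ℂ) κ *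
          (PowerSeries.map (Int.castRingHom ℂ) (1 + 24 * α) + 8 * PowerSeries.map (Int.castRingHom ℂ) κ)) := by
      have e8 : (8 : ℂ⟦X⟧) = V 2 8 := (Pool.Agent.Lib.MP_06b9d2_tls.V_ofNat two_ne_zero 8).symm
      have e64 : (64 : ℂ⟦X⟧) = V 2 64 := (Pool.Agent.Lib.MP_06b9d2_tls.V_ofNat two_ne_zero 64).symm
      conv_lhs => rw [e64, ← Pool.Agent.Lib.MP_06b9d2_tls.V_mul two_ne_zero]
      conv_rhs => rw [show ∀ x : ℂ⟦X⟧, 8 * V 2 x = V 2 8 * V 2 x from fun x => by rw [← e8],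
        ← Pool.Agent.Lib.MP_06b9d2_tls.V_mul two_ne_zero]
      congr 1
      simp only [map_add, map_mul, map_one, map_ofNat]
      ring
    rw [h2, h3]
    exact h1

theorem E_mul (f g : ℤ⟦X⟧) : E (f * g) = E f * E g := by
  unfold E
  rw [map_mul]

theorem E_add (f g : ℤ⟦X⟧) : E (f + g) = E f + E g := by
  unfold E
  rw [map_add]

theorem E_pow (f : ℤ⟦X⟧) (n : ℕ) : E (f ^ n) = E f ^ n := by
  unfold E
  rw [map_pow]

theorem E_int (z : ℤ) : E (z : ℤ⟦X⟧) = z := by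
  unfold E
  rw [map_intCast]

theorem E_even (f : ℤ⟦X⟧) (n : ℕ) : coeff (2 * n) (E f) = coeff n f := by
  unfold E
  rw [PowerSeries.coeff_expand, if_pos (dvd_mul_right 2 n), Nat.mul_div_cancel_left n (by norm_num)]

theorem E_odd (f : ℤ⟦X⟧) (n : ℕ) (hn : n % 2 = 1) : coeff n (E f) = 0 := by
  unfold E
  rw [PowerSeries.coeff_expand, if_neg (by omega)]

private lemma par_mul {f g : ℤ⟦X⟧} {i j : ℕ} (hf : ∀ n, n % 2 ≠ i % 2 → coeff n f = 0)
    (hg : ∀ n, n % 2 ≠ j % 2 → coeff n g = 0) : ∀ n, n % 2 ≠ (i + j) % 2 → coeff n (f * g) = 0 := by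
  intro n hn
  rw [PowerSeries.coeff_mul]
  refine Finset.sum_eq_zero fun p hp => ?_
  rw [Finset.HasAntidiagonal.mem_antidiagonal] at hp
  by_cases h1 : p.1 % 2 = i % 2
  · have h2 : p.2 % 2 ≠ j % 2 := by omega
    rw [hg p.2 h2, mul_zero]
  · rw [hf p.1 h1, zero_mul]

private lemma par_pow {f : ℤ⟦X⟧} {i : ℕ} (hf : ∀ n, n % 2 ≠ i % 2 → coeff n f = 0) (m : ℕ) :
    ∀ n, n % 2 ≠ (m * i) % 2 → coeff n (f ^ m) = 0 := by
  induction m with
  | zero =>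
    intro n hn
    rw [pow_zero, PowerSeries.coeff_one, if_neg]
    rintro rfl
    simp at hn
  | succ m ih =>
    intro n hn
    rw [pow_succ]
    exact par_mul ih hf n (by rw [← Nat.succ_mul]; exact hn)

theorem mono_co (q : Qd A Y a k) (n i j : ℕ) (hn : n % 2 ≠ i % 2) : coeff n (k ^ i * a ^ j) = 0 := by
  have hk : ∀ n, n % 2 ≠ 1 % 2 → coeff n k = 0 := fun n hn => q.grk n (by omega)
  have ha : ∀ n, n % 2 ≠ 0 % 2 → coeff n a = 0 := fun n hn => q.gra n (by omega)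
  have h1 := par_mul (par_pow hk i) (par_pow ha j)
  refine h1 n ?_
  simpa using hn

theorem mono_ev (q : Qd A Y a k) (n t j : ℕ) :
    coeff (2 * n) (k ^ (2 * t) * a ^ j) = coeff n ((k * (a + 8 * k)) ^ t * (a + 24 * k) ^ j) := by
  have h1 : k ^ (2 * t) * a ^ j = E ((k * (a + 8 * k)) ^ t * (a + 24 * k) ^ j) := by
    rw [E_mul, E_pow, E_pow, ← q.r2, ← q.r1, pow_mul]
  rw [h1, E_even]

theorem a_sq (q : Qd A Y a k) : ∃ β γ : ℤ⟦X⟧, a ^ 2 = 1 + 48 * β ∧ a ^ 4 = 1 + 96 * γ := by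
  obtain ⟨α, hα, _⟩ := q.a24
  refine ⟨α + 12 * α ^ 2, (α + 12 * α ^ 2) + 24 * (α + 12 * α ^ 2) ^ 2, ?_, ?_⟩
  · rw [hα]; ring
  · rw [hα]; ring

theorem a_cc (q : Qd A Y a k) : coeff 0 a = 1 ∧ coeff 1 a = 0 ∧ coeff 2 a = 24 ∧ coeff 0 k = 0 ∧ coeff 2 k = 0 := by
  obtain ⟨α, hα, hα0⟩ := q.a24
  have h1 : coeff 1 a = 0 := q.gra 1 rfl
  refine ⟨?_, h1, ?_, q.grk 0 rfl, q.grk 2 rfl⟩
  · rw [hα, PowerSeries.coeff_zero_eq_constantCoeff_apply]
    simp [hα0]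
  · rw [q.r1, show (2 : ℕ) = 2 * 1 from rfl, E_even, map_add,
      show (24 : ℤ⟦X⟧) = C 24 from (map_ofNat (C : ℤ →+* ℤ⟦X⟧) 24).symm, PowerSeries.coeff_C_mul, q.k1, h1]
    norm_num

theorem moX_V (h : Core A Y) (q : Qd A Y a k) (e N s : ℕ) :
    moX A Y e N s = V 2 (PowerSeries.map (Int.castRingHom ℂ) (fs a k e N s)) := by
  rw [← cubF h, q.hA, q.hY]
  congr 1
  unfold fs
  simp only [map_add, map_sub, map_mul, map_pow, map_ofNat]
  congr 1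
  · congr 1
    ring
  · congr 1
    ring

end Pool.Agent.Lib.MP_06b9d2_tl2
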