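import Pool.Agent.Lib.MP_06b9d2_tl2.Val
import Pool.Agent.Lib.MP_06b9d2_tl2.Lin3
import Pool.Agent.Lib.MP_06b9d2_tls.PCm
import Pool.Agent.Lib.MP_06b9d2_tls.Fac

/-!
Module TL2-Three. The three cusp inequality. (Model: `MP_06b9d2_tls/Four.lean`, and `PC_lin` of `MP_06b9d2_tls/PCm.lean`; `In_mul`, `PC_mul`, `PC_prod`, `In_..` of `MP_06b9d2_tls.PCm` and `hom_fac` of `MP_06b9d2_tls.Fac` are used as they are.)

`PC_lin`: the constant coefficient of `α • A + β • Y` is `α`; for `n ≠ 0` the coefficient is `α coeff n (A - 1) + β coeff n Y`. If `v (8 β) ≤ v α` take `c = α`; if `v α < v (8 β)` take `c = 8 β`, attained at the `n` of `hB.yP`.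
`three`: `P = C c * ∏_{k < m} (C (α k) X 0 + C (β k) X 1)` (`hom_fac`). Component `0` of `ev .. P` is `c ∏ (α A + β Y)`: content `c ∏ c_k`, `v c_k = max (v α) (v (8 β)) =: m_k`, so `v c ∏ m_k ≤ (v pr) ^ (a 0)`. Component `1`:
`α (-(1/2)) (A + 3 Y) + β (-(1/2)) (A - Y) = -(1/2) ((α + β) A + (3 α - β) Y)`: content of valuation `v (1/2) mx O α β`; component `2`: `-(1/2) ((α - β) A + (3 α + β) Y)`: `v (1/2) mx O α (-β)`. So
`v c ∏_k mx O (α k) (± β k) ≤ (v pr) ^ (a 1 or a 2) (v 2) ^ m`. Each coefficient of `P` has valuation `≤ v c ∏_k g_k`, `g_k = max (v α) (v β)`. By `lin3`: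
`(v coeff) ^ 4 (v 2) ^ (6 m) ≤ (v c ∏ m_k) ^ 2 (v c ∏ mx) (v c ∏ mx') ≤ (v pr) ^ (2 a 0 + a 1 + a 2) (v 2) ^ (2 m)`, `v 2 = (v pr) ^ 2`: so `(v coeff) ^ 4 (v pr) ^ (8 m) ≤ (v pr) ^ (2 a 0 + a 1 + a 2) ≤ (v pr) ^ (4 g + 8 m)`, hence
`(v coeff) ^ 4 ≤ (v pr ^ g) ^ 4`.
-/

namespace Pool.Agent.Lib.MP_06b9d2_tl2

open PowerSeries Pool.Agent.L1
open Pool.Agent.Lib.MP_06b9d2_tls (V U TT br In PC Ig tt EgG Two Tl)

private theorem PC_smul' {O : ValuationSubring ℂ} {F : ℂ⟦X⟧} {c : ℂ} (hF : PC O F c) (x : ℂ) :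
    PC O (x • F) (x * c) := by
  refine ⟨MP_06b9d2_tls.In_smul hF.1 x, ?_⟩
  obtain ⟨n, hn⟩ := hF.2
  refine ⟨n, ?_⟩
  rw [coeff_smul, smul_eq_mul, map_mul, map_mul, hn]

private theorem PC_le {O : ValuationSubring ℂ} {F : ℂ⟦X⟧} {c r : ℂ} (hF : PC O F c) (h : In O F r) :
    O.valuation c ≤ O.valuation r := by
  obtain ⟨n, hn⟩ := hF.2
  rw [← hn]
  exact h n

private theorem coeff_lin (O : ValuationSubring ℂ) (α β : ℂ) (d : Fin 2 →₀ ℕ) :
    O.valuation (MvPolynomial.coeff d (MvPolynomial.C α * MvPolynomial.X 0 +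
      MvPolynomial.C β * MvPolynomial.X 1)) ≤ max (O.valuation α) (O.valuation β) := by
  rw [MvPolynomial.coeff_add, MvPolynomial.coeff_C_mul, MvPolynomial.coeff_C_mul,
    MvPolynomial.coeff_X, MvPolynomial.coeff_X]
  refine Valuation.map_add_le _ ?_ ?_
  · refine le_trans ?_ (le_max_left _ _)
    rw [map_mul]
    split_ifs
    · rw [map_one, mul_one]
    · rw [map_zero, mul_zero]
      exact zero_le
  · refine le_trans ?_ (le_max_right _ _)
    rw [map_mul]
    split_ifs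
    · rw [map_one, mul_one]
    · rw [map_zero, mul_zero]
      exact zero_le

private theorem coeff_prod_le {O : ValuationSubring ℂ} {ι : Type*} (s : Finset ι)
    (L : ι → MvPolynomial (Fin 2) ℂ) (g : ι → O.ValueGroup)
    (h : ∀ i ∈ s, ∀ d, O.valuation (MvPolynomial.coeff d (L i)) ≤ g i) :
    ∀ d, O.valuation (MvPolynomial.coeff d (∏ i ∈ s, L i)) ≤ ∏ i ∈ s, g i := by
  classical
  induction s using Finset.induction_on with
  | empty =>
    intro d
    rw [Finset.prod_empty, Finset.prod_empty, MvPolynomial.coeff_one]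
    split_ifs
    · rw [map_one]
    · rw [map_zero]
      exact zero_le
  | insert a s ha ih =>
    intro d
    rw [Finset.prod_insert ha, Finset.prod_insert ha, MvPolynomial.coeff_mul]
    refine Valuation.map_sum_le _ fun i _ => ?_
    rw [map_mul]
    exact mul_le_mul' (h a (Finset.mem_insert_self a s) _)
      (ih (fun i hi => h i (Finset.mem_insert_of_mem hi)) _)

private theorem ev_fac (F G : Fin 3 → ℂ⟦X⟧) (m : ℕ) (c : ℂ) (α β : Fin m → ℂ) (j : Fin 3) :
    ev F G (MvPolynomial.C c *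
      ∏ k, (MvPolynomial.C (α k) * MvPolynomial.X 0 + MvPolynomial.C (β k) * MvPolynomial.X 1)) j =
    c • ∏ k, (α k • F j + β k • G j) := by
  unfold ev
  rw [map_mul, map_prod, MvPolynomial.aeval_C, Pi.mul_apply, Finset.prod_apply]
  have h1 : (algebraMap ℂ (Fin 3 → ℂ⟦X⟧)) c j = algebraMap ℂ (ℂ⟦X⟧) c := rfl
  rw [h1, ← Algebra.smul_def]
  congr 1
  refine Finset.prod_congr rfl fun k _ => ?_
  rw [map_add, map_mul, map_mul, MvPolynomial.aeval_C, MvPolynomial.aeval_C, MvPolynomial.aeval_X,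
    MvPolynomial.aeval_X, Pi.add_apply, Pi.mul_apply, Pi.mul_apply]
  have h2 : ∀ x : ℂ, (algebraMap ℂ (Fin 3 → ℂ⟦X⟧)) x j = algebraMap ℂ (ℂ⟦X⟧) x := fun _ => rfl
  rw [h2, h2, ← Algebra.smul_def, ← Algebra.smul_def]
  rfl

private theorem lin_j (A Y : ℂ⟦X⟧) (e α β : ℂ) :
    α • ((-(1 / 2) : ℂ) • (A + 3 * Y)) + β • ((e * (-(1 / 2)) : ℂ) • (A - Y)) =
      (-(1 / 2) : ℂ) • ((α + e * β) • A + (3 * α - e * β) • Y) := by
  have h2 : (3 : ℂ⟦X⟧) * Y = (3 : ℂ) • Y := by
    rw [Algebra.smul_def, map_ofNat]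
  rw [h2]
  simp only [smul_add, smul_sub, smul_smul]
  have e1 : α * (-(1 / 2) : ℂ) = (-(1 / 2) : ℂ) * α := by ring
  have e2 : β * (e * (-(1 / 2)) : ℂ) = (-(1 / 2) : ℂ) * (e * β) := by ring
  rw [e2]
  have e3 : α * ((-(1 / 2) : ℂ) * 3) = (-(1 / 2) : ℂ) * (3 * α) := by ring
  rw [e1, e3]
  rw [mul_add (-(1 / 2) : ℂ), mul_sub (-(1 / 2) : ℂ), add_smul, sub_smul]
  abel

private theorem cusp_le {O : ValuationSubring ℂ} {F G : ℂ⟦X⟧} {m : ℕ} {c r : ℂ} {α β : Fin m → ℂ}
    {t : Fin m → O.ValueGroup}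
    (h : ∀ k, ∃ x : ℂ, PC O (α k • F + β k • G) x ∧ O.valuation x = t k)
    (hr : In O (c • ∏ k, (α k • F + β k • G)) r) :
    O.valuation c * ∏ k, t k ≤ O.valuation r := by
  choose x hx ht using h
  have h1 := PC_smul' (MP_06b9d2_tls.PC_prod Finset.univ fun k _ => hx k) c
  have h2 := PC_le h1 hr
  rw [map_mul, map_prod] at h2
  rwa [Finset.prod_congr rfl fun k _ => ht k] at h2

theorem PC_lin {O : ValuationSubring ℂ} (h2 : O.valuation 2 < 1) {A Y : ℂ⟦X⟧} (hB : Bs O A Y) (α β : ℂ) :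
    ∃ c : ℂ, PC O (α • A + β • Y) c ∧ O.valuation c = max (O.valuation α) (O.valuation (8 * β)) := by
  have h80 : O.valuation (8 : ℂ) ≠ 0 := (Valuation.ne_zero_iff _).2 (by norm_num)
  have h8 : O.valuation (8 : ℂ) ≤ 1 := by
    have e8 : (8 : ℂ) = 2 ^ 3 := by norm_num
    rw [e8, map_pow]
    exact pow_le_one₀ zero_le h2.le
  have hA0 : coeff 0 A = 1 := by
    rw [coeff_zero_eq_constantCoeff_apply]
    exact hB.a0
  have hY0 : coeff 0 Y = 0 := by
    rw [coeff_zero_eq_constantCoeff_apply]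
    exact hB.y0
  have e0 : coeff 0 (α • A + β • Y) = α := by
    rw [map_add, coeff_smul, coeff_smul, hA0, hY0, smul_eq_mul, smul_eq_mul, mul_one, mul_zero,
      add_zero]
  have en : ∀ n, n ≠ 0 → coeff n (α • A + β • Y) = α * coeff n (A - 1) + β * coeff n Y := by
    intro n hn
    rw [map_add, coeff_smul, coeff_smul, smul_eq_mul, smul_eq_mul, map_sub, coeff_one, if_neg hn,
      sub_zero]
  have bA : ∀ n, O.valuation (α * coeff n (A - 1)) ≤ O.valuation α * O.valuation 8 := by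
    intro n
    rw [map_mul]
    exact mul_le_mul' le_rfl (hB.aI n)
  have bY : ∀ n, O.valuation (β * coeff n Y) ≤ O.valuation (8 * β) := by
    intro n
    rw [map_mul, map_mul, mul_comm (O.valuation (8 : ℂ))]
    exact mul_le_mul' le_rfl (hB.yI n)
  have bA' : O.valuation α * O.valuation 8 ≤ O.valuation α := by
    calc O.valuation α * O.valuation 8 ≤ O.valuation α * 1 := mul_le_mul' le_rfl h8
      _ = O.valuation α := mul_one _
  have hle : ∀ n, O.valuation (coeff n (α • A + β • Y)) ≤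
      max (O.valuation α) (O.valuation (8 * β)) := by
    intro n
    by_cases hn : n = 0
    · subst hn
      rw [e0]
      exact le_max_left _ _
    · rw [en n hn]
      exact Valuation.map_add_le _ (((bA n).trans bA').trans (le_max_left _ _))
        ((bY n).trans (le_max_right _ _))
  rcases le_or_gt (O.valuation (8 * β)) (O.valuation α) with h | h
  · refine ⟨α, ⟨fun n => ?_, 0, ?_⟩, ?_⟩
    · have := hle n
      rwa [max_eq_left h] at this
    · rw [e0]
    · rw [max_eq_left h]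
  · obtain ⟨n, hn⟩ := hB.yP
    have hn0 : n ≠ 0 := by
      intro h0
      rw [h0, hY0, map_zero] at hn
      exact h80 hn.symm
    refine ⟨8 * β, ⟨fun m => ?_, n, ?_⟩, ?_⟩
    · have := hle m
      rwa [max_eq_right h.le] at this
    · rw [en n hn0]
      have h1 : O.valuation (β * coeff n Y) = O.valuation (8 * β) := by
        rw [map_mul, hn, map_mul, mul_comm]
      rw [Valuation.map_add_eq_of_lt_right _ (by rw [h1]; exact ((bA n).trans bA').trans_lt h)]
      exact h1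
    · rw [max_eq_right h.le]

theorem three {O : ValuationSubring ℂ} (h2 : O.valuation 2 < 1) {A Y : ℂ⟦X⟧} (hB : Bs O A Y) (m : ℕ)
    (P : MvPolynomial (Fin 2) ℂ) (hP : P.IsHomogeneous m) (a : Fin 3 → ℕ) (g : ℕ)
    (ha : ∀ j, In O (ev (cA A Y) (cY A Y) P j) (pr ^ a j))
    (hg : 4 * g + 8 * m ≤ 2 * a 0 + a 1 + a 2) (d : Fin 2 →₀ ℕ) :
    O.valuation (MvPolynomial.coeff d P) ≤ O.valuation (pr ^ g) := by
  obtain ⟨c, α, β, rfl⟩ := MP_06b9d2_tls.hom_fac m P hP
  obtain ⟨hp12, hp1, hp0⟩ := v_pr h2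
  set p := O.valuation pr with hpdef
  have b0 : O.valuation c * ∏ k, max (O.valuation (α k)) (O.valuation (8 * β k)) ≤ p ^ a 0 := by
    have h := ha 0
    rw [ev_fac] at h
    have h2 := cusp_le (fun k => PC_lin h2 hB (α k) (β k)) h
    rwa [map_pow] at h2
  have bj : ∀ (e : ℂ) (j : Fin 3), cA A Y j = (-(1 / 2) : ℂ) • (A + 3 * Y) →
      cY A Y j = (e * (-(1 / 2)) : ℂ) • (A - Y) →
      O.valuation c * ∏ k, mx O (α k) (e * β k) ≤ p ^ a j * (p ^ 2) ^ m := by
    intro e j hA hY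
    have h := ha j
    rw [ev_fac, hA, hY] at h
    have h2 := cusp_le (t := fun k => O.valuation (-(1 / 2) : ℂ) * mx O (α k) (e * β k)) (fun k => ?_) h
    · rw [map_pow, Finset.prod_mul_distrib, Finset.prod_const, Finset.card_univ, Fintype.card_fin,
        Valuation.map_neg, map_div₀, map_one, ← hp12] at h2
      have h4 : (p ^ 2) ^ m ≠ 0 := pow_ne_zero _ (pow_ne_zero _ hp0)
      have h5 : O.valuation c * ((1 / p ^ 2) ^ m * ∏ k, mx O (α k) (e * β k)) * (p ^ 2) ^ m =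
          O.valuation c * ∏ k, mx O (α k) (e * β k) := by
        rw [one_div, inv_pow]
        rw [mul_assoc, mul_comm (((p ^ 2) ^ m)⁻¹), mul_assoc, inv_mul_cancel₀ h4, mul_one]
      rw [← h5]
      exact mul_le_mul' h2 le_rfl
    · obtain ⟨x, hx, hv⟩ := PC_lin h2 hB (α k + e * β k) (3 * α k - e * β k)
      refine ⟨-(1 / 2) * x, ?_, ?_⟩
      · rw [lin_j]
        exact PC_smul' hx _
      · rw [map_mul, hv]
        rfl
  have b1 := bj 1 1 rfl (by rw [one_mul]; rfl)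
  have b2 := bj (-1) 2 rfl (by
    rw [neg_one_mul, neg_neg]
    rfl)
  have hco : O.valuation (MvPolynomial.coeff d (MvPolynomial.C c *
      ∏ k, (MvPolynomial.C (α k) * MvPolynomial.X 0 + MvPolynomial.C (β k) * MvPolynomial.X 1))) ≤
      O.valuation c * ∏ k, max (O.valuation (α k)) (O.valuation (β k)) := by
    rw [MvPolynomial.coeff_C_mul, map_mul]
    exact mul_le_mul' le_rfl (coeff_prod_le _ _ _ (fun k _ d => coeff_lin O (α k) (β k) d) d)
  refine hco.trans ?_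
  rw [map_pow]
  set G := ∏ k, max (O.valuation (α k)) (O.valuation (β k)) with hG
  set M0 := ∏ k, max (O.valuation (α k)) (O.valuation (8 * β k)) with hM0
  set M1 := ∏ k, mx O (α k) (1 * β k) with hM1
  set M2 := ∏ k, mx O (α k) (-1 * β k) with hM2
  have hprod : G ^ 4 * (O.valuation 2 ^ 6) ^ m ≤ M0 ^ 2 * (M1 * M2) := by
    have h1 : ∏ k, (max (O.valuation (α k)) (O.valuation (β k)) ^ 4 * O.valuation 2 ^ 6) ≤
        ∏ k, (max (O.valuation (α k)) (O.valuation (8 * β k)) ^ 2 *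
          (mx O (α k) (1 * β k) * mx O (α k) (-1 * β k))) :=
      Finset.prod_le_prod' fun k _ => by
        rw [one_mul, neg_one_mul]
        exact lin3 h2 (α k) (β k)
    rw [Finset.prod_mul_distrib, Finset.prod_mul_distrib, Finset.prod_mul_distrib,
      Finset.prod_pow _ 4, Finset.prod_pow _ 2, Finset.prod_const,
      Finset.card_univ, Fintype.card_fin] at h1
    exact h1
  have hbig : (O.valuation c * G) ^ 4 * p ^ (12 * m) ≤ p ^ (4 * g) * p ^ (12 * m) := by
    calc (O.valuation c * G) ^ 4 * p ^ (12 * m)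
        = O.valuation c ^ 4 * (G ^ 4 * (O.valuation 2 ^ 6) ^ m) := by
          have e12 : ((O.valuation 2 : O.ValueGroup) ^ 6) ^ m = p ^ (12 * m) := by
            rw [← hp12, ← pow_mul, ← pow_mul]
            congr 1
            ring
          rw [e12, mul_pow, mul_assoc]
      _ ≤ O.valuation c ^ 4 * (M0 ^ 2 * (M1 * M2)) := mul_le_mul' le_rfl hprod
      _ = (O.valuation c * M0) ^ 2 * ((O.valuation c * M1) * (O.valuation c * M2)) := by
          rw [mul_pow]
          have : O.valuation c ^ 4 = O.valuation c ^ 2 * (O.valuation c * O.valuation c) := by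
            rw [← pow_two, ← pow_add]
          rw [this]
          ac_rfl
      _ ≤ (p ^ a 0) ^ 2 * ((p ^ a 1 * (p ^ 2) ^ m) * (p ^ a 2 * (p ^ 2) ^ m)) :=
          mul_le_mul' (pow_le_pow_left' b0 2) (mul_le_mul' b1 b2)
      _ = p ^ (2 * a 0 + a 1 + a 2 + 4 * m) := by
          rw [← pow_mul, ← pow_mul, ← pow_add, ← pow_add, ← pow_add, ← pow_add]
          congr 1
          ring
      _ ≤ p ^ (4 * g + 12 * m) := pow_le_pow_right_of_le_one' hp1.le (by omega)
      _ = p ^ (4 * g) * p ^ (12 * m) := pow_add _ _ _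
  have h12 : 0 < p ^ (12 * m) := zero_lt_iff.2 (pow_ne_zero _ hp0)
  have h4 : (O.valuation c * G) ^ 4 ≤ (p ^ g) ^ 4 := by
    have h := le_of_mul_le_mul_right hbig h12
    rwa [mul_comm 4 g, pow_mul] at h
  exact le_of_pow_le_pow_left₀ (by norm_num) zero_le h4

end Pool.Agent.Lib.MP_06b9d2_tl2
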